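import Mathlib

set_option autoImplicit false

/-!
Row CA (project MP_259062_HR): the normalised valuation of a prime of a Dedekind domain as a function to the integers.

PROOF. `vP P z = -(WithZero.log (P.valuation L z))`. `P.valuation L z = 0` iff `z = 0`; `log` of a product of nonzero elements is the sum;
`P.valuation L (x + y) ≤ max ..` (`Valuation.map_add`), `log` is monotone on nonzero elements. `surj`: `HeightOneSpectrum.valuation_exists_uniformizer`
(value `exp (-1)`). `vP_pow`: `valuation_of_algebraMap`, `intValuation_le_pow_iff_mem`. `vP_nonneg`: `valuation_le_one`.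
`vP_frac`: `exists_primeCompl_mul_eq_of_integer` (`0 ≤ vP z` gives `P.valuation L z ≤ 1`; `z = 0` take `a = 0`, `b = 1`).
-/

namespace Pool.H91.HR

open IsDedekindDomain

universe u

/-- A normalised discrete valuation of the field `L`, as a function on `L` with value `0` at `0`. -/
structure DV (L : Type u) [Field L] (v : L → ℤ) : Prop where
  zero : v 0 = 0
  mul : ∀ x y : L, x ≠ 0 → y ≠ 0 → v (x * y) = v x + v y
  add : ∀ x y : L, x ≠ 0 → y ≠ 0 → x + y ≠ 0 → min (v x) (v y) ≤ v (x + y)
  surj : ∃ x : L, x ≠ 0 ∧ v x = 1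

variable {S L : Type u} [CommRing S] [IsDedekindDomain S] [Field L] [Algebra S L] [IsFractionRing S L]

/-- The valuation of the prime `P`. -/
noncomputable def vP (P : HeightOneSpectrum S) (z : L) : ℤ := -(WithZero.log (P.valuation L z))

theorem vP_dv (P : HeightOneSpectrum S) : DV L (vP (L := L) P) := by
  refine ⟨?_, ?_, ?_, ?_⟩
  · unfold vP
    rw [map_zero, WithZero.log_zero, neg_zero]
  · intro x y hx hy
    have hx' : P.valuation L x ≠ 0 := (Valuation.ne_zero_iff _).2 hx
    have hy' : P.valuation L y ≠ 0 := (Valuation.ne_zero_iff _).2 hy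
    unfold vP
    rw [map_mul, WithZero.log_mul hx' hy', neg_add]
  · intro x y hx hy hxy
    have hx' : P.valuation L x ≠ 0 := (Valuation.ne_zero_iff _).2 hx
    have hy' : P.valuation L y ≠ 0 := (Valuation.ne_zero_iff _).2 hy
    have hxy' : P.valuation L (x + y) ≠ 0 := (Valuation.ne_zero_iff _).2 hxy
    have h := (P.valuation L).map_add x y
    unfold vP
    rcases le_max_iff.1 h with h1 | h1
    · exact (min_le_left _ _).trans (neg_le_neg ((WithZero.log_le_log hxy' hx').2 h1))
    · exact (min_le_right _ _).trans (neg_le_neg ((WithZero.log_le_log hxy' hy').2 h1))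
  · obtain ⟨π, hπ⟩ := P.valuation_exists_uniformizer L
    refine ⟨π, ?_, ?_⟩
    · intro h
      rw [h, map_zero] at hπ
      exact (WithZero.exp_ne_zero) hπ.symm
    · unfold vP
      rw [hπ, WithZero.log_exp, neg_neg]

theorem vP_pow (P : HeightOneSpectrum S) (y : S) (hy : y ≠ 0) (k : ℕ) :
    (k : ℤ) ≤ vP (L := L) P (algebraMap S L y) ↔ y ∈ P.asIdeal ^ k := by
  have hy' : P.valuation L (algebraMap S L y) ≠ 0 :=
    (Valuation.ne_zero_iff _).2 (fun h => hy ((IsFractionRing.injective S L) (by rw [h, map_zero])))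
  rw [← P.intValuation_le_pow_iff_mem, ← P.valuation_of_algebraMap (K := L), ← WithZero.log_le_iff_le_exp hy']
  unfold vP
  omega

theorem vP_nonneg (P : HeightOneSpectrum S) (y : S) : 0 ≤ vP (L := L) P (algebraMap S L y) := by
  by_cases hy : y = 0
  · rw [hy, map_zero, (vP_dv P).zero]
  · have := (vP_pow (L := L) P y hy 0).2 (by simp)
    simpa using this

theorem vP_pos_iff (P : HeightOneSpectrum S) (y : S) (hy : y ≠ 0) :
    0 < vP (L := L) P (algebraMap S L y) ↔ y ∈ P.asIdeal := by
  have := vP_pow (L := L) P y hy 1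
  rw [pow_one] at this
  rw [← this]
  push_cast
  omega

theorem vP_frac (P : HeightOneSpectrum S) (z : L) (hz : 0 ≤ vP P z) :
    ∃ a b : S, b ∉ P.asIdeal ∧ z * algebraMap S L b = algebraMap S L a := by
  by_cases h0 : z = 0
  · refine ⟨0, 1, ?_, ?_⟩
    · intro h
      exact P.isPrime.ne_top ((Ideal.eq_top_iff_one _).2 h)
    · rw [h0, zero_mul, map_zero]
  · have hz' : P.valuation L z ≠ 0 := (Valuation.ne_zero_iff _).2 h0
    have hle : P.valuation L z ≤ 1 := by
      rw [← WithZero.log_le_log hz' one_ne_zero, WithZero.log_one]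
      unfold vP at hz
      omega
    obtain ⟨n, d, hnd⟩ := HeightOneSpectrum.exists_primeCompl_mul_eq_of_integer P z hle
    exact ⟨n, d, d.2, hnd⟩

end Pool.H91.HR
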