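import Pool.Agent.H91.HR.CA

set_option autoImplicit false

/-!
Row CB (project MP_259062_HR): the centre of a discrete valuation, and uniqueness.

PROOF of `center`. `𝔭 = {y : S | y = 0 ∨ 0 < v y}` is a prime ideal: closed under `+` (`add`), under multiplication by `S` (`mul`, `h0`), `1 ∉ 𝔭` (`v 1 = 0`), and if
`y z ∈ 𝔭`, `y z ≠ 0`, then `v y + v z > 0`, so one of them is positive. It is not `⊥` by `hn`. Take `P = ⟨𝔭, _, _⟩`.
PROOF of `dv_unique`. For `z ≠ 0` with `vP P z ≥ 0`: `vP_frac` gives `z * b = a`, `b ∉ P`, so `v b = 0` (`hP`, `h0`) and `v z = v a ≥ 0`. If `vP P z = 0` apply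
this to `z` and `z⁻¹`: `v z = 0`. Let `π` have `vP P π = 1`. For every `z ≠ 0`, `z * π^(-k)` with `k = vP P z` has `vP = 0`, so `v z = k * v π`. `v π ≥ 0`, and
`surj` (`v x = 1` for some `x`) gives `k * v π = 1` so `v π = 1`. Hence `v z = vP P z`; and both are `0` at `0`.
(`v (z^k) = k v z` for integers `k`: `v 1 = 0`, `v z⁻¹ = - v z`.)
-/

namespace Pool.H91.HR

open IsDedekindDomain

universe u

variable {S L : Type u} [CommRing S] [IsDedekindDomain S] [Field L] [Algebra S L] [IsFractionRing S L]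

theorem dv_one {v : L → ℤ} (hv : DV L v) : v 1 = 0 := by
  have h := hv.mul 1 1 one_ne_zero one_ne_zero
  rw [mul_one] at h
  linarith

theorem dv_inv {v : L → ℤ} (hv : DV L v) (z : L) (hz : z ≠ 0) : v z⁻¹ = -(v z) := by
  have h := hv.mul z z⁻¹ hz (inv_ne_zero hz)
  rw [mul_inv_cancel₀ hz, dv_one hv] at h
  linarith

theorem dv_npow {v : L → ℤ} (hv : DV L v) (z : L) (hz : z ≠ 0) (k : ℕ) : v (z ^ k) = k * v z := by
  induction k with
  | zero => rw [pow_zero, dv_one hv]; simp
  | succ k ih =>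
    rw [pow_succ, hv.mul _ _ (pow_ne_zero k hz) hz, ih]
    push_cast
    ring

theorem dv_zpow {v : L → ℤ} (hv : DV L v) (z : L) (hz : z ≠ 0) (k : ℤ) : v (z ^ k) = k * v z := by
  cases k with
  | ofNat k =>
    rw [Int.ofNat_eq_natCast, zpow_natCast, dv_npow hv z hz k]
  | negSucc k =>
    rw [zpow_negSucc, dv_inv hv _ (pow_ne_zero _ hz), dv_npow hv z hz (k + 1), Int.negSucc_eq]
    push_cast
    ring

theorem center (v : L → ℤ) (hv : DV L v) (h0 : ∀ y : S, 0 ≤ v (algebraMap S L y))
    (hn : ∃ y : S, y ≠ 0 ∧ 0 < v (algebraMap S L y)) :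
    ∃ P : HeightOneSpectrum S, ∀ y : S, y ≠ 0 → (0 < v (algebraMap S L y) ↔ y ∈ P.asIdeal) := by
  have hinj : ∀ y : S, y ≠ 0 → algebraMap S L y ≠ 0 := fun y hy h =>
    hy ((IsFractionRing.injective S L) (by rw [h, map_zero]))
  let I : Ideal S :=
    { carrier := {y | y = 0 ∨ 0 < v (algebraMap S L y)}
      add_mem' := by
        intro a b ha hb
        by_cases ha0 : a = 0
        · rw [ha0, zero_add]; exact hb
        by_cases hb0 : b = 0
        · rw [hb0, add_zero]; exact ha
        have ha1 : 0 < v (algebraMap S L a) := ha.resolve_left ha0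
        have hb1 : 0 < v (algebraMap S L b) := hb.resolve_left hb0
        by_cases hab : a + b = 0
        · exact Or.inl hab
        · right
          have h1 := hinj _ hab
          rw [map_add] at h1
          have h2 := hv.add _ _ (hinj a ha0) (hinj b hb0) h1
          rw [map_add]
          exact lt_of_lt_of_le (lt_min ha1 hb1) h2
      zero_mem' := Or.inl rfl
      smul_mem' := by
        intro c x hx
        by_cases hx0 : x = 0
        · left; rw [hx0, smul_zero]
        by_cases hc0 : c = 0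
        · left; rw [hc0, zero_smul]
        right
        have hx1 : 0 < v (algebraMap S L x) := hx.resolve_left hx0
        rw [smul_eq_mul, map_mul, hv.mul _ _ (hinj c hc0) (hinj x hx0)]
        have := h0 c
        linarith }
  have hmem : ∀ y : S, y ∈ I ↔ (y = 0 ∨ 0 < v (algebraMap S L y)) := fun y => Iff.rfl
  have hprime : I.IsPrime := by
    refine ⟨?_, ?_⟩
    · intro htop
      have h1 : (1 : S) ∈ I := by rw [htop]; exact Submodule.mem_top
      rw [hmem] at h1
      rcases h1 with h1 | h1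
      · exact one_ne_zero h1
      · rw [map_one, dv_one hv] at h1
        exact lt_irrefl _ h1
    · intro y z hyz
      rw [hmem] at hyz
      by_cases hy0 : y = 0
      · left; rw [hmem]; exact Or.inl hy0
      by_cases hz0 : z = 0
      · right; rw [hmem]; exact Or.inl hz0
      have h1 : 0 < v (algebraMap S L (y * z)) := hyz.resolve_left (mul_ne_zero hy0 hz0)
      rw [map_mul, hv.mul _ _ (hinj y hy0) (hinj z hz0)] at h1
      rw [hmem, hmem]
      by_cases h2 : 0 < v (algebraMap S L y)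
      · exact Or.inl (Or.inr h2)
      · exact Or.inr (Or.inr (by linarith))
  have hbot : I ≠ ⊥ := by
    obtain ⟨y, hy, hy1⟩ := hn
    intro hb
    have h1 : y ∈ I := Or.inr hy1
    rw [hb, Submodule.mem_bot] at h1
    exact hy h1
  refine ⟨⟨I, hprime, hbot⟩, fun y hy => ?_⟩
  constructor
  · intro h
    exact Or.inr h
  · intro h
    exact ((hmem y).mp h).resolve_left hy

theorem dv_unique (P : HeightOneSpectrum S) (v : L → ℤ) (hv : DV L v) (h0 : ∀ y : S, 0 ≤ v (algebraMap S L y))
    (hP : ∀ y : S, y ≠ 0 → (0 < v (algebraMap S L y) ↔ y ∈ P.asIdeal)) : v = vP P := by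
  have hinj : ∀ y : S, y ≠ 0 → algebraMap S L y ≠ 0 := fun y hy h =>
    hy ((IsFractionRing.injective S L) (by rw [h, map_zero]))
  have hw : DV L (vP (L := L) P) := vP_dv P
  have key : ∀ z : L, z ≠ 0 → 0 ≤ vP P z → 0 ≤ v z := by
    intro z hz h
    obtain ⟨a, b, hb, hab⟩ := vP_frac P z h
    have hb0 : b ≠ 0 := fun hb0 => hb (by rw [hb0]; exact Submodule.zero_mem _)
    have ha0 : a ≠ 0 := by
      intro ha0
      rw [ha0, map_zero] at hab
      exact (mul_ne_zero hz (hinj b hb0)) hab
    have hvb : v (algebraMap S L b) = 0 := by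
      have h1 : ¬ 0 < v (algebraMap S L b) := fun h1 => hb ((hP b hb0).mp h1)
      have h2 := h0 b
      linarith
    have h3 := hv.mul z (algebraMap S L b) hz (hinj b hb0)
    rw [hab, hvb] at h3
    have h4 := h0 a
    linarith
  have key0 : ∀ z : L, z ≠ 0 → vP P z = 0 → v z = 0 := by
    intro z hz h
    have h1 := key z hz h.ge
    have h2 := key z⁻¹ (inv_ne_zero hz) (by rw [dv_inv hw z hz, h]; simp)
    rw [dv_inv hv z hz] at h2
    linarith
  obtain ⟨π, hπ0, hπ⟩ := hw.surj
  have key1 : ∀ z : L, z ≠ 0 → v z = vP P z * v π := by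
    intro z hz
    have h1 : vP P (z * π ^ (-(vP P z))) = 0 := by
      rw [hw.mul _ _ hz (zpow_ne_zero _ hπ0), dv_zpow hw π hπ0, hπ]
      ring
    have h2 := key0 _ (mul_ne_zero hz (zpow_ne_zero _ hπ0)) h1
    rw [hv.mul _ _ hz (zpow_ne_zero _ hπ0), dv_zpow hv π hπ0] at h2
    linarith
  have hvπ0 : 0 ≤ v π := key π hπ0 (by rw [hπ]; norm_num)
  have hvπ : v π = 1 := by
    obtain ⟨x, hx0, hx⟩ := hv.surj
    have h1 := key1 x hx0
    rw [hx] at h1
    have h2 : v π ∣ 1 := ⟨vP P x, by rw [h1]; ring⟩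
    exact Int.eq_one_of_dvd_one hvπ0 h2
  funext z
  by_cases hz : z = 0
  · rw [hz, hv.zero, hw.zero]
  · rw [key1 z hz, hvπ, mul_one]

end Pool.H91.HR
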