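import Pool.Agent.H91.HR.CA

set_option autoImplicit false

/-!
Row CC (project MP_259062_HR): residue fields, and the sum of ramification indices.

PROOF of `res_K`. `S ⧸ P.asIdeal` is a field (`P.isMaximal`), a `K`-algebra of finite type (quotient of `S`), so it is finite over `K` (Zariski's lemma:
`finite_of_finite_type_of_isJacobsonRing`), so `algebraMap K (S ⧸ P)` is bijective (`IsAlgClosed.algebraMap_bijective_of_isIntegral`).
PROOF of `sum_vP`. `𝔭 = span {X}`, maximal, `≠ ⊥`. `Ideal.sum_ramification_inertia S F L` (deprecated but available; or the new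
`Ideal.sum_ramification_inertia_eq_finrank`) says `sum over P ∈ primesOverFinset 𝔭 S of ramificationIdx' 𝔭 P * inertiaDeg' 𝔭 P = finrank F L`.
* `inertiaDeg' = 1`: it is the degree of `S ⧸ P` over `A ⧸ 𝔭`; by `res_K` every class of `S ⧸ P` comes from `K`, so from `A ⧸ 𝔭` (the algebra map is
  surjective), finrank `1` (`finrank_eq_one_iff'`, or bijective algebra map).
* `ramificationIdx' 𝔭 P = vP P X`: it is the largest `n` with `𝔭 S ≤ P ^ n`, i.e. with `X ∈ P ^ n` (`Ideal.map_span`, `Ideal.span_singleton_le_iff_mem`), and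
  `vP_pow` (`Ideal.ramificationIdx'_spec` with `n = vP`: `X ∈ P^n`, `X ∉ P^(n+1)`).
* `Z` = the `HeightOneSpectrum`s of the elements of `primesOverFinset 𝔭 S` (`Finset.attach`/`image`; `mem_primesOverFinset_iff`: `P` prime lying over `𝔭`);
  `P` lies over `𝔭` iff `X ∈ P` (`𝔭` is maximal: `𝔭 ≤ comap P ≠ ⊤`).
-/

namespace Pool.H91.HR

open IsDedekindDomain

universe u

theorem res_K {K S : Type u} [Field K] [IsAlgClosed K] [CommRing S] [IsDedekindDomain S] [Algebra K S]
    [Algebra.FiniteType K S] (P : HeightOneSpectrum S) (y : S) :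
    ∃ c : K, y - algebraMap K S c ∈ P.asIdeal := by
  have hmax : P.asIdeal.IsMaximal := P.isMaximal
  let _ := Ideal.Quotient.field P.asIdeal
  have hft : Algebra.FiniteType K (S ⧸ P.asIdeal) :=
    Algebra.FiniteType.of_surjective (Ideal.Quotient.mkₐ K P.asIdeal)
      (Ideal.Quotient.mkₐ_surjective K P.asIdeal)
  have hfin : Module.Finite K (S ⧸ P.asIdeal) :=
    finite_of_finite_type_of_isJacobsonRing K (S ⧸ P.asIdeal)
  obtain ⟨c, hc⟩ := (IsAlgClosed.algebraMap_bijective_of_isIntegral
    (k := K) (K := S ⧸ P.asIdeal)).2 (Ideal.Quotient.mk P.asIdeal y)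
  refine ⟨c, ?_⟩
  rw [← Ideal.Quotient.eq]
  exact hc.symm

theorem cc_over {A S : Type u} [CommRing A] [CommRing S] [Algebra A S] (X : A)
    (hXm : (Ideal.span {X}).IsMaximal) (P : Ideal S) (hP : P.IsPrime)
    (hX : algebraMap A S X ∈ P) : P.LiesOver (Ideal.span {X}) := by
  refine ⟨hXm.eq_of_le ?_ ?_⟩
  · exact (Ideal.IsPrime.under A P).ne_top
  · rw [Ideal.span_singleton_le_iff_mem]
    exact hX

theorem cc_mem {A S : Type u} [CommRing A] [CommRing S] [Algebra A S] (X : A)
    (P : Ideal S) (hP : P.LiesOver (Ideal.span {X})) : algebraMap A S X ∈ P := by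
  have h1 : X ∈ P.under A := by
    rw [← hP.over]
    exact Ideal.mem_span_singleton_self X
  exact h1

theorem cc_inertia {K A S : Type u} [Field K] [IsAlgClosed K] [CommRing A]
    [CommRing S] [IsDedekindDomain S] [Algebra A S]
    [Algebra K A] [Algebra K S] [IsScalarTower K A S] [Algebra.FiniteType K S]
    (X : A) (hXm : (Ideal.span {X}).IsMaximal) (P : HeightOneSpectrum S)
    (hP : P.asIdeal.LiesOver (Ideal.span {X})) :
    Ideal.inertiaDeg' (Ideal.span {X}) P.asIdeal = 1 := by
  rw [Ideal.inertiaDeg'_algebraMap]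
  let _ := Ideal.Quotient.field (Ideal.span {X})
  have hnt : (1 : S ⧸ P.asIdeal) ≠ 0 := by
    intro h
    rw [← map_one (Ideal.Quotient.mk P.asIdeal), Ideal.Quotient.eq_zero_iff_mem] at h
    exact P.isPrime.ne_top ((Ideal.eq_top_iff_one _).2 h)
  refine (finrank_eq_one_iff_of_nonzero' (1 : S ⧸ P.asIdeal) hnt).2 ?_
  intro w
  obtain ⟨y, rfl⟩ := Ideal.Quotient.mk_surjective w
  obtain ⟨c, hc⟩ := res_K (K := K) P y
  refine ⟨Ideal.Quotient.mk _ (algebraMap K A c), ?_⟩
  rw [Algebra.smul_def, mul_one]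
  have h1 : algebraMap (A ⧸ Ideal.span {X}) (S ⧸ P.asIdeal)
      (Ideal.Quotient.mk _ (algebraMap K A c)) =
      Ideal.Quotient.mk P.asIdeal (algebraMap A S (algebraMap K A c)) := rfl
  rw [h1, ← IsScalarTower.algebraMap_apply K A S, eq_comm, Ideal.Quotient.eq]
  exact hc

theorem cc_ram {A S L : Type u} [CommRing A] [CommRing S] [IsDedekindDomain S] [Algebra A S]
    [Field L] [Algebra S L] [IsFractionRing S L] [Algebra A L] [IsScalarTower A S L]
    (X : A) (hX : algebraMap A S X ≠ 0) (P : HeightOneSpectrum S) :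
    (Ideal.ramificationIdx' (Ideal.span {X}) P.asIdeal : ℤ) =
      vP (L := L) P (algebraMap A L X) := by
  rw [IsScalarTower.algebraMap_apply A S L]
  have h0 := vP_nonneg (L := L) P (algebraMap A S X)
  obtain ⟨n, hn⟩ := Int.eq_ofNat_of_zero_le h0
  have key : ∀ m : ℕ, Ideal.map (algebraMap A S) (Ideal.span {X}) ≤ P.asIdeal ^ m ↔ m ≤ n := by
    intro m
    rw [Ideal.map_span, Set.image_singleton, Ideal.span_singleton_le_iff_mem,
      ← vP_pow (L := L) P (algebraMap A S X) hX m, hn]
    exact Int.ofNat_le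
  rw [hn, Ideal.ramificationIdx'_spec ((key n).2 le_rfl) (fun h => ?_)]
  have := (key (n + 1)).1 h
  omega

set_option linter.deprecated false in
theorem sum_vP {K A F S L : Type u} [Field K] [IsAlgClosed K] [CommRing A] [IsDedekindDomain A] [Field F]
    [Algebra A F] [IsFractionRing A F] [CommRing S] [IsDedekindDomain S] [Algebra A S] [Module.Finite A S]
    [Field L] [Algebra S L] [IsFractionRing S L] [Algebra F L] [Algebra A L] [IsScalarTower A S L]
    [IsScalarTower A F L] [Algebra K A] [Algebra K S] [IsScalarTower K A S] [Algebra.FiniteType K S]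
    (X : A) (hX0 : X ≠ 0) (hXm : (Ideal.span {X}).IsMaximal) :
    ∃ Z : Finset (HeightOneSpectrum S), (∀ P, P ∈ Z ↔ algebraMap A S X ∈ P.asIdeal) ∧
      ∑ P ∈ Z, vP (L := L) P (algebraMap A L X) = Module.finrank F L := by
  classical
  have hp0 : Ideal.span {X} ≠ ⊥ := by
    rw [Ne, Ideal.span_singleton_eq_bot]
    exact hX0
  have hinj : Function.Injective (algebraMap A S) :=
    algebraMap_injective_of_field_isFractionRing A S F L
  have hX1 : algebraMap A S X ≠ 0 := fun h => hX0 (hinj (by rw [h, map_zero]))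
  have : Module.IsTorsionFree A S := by
    rw [Module.isTorsionFree_iff_algebraMap_injective]
    exact hinj
  have hsum := Ideal.sum_ramification_inertia S F L (p := Ideal.span {X}) hp0
  have hmem : ∀ P : Ideal S, P ∈ IsDedekindDomain.primesOverFinset (Ideal.span {X}) S ↔
      P.IsPrime ∧ P.LiesOver (Ideal.span {X}) := by
    intro P
    rw [IsDedekindDomain.mem_primesOverFinset_iff hp0]
    rfl
  let φ : {P // P ∈ IsDedekindDomain.primesOverFinset (Ideal.span {X}) S} →
      HeightOneSpectrum S := fun P => ⟨P.1, ((hmem P.1).1 P.2).1, fun h => hX1 (by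
        have h1 := cc_mem X P.1 ((hmem P.1).1 P.2).2
        rw [h] at h1
        exact h1)⟩
  have hφ : Function.Injective φ := by
    intro P Q h
    exact Subtype.ext (congrArg HeightOneSpectrum.asIdeal h)
  refine ⟨Finset.univ.map ⟨φ, hφ⟩, fun P => ?_, ?_⟩
  · rw [Finset.mem_map]
    constructor
    · rintro ⟨Q, -, rfl⟩
      exact cc_mem X Q.1 ((hmem Q.1).1 Q.2).2
    · intro h
      exact ⟨⟨P.asIdeal, (hmem _).2 ⟨P.isPrime, cc_over X hXm _ P.isPrime h⟩⟩,
        Finset.mem_univ _, rfl⟩
  · have h4 := Finset.sum_coe_sort (IsDedekindDomain.primesOverFinset (Ideal.span {X}) S)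
      (fun P => Ideal.ramificationIdx' (Ideal.span {X}) P * Ideal.inertiaDeg' (Ideal.span {X}) P)
    rw [Finset.sum_map, ← hsum, ← h4]
    push_cast
    refine Finset.sum_congr rfl fun P _ => ?_
    have h1 := cc_ram (L := L) X hX1 (φ P)
    have h2 := cc_inertia (K := K) X hXm (φ P) ((hmem P.1).1 P.2).2
    have h3 : (φ P).asIdeal = P.1 := rfl
    rw [h3] at h1 h2
    rw [h2, h1]
    simp

end Pool.H91.HR
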