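import Mathlib

set_option autoImplicit false

/-!
Row CE (project MP_259062_HR): the integral closure of `K[x]` in `L`.
-/

namespace Pool.H91.HR

open IntermediateField

open scoped IntermediateField.algebraAdjoinAdjoin

universe u

variable {K L : Type u} [Field K] [Field L] [Algebra K L] (x : L)

theorem ce_pid (hx : Transcendental K x) : IsPrincipalIdealRing (Algebra.adjoin K {x}) := by
  have e := Polynomial.algEquivOfTranscendental K x hx
  exact IsPrincipalIdealRing.of_surjective e.toRingEquiv.toRingHom e.toRingEquiv.surjective

theorem ce_max (hx : Transcendental K x) :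
    (Ideal.span {(⟨x, Algebra.self_mem_adjoin_singleton K x⟩ : Algebra.adjoin K {x})}).IsMaximal := by
  have hp := ce_pid x hx
  refine PrincipalIdealRing.isMaximal_of_irreducible ?_
  have h1 : (⟨x, Algebra.self_mem_adjoin_singleton K x⟩ : Algebra.adjoin K {x}) =
      Polynomial.algEquivOfTranscendental K x hx Polynomial.X := by
    simp
  rw [h1]
  exact (MulEquiv.irreducible_iff (Polynomial.algEquivOfTranscendental K x hx)).2
    Polynomial.irreducible_X

theorem ce_ded [CharZero K] (hx : Transcendental K x) (hfd : FiniteDimensional K⟮x⟯ L) :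
    IsDedekindDomain (integralClosure (Algebra.adjoin K {x}) L) := by
  have hp := ce_pid x hx
  have : CharZero K⟮x⟯ := inferInstance
  exact integralClosure.isDedekindDomain (Algebra.adjoin K {x}) K⟮x⟯ L

theorem ce_fin [CharZero K] (hx : Transcendental K x) (hfd : FiniteDimensional K⟮x⟯ L) :
    Module.Finite (Algebra.adjoin K {x}) (integralClosure (Algebra.adjoin K {x}) L) := by
  have hp := ce_pid x hx
  exact IsIntegralClosure.finite (Algebra.adjoin K {x}) K⟮x⟯ L
    (integralClosure (Algebra.adjoin K {x}) L)

theorem ce_frac [CharZero K] (hx : Transcendental K x) (hfd : FiniteDimensional K⟮x⟯ L) :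
    IsFractionRing (integralClosure (Algebra.adjoin K {x}) L) L := by
  exact integralClosure.isFractionRing_of_finite_extension K⟮x⟯ L

theorem ce_ft [CharZero K] (hx : Transcendental K x) (hfd : FiniteDimensional K⟮x⟯ L) :
    Algebra.FiniteType K (integralClosure (Algebra.adjoin K {x}) L) := by
  have h1 : Algebra.FiniteType K (Algebra.adjoin K ({x} : Set L)) :=
    Algebra.FiniteType.adjoin_of_finite (Set.finite_singleton x)
  have h2 := ce_fin x hx hfd
  have h3 : Algebra.FiniteType (Algebra.adjoin K ({x} : Set L))
    (integralClosure (Algebra.adjoin K {x}) L) := inferInstance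
  exact Algebra.FiniteType.trans h1 h3

end Pool.H91.HR
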