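import Pool.Agent.H91.HR.CF1
import Pool.Agent.H91.HR.CE

set_option autoImplicit false

/-!
Row CF (project MP_259062_HR): the places of `L` over `K` where `x` vanishes.

PROOF. `A = Algebra.adjoin K {x}`, `S = integralClosure A L`, `F = K⟮x⟯`, `X = ⟨x, _⟩`; `haveI := ce_pid x hx` (so `A` is a Dedekind domain), `ce_ded`, `ce_fin`,
`ce_frac`, `ce_ft`, and `open scoped IntermediateField.algebraAdjoinAdjoin` (`IsFractionRing A K⟮x⟯`, scalar towers). Apply `af_x`, `af_res`, `af_frac`.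
`hA`: `Algebra.adjoin_singleton_eq_range_aeval`. `X ≠ 0` because `x` is transcendental. `ce_max`. `hKA`: `Polynomial.aeval_algebraMap_apply` or
`map_aeval` for the `K`-algebra map `A → L` (`Subalgebra.val`).
-/

namespace Pool.H91.HR

open IntermediateField IsDedekindDomain

open scoped IntermediateField.algebraAdjoinAdjoin

universe u

variable {K L : Type u} [Field K] [IsAlgClosed K] [CharZero K] [Field L] [Algebra K L] (x : L)

theorem CF_hA (a : Algebra.adjoin K {x}) :
    ∃ q : Polynomial K,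
      a = Polynomial.aeval (⟨x, Algebra.self_mem_adjoin_singleton K x⟩ : Algebra.adjoin K {x}) q := by
  obtain ⟨a, ha⟩ := a
  have h1 := ha
  rw [Algebra.adjoin_singleton_eq_range_aeval] at h1
  obtain ⟨q, hq⟩ := h1
  refine ⟨q, ?_⟩
  apply Subtype.ext
  have h2 := Polynomial.aeval_algHom_apply (Algebra.adjoin K {x}).val
    (⟨x, Algebra.self_mem_adjoin_singleton K x⟩ : Algebra.adjoin K {x}) q
  change a = (Algebra.adjoin K {x}).val _
  rw [← h2]
  exact hq.symm

theorem CF_hKA (q : Polynomial K) :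
    algebraMap (Algebra.adjoin K {x}) L
      (Polynomial.aeval (⟨x, Algebra.self_mem_adjoin_singleton K x⟩ : Algebra.adjoin K {x}) q) =
    Polynomial.aeval (algebraMap (Algebra.adjoin K {x}) L
      (⟨x, Algebra.self_mem_adjoin_singleton K x⟩ : Algebra.adjoin K {x})) q :=
  (Polynomial.aeval_algHom_apply (Algebra.adjoin K {x}).val
    (⟨x, Algebra.self_mem_adjoin_singleton K x⟩ : Algebra.adjoin K {x}) q).symm

theorem local_x (hx : Transcendental K x) (hfd : FiniteDimensional K⟮x⟯ L) :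
    ∃ Z : Finset (PlS K L), (∀ v : PlS K L, v ∈ Z ↔ 0 < v.1 x) ∧
      ∑ v ∈ Z, v.1 x = (Module.finrank K⟮x⟯ L : ℤ) := by
  have := ce_pid x hx
  have := ce_ded x hx hfd
  have := ce_fin x hx hfd
  have := ce_frac x hx hfd
  have := ce_ft x hx hfd
  have hX0 : (⟨x, Algebra.self_mem_adjoin_singleton K x⟩ : Algebra.adjoin K {x}) ≠ 0 := by
    intro h
    have h2 : x = 0 := congrArg Subtype.val h
    apply hx
    rw [h2]
    exact isAlgebraic_zero
  exact af_x (K := K) (A := Algebra.adjoin K {x}) (F := K⟮x⟯)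
    (S := integralClosure (Algebra.adjoin K {x}) L) (L := L)
    (⟨x, Algebra.self_mem_adjoin_singleton K x⟩ : Algebra.adjoin K {x}) hX0 (ce_max x hx) (CF_hA x)

theorem local_res (hx : Transcendental K x) (hfd : FiniteDimensional K⟮x⟯ L) (v : PlS K L) (hv : 0 < v.1 x)
    (z : L) (hz : z ≠ 0) (hvz : v.1 z = 0) :
    ∃ c : K, z - algebraMap K L c = 0 ∨ 0 < v.1 (z - algebraMap K L c) := by
  have := ce_pid x hx
  have := ce_ded x hx hfd
  have := ce_fin x hx hfd
  have := ce_frac x hx hfd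
  have := ce_ft x hx hfd
  exact af_res (K := K) (A := Algebra.adjoin K {x})
    (S := integralClosure (Algebra.adjoin K {x}) L) (L := L)
    (⟨x, Algebra.self_mem_adjoin_singleton K x⟩ : Algebra.adjoin K {x}) (CF_hA x) v hv z hz hvz

theorem local_frac (hx : Transcendental K x) (hfd : FiniteDimensional K⟮x⟯ L) (v : PlS K L) (hv : 0 < v.1 x) :
    ∃ s : Finset L, (∀ ω ∈ s, 0 ≤ v.1 ω) ∧ ∀ z : L, z ≠ 0 → 0 ≤ v.1 z →
      ∃ q1 q2 : L → Polynomial K, (∑ ω ∈ s, Polynomial.aeval x (q2 ω) * ω) ≠ 0 ∧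
        v.1 (∑ ω ∈ s, Polynomial.aeval x (q2 ω) * ω) = 0 ∧
        z = (∑ ω ∈ s, Polynomial.aeval x (q1 ω) * ω) / (∑ ω ∈ s, Polynomial.aeval x (q2 ω) * ω) := by
  have := ce_pid x hx
  have := ce_ded x hx hfd
  have := ce_fin x hx hfd
  have := ce_frac x hx hfd
  have := ce_ft x hx hfd
  exact af_frac (K := K) (A := Algebra.adjoin K {x})
    (S := integralClosure (Algebra.adjoin K {x}) L) (L := L)
    (⟨x, Algebra.self_mem_adjoin_singleton K x⟩ : Algebra.adjoin K {x}) (CF_hA x) (CF_hKA x) v hv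

end Pool.H91.HR
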