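import Pool.Agent.H91.HR.CB
import Pool.Agent.H91.HR.CC

set_option autoImplicit false

/-!
Row CF0 (project MP_259062_HR): places of `L` over `K` and primes of a Dedekind domain `S`.

PROOF.
* `af_nonneg`: `v ≥ 0` on the image of `A`: every element is `aeval X q`, a sum of `c_k X^k`, `v (c_k) = 0` (`const`), `v (X^k) = k v X ≥ 0`, strong triangle inequality
  (induction over the sum, taking care of zero sums; `v 0 = 0`). `y ∈ S` is integral over `A` (`Module.Finite A S`, `Algebra.IsIntegral.of_finite`): `y^k = - sum over j < k of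
  a j y^j`. If `v y < 0` then `v (y^k) = k v y` is smaller than `v (a j y^j) ≥ j v y` for all `j < k` with `a j y^j ≠ 0`: contradiction (the sum would have value
  `> k v y`).
* `af_pl`: `vP_dv`, and for `c ≠ 0` in `K` both `c` and `c⁻¹` come from `S`, so `vP c ≥ 0`, `vP c⁻¹ = - vP c ≥ 0` (`vP_nonneg`, `dv_inv`).
* `af_center`: `center` and `dv_unique` (`h0` from `af_nonneg`; `hn` with `y = X`), `X ∈ P` by the equivalence; `algebraMap A S X ≠ 0` because its image in
  `L` has positive value (`v 0 = 0`).
-/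

namespace Pool.H91.HR

open IsDedekindDomain

universe u

/-- A place of `L` over `K`: a normalised discrete valuation, trivial on `K`. -/
structure Pl (K L : Type u) [Field K] [Field L] [Algebra K L] (v : L → ℤ) : Prop extends DV L v where
  const : ∀ c : K, c ≠ 0 → v (algebraMap K L c) = 0

/-- The set of places. -/
def PlS (K L : Type u) [Field K] [Field L] [Algebra K L] : Type u := {v : L → ℤ // Pl K L v}

variable {K A S L : Type u} [Field K] [CommRing A]
  [CommRing S] [IsDedekindDomain S] [Algebra A S] [Module.Finite A S]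
  [Field L] [Algebra S L] [IsFractionRing S L] [Algebra A L] [IsScalarTower A S L]
  [Algebra K A] [Algebra K S] [IsScalarTower K A S] [Algebra K L] [IsScalarTower K S L]

omit [Algebra S L] [IsFractionRing S L] [Algebra A L] [IsScalarTower A S L] [Algebra K L]
  [IsScalarTower K S L] [IsDedekindDomain S] [CommRing A] [CommRing S] [Algebra A S]
  [Module.Finite A S] [Algebra K A] [Algebra K S] [IsScalarTower K A S] [Field K] in
theorem CF0_neg {v : L → ℤ} (hv : DV L v) (x : L) : v (-x) = v x := by
  by_cases h : x = 0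
  · rw [h, neg_zero]
  · have h1 := hv.mul (-x) (-x) (neg_ne_zero.2 h) (neg_ne_zero.2 h)
    have h2 := hv.mul x x h h
    rw [neg_mul_neg, h2] at h1
    linarith

/-- the valuation ring -/
def CF0_ring {L : Type u} [Field L] {v : L → ℤ} (hv : DV L v) : Subring L where
  carrier := {z | 0 ≤ v z}
  mul_mem' := by
    intro x y hx hy
    have hx' : 0 ≤ v x := hx
    have hy' : 0 ≤ v y := hy
    show 0 ≤ v (x * y)
    by_cases h1 : x = 0
    · rw [h1, zero_mul, hv.zero]
    by_cases h2 : y = 0
    · rw [h2, mul_zero, hv.zero]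
    rw [hv.mul x y h1 h2]
    linarith
  one_mem' := (dv_one hv).ge
  add_mem' := by
    intro x y hx hy
    have hx' : 0 ≤ v x := hx
    have hy' : 0 ≤ v y := hy
    show 0 ≤ v (x + y)
    by_cases h1 : x = 0
    · rw [h1, zero_add]; exact hy'
    by_cases h2 : y = 0
    · rw [h2, add_zero]; exact hx'
    by_cases h3 : x + y = 0
    · rw [h3, hv.zero]
    exact (le_min hx' hy').trans (hv.add x y h1 h2 h3)
  zero_mem' := hv.zero.ge
  neg_mem' := by
    intro x hx
    have hx' : 0 ≤ v x := hx
    show 0 ≤ v (-x)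
    rw [CF0_neg hv]
    exact hx'

theorem CF0_mem {L : Type u} [Field L] {v : L → ℤ} (hv : DV L v) (z : L) :
    z ∈ CF0_ring hv ↔ 0 ≤ v z := Iff.rfl

theorem CF0_integral {L : Type u} [Field L] {v : L → ℤ} (hv : DV L v) (z : L) (k : ℕ)
    (a : ℕ → L) (ha : ∀ i, a i ∈ CF0_ring hv)
    (h : z ^ k + ∑ i ∈ Finset.range k, a i * z ^ i = 0) : z ∈ CF0_ring hv := by
  rcases k with _ | m
  · simp at h
  · by_contra hz
    have hz1 : v z < 0 := not_le.1 hz
    have hz0 : z ≠ 0 := by
      intro h0
      rw [h0, hv.zero] at hz1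
      exact lt_irrefl _ hz1
    have hinv : z⁻¹ ∈ CF0_ring hv := by
      rw [CF0_mem, dv_inv hv z hz0]
      linarith
    have h1 : z = -∑ i ∈ Finset.range (m + 1), a i * z ^ i * (z⁻¹) ^ m := by
      rw [← Finset.sum_mul]
      have h2 : ∑ i ∈ Finset.range (m + 1), a i * z ^ i = -z ^ (m + 1) := by
        rw [eq_neg_iff_add_eq_zero, add_comm]
        exact h
      rw [h2, neg_mul, neg_neg, pow_succ, inv_pow, mul_comm (z ^ m) z, mul_assoc,
        mul_inv_cancel₀ (pow_ne_zero m hz0), mul_one]
    apply hz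
    rw [h1]
    refine neg_mem (sum_mem fun i hi => ?_)
    have him : i ≤ m := by
      have := Finset.mem_range.1 hi
      omega
    have h3 : a i * z ^ i * (z⁻¹) ^ m = a i * (z⁻¹) ^ (m - i) := by
      obtain ⟨j, rfl⟩ := Nat.exists_eq_add_of_le him
      rw [Nat.add_sub_cancel_left, pow_add, mul_assoc, ← mul_assoc (z ^ i), ← mul_pow,
        mul_inv_cancel₀ hz0, one_pow, one_mul]
    rw [h3]
    exact mul_mem (ha i) (pow_mem hinv _)

theorem af_nonneg (X : A) (hA : ∀ a : A, ∃ q : Polynomial K, a = Polynomial.aeval X q) (v : L → ℤ)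
    (hv : Pl K L v) (h0 : 0 ≤ v (algebraMap A L X)) (y : S) : 0 ≤ v (algebraMap S L y) := by
  have hD := hv.toDV
  have hc : ∀ c : K, algebraMap A L (algebraMap K A c) = algebraMap K L c := by
    intro c
    rw [IsScalarTower.algebraMap_apply A S L, ← IsScalarTower.algebraMap_apply K A S,
      ← IsScalarTower.algebraMap_apply K S L]
  have hpos : ∀ a : A, algebraMap A L a ∈ CF0_ring hD := by
    intro a
    obtain ⟨q, rfl⟩ := hA a
    induction q using Polynomial.induction_on' with
    | add p q hp hq =>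
      rw [map_add, map_add]
      exact add_mem hp hq
    | monomial n c =>
      rw [Polynomial.aeval_monomial, map_mul, map_pow, hc]
      refine mul_mem ?_ (pow_mem h0 n)
      rw [CF0_mem]
      by_cases hc0 : c = 0
      · rw [hc0, map_zero, hD.zero]
      · exact (hv.const c hc0).ge
  have hint : IsIntegral A y := (Algebra.IsIntegral.of_finite A S).isIntegral y
  obtain ⟨p, hp, hpe⟩ := hint
  have hpe' : p.eval₂ (algebraMap A L) (algebraMap S L y) = 0 := by
    have h1 := congrArg (algebraMap S L) hpe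
    rw [Polynomial.hom_eval₂, map_zero, ← IsScalarTower.algebraMap_eq A S L] at h1
    exact h1
  rw [hp.as_sum, Polynomial.eval₂_add, Polynomial.eval₂_pow, Polynomial.eval₂_X,
    Polynomial.eval₂_finset_sum] at hpe'
  refine CF0_integral hD (algebraMap S L y) p.natDegree
    (fun i => algebraMap A L (p.coeff i)) (fun i => hpos _) ?_
  rw [← hpe']
  congr 1
  refine Finset.sum_congr rfl fun i _ => ?_
  rw [Polynomial.eval₂_mul, Polynomial.eval₂_C, Polynomial.eval₂_pow, Polynomial.eval₂_X]

omit [CommRing A] [Algebra A S] [Module.Finite A S] [Algebra A L] [IsScalarTower A S L] [Algebra K A]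
  [IsScalarTower K A S] in
theorem af_pl (P : HeightOneSpectrum S) : Pl K L (vP (L := L) P) := by
  have hD : DV L (vP (L := L) P) := vP_dv P
  refine { toDV := hD, const := ?_ }
  intro c hc
  have hc' : algebraMap K L c ≠ 0 := by
    rwa [Ne, map_eq_zero]
  have h1 : ∀ d : K, 0 ≤ vP (L := L) P (algebraMap K L d) := by
    intro d
    rw [IsScalarTower.algebraMap_apply K S L]
    exact vP_nonneg P _
  have h2 := h1 c
  have h3 := h1 c⁻¹
  rw [map_inv₀, dv_inv hD _ hc'] at h3
  linarith

theorem af_center (X : A) (hA : ∀ a : A, ∃ q : Polynomial K, a = Polynomial.aeval X q) (v : L → ℤ)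
    (hv : Pl K L v) (h0 : 0 < v (algebraMap A L X)) :
    ∃ P : HeightOneSpectrum S, algebraMap A S X ∈ P.asIdeal ∧ v = vP P := by
  have hD := hv.toDV
  have h1 : ∀ y : S, 0 ≤ v (algebraMap S L y) := af_nonneg X hA v hv h0.le
  have h2 : 0 < v (algebraMap S L (algebraMap A S X)) := by
    rwa [← IsScalarTower.algebraMap_apply A S L]
  have h3 : algebraMap A S X ≠ 0 := by
    intro h
    rw [h, map_zero, hD.zero] at h2
    exact lt_irrefl _ h2
  obtain ⟨P, hP⟩ := center v hD h1 ⟨_, h3, h2⟩
  exact ⟨P, (hP _ h3).1 h2, dv_unique P v hD h1 hP⟩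

end Pool.H91.HR
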