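import Pool.Agent.H91.HR.CF0

set_option autoImplicit false

/-!
Row CF1 (project MP_259062_HR): the places where `X` vanishes, abstract form.

PROOF of `af_x`. `Z0` from `sum_vP` (the primes containing `X`). The map `P ↦ vP P` from primes to places (`af_pl`) is injective (`P` is determined by `vP P`:
`vP_pos_iff`, `HeightOneSpectrum.ext`), its values on `Z0` are exactly the places `v` with `0 < v X` (`af_center`; conversely `vP_pos_iff`, where
`algebraMap A S X ≠ 0`: its image in `L` is the image of `X ≠ 0` under `A → F → L`). `Z` = image of `Z0` (`Finset.map` or `image`), the sum transfers.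
PROOF of `af_res`. `v = vP P` (`af_center`). `v z = 0`: `vP_frac` gives `z * b = a`, `b ∉ P`. `res_K`: `a - c ∈ P`, `b - d ∈ P`, `d ≠ 0` (as `b ∉ P`; if
`d = 0` then `b ∈ P`), and `z - c/d = (a - (c/d) b)/b`, `a - (c/d) b = (a - c) - (c/d)(b - d) ∈ P`: it is zero or has positive value, and `v b = 0`.
PROOF of `af_frac`. `S` is generated as an `A`-module by a finite set (`Module.Finite`), `s` = its image in `L`; `0 ≤ v ω` by `af_nonneg`. Every element of
`S` is `sum over ω of a_ω • ω` with `a_ω ∈ A` (`Submodule.mem_span_finset`), `a_ω = aeval X q` (`hA`), and `algebraMap A L (aeval X q) = aeval (algebraMap A L X) q`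
(`hKA`: the map `A → L` is `K`-linear). For `z ≠ 0` with `0 ≤ v z`, `z * b = a` with `a, b ∈ S`, `b ∉ P`, so `v b = 0`, `b ≠ 0`, `z = a / b`.
(The functions `q1 q2 : L → K[X]` are extended by `0` outside `s`; if two generators have the same image they are equal, as `S → L` is injective.)
-/

namespace Pool.H91.HR

open IsDedekindDomain

universe u

theorem CF1_inj {S L : Type u} [CommRing S] [IsDedekindDomain S] [Field L] [Algebra S L]
    [IsFractionRing S L] {P Q : HeightOneSpectrum S} (h : vP (L := L) P = vP (L := L) Q) :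
    P = Q := by
  refine HeightOneSpectrum.ext ?_
  ext y
  by_cases hy : y = 0
  · rw [hy]
    exact ⟨fun _ => zero_mem _, fun _ => zero_mem _⟩
  · rw [← vP_pos_iff (L := L) P y hy, ← vP_pos_iff (L := L) Q y hy, h]

theorem CF1_zero {S L : Type u} [CommRing S] [IsDedekindDomain S] [Field L] [Algebra S L]
    [IsFractionRing S L] (P : HeightOneSpectrum S) (b : S) (hb : b ∉ P.asIdeal) :
    b ≠ 0 ∧ algebraMap S L b ≠ 0 ∧ vP (L := L) P (algebraMap S L b) = 0 := by
  have hb0 : b ≠ 0 := fun h => hb (by rw [h]; exact zero_mem _)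
  refine ⟨hb0, fun h => hb0 ((IsFractionRing.injective S L) (by rw [h, map_zero])), ?_⟩
  have h1 := vP_nonneg (L := L) P b
  have h2 : ¬ 0 < vP (L := L) P (algebraMap S L b) := fun h => hb ((vP_pos_iff P b hb0).1 h)
  omega

theorem CF1_span {K A S L : Type u} [Field K] [CommRing A]
    [CommRing S] [IsDedekindDomain S] [Algebra A S]
    [Field L] [Algebra S L] [IsFractionRing S L] [Algebra A L] [IsScalarTower A S L]
    [Algebra K A] [Algebra K L] [DecidableEq L] (X : A)
    (hA : ∀ a : A, ∃ q : Polynomial K, a = Polynomial.aeval X q)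
    (hKA : ∀ q : Polynomial K, algebraMap A L (Polynomial.aeval X q) = Polynomial.aeval (algebraMap A L X) q)
    (s0 : Finset S) (hs0 : Submodule.span A (s0 : Set S) = ⊤) (y : S) :
    ∃ q : L → Polynomial K, ∑ ω ∈ s0.image (algebraMap S L),
      Polynomial.aeval (algebraMap A L X) (q ω) * ω = algebraMap S L y := by
  have hinj : Function.Injective (algebraMap S L) := IsFractionRing.injective S L
  have hy : y ∈ Submodule.span A (s0 : Set S) := by
    rw [hs0]
    exact Submodule.mem_top
  obtain ⟨f, -, hf⟩ := Submodule.mem_span_finset.1 hy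
  choose Q hQ using hA
  refine ⟨fun l => Q (f (Function.invFun (algebraMap S L) l)), ?_⟩
  rw [Finset.sum_image (fun a _ b _ h => hinj h), ← hf, map_sum]
  refine Finset.sum_congr rfl fun ω _ => ?_
  show Polynomial.aeval (algebraMap A L X)
    (Q (f (Function.invFun (algebraMap S L) (algebraMap S L ω)))) * algebraMap S L ω = _
  rw [Function.leftInverse_invFun hinj ω, ← hKA, ← hQ, Algebra.smul_def, map_mul,
    ← IsScalarTower.algebraMap_apply A S L]

theorem af_x {K A F S L : Type u} [Field K] [IsAlgClosed K] [CommRing A] [IsDedekindDomain A] [Field F]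
    [Algebra A F] [IsFractionRing A F] [CommRing S] [IsDedekindDomain S] [Algebra A S] [Module.Finite A S]
    [Field L] [Algebra S L] [IsFractionRing S L] [Algebra F L] [Algebra A L] [IsScalarTower A S L]
    [IsScalarTower A F L] [Algebra K A] [Algebra K S] [IsScalarTower K A S] [Algebra.FiniteType K S]
    [Algebra K L] [IsScalarTower K S L]
    (X : A) (hX0 : X ≠ 0) (hXm : (Ideal.span {X}).IsMaximal)
    (hA : ∀ a : A, ∃ q : Polynomial K, a = Polynomial.aeval X q) :
    ∃ Z : Finset (PlS K L), (∀ v : PlS K L, v ∈ Z ↔ 0 < v.1 (algebraMap A L X)) ∧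
      ∑ v ∈ Z, v.1 (algebraMap A L X) = (Module.finrank F L : ℤ) := by
  classical
  obtain ⟨Z0, hZ0, hsum⟩ := sum_vP (K := K) (A := A) (F := F) (S := S) (L := L) X hX0 hXm
  let f : HeightOneSpectrum S ↪ PlS K L :=
    ⟨fun P => ⟨vP (L := L) P, af_pl P⟩, fun P Q h => CF1_inj (L := L) (congrArg Subtype.val h)⟩
  have hX1 : algebraMap A S X ≠ 0 := by
    intro h
    have h1 : algebraMap A L X = 0 := by
      rw [IsScalarTower.algebraMap_apply A S L, h, map_zero]
    rw [IsScalarTower.algebraMap_apply A F L, map_eq_zero] at h1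
    exact hX0 ((IsFractionRing.injective A F) (by rw [h1, map_zero]))
  refine ⟨Z0.map f, fun v => ?_, ?_⟩
  · rw [Finset.mem_map]
    constructor
    · rintro ⟨P, hP, rfl⟩
      have h1 := (vP_pos_iff (L := L) P (algebraMap A S X) hX1).2 ((hZ0 P).1 hP)
      rw [← IsScalarTower.algebraMap_apply A S L] at h1
      exact h1
    · intro h
      obtain ⟨P, hP, hv⟩ := af_center (A := A) (S := S) X hA v.1 v.2 h
      exact ⟨P, (hZ0 P).2 hP, Subtype.ext hv.symm⟩
  · rw [Finset.sum_map]
    exact hsum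

theorem af_res {K A S L : Type u} [Field K] [IsAlgClosed K] [CommRing A]
    [CommRing S] [IsDedekindDomain S] [Algebra A S] [Module.Finite A S]
    [Field L] [Algebra S L] [IsFractionRing S L] [Algebra A L] [IsScalarTower A S L]
    [Algebra K A] [Algebra K S] [IsScalarTower K A S] [Algebra.FiniteType K S]
    [Algebra K L] [IsScalarTower K S L] (X : A)
    (hA : ∀ a : A, ∃ q : Polynomial K, a = Polynomial.aeval X q) (v : PlS K L)
    (hv : 0 < v.1 (algebraMap A L X)) (z : L) (hz : z ≠ 0) (hvz : v.1 z = 0) :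
    ∃ c : K, z - algebraMap K L c = 0 ∨ 0 < v.1 (z - algebraMap K L c) := by
  obtain ⟨P, -, hvP⟩ := af_center (A := A) (S := S) X hA v.1 v.2 hv
  rw [hvP] at hvz ⊢
  have hD : DV L (vP (L := L) P) := vP_dv P
  obtain ⟨a, b, hb, hab⟩ := vP_frac P z hvz.ge
  obtain ⟨hb0, hb1, hb2⟩ := CF1_zero (L := L) P b hb
  obtain ⟨c, hc⟩ := res_K (K := K) P a
  obtain ⟨d, hd⟩ := res_K (K := K) P b
  have hd0 : d ≠ 0 := by
    intro h
    rw [h, map_zero, sub_zero] at hd
    exact hb hd
  refine ⟨c / d, ?_⟩
  by_cases hw : z - algebraMap K L (c / d) = 0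
  · exact Or.inl hw
  right
  set u : S := a - algebraMap K S (c / d) * b with hu
  have hcd : algebraMap K S (c / d) * algebraMap K S d = algebraMap K S c := by
    rw [← map_mul, div_mul_cancel₀ c hd0]
  have hu1 : u = (a - algebraMap K S c) - algebraMap K S (c / d) * (b - algebraMap K S d) := by
    rw [hu, mul_sub, hcd]
    ring
  have hu2 : u ∈ P.asIdeal := by
    rw [hu1]
    exact sub_mem hc (Ideal.mul_mem_left _ _ hd)
  have hu3 : (z - algebraMap K L (c / d)) * algebraMap S L b = algebraMap S L u := by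
    rw [hu, map_sub, map_mul, ← hab, ← IsScalarTower.algebraMap_apply K S L]
    ring
  have hu4 : u ≠ 0 := by
    intro h
    rw [h, map_zero] at hu3
    exact mul_ne_zero hw hb1 hu3
  have hu5 := (vP_pos_iff (L := L) P u hu4).2 hu2
  rw [← hu3, hD.mul _ _ hw hb1, hb2, add_zero] at hu5
  exact hu5

theorem af_frac {K A S L : Type u} [Field K] [IsAlgClosed K] [CommRing A]
    [CommRing S] [IsDedekindDomain S] [Algebra A S] [Module.Finite A S]
    [Field L] [Algebra S L] [IsFractionRing S L] [Algebra A L] [IsScalarTower A S L]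
    [Algebra K A] [Algebra K S] [IsScalarTower K A S]
    [Algebra K L] [IsScalarTower K S L] (X : A)
    (hA : ∀ a : A, ∃ q : Polynomial K, a = Polynomial.aeval X q)
    (hKA : ∀ q : Polynomial K, algebraMap A L (Polynomial.aeval X q) = Polynomial.aeval (algebraMap A L X) q)
    (v : PlS K L) (hv : 0 < v.1 (algebraMap A L X)) :
    ∃ s : Finset L, (∀ ω ∈ s, 0 ≤ v.1 ω) ∧ ∀ z : L, z ≠ 0 → 0 ≤ v.1 z →
      ∃ q1 q2 : L → Polynomial K,
        (∑ ω ∈ s, Polynomial.aeval (algebraMap A L X) (q2 ω) * ω) ≠ 0 ∧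
        v.1 (∑ ω ∈ s, Polynomial.aeval (algebraMap A L X) (q2 ω) * ω) = 0 ∧
        z = (∑ ω ∈ s, Polynomial.aeval (algebraMap A L X) (q1 ω) * ω) /
          (∑ ω ∈ s, Polynomial.aeval (algebraMap A L X) (q2 ω) * ω) := by
  classical
  obtain ⟨P, -, hvP⟩ := af_center (A := A) (S := S) X hA v.1 v.2 hv
  have hD : DV L (vP (L := L) P) := vP_dv P
  obtain ⟨s0, hs0⟩ := Module.Finite.fg_top (R := A) (M := S)
  refine ⟨s0.image (algebraMap S L), fun ω hω => ?_, fun z hz hvz => ?_⟩
  · obtain ⟨y, -, rfl⟩ := Finset.mem_image.1 hω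
    exact af_nonneg (A := A) X hA v.1 v.2 hv.le y
  · rw [hvP] at hvz ⊢
    obtain ⟨a, b, hb, hab⟩ := vP_frac P z hvz
    obtain ⟨hb0, hb1, hb2⟩ := CF1_zero (L := L) P b hb
    obtain ⟨q1, hq1⟩ := CF1_span X hA hKA s0 hs0 a
    obtain ⟨q2, hq2⟩ := CF1_span X hA hKA s0 hs0 b
    refine ⟨q1, q2, ?_, ?_, ?_⟩
    · rw [hq2]
      exact hb1
    · rw [hq2]
      exact hb2
    · rw [hq1, hq2, eq_div_iff hb1]
      exact hab

end Pool.H91.HR
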