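import Mathlib

set_option autoImplicit false

/-!
Row CI (project MP_259062_HR): every nonconstant element of a function field of one variable is a transcendence basis.

PROOF. `y` transcendental: if `y` is algebraic over the algebraically closed field `K` it lies in `K` (`IsAlgClosed.algebraMap_surjective_of_isIntegral`-type:
the minimal polynomial over `K` has degree one, or `IsAlgClosed.algebraMap_bijective...` for `K⟮y⟯`).
`t` is algebraic over `K⟮y⟯`: `y` is algebraic over `K⟮t⟯` (finite extension), exchange property: from a nonzero polynomial relation `G(t, y) = 0` over `K`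
(clear denominators in the minimal polynomial of `y` over `K⟮t⟯`), read as a polynomial in `t` with coefficients in `K[y]`; it is a nonzero polynomial in `t`
since otherwise all coefficients vanish, using `y` transcendental. (Mathlib: transcendence bases / matroid of algebraic independence, `Algebra.trdeg`,
`IsTranscendenceBasis`, e.g. `AlgebraicIndependent` exchange lemmas; `{t}` and `{y}` are transcendence bases because `trdeg = 1`.)
So `L` is algebraic over `K⟮y⟯`: `L` is algebraic over `K⟮t⟯`, contained in the algebraic closure of `K⟮y⟯` in `L`, which contains `t` (and `K`).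
Finite: `L = K⟮t⟯⟮basis⟯` is generated as a field over `K` by the finite set `{t} ∪ basis` (a `K⟮t⟯`-basis of `L`), so over `K⟮y⟯` it is generated by finitely many
algebraic elements (`IntermediateField.finiteDimensional_adjoin`, `IntermediateField.adjoin ... = ⊤`).
`ci_inv`: `K⟮x⁻¹⟯ = K⟮x⟯` as intermediate fields (each contains the generator of the other); rewrite.
-/

namespace Pool.H91.HR

open IntermediateField

universe u

theorem ci_tr {K L : Type u} [Field K] [IsAlgClosed K] [Field L] [Algebra K L] (y : L)
    (hy : ∀ c : K, y ≠ algebraMap K L c) : Transcendental K y := by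
  intro h
  have hint : IsIntegral K y := h.isIntegral
  have h1 : (minpoly K y).degree = 1 :=
    IsAlgClosed.degree_eq_one_of_irreducible K (minpoly.irreducible hint)
  obtain ⟨c, hc⟩ := minpoly.mem_range_of_degree_eq_one K y h1
  exact hy c hc.symm

theorem ci_alg {K L : Type u} [Field K] [Field L] [Algebra K L] (t : L)
    (ht : Transcendental K t) (hfd : FiniteDimensional K⟮t⟯ L) (y : L) (hy : Transcendental K y) :
    IsAlgebraic K⟮y⟯ t :=
  isAlgebraic_adjoin_iff.mpr (.adjoin_singleton ht hy
    (isAlgebraic_adjoin_iff.mp (Algebra.IsAlgebraic.isAlgebraic y)))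

theorem ci_fin {K L : Type u} [Field K] [Field L] [Algebra K L] (t : L)
    (ht : Transcendental K t) (hfd : FiniteDimensional K⟮t⟯ L) (y : L) (hy : Transcendental K y) :
    FiniteDimensional K⟮y⟯ L :=
  let Fyx := restrictScalars K K⟮y⟯⟮t⟯
  let Fxy := restrictScalars K K⟮t⟯⟮y⟯
  let : Algebra K⟮y⟯ Fyx := K⟮y⟯⟮t⟯.algebra
  let : Module K⟮y⟯ Fyx := Algebra.toModule
  let : SMul K⟮y⟯ Fyx := Algebra.toSMul
  let : Algebra K⟮t⟯ Fxy := K⟮t⟯⟮y⟯.algebra
  let : Module K⟮t⟯ Fxy := Algebra.toModule
  let : SMul K⟮t⟯ Fxy := Algebra.toSMul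
  have : FiniteDimensional K⟮y⟯ Fyx :=
    adjoin.finiteDimensional (isAlgebraic_iff_isIntegral.mp (ci_alg t ht hfd y hy))
  have : FiniteDimensional Fyx L := by
    have := hfd
    unfold Fyx
    rw [adjoin_simple_comm]
    have : IsScalarTower K⟮t⟯ Fxy L := isScalarTower_mid' K⟮t⟯⟮y⟯
    exact .right K⟮t⟯ Fxy L
  have : IsScalarTower K⟮y⟯ Fyx L := isScalarTower_mid' K⟮y⟯⟮t⟯
  .trans K⟮y⟯ Fyx L

theorem ci_fd {K L : Type u} [Field K] [IsAlgClosed K] [Field L] [Algebra K L] (t : L) (ht : Transcendental K t)
    (hfd : FiniteDimensional K⟮t⟯ L) (y : L) (hy : ∀ c : K, y ≠ algebraMap K L c) :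
    Transcendental K y ∧ FiniteDimensional K⟮y⟯ L :=
  ⟨ci_tr y hy, ci_fin t ht hfd y (ci_tr y hy)⟩

theorem ci_inv {K L : Type u} [Field K] [Field L] [Algebra K L] (x : L) :
    Module.finrank K⟮x⁻¹⟯ L = Module.finrank K⟮x⟯ L := by
  have h : K⟮x⁻¹⟯ = K⟮x⟯ := by
    apply le_antisymm
    · rw [adjoin_simple_le_iff]
      exact inv_mem (mem_adjoin_simple_self K x)
    · rw [adjoin_simple_le_iff]
      have := inv_mem (mem_adjoin_simple_self K x⁻¹)
      rwa [inv_inv] at this
  rw [h]

end Pool.H91.HR
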