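import Pool.Agent.H91.HR.RA

set_option autoImplicit false

/-!
Row RB (project MP_259062_HR): sums over the places.

PROOF of `zl`. Let `S' = S ∪ {P | v P x ≠ 0}` (finite by `v_fin`). `0 = sum over all P of v P x = sum over S' of v P x` (`v_sum`,
`finsum_eq_sum_of_support_subset`) `≥ sum over S of (h P - g P) + sum over S' \ S of (- g P) = sum over S of h P - sum over S' of g P ≥
sum over S of h P - N`.
PROOF of `const_of_ge`. If `x = 0` take `c = 0`. Let `x ≠ 0`, all `v P x ≥ 0`; the sum is `0` so all `v P x = 0` (a nonnegative function with finite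
support and zero sum vanishes). Take a place `P0` (`p.ne`), `c` from `v_res` at `P0`. If `x ≠ c`, `y = x - c` has `v P y ≥ 0` for all `P`
(`ge_sub`, `ge_const`) and `v P0 y > 0`, contradiction to `v_sum y`.
-/

namespace Pool.H91.HR

open Finset

universe u

theorem bd_add {I : Type u} {g h : I → ℤ} {M N : ℤ} (hg : Bd g M) (hh : Bd h N) :
    Bd (fun P => g P + h P) (M + N) := by
  refine ⟨fun P => add_nonneg (hg.1 P) (hh.1 P), fun S => ?_⟩
  rw [Finset.sum_add_distrib]
  exact add_le_add (hg.2 S) (hh.2 S)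

theorem bd_mul {I : Type u} {g : I → ℤ} {N : ℤ} (hg : Bd g N) (k : ℕ) :
    Bd (fun P => (k : ℤ) * g P) (k * N) := by
  refine ⟨fun P => mul_nonneg (Int.natCast_nonneg k) (hg.1 P), fun S => ?_⟩
  rw [← Finset.mul_sum]
  exact mul_le_mul_of_nonneg_left (hg.2 S) (Int.natCast_nonneg k)

theorem bd_mono {I : Type u} {g : I → ℤ} {M N : ℤ} (hg : Bd g M) (h : M ≤ N) : Bd g N :=
  ⟨hg.1, fun S => (hg.2 S).trans h⟩

theorem bd_le {I : Type u} {g h : I → ℤ} {N : ℤ} (h0 : ∀ P, 0 ≤ g P) (hgh : ∀ P, g P ≤ h P) (hh : Bd h N) :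
    Bd g N :=
  ⟨h0, fun S => (Finset.sum_le_sum fun P _ => hgh P).trans (hh.2 S)⟩

theorem bd_nonneg {I : Type u} {g : I → ℤ} {N : ℤ} (hg : Bd g N) : 0 ≤ N := by
  have := hg.2 ∅
  simpa using this

/-- The number of places with `g P ≠ 0` is at most the total mass. -/
theorem bd_ind {I : Type u} {g : I → ℤ} {N : ℤ} (hg : Bd g N) :
    Bd (fun P => by classical exact (if g P = 0 then (0 : ℤ) else 1)) N := by
  classical
  refine bd_le (h := g) (fun P => ?_) (fun P => ?_) hg
  · by_cases h : g P = 0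
    · simp [h]
    · simp [h]
  · have h1 := hg.1 P
    by_cases h : g P = 0
    · simp [h]
    · have h2 : 1 ≤ g P := by omega
      simpa [h] using h2

variable {K L : Type u} [Field K] [Field L] [Algebra K L] (p : PS K L)

/-- Zero lemma. -/
theorem zl (x : L) (hx : x ≠ 0) (g h : p.I → ℤ) (N : ℤ) (hg : Bd g N) (S : Finset p.I)
    (hS : ∀ P ∈ S, h P - g P ≤ p.v P x) (hn : ∀ P, P ∉ S → -(g P) ≤ p.v P x) : ∑ P ∈ S, h P ≤ N := by
  classical
  set T : Finset p.I := S ∪ (p.v_fin x hx).toFinset with hT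
  have h0 : ∑ P ∈ T, p.v P x = 0 := by
    rw [← p.v_sum x hx]
    symm
    apply finsum_eq_sum_of_support_subset
    intro P hP
    rw [hT, Finset.coe_union]
    right
    simpa using hP
  have hST : S ⊆ T := Finset.subset_union_left
  have h1 := Finset.sum_sdiff (f := fun P => p.v P x) hST
  have h2 := Finset.sum_sdiff (f := fun P => g P) hST
  have h3 : ∑ P ∈ S, (h P - g P) ≤ ∑ P ∈ S, p.v P x := Finset.sum_le_sum hS
  have h4 : ∑ P ∈ T \ S, -(g P) ≤ ∑ P ∈ T \ S, p.v P x :=
    Finset.sum_le_sum fun P hP => hn P (Finset.mem_sdiff.mp hP).2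
  rw [Finset.sum_sub_distrib] at h3
  rw [Finset.sum_neg_distrib] at h4
  have h5 := hg.2 T
  linarith

theorem RB_zero (x : L) (hx : x ≠ 0) (h : ∀ P : p.I, 0 ≤ p.v P x) (P : p.I) : p.v P x = 0 := by
  classical
  have h0 : ∑ P ∈ (p.v_fin x hx).toFinset, p.v P x = 0 := by
    refine Eq.trans ?_ (p.v_sum x hx)
    symm
    apply finsum_eq_sum_of_support_subset
    intro P hP
    simpa using hP
  rw [Finset.sum_eq_zero_iff_of_nonneg (fun P _ => h P)] at h0
  by_contra hP
  exact hP (h0 P (by simpa using hP))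

theorem const_of_ge (x : L) (hx : ∀ P : p.I, p.ge P 0 x) : ∃ c : K, x = algebraMap K L c := by
  by_cases h0 : x = 0
  · exact ⟨0, by rw [h0, map_zero]⟩
  have h1 : ∀ P : p.I, 0 ≤ p.v P x := fun P => (hx P).resolve_left h0
  obtain ⟨P0⟩ := p.ne
  obtain ⟨c, hc⟩ := p.v_res P0 x h0 (RB_zero p x h0 h1 P0)
  refine ⟨c, ?_⟩
  by_contra hne
  have hy : x - algebraMap K L c ≠ 0 := sub_ne_zero.mpr hne
  have h2 : 0 < p.v P0 (x - algebraMap K L c) := hc.resolve_left hy
  have h3 : ∀ P : p.I, 0 ≤ p.v P (x - algebraMap K L c) := fun P =>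
    (ge_sub p P (hx P) (ge_const p P c)).resolve_left hy
  have h4 := RB_zero p _ hy h3 P0
  omega

/-- A nonconstant function has a pole. -/
theorem exists_pole (x : L) (hx : ∀ c : K, x ≠ algebraMap K L c) : ∃ P : p.I, p.v P x < 0 := by
  by_contra hcon
  push Not at hcon
  obtain ⟨c, hc⟩ := const_of_ge p x (fun P => Or.inr (hcon P))
  exact hx c hc

end Pool.H91.HR
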