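import Pool.Agent.H91.HR.CF
import Pool.Agent.H91.HR.CI
import Pool.Agent.H91.HR.RB

/-!
Row CJ (project MP_259062_HR): the place system of a function field of one variable.

PROOF. `I := PlS K L`, `v P z := P.1 z`. `v_mul`, `v_add`, `v_const`, `v_surj`: from `Pl`. For `x : L` that is not a constant `ci_fd` gives
`Transcendental K x`, `FiniteDimensional K⟮x⟯ L`, also for `x⁻¹`.
* `v_res` at `P`: `surj` gives `y` with `P.1 y = 1 > 0`, not a constant (`const`, `zero`); `local_res y`.
* `v_fin`: if `x` is a nonzero constant all values are `0`. Otherwise `{v x ≠ 0} = {0 < v x} ∪ {0 < v x⁻¹}` (`v x⁻¹ = - v x`, `dv_inv`), finite by `local_x`.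
* `v_sum`: constant: `0`. Otherwise the finsum is (sum of `v x` over `Z x`) - (sum of `v x⁻¹` over `Z x⁻¹`) `= finrank K⟮x⟯ L - finrank K⟮x⁻¹⟯ L = 0` (`ci_inv`).
* `ne`: `local_x t`: the sum is `finrank K⟮t⟯ L ≥ 1` (`Module.finrank_pos`), so `Z` is nonempty.
* `Bd (p.pol t) (finrank)`: `pol t P = max 0 (-(v t))` is `v t⁻¹` on `Z t⁻¹` and `0` elsewhere.
-/

set_option autoImplicit false

namespace Pool.H91.HR

open IntermediateField

universe u

theorem CJ_nc {K L : Type u} [Field K] [Field L] [Algebra K L] (x : L)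
    (hx : ∀ c : K, x ≠ algebraMap K L c) : ∀ c : K, x⁻¹ ≠ algebraMap K L c := by
  intro c hc
  apply hx c⁻¹
  rw [map_inv₀, ← hc, inv_inv]

theorem CJ_key {K L : Type u} [Field K] [IsAlgClosed K] [CharZero K] [Field L] [Algebra K L] (t : L)
    (ht : Transcendental K t) (hfd : FiniteDimensional K⟮t⟯ L) (x : L)
    (hx : ∀ c : K, x ≠ algebraMap K L c) :
    ∃ Z : Finset (PlS K L), (∀ v : PlS K L, v ∈ Z ↔ 0 < v.1 x) ∧
      ∑ v ∈ Z, v.1 x = (Module.finrank K⟮x⟯ L : ℤ) := by
  obtain ⟨h1, h2⟩ := ci_fd t ht hfd x hx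
  exact local_x x h1 h2

theorem CJ_inv {K L : Type u} [Field K] [Field L] [Algebra K L] (v : PlS K L) (x : L) (hx : x ≠ 0) :
    v.1 x⁻¹ = -(v.1 x) := dv_inv v.2.toDV x hx

theorem CJ_ne0 {K L : Type u} [Field K] [Field L] [Algebra K L] (x : L)
    (hx : ∀ c : K, x ≠ algebraMap K L c) : x ≠ 0 := by
  intro h
  exact hx 0 (by rw [h, map_zero])

theorem CJ_fin {K L : Type u} [Field K] [IsAlgClosed K] [CharZero K] [Field L] [Algebra K L] (t : L)
    (ht : Transcendental K t) (hfd : FiniteDimensional K⟮t⟯ L) (x : L) (hx : x ≠ 0) :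
    {P : PlS K L | P.1 x ≠ 0}.Finite ∧ ∑ᶠ P : PlS K L, P.1 x = 0 := by
  classical
  by_cases hc : ∃ c : K, x = algebraMap K L c
  · obtain ⟨c, rfl⟩ := hc
    have hc0 : c ≠ 0 := by
      intro h
      exact hx (by rw [h, map_zero])
    have h1 : ∀ P : PlS K L, P.1 (algebraMap K L c) = 0 := fun P => P.2.const c hc0
    constructor
    · have : {P : PlS K L | P.1 (algebraMap K L c) ≠ 0} = ∅ := by
        ext P
        simp [h1 P]
      rw [this]
      exact Set.finite_empty
    · simp [h1]
  · push Not at hc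
    obtain ⟨Z, hZ, hZs⟩ := CJ_key t ht hfd x hc
    obtain ⟨Z', hZ', hZs'⟩ := CJ_key t ht hfd x⁻¹ (CJ_nc x hc)
    have hsub : ∀ P : PlS K L, P.1 x ≠ 0 → P ∈ Z ∪ Z' := by
      intro P hP
      rw [Finset.mem_union, hZ, hZ', CJ_inv P x hx]
      omega
    constructor
    · exact (Z ∪ Z').finite_toSet.subset (fun P hP => hsub P hP)
    · have h1 : ∑ᶠ P : PlS K L, P.1 x = ∑ P ∈ Z ∪ Z', P.1 x := by
        apply finsum_eq_sum_of_support_subset
        intro P hP
        exact hsub P hP
      have hdisj : Disjoint Z Z' := by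
        rw [Finset.disjoint_left]
        intro P h2 h3
        rw [hZ] at h2
        rw [hZ', CJ_inv P x hx] at h3
        omega
      rw [h1, Finset.sum_union hdisj, hZs]
      have h4 : ∑ P ∈ Z', P.1 x = -(Module.finrank K⟮x⟯ L : ℤ) := by
        rw [← ci_inv x, ← hZs', ← Finset.sum_neg_distrib]
        apply Finset.sum_congr rfl
        intro P _
        rw [CJ_inv P x hx, neg_neg]
      rw [h4]
      ring

theorem ps_exists {K L : Type u} [Field K] [IsAlgClosed K] [CharZero K] [Field L] [Algebra K L] (t : L)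
    (ht : Transcendental K t) (hfd : FiniteDimensional K⟮t⟯ L) :
    ∃ p : PS K L, Bd (p.pol t) (Module.finrank K⟮t⟯ L) ∧ ∀ P : p.I, Pl K L (p.v P) := by
  classical
  have htc : ∀ c : K, t ≠ algebraMap K L c := by
    intro c hc
    apply ht
    rw [hc]
    exact isAlgebraic_algebraMap c
  have ht0 := CJ_ne0 t htc
  obtain ⟨Z, hZ, hZs⟩ := CJ_key t ht hfd t htc
  obtain ⟨Z', hZ', hZs'⟩ := CJ_key t ht hfd t⁻¹ (CJ_nc t htc)
  have hne : Nonempty (PlS K L) := by
    have h1 : 0 < Module.finrank K⟮t⟯ L := Module.finrank_pos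
    have h2 : Z.Nonempty := by
      rw [Finset.nonempty_iff_ne_empty]
      intro h3
      rw [h3, Finset.sum_empty] at hZs
      omega
    exact ⟨h2.choose⟩
  refine ⟨{ I := PlS K L
            ne := hne
            v := fun P => P.1
            v_mul := fun P => P.2.mul
            v_add := fun P => P.2.add
            v_const := fun P => P.2.const
            v_surj := fun P => P.2.surj
            v_res := ?_
            v_fin := fun x hx => (CJ_fin t ht hfd x hx).1
            v_sum := fun x hx => (CJ_fin t ht hfd x hx).2 }, ⟨?_, ?_⟩, fun P => P.2⟩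
  · intro P x hx hvx
    obtain ⟨y, hy0, hy⟩ := P.2.surj
    have hyc : ∀ c : K, y ≠ algebraMap K L c := by
      intro c hc
      by_cases hc0 : c = 0
      · rw [hc, hc0, map_zero] at hy0
        exact hy0 rfl
      · rw [hc, P.2.const c hc0] at hy
        exact absurd hy (by norm_num)
    obtain ⟨h1, h2⟩ := ci_fd t ht hfd y hyc
    exact local_res y h1 h2 P (by rw [hy]; norm_num) x hx hvx
  · intro P
    exact le_max_left _ _
  · intro S
    have hpos : ∀ P : PlS K L, 0 ≤ max 0 (-(P.1 t)) := fun P => le_max_left _ _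
    calc ∑ P ∈ S, max 0 (-(P.1 t)) ≤ ∑ P ∈ S ∪ Z', max 0 (-(P.1 t)) :=
          Finset.sum_le_sum_of_subset_of_nonneg Finset.subset_union_left (fun P _ _ => hpos P)
      _ = ∑ P ∈ Z', max 0 (-(P.1 t)) := by
          symm
          apply Finset.sum_subset Finset.subset_union_right
          intro P _ hP
          rw [hZ', CJ_inv P t ht0] at hP
          exact max_eq_left (by omega)
      _ = ∑ P ∈ Z', P.1 t⁻¹ := by
          apply Finset.sum_congr rfl
          intro P hP
          rw [hZ', CJ_inv P t ht0] at hP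
          rw [CJ_inv P t ht0]
          exact max_eq_right hP.le
      _ = (Module.finrank K⟮t⟯ L : ℤ) := by rw [hZs', ci_inv]

end Pool.H91.HR
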