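import Pool.Agent.H91.HR.CF
import Pool.Agent.H91.HR.CI

set_option autoImplicit false

/-!
Row CK (project MP_259062_HR): derivations are bounded at every place.

PROOF. Take `x` with `v x = 1` (`surj`); it is not a constant (`const`, `zero`), so `ci_fd` applies and `local_frac x` (with the place `⟨v, hv⟩`) gives `s`.
Let `N ≥ 0` be such that `-N ≤ v (δ x)` and `-N ≤ v (δ ω)` for all `ω ∈ s` (finitely many integers; `v 0 = 0`). For `a = sum over s of aeval x (q ω) * ω`:
`δ a = sum of (aeval x (q' ω) * δ x * ω + aeval x (q ω) * δ ω)` (`Derivation.leibniz`, `Derivation.map_aeval`; `q' = derivative q`) is `0` or has value `≥ -N`, and `a` is `0` or has value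
`≥ 0` (`v (aeval x q) ≥ 0` since `v x ≥ 0` and `v` is `0` on nonzero constants).
For `y = a/b` as in `local_frac` (`v b = 0`): `δ y = (δ a * b - a * δ b)/b^2` is `0` or has value `≥ -N`.
For arbitrary `z ≠ 0`, `k = v z`, `y = z * x^(-k)`: `v y = 0`, `z = x^k y`, `δ z = k x^(k-1) δ x y + x^k δ y` is `0` or has value `≥ k - 1 - N`. So `N + 1` works.
-/

namespace Pool.H91.HR

open IntermediateField

universe u

/-- `z = 0` or `v z ≥ M` -/
def ckW {L : Type u} [Field L] (v : L → ℤ) (M : ℤ) (z : L) : Prop := z = 0 ∨ M ≤ v z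

theorem ckW_zero {L : Type u} [Field L] (v : L → ℤ) (M : ℤ) : ckW v M 0 := Or.inl rfl

theorem ckW_mono {L : Type u} [Field L] {v : L → ℤ} {M N : ℤ} {z : L} (h : ckW v M z)
    (hN : N ≤ M) : ckW v N z := h.imp id fun h => hN.trans h

theorem ckW_add {L : Type u} [Field L] {v : L → ℤ} (hv : DV L v) {M : ℤ} {x y : L}
    (hx : ckW v M x) (hy : ckW v M y) : ckW v M (x + y) := by
  by_cases hx0 : x = 0
  · rw [hx0, zero_add]; exact hy
  by_cases hy0 : y = 0
  · rw [hy0, add_zero]; exact hx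
  by_cases hxy : x + y = 0
  · exact Or.inl hxy
  · exact Or.inr ((le_min (hx.resolve_left hx0) (hy.resolve_left hy0)).trans
      (hv.add x y hx0 hy0 hxy))

theorem ckW_mul {L : Type u} [Field L] {v : L → ℤ} (hv : DV L v) {M N : ℤ} {x y : L}
    (hx : ckW v M x) (hy : ckW v N y) : ckW v (M + N) (x * y) := by
  by_cases hx0 : x = 0
  · rw [hx0, zero_mul]; exact ckW_zero v _
  by_cases hy0 : y = 0
  · rw [hy0, mul_zero]; exact ckW_zero v _
  · right
    rw [hv.mul x y hx0 hy0]
    exact add_le_add (hx.resolve_left hx0) (hy.resolve_left hy0)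

theorem ckW_sum {L : Type u} [Field L] {v : L → ℤ} (hv : DV L v) {M : ℤ} (s : Finset L)
    (f : L → L) (h : ∀ ω ∈ s, ckW v M (f ω)) : ckW v M (∑ ω ∈ s, f ω) := by
  classical
  induction s using Finset.induction_on with
  | empty => rw [Finset.sum_empty]; exact ckW_zero v _
  | insert a s ha ih =>
    rw [Finset.sum_insert ha]
    exact ckW_add hv (h a (Finset.mem_insert_self a s))
      (ih fun ω hω => h ω (Finset.mem_insert_of_mem hω))

theorem ckW_const {K L : Type u} [Field K] [Field L] [Algebra K L] {v : L → ℤ} (hv : Pl K L v)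
    (c : K) : ckW v 0 (algebraMap K L c) := by
  by_cases hc : c = 0
  · left; rw [hc, map_zero]
  · right; rw [hv.const c hc]

theorem ckW_aeval {K L : Type u} [Field K] [Field L] [Algebra K L] {v : L → ℤ} (hv : Pl K L v)
    (x : L) (hx : v x = 1) (q : Polynomial K) : ckW v 0 (Polynomial.aeval x q) := by
  have hx0 : ckW v 0 x := Or.inr (by rw [hx]; norm_num)
  induction q using Polynomial.induction_on' with
  | add p q hp hq => rw [map_add]; exact ckW_add hv.toDV hp hq
  | monomial n a =>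
    rw [Polynomial.aeval_monomial]
    have h1 : ckW v 0 (x ^ n) := by
      induction n with
      | zero =>
        rw [pow_zero]
        right
        rw [dv_one hv.toDV]
      | succ n ih =>
        rw [pow_succ]
        exact ckW_mul hv.toDV ih hx0
    exact ckW_mul hv.toDV (ckW_const hv a) h1

theorem der_bdd {K L : Type u} [Field K] [IsAlgClosed K] [CharZero K] [Field L] [Algebra K L] (t : L)
    (ht : Transcendental K t) (hfd : FiniteDimensional K⟮t⟯ L) (δ : Derivation K L L) (v : L → ℤ) (hv : Pl K L v) :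
    ∃ N : ℤ, ∀ z : L, z ≠ 0 → δ z ≠ 0 → v z - N ≤ v (δ z) := by
  classical
  have hd := hv.toDV
  obtain ⟨x, hx0, hx1⟩ := hd.surj
  have hxc : ∀ c : K, x ≠ algebraMap K L c := by
    intro c hc
    by_cases h : c = 0
    · rw [h, map_zero] at hc
      exact hx0 hc
    · have h1 := hv.const c h
      rw [← hc, hx1] at h1
      exact one_ne_zero h1
  obtain ⟨hxt, hxf⟩ := ci_fd t ht hfd x hxc
  obtain ⟨s, hs, hsf⟩ := local_frac x hxt hxf ⟨v, hv⟩ (show 0 < v x by rw [hx1]; norm_num)
  have hs' : ∀ ω ∈ s, ckW v 0 ω := fun ω hω => Or.inr (hs ω hω)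
  obtain ⟨N, hNx, hNs⟩ : ∃ N : ℤ, -N ≤ v (δ x) ∧ ∀ ω ∈ s, -N ≤ v (δ ω) := by
    refine ⟨|v (δ x)| + ∑ ω ∈ s, |v (δ ω)|, ?_, fun ω hω => ?_⟩
    · have h1 := neg_abs_le (v (δ x))
      have h2 : 0 ≤ ∑ ω ∈ s, |v (δ ω)| := Finset.sum_nonneg fun _ _ => abs_nonneg _
      linarith
    · have h1 := neg_abs_le (v (δ ω))
      have h2 : |v (δ ω)| ≤ ∑ ω ∈ s, |v (δ ω)| :=
        Finset.single_le_sum (f := fun ω => |v (δ ω)|) (fun _ _ => abs_nonneg _) hω
      have h3 := abs_nonneg (v (δ x))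
      linarith
  have hWx : ckW v (-N) (δ x) := Or.inr hNx
  have hWs : ∀ ω ∈ s, ckW v (-N) (δ ω) := fun ω hω => Or.inr (hNs ω hω)
  have hae := ckW_aeval hv x hx1
  have hm1 : ckW v 0 (-1 : L) := by
    have h := ckW_const hv (-1 : K)
    rwa [map_neg, map_one] at h
  -- the elements of the lattice
  have hA : ∀ q : L → Polynomial K, ckW v 0 (∑ ω ∈ s, Polynomial.aeval x (q ω) * ω) := by
    intro q
    refine ckW_sum hd s _ fun ω hω => ?_
    have h := ckW_mul hd (hae (q ω)) (hs' ω hω)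
    rwa [add_zero] at h
  have hB : ∀ q : L → Polynomial K,
      ckW v (-N) (δ (∑ ω ∈ s, Polynomial.aeval x (q ω) * ω)) := by
    intro q
    rw [map_sum]
    refine ckW_sum hd s _ fun ω hω => ?_
    rw [δ.leibniz, Derivation.map_aeval, smul_eq_mul, smul_eq_mul, smul_eq_mul]
    refine ckW_add hd ?_ ?_
    · have h := ckW_mul hd (hae (q ω)) (hWs ω hω)
      rwa [zero_add] at h
    · have h := ckW_mul hd (hs' ω hω) (ckW_mul hd (hae (Polynomial.derivative (q ω))) hWx)
      rwa [zero_add, zero_add] at h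
  have hC : ∀ y : L, y ≠ 0 → v y = 0 → ckW v (-N) (δ y) := by
    intro y hy0 hy
    obtain ⟨q1, q2, hb0, hb, hyab⟩ := hsf y hy0 (le_of_eq hy.symm)
    have ha := hB q1
    have hb' := hB q2
    generalize (∑ ω ∈ s, Polynomial.aeval x (q1 ω) * ω) = a at ha hyab
    generalize (∑ ω ∈ s, Polynomial.aeval x (q2 ω) * ω) = b at hb' hb0 hb hyab
    have hb1 : v b = 0 := hb
    have hyb : y * b = a := by rw [hyab, div_mul_cancel₀ _ hb0]
    have h1 : δ a = y * δ b + b * δ y := by
      rw [← hyb, δ.leibniz, smul_eq_mul, smul_eq_mul]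
    have h2 : δ y = b⁻¹ * (δ a + (-1) * (y * δ b)) := by
      rw [h1]
      field_simp
      ring
    have h3 : ckW v 0 b⁻¹ := Or.inr (by rw [dv_inv hd b hb0, hb1]; norm_num)
    have h4 : ckW v 0 y := Or.inr (le_of_eq hy.symm)
    have h5 : ckW v (-N) ((-1) * (y * δ b)) := by
      have h := ckW_mul hd hm1 (ckW_mul hd h4 hb')
      rwa [zero_add, zero_add] at h
    rw [h2]
    have h := ckW_mul hd h3 (ckW_add hd ha h5)
    rwa [zero_add] at h
  refine ⟨N + 1, fun z hz hδ => ?_⟩
  have hxk : x ^ (-(v z)) ≠ 0 := zpow_ne_zero _ hx0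
  have hy0 : z * x ^ (-(v z)) ≠ 0 := mul_ne_zero hz hxk
  have hy : v (z * x ^ (-(v z))) = 0 := by
    rw [hd.mul z _ hz hxk, dv_zpow hd x hx0, hx1]
    ring
  have h1 := hC _ hy0 hy
  have h2 : ckW v 0 (z * x ^ (-(v z))) := Or.inr (le_of_eq hy.symm)
  have h3 : z = x ^ (v z) * (z * x ^ (-(v z))) := by
    rw [zpow_neg]
    field_simp
  have hW : ∀ k : ℤ, ckW v k (x ^ k) := fun k => Or.inr (by
    rw [dv_zpow hd x hx0, hx1, mul_one])
  have h4 : ckW v (v z - 1 - N) (δ z) := by
    generalize v z = k at h1 h2 h3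
    generalize z * x ^ (-k) = y at h1 h2 h3
    rw [h3, δ.leibniz, Derivation.leibniz_zpow, smul_eq_mul, smul_eq_mul]
    refine ckW_add hd ?_ ?_
    · exact ckW_mono (ckW_mul hd (hW k) h1) (by linarith)
    · have h5 : ckW v 0 ((k : ℤ) : L) := by
        have h := ckW_const hv ((k : ℤ) : K)
        rwa [map_intCast] at h
      have h6 : k • x ^ (k - 1) • δ x = (k : L) * (x ^ (k - 1) * δ x) := by
        rw [zsmul_eq_mul, smul_eq_mul]
      rw [h6]
      have h := ckW_mul hd h2 (ckW_mul hd h5 (ckW_mul hd (hW (k - 1)) hWx))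
      exact ckW_mono h (by linarith)
  have h5 := h4.resolve_left hδ
  linarith

end Pool.H91.HR
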