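import Mathlib

set_option autoImplicit false

/-!
Definitions for project MP_259062_HR (Hilbert cubes in the squares of function fields of bounded gonality).

`PS K L` is a system of places of the field `L` over the field `K`: discrete valuations, trivial on `K`, with residue
field `K`, satisfying the sum formula. `v P 0` has no meaning, all axioms are about nonzero elements.
-/

namespace Pool.H91.HR

open Finset

universe u

/-- System of places of the field `L` over `K`. -/
structure PS (K L : Type u) [Field K] [Field L] [Algebra K L] where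
  I : Type u
  ne : Nonempty I
  v : I → L → ℤ
  v_mul : ∀ (P : I) (x y : L), x ≠ 0 → y ≠ 0 → v P (x * y) = v P x + v P y
  v_add : ∀ (P : I) (x y : L), x ≠ 0 → y ≠ 0 → x + y ≠ 0 → min (v P x) (v P y) ≤ v P (x + y)
  v_const : ∀ (P : I) (c : K), c ≠ 0 → v P (algebraMap K L c) = 0
  v_surj : ∀ P : I, ∃ x : L, x ≠ 0 ∧ v P x = 1
  v_res : ∀ (P : I) (x : L), x ≠ 0 → v P x = 0 →
    ∃ c : K, x - algebraMap K L c = 0 ∨ 0 < v P (x - algebraMap K L c)
  v_fin : ∀ x : L, x ≠ 0 → {P : I | v P x ≠ 0}.Finite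
  v_sum : ∀ x : L, x ≠ 0 → ∑ᶠ P, v P x = 0

/-- `x` has order at least `k` at the place `P` (true for `x = 0`). -/
def PS.ge {K L : Type u} [Field K] [Field L] [Algebra K L] (p : PS K L) (P : p.I) (k : ℤ) (x : L) : Prop :=
  x = 0 ∨ k ≤ p.v P x

/-- Pole order of `x` at `P`. -/
def PS.pol {K L : Type u} [Field K] [Field L] [Algebra K L] (p : PS K L) (x : L) (P : p.I) : ℤ :=
  max 0 (-(p.v P x))

/-- A nonnegative function with total mass at most `N`. -/
def Bd {I : Type u} (g : I → ℤ) (N : ℤ) : Prop :=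
  (∀ P, 0 ≤ g P) ∧ ∀ S : Finset I, ∑ P ∈ S, g P ≤ N

/-- The derivation `D` is bounded at all places. -/
def DBd {K L : Type u} [Field K] [Field L] [Algebra K L] (p : PS K L) (D : Derivation K L L) : Prop :=
  ∀ P : p.I, ∃ N : ℤ, ∀ x : L, x ≠ 0 → D x ≠ 0 → p.v P x - N ≤ p.v P (D x)

/-- A derivation with defect `r`, of total mass at most `N`, and constants `K`. -/
structure Df {K L : Type u} [Field K] [Field L] [Algebra K L] (p : PS K L) (D : Derivation K L L)
    (r : p.I → ℤ) (N : ℤ) : Prop where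
  bd : Bd r N
  low : ∀ (P : p.I) (x : L), x ≠ 0 → D x ≠ 0 → p.v P x - 1 - r P ≤ p.v P (D x)
  ker : ∀ x : L, D x = 0 → ∃ c : K, x = algebraMap K L c

/-- Vertex `1 + sum over V of b i`. -/
def wv {L : Type u} [Field L] {m : ℕ} (b : Fin m → L) (V : Finset (Fin m)) : L :=
  1 + ∑ i ∈ V, b i

/-- Change of the vertex when the coordinates of `W` are flipped, starting from the vertex `V`. -/
def fs {L : Type u} [Field L] {m : ℕ} (b : Fin m → L) (V W : Finset (Fin m)) : L :=
  ∑ i ∈ W, (if i ∈ V then -(b i) else b i)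

/-- Minimal orders `e` of a finite family `w`, with total `-n`. -/
structure Mo {K L : Type u} [Field K] [Field L] [Algebra K L] (p : PS K L) {ι : Type} (w : ι → L)
    (e : p.I → ℤ) (n : ℕ) : Prop where
  lb : ∀ (P : p.I) (j : ι), p.ge P (e P) (w j)
  att : ∀ P : p.I, ∃ j : ι, w j ≠ 0 ∧ p.v P (w j) = e P
  fin : {P : p.I | e P ≠ 0}.Finite
  sum : ∑ᶠ P, e P = -(n : ℤ)
  one : ∃ j : ι, w j = 1

/-- A cube with base `1`, pairwise non proportional generators. -/
structure Cu {K L : Type u} [Field K] [Field L] [Algebra K L] (p : PS K L) (m n : ℕ) (b : Fin m → L)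
    (e : p.I → ℤ) : Prop where
  mo : Mo p (wv b) e n
  ind : ∀ i j : Fin m, i ≠ j → ∀ c : K, b i ≠ algebraMap K L c * b j
  two : 2 ≤ m
  pos : 1 ≤ n

open Classical in
/-- Places where some vertex has order bigger than `e`. -/
noncomputable def Zs {K L : Type u} [Field K] [Field L] [Algebra K L] (p : PS K L) {m : ℕ} (b : Fin m → L)
    (e : p.I → ℤ) : Finset p.I :=
  if h : {P : p.I | ∃ V, wv b V ≠ 0 ∧ p.v P (wv b V) ≠ e P}.Finite then h.toFinset else ∅

open Classical in
/-- The points `(P, s)`, `1 ≤ s ≤ n`. -/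
noncomputable def Pts {K L : Type u} [Field K] [Field L] [Algebra K L] (p : PS K L) {m : ℕ} (b : Fin m → L)
    (e : p.I → ℤ) (n : ℕ) : Finset (p.I × ℕ) :=
  Zs p b e ×ˢ Icc 1 n

open Classical in
/-- Vertices `V` with nonzero value, of order at least `e P + s` at `P`. -/
noncomputable def Iv {K L : Type u} [Field K] [Field L] [Algebra K L] (p : PS K L) {m : ℕ} (b : Fin m → L)
    (e : p.I → ℤ) (q : p.I × ℕ) : Finset (Finset (Fin m)) :=
  univ.filter (fun V => wv b V ≠ 0 ∧ e q.1 + (q.2 : ℤ) ≤ p.v q.1 (wv b V))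

open Classical in
/-- Indices `i` such that `b i` has order smaller than `e P + s` at `P`. -/
noncomputable def Sv {K L : Type u} [Field K] [Field L] [Algebra K L] (p : PS K L) {m : ℕ} (b : Fin m → L)
    (e : p.I → ℤ) (q : p.I × ℕ) : Finset (Fin m) :=
  univ.filter (fun i => ¬ p.ge q.1 (e q.1 + (q.2 : ℤ)) (b i))

end Pool.H91.HR
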