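import Mathlib

set_option autoImplicit false

/-!
Row FA (project MP_259062_HR): the derivation `d/dt` on a function field.

PROOF. Any of the following.
(1) Formally etale algebras. Make `L` a `K[X]`-algebra through `aeval t` (injective since `t` is transcendental). `K⟮t⟯` is the field of fractions of the image, so formally etale over `K[X]`
(`Algebra.FormallyEtale.of_isLocalization`), `L / K⟮t⟯` is finite separable (characteristic zero), so formally etale (`Algebra.FormallyEtale.of_isSeparable`), `Algebra.FormallyEtale.comp`.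
Then `L ⊗ Ω[K[X]/K] ≃ Ω[L/K]` (`KaehlerDifferential.tensorKaehlerEquivOfFormallyEtale`), and `Ω[K[X]/K]` is free on `dX` (`KaehlerDifferential.polynomialEquiv`).
A derivation is a linear form on `Ω[L/K]`; take the one with `dt ↦ 1`.
(Or: lift `K[X] → L[ε]`, `X ↦ t + ε`, along the formally smooth `K[X] → L` to an algebra map `L → L[ε]`, `z ↦ z + (δ z) ε`.)
(2) By hand: `δ0 (p(t)/q(t)) = (p' q - p q')(t)/q(t)^2` on `K⟮t⟯ ≃ RatFunc K`; `L = K⟮t⟯⟮θ⟯`, `f` the minimal polynomial of `θ`, `f'(θ) ≠ 0`, `δ θ = - f^{δ0}(θ)/f'(θ)`,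
`δ (g(θ)) = g^{δ0}(θ) + g'(θ) δ θ`, well defined modulo `f`; see also `Mathlib/FieldTheory/Differential/Basic.lean` (`differentialFiniteDimensional`:
a finite extension of a differential field of characteristic zero has a compatible derivation); `K`-linearity: constants of `K` go to `0`.
-/

namespace Pool.H91.HR

open IntermediateField

universe u

open Polynomial TensorProduct in
/-- A derivation `K[X] → L` extends along a formally etale algebra. -/
theorem fa_ext {K L : Type u} [Field K] [Field L] [Algebra K L] [Algebra K[X] L]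
    [IsScalarTower K K[X] L] [Algebra.FormallyEtale K[X] L] :
    ∃ δ : Derivation K L L, δ (algebraMap K[X] L X) = 1 := by
  let d : Derivation K K[X] L := Polynomial.mkDerivation K (1 : L)
  let φ : L ⊗[K[X]] (Ω[K[X]⁄K]) →ₗ[L] L := LinearMap.liftBaseChange L d.liftKaehlerDifferential
  let e := KaehlerDifferential.tensorKaehlerEquivOfFormallyEtale K K[X] L
  refine ⟨(φ ∘ₗ e.symm.toLinearMap).compDer (KaehlerDifferential.D K L), ?_⟩
  change φ (e.symm (KaehlerDifferential.D K L (algebraMap K[X] L X))) = 1
  rw [KaehlerDifferential.tensorKaehlerEquivOfFormallyEtale_symm_D_algebraMap,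
    LinearMap.liftBaseChange_tmul, one_smul, Derivation.liftKaehlerDifferential_comp_D,
    Polynomial.mkDerivation_X]

theorem der_exists {K L : Type u} [Field K] [CharZero K] [Field L] [Algebra K L] (t : L) (ht : Transcendental K t)
    (hfd : FiniteDimensional K⟮t⟯ L) : ∃ δ : Derivation K L L, δ t = 1 := by
  let e := RatFunc.algEquivOfTranscendental t ht
  letI a1 : Algebra (RatFunc K) L := ((algebraMap K⟮t⟯ L).comp (e : RatFunc K →+* K⟮t⟯)).toAlgebra
  letI a2 : Algebra (Polynomial K) L :=
    ((algebraMap (RatFunc K) L).comp (algebraMap (Polynomial K) (RatFunc K))).toAlgebra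
  haveI t1 : IsScalarTower (Polynomial K) (RatFunc K) L := IsScalarTower.of_algebraMap_eq' rfl
  have hK : ∀ c : K, algebraMap (RatFunc K) L (algebraMap K (RatFunc K) c) = algebraMap K L c := by
    intro c
    change algebraMap K⟮t⟯ L (e (algebraMap K (RatFunc K) c)) = _
    rw [e.commutes]
    rfl
  haveI t2 : IsScalarTower K (Polynomial K) L := by
    refine IsScalarTower.of_algebraMap_eq fun c => ?_
    change _ = algebraMap (RatFunc K) L (algebraMap (Polynomial K) (RatFunc K)
      (algebraMap K (Polynomial K) c))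
    rw [← IsScalarTower.algebraMap_apply K (Polynomial K) (RatFunc K), hK]
  haveI f1 : Module.Finite (RatFunc K) L := by
    refine Module.Finite.of_equiv_equiv (A₁ := K⟮t⟯) (B₁ := L) (A₂ := RatFunc K) (B₂ := L)
      e.symm.toRingEquiv (RingEquiv.refl L) ?_
    ext x
    change algebraMap K⟮t⟯ L (e (e.symm x)) = algebraMap K⟮t⟯ L x
    rw [e.apply_symm_apply]
  haveI c0 : CharZero (RatFunc K) := charZero_of_injective_algebraMap (algebraMap K (RatFunc K)).injective
  haveI e1 : Algebra.FormallyEtale (Polynomial K) (RatFunc K) :=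
    Algebra.FormallyEtale.of_isLocalization (nonZeroDivisors (Polynomial K))
  haveI e2 : Algebra.FormallyEtale (RatFunc K) L := Algebra.FormallyEtale.of_isSeparable _ _
  haveI e3 : Algebra.FormallyEtale (Polynomial K) L :=
    Algebra.FormallyEtale.comp (Polynomial K) (RatFunc K) L
  obtain ⟨δ, hδ⟩ := fa_ext (K := K) (L := L)
  refine ⟨δ, ?_⟩
  have h1 : algebraMap (Polynomial K) L Polynomial.X = t := by
    change algebraMap K⟮t⟯ L (e (algebraMap (Polynomial K) (RatFunc K) Polynomial.X)) = t
    rw [RatFunc.algebraMap_X]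
    exact RatFunc.algEquivOfTranscendental_X t ht
  rw [← h1]
  exact hδ

end Pool.H91.HR
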