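import Mathlib

/-!
Row FB (project MP_259062_HR): a primitive element which is a combination with constant coefficients.

PROOF. `L / F`, `F = K⟮t⟯`, is finite and separable (characteristic zero), so it has finitely many intermediate fields (`Field.exists_primitive_element`,
`Field.finite_intermediateField_of_exists_primitive_element`). For an intermediate field `E ≠ ⊤` of `L/F` put `U_E = {c : Fin m → K | sum c i * b i ∈ E}`, a
`K`-subspace; `U_E ≠ ⊤`, otherwise all `b i ∈ E` (take `c = Pi.single i 1`), and `E` contains `K`, `t`, so `E = ⊤` by `hgen`. `K` is infinite and a vector space over an infinite field is not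
a finite union of proper subspaces (`Subspace.biUnion_ne_univ_of_top_notMem`, `Subspace.top_mem_of_biUnion_eq_univ` or similar). So there is
`c` outside all `U_E`, `E ≠ ⊤`. Let `w = sum c i * b i`; `E = F⟮w⟯` contains `w`, so `E = ⊤`. `IntermediateField.adjoin K {t, w}` restricted: it contains `K⟮t⟯` and `w`
(`IntermediateField.adjoin_adjoin_left`, `restrictScalars`), so it is `⊤`.
-/

set_option autoImplicit false

namespace Pool.H91.HR

open IntermediateField

universe u

theorem prim {K L : Type u} [Field K] [CharZero K] [Field L] [Algebra K L] (t : L)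
    (hfd : FiniteDimensional K⟮t⟯ L) {m : ℕ} (b : Fin m → L)
    (hgen : IntermediateField.adjoin K (insert t (Set.range b)) = ⊤) :
    ∃ c : Fin m → K, IntermediateField.adjoin K {t, ∑ i, algebraMap K L (c i) * b i} = ⊤ := by
  classical
  have hcz : CharZero K⟮t⟯ := charZero_of_injective_algebraMap (algebraMap K K⟮t⟯).injective
  have h1 := Field.exists_primitive_element K⟮t⟯ L
  have h2 : Finite (IntermediateField K⟮t⟯ L) :=
    Field.finite_intermediateField_of_exists_primitive_element K⟮t⟯ L h1
  by_contra hcon
  push Not at hcon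
  let φ : (Fin m → K) →ₗ[K] L := Fintype.linearCombination K b
  have hφ : ∀ c : Fin m → K, φ c = ∑ i, algebraMap K L (c i) * b i := by
    intro c
    simp only [φ, Fintype.linearCombination_apply, Algebra.smul_def]
  let U : {E : IntermediateField K⟮t⟯ L // E ≠ ⊤} → Subspace K (Fin m → K) := fun E =>
    (Subalgebra.toSubmodule (E.1.restrictScalars K).toSubalgebra).comap φ
  have hU : ∀ (E : {E : IntermediateField K⟮t⟯ L // E ≠ ⊤}) (c : Fin m → K),
      c ∈ U E ↔ φ c ∈ E.1 := by
    intro E c
    rfl
  have hcov : ⋃ E, (U E : Set (Fin m → K)) = Set.univ := by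
    rw [Set.eq_univ_iff_forall]
    intro c
    rw [Set.mem_iUnion]
    refine ⟨⟨IntermediateField.adjoin K⟮t⟯ {φ c}, ?_⟩, ?_⟩
    · intro htop
      apply hcon c
      have h3 := IntermediateField.adjoin_adjoin_left K {t} {φ c}
      rw [htop, IntermediateField.restrictScalars_top] at h3
      rw [h3, hφ]
      rfl
    · change c ∈ U _
      rw [hU]
      exact IntermediateField.mem_adjoin_simple_self K⟮t⟯ (φ c)
  obtain ⟨E, hE⟩ := Subspace.exists_eq_top_of_iUnion_eq_univ hcov
  apply E.2
  have hb : ∀ i, b i ∈ E.1 := by
    intro i
    have h3 : (Pi.single i 1 : Fin m → K) ∈ U E := by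
      rw [hE]
      exact Submodule.mem_top
    rw [hU, hφ] at h3
    rw [Finset.sum_eq_single i] at h3
    · simpa using h3
    · intro j _ hj
      simp [hj]
    · intro h4
      exact absurd (Finset.mem_univ i) h4
  have ht : t ∈ E.1 := by
    have h3 := E.1.algebraMap_mem ⟨t, IntermediateField.mem_adjoin_simple_self K t⟩
    exact h3
  have h4 : IntermediateField.adjoin K (insert t (Set.range b)) ≤ E.1.restrictScalars K := by
    rw [IntermediateField.adjoin_le_iff]
    rintro x (hx | ⟨i, rfl⟩)
    · rw [hx]
      exact ht
    · exact hb i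
  rw [hgen] at h4
  rw [eq_top_iff]
  intro x _
  have h5 : x ∈ E.1.restrictScalars K := h4 IntermediateField.mem_top
  exact h5

end Pool.H91.HR
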