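import Mathlib

set_option autoImplicit false

/-!
Row FC (project MP_259062_HR): few square classes of `M` become squares in `L`.

PROOF. `sq_indep`: let `y : ι → L` (`ι` finite), `y i ≠ 0`, `y i ^ 2 = algebraMap M L (x i)`, and `y i * y j` not in the image of `M` for `i ≠ j`. Then `y` is linearly independent over `M`.
Take a nontrivial relation `sum over I of c i y i = 0` with all `c i ≠ 0` (`i ∈ I`) and `#I` minimal; `#I ≥ 2` (since `y i ≠ 0`). Fix `i ≠ j` in `I`. `y i * y j` is not in `M`, it is
algebraic over `M` and separable (its square is in `M`, `2 ≠ 0`), so there is an `M`-embedding `σ : L → AlgebraicClosure L` with `σ (y i y j) ≠ y i y j`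
(or work with the subfield `M⟮y⟯`, which is Galois over `M`; or: `z = y i y j` has minimal polynomial `Z^2 - x i x j`, there is an `M`-embedding of `M⟮z⟯` with `z ↦ -z`, extend it to `L`).
Each `σ (y k) = ε k y k`, `ε k = ±1` (its square is `x k`), and `ε i ε j = -1`. Apply `σ` to the relation: `sum c k ε k y k = 0` in the closure. Adding `± ε i` times the original relation kills the coefficient of
`y i` and gives `∓ 2 c j ≠ 0` at `j`: a shorter nontrivial relation. Contradiction.
`classes`: on `{i | w i ≠ 0}` the relation `i ~ j` iff `IsSquare (w i * w j)` is an equivalence relation (`w i w j` and `w j w k` squares, so `w i w k = (w i w j)(w j w k)/(w j)^2` is). If there were `γ + 1` classes, take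
representatives `i_0..i_γ` and `y k ∈ L` with `y k ^ 2 = w (i_k)` (`hw`); if `y k y l = m ∈ M` then `w w' = m^2` is a square in `M` (injectivity), excluded. So by `sq_indep` there are `γ + 1` independent elements in `L`,
contradiction to `finrank M L ≤ γ` (`LinearIndependent.fintype_card_le_finrank`). So there are at most `γ` classes and the colouring exists (the `i` with `w i = 0` get any colour;
`γ ≥ 1` since `finrank M L ≥ 1`).
-/

namespace Pool.H91.HR

universe u

/-- An embedding which changes the sign of a square root. -/
theorem fc_emb {M L : Type u} [Field M] [Field L] [Algebra M L] [FiniteDimensional M L]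
    (z : L) (m : M) (hz : z ^ 2 = algebraMap M L m) (hzM : ∀ c : M, z ≠ algebraMap M L c) :
    ∃ σ : L →ₐ[M] AlgebraicClosure L, σ z = -algebraMap L (AlgebraicClosure L) z := by
  have hint : IsIntegral M z := Algebra.IsIntegral.isIntegral z
  have hroot : Polynomial.aeval z (Polynomial.X ^ 2 - Polynomial.C m : Polynomial M) = 0 := by
    simp [hz]
  have hdeg : (Polynomial.X ^ 2 - Polynomial.C m : Polynomial M).natDegree = 2 := by
    compute_degree!
  have hmon : (Polynomial.X ^ 2 - Polynomial.C m : Polynomial M).Monic := by
    monicity!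
  have hmin : minpoly M z = Polynomial.X ^ 2 - Polynomial.C m := by
    have hdvd := minpoly.dvd M z hroot
    have h2 : 2 ≤ (minpoly M z).natDegree := by
      rw [minpoly.two_le_natDegree_iff hint]
      rintro ⟨c, hc⟩
      exact hzM c hc.symm
    exact (Polynomial.eq_of_monic_of_dvd_of_natDegree_le (minpoly.monic hint) hmon hdvd
      (by rw [hdeg]; exact h2)).symm
  have hmem : -algebraMap L (AlgebraicClosure L) z ∈
      (minpoly M z).rootSet (AlgebraicClosure L) := by
    rw [Polynomial.mem_rootSet]
    refine ⟨minpoly.ne_zero hint, ?_⟩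
    rw [hmin]
    simp only [map_sub, map_pow, Polynomial.aeval_X, Polynomial.aeval_C, neg_sq]
    rw [← map_pow, hz, ← IsScalarTower.algebraMap_apply, sub_self]
  rw [← Algebra.IsAlgebraic.range_eval_eq_rootSet_minpoly (F := M) (K := L)
    (A := AlgebraicClosure L) z] at hmem
  obtain ⟨σ, hσ⟩ := hmem
  exact ⟨σ, hσ⟩

theorem fc_main {M L : Type u} [Field M] [Field L] [Algebra M L] [FiniteDimensional M L]
    (h2 : (2 : M) ≠ 0) {ι : Type} (y : ι → L) (hy : ∀ i, y i ≠ 0) (x : ι → M)
    (hx : ∀ i, y i ^ 2 = algebraMap M L (x i))
    (hne : ∀ i j, i ≠ j → ∀ c : M, y i * y j ≠ algebraMap M L c) (n : ℕ) :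
    ∀ (s : Finset ι) (c : ι → M), s.card = n → (∀ i ∈ s, c i ≠ 0) →
      ∑ i ∈ s, c i • y i = 0 → s = ∅ := by
  classical
  induction n using Nat.strong_induction_on with
  | _ n ih =>
    intro s c hcard hc hs
    by_contra hne0
    obtain ⟨i, hi⟩ := Finset.nonempty_iff_ne_empty.2 hne0
    by_cases hone : ∃ j ∈ s, j ≠ i
    · obtain ⟨j, hj, hji⟩ := hone
      have hzz : (y i * y j) ^ 2 = algebraMap M L (x i * x j) := by
        rw [mul_pow, hx, hx, map_mul]
      obtain ⟨σ, hσ⟩ := fc_emb (y i * y j) (x i * x j) hzz (hne i j (Ne.symm hji))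
      have hsgn : ∀ k, ∃ e : M, (e = 1 ∨ e = -1) ∧
          σ (y k) = algebraMap M (AlgebraicClosure L) e * algebraMap L (AlgebraicClosure L) (y k) := by
        intro k
        have h3 : σ (y k) ^ 2 = (algebraMap L (AlgebraicClosure L) (y k)) ^ 2 := by
          rw [← map_pow, ← map_pow, hx, AlgHom.commutes, ← IsScalarTower.algebraMap_apply]
        rcases sq_eq_sq_iff_eq_or_eq_neg.1 h3 with h4 | h4
        · exact ⟨1, Or.inl rfl, by rw [h4, map_one, one_mul]⟩
        · exact ⟨-1, Or.inr rfl, by rw [h4, map_neg, map_one, neg_one_mul]⟩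
      choose e he1 he2 using hsgn
      have hinjM : Function.Injective (algebraMap M (AlgebraicClosure L)) :=
        (algebraMap M (AlgebraicClosure L)).injective
      have hinjL : Function.Injective (algebraMap L (AlgebraicClosure L)) :=
        (algebraMap L (AlgebraicClosure L)).injective
      have hprod : e i * e j = -1 := by
        apply hinjM
        have h5 : algebraMap L (AlgebraicClosure L) (y i * y j) ≠ 0 := by
          intro h
          exact mul_ne_zero (hy i) (hy j) (hinjL (by rw [h, map_zero]))
        apply mul_right_cancel₀ h5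
        rw [map_mul, map_neg, map_one, neg_one_mul, ← hσ, map_mul σ, he2 i, he2 j, map_mul]
        ring
      have hrel : ∑ k ∈ s, (c k * e k) • y k = 0 := by
        apply hinjL
        rw [map_zero, map_sum]
        have h6 := congrArg σ hs
        rw [map_zero, map_sum] at h6
        rw [← h6]
        refine Finset.sum_congr rfl fun k _ => ?_
        rw [Algebra.smul_def, Algebra.smul_def, map_mul, map_mul σ, AlgHom.commutes, he2 k,
          ← IsScalarTower.algebraMap_apply, map_mul]
        ring
      have hrel2 : ∑ k ∈ s, (c k * (e k - e i)) • y k = 0 := by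
        have h7 : ∀ k ∈ s, (c k * (e k - e i)) • y k = (c k * e k) • y k - e i • (c k • y k) := by
          intro k _
          rw [smul_smul, ← sub_smul]
          congr 1
          ring
        rw [Finset.sum_congr rfl h7, Finset.sum_sub_distrib, hrel, ← Finset.smul_sum, hs,
          smul_zero, sub_zero]
      have hs' := ih (s.filter (fun k => c k * (e k - e i) ≠ 0)).card (by
          rw [← hcard]
          apply Finset.card_lt_card
          rw [Finset.ssubset_iff_of_subset (Finset.filter_subset _ _)]
          exact ⟨i, hi, by simp⟩)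
        (s.filter (fun k => c k * (e k - e i) ≠ 0)) (fun k => c k * (e k - e i)) rfl
        (fun k hk => (Finset.mem_filter.1 hk).2) (by
          rw [← hrel2]
          apply Finset.sum_subset (Finset.filter_subset _ _)
          intro k hk hk'
          have h8 : c k * (e k - e i) = 0 := by
            by_contra h9
            exact hk' (Finset.mem_filter.2 ⟨hk, h9⟩)
          rw [h8, zero_smul])
      have hjm : j ∈ s.filter (fun k => c k * (e k - e i) ≠ 0) := by
        rw [Finset.mem_filter]
        refine ⟨hj, mul_ne_zero (hc j hj) ?_⟩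
        rcases he1 i with h10 | h10 <;> rcases he1 j with h11 | h11 <;>
          rw [h10, h11] at hprod ⊢
        · exact absurd (by linear_combination hprod) h2
        · intro h; exact h2 (by linear_combination -h)
        · intro h; exact h2 (by linear_combination h)
        · exact absurd (by linear_combination hprod) h2
      rw [hs'] at hjm
      exact absurd hjm (Finset.notMem_empty j)
    · push Not at hone
      have hsi : s = {i} := Finset.eq_singleton_iff_unique_mem.2 ⟨hi, hone⟩
      rw [hsi, Finset.sum_singleton] at hs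
      rcases smul_eq_zero.1 hs with h | h
      · exact hc i hi h
      · exact hy i h

theorem sq_indep {M L : Type u} [Field M] [Field L] [Algebra M L] [FiniteDimensional M L] (h2 : (2 : M) ≠ 0)
    {ι : Type} [Fintype ι] (y : ι → L) (hy : ∀ i, y i ≠ 0) (x : ι → M) (hx : ∀ i, y i ^ 2 = algebraMap M L (x i))
    (hne : ∀ i j, i ≠ j → ∀ c : M, y i * y j ≠ algebraMap M L c) : LinearIndependent M y := by
  classical
  rw [Fintype.linearIndependent_iff]
  intro g hg i
  by_contra hi
  have h := fc_main h2 y hy x hx hne _ (Finset.univ.filter (fun k => g k ≠ 0)) g rfl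
    (fun k hk => (Finset.mem_filter.1 hk).2) (by
      rw [← hg]
      apply Finset.sum_subset (Finset.filter_subset _ _)
      intro k hk hk'
      have h8 : g k = 0 := by
        by_contra h9
        exact hk' (Finset.mem_filter.2 ⟨hk, h9⟩)
      rw [h8, zero_smul])
  have hm : i ∈ Finset.univ.filter (fun k => g k ≠ 0) :=
    Finset.mem_filter.2 ⟨Finset.mem_univ i, hi⟩
  rw [h] at hm
  exact absurd hm (Finset.notMem_empty i)

theorem fc_trans {M : Type u} [Field M] {a b c : M} (hb : b ≠ 0) (h1 : IsSquare (a * b))
    (h2 : IsSquare (b * c)) : IsSquare (a * c) := by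
  obtain ⟨r, hr⟩ := h1
  obtain ⟨t, ht⟩ := h2
  refine ⟨r * t / b, ?_⟩
  have : a * c = (a * b) * (b * c) / (b * b) := by field_simp
  rw [this, hr, ht]
  field_simp

theorem classes {M L : Type u} [Field M] [Field L] [Algebra M L] [FiniteDimensional M L] (h2 : (2 : M) ≠ 0)
    (γ : ℕ) (hγ : Module.finrank M L ≤ γ) {ι : Type} [Fintype ι] (w : ι → M)
    (hw : ∀ i, IsSquare (algebraMap M L (w i))) :
    ∃ col : ι → Fin γ, ∀ i j, w i ≠ 0 → w j ≠ 0 → col i = col j → IsSquare (w i * w j) := by
  classical
  let S : Setoid {i : ι // w i ≠ 0} :=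
    { r := fun i j => IsSquare (w i.1 * w j.1)
      iseqv := ⟨fun i => ⟨w i.1, rfl⟩, fun {i j} h => by rwa [mul_comm],
        fun {i j k} h1 h2 => fc_trans j.2 h1 h2⟩ }
  have hfin : Finite (Quotient S) := inferInstance
  let _ := Fintype.ofFinite (Quotient S)
  choose r hr using hw
  have hind : LinearIndependent M (fun q : Quotient S => r q.out.1) := by
    refine sq_indep h2 _ ?_ (fun q => w q.out.1) ?_ ?_
    · intro q h
      have h3 := hr q.out.1
      rw [h, mul_zero] at h3
      exact q.out.2 ((algebraMap M L).injective (by rw [h3, map_zero]))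
    · intro q
      rw [hr q.out.1, sq]
    · intro q q' hqq c hc
      apply hqq
      rw [← Quotient.out_eq q, ← Quotient.out_eq q']
      apply Quotient.sound
      refine ⟨c, (algebraMap M L).injective ?_⟩
      rw [map_mul, map_mul, hr q.out.1, hr q'.out.1, ← hc]
      ring
  have hcard : Fintype.card (Quotient S) ≤ Fintype.card (Fin γ) := by
    rw [Fintype.card_fin]
    exact hind.fintype_card_le_finrank.trans hγ
  obtain ⟨f⟩ := Function.Embedding.nonempty_of_card_le hcard
  have hpos : 0 < γ := lt_of_lt_of_le Module.finrank_pos hγ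
  refine ⟨fun i => if h : w i ≠ 0 then f (Quotient.mk S ⟨i, h⟩) else ⟨0, hpos⟩, ?_⟩
  intro i j hi hj hcol
  simp only [dif_pos hi, dif_pos hj] at hcol
  exact Quotient.exact (f.injective hcol)

end Pool.H91.HR
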