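import Mathlib

set_option autoImplicit false

/-!
Row FD (project MP_259062_HR): the subfield generated by `t` and the `b i`.

PROOF. `M = IntermediateField.adjoin K (insert t (range b))`, `tM = ⟨t, _⟩`, `bM i = ⟨b i, _⟩`. `Transcendental K tM`: map to `L` by the injective `algebraMap M L`
(`transcendental_iff`, `Transcendental.of_...`/`isAlgebraic_algebraMap_iff`). Let `F = K⟮t⟯ ≤ M ≤ L`; `M` is a `K⟮t⟯`-subspace of `L` (`IntermediateField.extendScalars`), so
`finrank K⟮t⟯ M ≤ finrank K⟮t⟯ L`, and `K⟮tM⟯` is the copy of `K⟮t⟯` inside `M` (`K⟮tM⟯.map M.val = K⟮t⟯`, `IntermediateField.adjoin_map`), so `finrank K⟮tM⟯ M = finrank K⟮t⟯ M`. By the tower law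
`finrank K⟮t⟯ L = finrank K⟮t⟯ M * finrank M L`, all positive, so `finrank M L ≤ γ` as well. Generation: the image in `L` of `adjoin K (insert tM (range bM))` under `M.val` is
`adjoin K (insert t (range b)) = M`, so it is `⊤` (`IntermediateField.adjoin_map`, injectivity of `map`; or `IntermediateField.adjoin_induction`).
-/

set_option autoImplicit false

namespace Pool.H91.HR

open IntermediateField

universe u

theorem fd_equiv {K L : Type u} [Field K] [Field L] [Algebra K L] (M : IntermediateField K L)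
    (t : M) : ∃ e : K⟮t⟯ ≃+* K⟮(t : L)⟯, ∀ x : K⟮t⟯, ((e x : K⟮(t : L)⟯) : L) = ((x : M) : L) := by
  have hmap : (K⟮t⟯).map M.val = K⟮(t : L)⟯ := by
    rw [adjoin_map, Set.image_singleton]
    rfl
  let φ : K⟮t⟯ →+* K⟮(t : L)⟯ :=
    { toFun := fun x => ⟨((x : M) : L), by rw [← hmap]; exact ⟨x.1, x.2, rfl⟩⟩
      map_one' := rfl
      map_mul' := fun x y => rfl
      map_zero' := rfl
      map_add' := fun x y => rfl }
  have hφ : Function.Bijective φ := by
    constructor
    · exact φ.injective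
    · rintro ⟨y, hy⟩
      rw [← hmap] at hy
      obtain ⟨x, hx, rfl⟩ := hy
      exact ⟨⟨x, hx⟩, rfl⟩
  exact ⟨RingEquiv.ofBijective φ hφ, fun x => rfl⟩

theorem sub_pkg {K L : Type u} [Field K] [Field L] [Algebra K L] (t : L) (ht : Transcendental K t)
    (hfd : FiniteDimensional K⟮t⟯ L) (γ : ℕ) (hγ : Module.finrank K⟮t⟯ L ≤ γ) {m : ℕ} (b : Fin m → L) :
    ∃ (tM : IntermediateField.adjoin K (insert t (Set.range b)))
      (bM : Fin m → IntermediateField.adjoin K (insert t (Set.range b))),
      (tM : L) = t ∧ (∀ i, (bM i : L) = b i) ∧ Transcendental K tM ∧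
      FiniteDimensional K⟮tM⟯ (IntermediateField.adjoin K (insert t (Set.range b))) ∧
      Module.finrank K⟮tM⟯ (IntermediateField.adjoin K (insert t (Set.range b))) ≤ γ ∧
      FiniteDimensional (IntermediateField.adjoin K (insert t (Set.range b))) L ∧
      Module.finrank (IntermediateField.adjoin K (insert t (Set.range b))) L ≤ γ ∧
      IntermediateField.adjoin K (insert tM (Set.range bM)) = ⊤ := by
  set M := IntermediateField.adjoin K (insert t (Set.range b)) with hM
  have htM : t ∈ M := subset_adjoin _ _ (Set.mem_insert _ _)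
  have hbM : ∀ i, b i ∈ M := fun i => subset_adjoin _ _ (Set.mem_insert_of_mem _ ⟨i, rfl⟩)
  let tM : M := ⟨t, htM⟩
  obtain ⟨e, he⟩ := fd_equiv M tM
  have hc : (algebraMap K⟮(tM : L)⟯ L).comp e.toRingHom =
      (RingEquiv.refl L).toRingHom.comp (algebraMap K⟮tM⟯ L) := by
    ext x
    exact he x
  have hc' : (algebraMap K⟮tM⟯ L).comp e.symm.toRingHom =
      (RingEquiv.refl L).toRingHom.comp (algebraMap K⟮(tM : L)⟯ L) := by
    ext x
    have h1 := he (e.symm x)
    rw [e.apply_symm_apply] at h1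
    exact h1.symm
  have hfd' : FiniteDimensional K⟮(tM : L)⟯ L := hfd
  have h1 : FiniteDimensional K⟮tM⟯ L :=
    Module.Finite.of_equiv_equiv e.symm (RingEquiv.refl L) hc'
  have h2 : Module.finrank K⟮tM⟯ L = Module.finrank K⟮t⟯ L :=
    Algebra.finrank_eq_of_equiv_equiv e (RingEquiv.refl L) hc
  have h3 : FiniteDimensional K⟮tM⟯ M := FiniteDimensional.left K⟮tM⟯ M L
  have h4 : FiniteDimensional M L := FiniteDimensional.right K⟮tM⟯ M L
  have h5 : Module.finrank K⟮tM⟯ M * Module.finrank M L = Module.finrank K⟮tM⟯ L :=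
    Module.finrank_mul_finrank K⟮tM⟯ M L
  have h6 : 0 < Module.finrank K⟮tM⟯ M := Module.finrank_pos
  have h7 : 0 < Module.finrank M L := Module.finrank_pos
  refine ⟨tM, fun i => ⟨b i, hbM i⟩, rfl, fun i => rfl, ?_, h3, ?_, h4, ?_, ?_⟩
  · exact (transcendental_algebraMap_iff (algebraMap M L).injective).1 ht
  · nlinarith
  · nlinarith
  · apply IntermediateField.map_injective M.val
    rw [adjoin_map, ← AlgHom.fieldRange_eq_map, fieldRange_val, Set.image_insert_eq,
      ← Set.range_comp]
    rfl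

end Pool.H91.HR
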