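import Pool.Agent.H91.HR.RH

set_option autoImplicit false

/-!
Row RI (project MP_259062_HR): a derivation whose defect is small compared to the degree of the cube.

PROOF. `F` from `rel_exists`, `D = ev2 t w (derivative F) • δ`, `r P = (2n) * pol t P + (2γ) * pol w P`; `Bd r (2n γ + 2γ n)` by `bd_mul`, `bd_add`.
`low` is `poi_low`. `t ≠ 0` since `t` is transcendental. `D t = ev2 (derivative F) ≠ 0` and `D` is bounded at all places (`v_mul`), so
`ker_const` gives `ker`.
-/

namespace Pool.H91.HR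

open Finset Polynomial

universe u

theorem poisson {K L : Type u} [Field K] [CharZero K] [Field L] [Algebra K L] (p : PS K L) (t w : L)
    (ht : Transcendental K t) (hw : w ≠ 0) (hgen : IntermediateField.adjoin K {t, w} = ⊤) (n γ : ℕ) (hn : 1 ≤ n)
    (hγ : Bd (p.pol t) γ) (hwn : Bd (p.pol w) n) (δ : Derivation K L L) (hδt : δ t = 1) (hδ : DBd p δ) :
    ∃ (D : Derivation K L L) (r : p.I → ℤ), Df p D r ((4 * γ * n : ℕ) : ℤ) := by
  obtain ⟨F, hBox, hF0, hF1⟩ := rel_exists p t w ht n γ hn hγ hwn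
  have ht0 : t ≠ 0 := by
    rintro rfl
    exact ht isAlgebraic_zero
  have happ : ∀ x, (ev2 t w (derivative F) • δ) x = ev2 t w (derivative F) * δ x := fun x => rfl
  have hb : DBd p (ev2 t w (derivative F) • δ) := by
    intro P
    obtain ⟨N, hN⟩ := hδ P
    refine ⟨N - p.v P (ev2 t w (derivative F)), ?_⟩
    intro x hx hDx
    rw [happ] at hDx ⊢
    have hδx : δ x ≠ 0 := right_ne_zero_of_mul hDx
    rw [p.v_mul P _ _ hF1 hδx]
    have := hN x hx hδx
    linarith
  have hDne : ∃ x, (ev2 t w (derivative F) • δ) x ≠ 0 := by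
    refine ⟨t, ?_⟩
    rw [happ, hδt, mul_one]
    exact hF1
  refine ⟨ev2 t w (derivative F) • δ,
    fun P => ((2 * n : ℕ) : ℤ) * p.pol t P + ((2 * γ : ℕ) : ℤ) * p.pol w P, ?_, ?_, ?_⟩
  · have h1 := bd_add (bd_mul hγ (2 * n)) (bd_mul hwn (2 * γ))
    refine bd_mono h1 (le_of_eq ?_)
    push_cast
    ring
  · intro P x hx hDx
    exact poi_low p t w ht0 hw hgen n γ F hBox hF0 hF1 δ hδt hδ P x hx hDx
  · intro x hx
    exact ker_const p _ hb hDne x hx

end Pool.H91.HR
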