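import Pool.Agent.H91.HR.KN
import Pool.Agent.H91.HR.RI
import Pool.Agent.H91.HR.CJ
import Pool.Agent.H91.HR.CK
import Pool.Agent.H91.HR.FA
import Pool.Agent.H91.HR.FB
import Pool.Agent.H91.HR.FC
import Pool.Agent.H91.HR.FD

set_option autoImplicit false

/-!
Row GA (project MP_259062_HR): no large cube of squares with pairwise non proportional generators, base `1`.

PROOF. `m1 = max 2 m0`, `m0` from `no_cu (4 * γ) γ γ`. Suppose `m1 ≤ m`. `sub_pkg t .. b` gives the field `M = adjoin K (insert t (range b))`, `tM`, `bM`; `(wv bM V : L) = wv b V`.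
In `M` (a field over `K`, universe `u`): `p`, `Bd (p.pol tM) (finrank)` from `ps_exists tM`, `bd_mono` to `γ`; `DBd p δ` for every derivation (`der_bdd tM`, the last part of `ps_exists`).
`mo_exists p (wv bM) ∅` (`wv bM ∅ = 1`): `e`, `n`, `Mo`. `Cu p m n bM e`: `ind` from the hypothesis (map to `L`), `two`; `pos`: if `n = 0`, `mo_zero` says that all `wv bM V` are constants, so
`bM i = wv bM {i} - wv bM ∅` are constants; two of them (`i ≠ j`) are proportional (both nonzero, or one is zero): contradiction to `ind`.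
`prim tM .. bM` gives `c`; `w = sum c i bM i` (if it is `0` use `w = 1` instead: `adjoin K {tM, 1} = adjoin K {tM, 0} = ⊤`). `ge P (e P) w` (`ge_sum`, `ge_cmul`, `ka_bge`; `e P ≤ 0` for `1`), so
`pol w P ≤ -(e P)`, `Bd (pol w) n` (`mo_bd`, `bd_le`). `δ` from `der_exists tM`. `poisson` gives `D`, `r` with `Df p D r (4 γ n)`.
Colours: `classes (M := M) (L := L)`, `w := wv bM`: `algebraMap M L (wv bM V) = wv b V` is a square. If `col V = col V'`, `wv bM V * wv bM V' = z * z` in `M`, so `v P (wv bM V) + v P (wv bM V') = 2 v P z` and `2` divides the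
difference. `no_cu` gives `False`.
-/

namespace Pool.H91.HR

open Finset IntermediateField

universe u

theorem GA_core (γ : ℕ) {K M L : Type u} [Field K] [IsAlgClosed K] [CharZero K] [Field M] [Algebra K M]
    [Field L] [Algebra M L] {m : ℕ}
    (hno : ∀ {p : PS K M} {n : ℕ} {b : Fin m → M} {e : p.I → ℤ}, Cu p m n b e →
      ∀ (D : Derivation K M M) (r : p.I → ℤ), Df p D r ((4 * γ * n : ℕ) : ℤ) →
      ∀ t : M, Transcendental K t → Bd (p.pol t) γ → ∀ col : Finset (Fin m) → Fin γ,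
      (∀ V V', wv b V ≠ 0 → wv b V' ≠ 0 → col V = col V' →
        ∀ P : p.I, (2 : ℤ) ∣ p.v P (wv b V) - p.v P (wv b V')) → False)
    (tM : M) (htr : Transcendental K tM) (hfdM : FiniteDimensional K⟮tM⟯ M)
    (hγM : Module.finrank K⟮tM⟯ M ≤ γ) (hfdL : FiniteDimensional M L) (hγL : Module.finrank M L ≤ γ)
    (bM : Fin m → M) (hgen : IntermediateField.adjoin K (insert tM (Set.range bM)) = ⊤)
    (hsq : ∀ V, IsSquare (algebraMap M L (wv bM V)))
    (hind : ∀ i j : Fin m, i ≠ j → ∀ c : K, bM i ≠ algebraMap K M c * bM j) (h2 : 2 ≤ m) : False := by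
  classical
  have hcz : CharZero M := charZero_of_injective_algebraMap (algebraMap K M).injective
  obtain ⟨p, hpt, hpl⟩ := ps_exists tM htr hfdM
  obtain ⟨e, n, hMo⟩ := mo_exists p (wv bM) ∅ (by simp [wv])
  have hbc : ∀ i, bM i = wv bM {i} - wv bM ∅ := by
    intro i
    rw [wv, wv, Finset.sum_singleton, Finset.sum_empty]
    ring
  have hn : 1 ≤ n := by
    by_contra hn0
    have hn1 : n = 0 := by omega
    subst hn1
    have hc : ∀ i, ∃ c : K, bM i = algebraMap K M c := by
      intro i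
      obtain ⟨c1, h1⟩ := mo_zero hMo {i}
      obtain ⟨c2, h2⟩ := mo_zero hMo ∅
      exact ⟨c1 - c2, by rw [hbc, h1, h2, map_sub]⟩
    obtain ⟨c0, h0⟩ := hc ⟨0, by omega⟩
    obtain ⟨c1, h1⟩ := hc ⟨1, by omega⟩
    by_cases hz : c1 = 0
    · apply hind ⟨1, by omega⟩ ⟨0, by omega⟩ (by simp) 0
      rw [h1, hz, map_zero, zero_mul]
    · apply hind ⟨0, by omega⟩ ⟨1, by omega⟩ (by simp) (c0 / c1)
      rw [h0, h1, ← map_mul, div_mul_cancel₀ c0 hz]
  have hCu : Cu p m n bM e := ⟨hMo, hind, h2, hn⟩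
  obtain ⟨c, hc⟩ := prim tM hfdM bM hgen
  have hw : ∃ w : M, w ≠ 0 ∧ IntermediateField.adjoin K {tM, w} = ⊤ ∧ ∀ P, p.ge P (e P) w := by
    by_cases h0 : ∑ i, algebraMap K M (c i) * bM i = 0
    · refine ⟨1, one_ne_zero, ?_, fun P => Or.inr ?_⟩
      · rw [h0] at hc
        rw [eq_top_iff, ← hc, IntermediateField.adjoin_le_iff]
        rintro x (rfl | rfl)
        · exact IntermediateField.subset_adjoin K _ (by simp)
        · exact zero_mem _
      · rw [v_one]
        exact mo_nonpos hMo P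
    · exact ⟨_, h0, hc, fun P => ge_sum p P _ _ _ (fun i _ => ge_cmul p P _ (ka_bge hCu P i))⟩
  obtain ⟨w, hw0, hwgen, hwge⟩ := hw
  have hwn : Bd (p.pol w) n := by
    refine bd_le (fun P => le_max_left _ _) (fun P => ?_) (mo_bd hMo)
    have h1 := (hwge P).resolve_left hw0
    have h3 := mo_nonpos hMo P
    rw [PS.pol]
    exact max_le (by omega) (by omega)
  obtain ⟨δ, hδ⟩ := der_exists tM htr hfdM
  have hδb : DBd p δ := fun P => der_bdd tM htr hfdM δ (p.v P) (hpl P)
  have hptg : Bd (p.pol tM) γ := bd_mono hpt (by exact_mod_cast hγM)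
  obtain ⟨D, r, hDf⟩ := poisson p tM w htr hw0 hwgen n γ hn hptg hwn δ hδ hδb
  obtain ⟨col, hcol⟩ := classes (M := M) (L := L) two_ne_zero γ hγL (wv bM) hsq
  refine hno hCu D r hDf tM htr hptg col ?_
  intro V V' hV hV' hVV P
  obtain ⟨z, hz⟩ := hcol V V' hV hV' hVV
  have hz0 : z ≠ 0 := by
    rintro rfl
    rw [mul_zero] at hz
    exact mul_ne_zero hV hV' hz
  have h3 := p.v_mul P (wv bM V) (wv bM V') hV hV'
  rw [hz, p.v_mul P z z hz0 hz0] at h3
  exact ⟨p.v P z - p.v P (wv bM V'), by linarith⟩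

theorem no_np1 (γ : ℕ) : ∃ m1 : ℕ, ∀ {K L : Type u} [Field K] [IsAlgClosed K] [CharZero K] [Field L] [Algebra K L]
    (t : L), Transcendental K t → FiniteDimensional K⟮t⟯ L → Module.finrank K⟮t⟯ L ≤ γ →
    ∀ {m : ℕ} (b : Fin m → L), (∀ V : Finset (Fin m), IsSquare (wv b V)) →
    (∀ i j : Fin m, i ≠ j → ∀ c : K, b i ≠ algebraMap K L c * b j) → m1 ≤ m → False := by
  obtain ⟨m0, hm0⟩ := no_cu.{u} (4 * γ) γ γ
  refine ⟨max 2 m0, ?_⟩
  intro K L _ _ _ _ _ t ht hfd hγ m b hsq hind hm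
  obtain ⟨tM, bM, htM, hbM, htr, hfdM, hγM, hfdL, hγL, hgen⟩ := sub_pkg t ht hfd γ hγ b
  have hbM' : ∀ i, algebraMap (IntermediateField.adjoin K (insert t (Set.range b))) L (bM i) = b i := hbM
  refine GA_core γ (L := L) ?_ tM htr hfdM hγM hfdL hγL bM hgen ?_ ?_ ((le_max_left _ _).trans hm)
  · intro p n b' e' hCu D r hD t' ht' hpt col hcol
    exact hm0 hCu D r hD t' ht' hpt col hcol ((le_max_right _ _).trans hm)
  · intro V
    have h1 : algebraMap (IntermediateField.adjoin K (insert t (Set.range b))) L (wv bM V) = wv b V := by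
      rw [wv, wv, map_add, map_one, map_sum]
      exact congrArg _ (Finset.sum_congr rfl (fun i _ => hbM' i))
    rw [h1]
    exact hsq V
  · intro i j hij c hc
    apply hind i j hij c
    have h1 := congrArg (algebraMap (IntermediateField.adjoin K (insert t (Set.range b))) L) hc
    rw [map_mul, hbM', hbM', ← IsScalarTower.algebraMap_apply] at h1
    exact h1

end Pool.H91.HR
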