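import Pool.Agent.H91.HR.KQ
import Pool.Agent.H91.HR.RI
import Pool.Agent.H91.HR.CJ
import Pool.Agent.H91.HR.CK
import Pool.Agent.H91.HR.FA
import Pool.Agent.H91.HR.FB
import Pool.Agent.H91.HR.FC
import Pool.Agent.H91.HR.FD

set_option autoImplicit false

/-!
Row GB (project MP_259062_HR): pencils with many squares are constant.

PROOF. `r1 = max 2 r0`, `r0` from `pen (4 * γ) γ`. Suppose `A ≠ c B` for all `c`. As `r ≥ 2` and `B ≠ 0`, some `i0` has `w0 = A + l i0 * B ≠ 0`. Put `A' = A / w0`, `B' = B / w0 ≠ 0`: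
`A' + l i0 B' = 1`, `A' + l i B' = (A + l i B)/w0` is a square in `L` (quotient of squares), `A' ≠ c B'`.
`sub_pkg t .. ![B']` gives `M`, `tM`, `bM : Fin 1 → M`; `BM = bM 0`, `AM = 1 - algebraMap (l i0) * BM`, `(AM : L) = A'`. `p` from `ps_exists tM` (`Bd (pol tM) γ` by `bd_mono`), `DBd` from `der_bdd`.
`mo_exists p (fun i => AM + l i BM) i0` gives `e`, `n`. `n ≥ 1`: if `n = 0` all `AM + l i BM` are constants (`mo_zero`), so `BM` (`= (w i - w j)/(l i - l j)`) and `AM` are constants, `BM ≠ 0`, `AM = c BM`: contradiction.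
`ge P (e P) BM` (same combination), so `pol BM P ≤ -(e P)` (`e P ≤ 0`), `Bd (pol BM) n`. `hgen`: `adjoin K {tM, BM} = ⊤` from `sub_pkg` (`insert tM (range bM) = {tM, BM}`). `δ` from `der_exists`,
`poisson` gives `D`, `ρ`. Colours from `classes` with `w i = AM + l i BM`; parity as in row GA (`w i w j = z * z`). `pen` gives `AM * D BM - BM * D AM = 0`, so `D (AM / BM) = 0` (`Derivation.leibniz_div`), so
`AM / BM` is a constant (`ker`), and `A = c B`: contradiction.
-/

namespace Pool.H91.HR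

open Finset IntermediateField

universe u

theorem GB_in (γ : ℕ) : ∃ r0 : ℕ, ∀ {K M L : Type u} [Field K] [IsAlgClosed K] [CharZero K]
    [Field M] [Algebra K M] [Field L] [Algebra M L] [FiniteDimensional M L] (t : M),
    Transcendental K t → FiniteDimensional K⟮t⟯ M → Module.finrank K⟮t⟯ M ≤ γ →
    Module.finrank M L ≤ γ → ∀ {r : ℕ} (A B : M) (l : Fin r → K), Function.Injective l →
    ∀ i0 i1 : Fin r, i0 ≠ i1 → A + algebraMap K M (l i0) * B = 1 →
    (∀ i, IsSquare (algebraMap M L (A + algebraMap K M (l i) * B))) → B ≠ 0 →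
    IntermediateField.adjoin K {t, B} = ⊤ → r0 ≤ r → ∃ c : K, A = algebraMap K M c * B := by
  obtain ⟨r0, hpen⟩ := pen (4 * γ) γ
  refine ⟨r0, ?_⟩
  intro K M L _ _ _ _ _ _ _ _ t ht hfd hγ hγ' r A B l hl i0 i1 h01 h0 hsq hB hgen hr
  have hcM : CharZero M := charZero_of_injective_algebraMap (algebraMap K M).injective
  obtain ⟨p, hpt, hpl⟩ := ps_exists t ht hfd
  have hpt' : Bd (p.pol t) γ := bd_mono hpt (by exact_mod_cast hγ)
  obtain ⟨e, n, hmo⟩ := mo_exists p (fun i : Fin r => A + algebraMap K M (l i) * B) i0 h0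
  by_contra hcon
  push Not at hcon
  have hn : 1 ≤ n := by
    by_contra hn0
    have hn0 : n = 0 := by omega
    subst hn0
    obtain ⟨c0, hc0⟩ := mo_zero hmo i0
    obtain ⟨c1, hc1⟩ := mo_zero hmo i1
    have hne : l i0 - l i1 ≠ 0 := sub_ne_zero.2 (fun h => h01 (hl h))
    have hB1 : B = algebraMap K M ((l i0 - l i1)⁻¹ * (c0 - c1)) := by
      have h1 : algebraMap K M (c0 - c1) = algebraMap K M (l i0 - l i1) * B := by
        rw [map_sub, ← hc0, ← hc1, map_sub]; ring
      rw [map_mul, h1, ← mul_assoc, ← map_mul, inv_mul_cancel₀ hne, map_one, one_mul]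
    have hA1 : A = algebraMap K M (c0 - l i0 * ((l i0 - l i1)⁻¹ * (c0 - c1))) := by
      have h1 : A = (A + algebraMap K M (l i0) * B) - algebraMap K M (l i0) * B := by ring
      rw [h1, hc0, hB1]
      simp only [map_sub, map_mul]
    have hb : (l i0 - l i1)⁻¹ * (c0 - c1) ≠ 0 := by
      intro h
      rw [h, map_zero] at hB1
      exact hB hB1
    apply hcon ((c0 - l i0 * ((l i0 - l i1)⁻¹ * (c0 - c1))) / ((l i0 - l i1)⁻¹ * (c0 - c1)))
    calc A = algebraMap K M (c0 - l i0 * ((l i0 - l i1)⁻¹ * (c0 - c1))) := hA1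
      _ = algebraMap K M ((c0 - l i0 * ((l i0 - l i1)⁻¹ * (c0 - c1))) /
            ((l i0 - l i1)⁻¹ * (c0 - c1))) *
          algebraMap K M ((l i0 - l i1)⁻¹ * (c0 - c1)) := by
        rw [← map_mul, div_mul_cancel₀ _ hb]
      _ = _ := by rw [← hB1]
  have hge : ∀ P : p.I, p.ge P (e P) B := fun P =>
    (kq_two hl (w := fun i : Fin r => A + algebraMap K M (l i) * B) (fun _ => rfl) P (e P) h01
      (hmo.lb P i0) (hmo.lb P i1)).2
  have hBn : Bd (p.pol B) n := by
    refine bd_le (fun P => le_max_left _ _) (fun P => ?_) (mo_bd hmo)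
    have h1 := (hge P).resolve_left hB
    have h2 := mo_nonpos hmo P
    exact max_le (by linarith) (by linarith)
  obtain ⟨δ, hδ⟩ := der_exists t ht hfd
  obtain ⟨D, ρ, hD⟩ := poisson p t B ht hB hgen n γ hn hpt' hBn δ hδ
    (fun P => der_bdd t ht hfd δ (p.v P) (hpl P))
  obtain ⟨col, hcol⟩ := classes (M := M) (L := L) two_ne_zero γ hγ'
    (fun i : Fin r => A + algebraMap K M (l i) * B) hsq
  have hW := hpen A B l hl e hmo D ρ hD col (by
    intro i j hi hj hc P
    obtain ⟨z, hz⟩ := hcol i j hi hj hc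
    have hz0 : z ≠ 0 := by
      rintro rfl
      rw [mul_zero] at hz
      exact (mul_ne_zero hi hj) hz
    have h1 := p.v_mul P _ _ hi hj
    rw [hz, p.v_mul P _ _ hz0 hz0] at h1
    exact ⟨p.v P z - p.v P (A + algebraMap K M (l j) * B), by linarith⟩) hr
  obtain ⟨c, hc⟩ := hD.ker (A / B) (by
    have h1 : B • D A - A • D B = 0 := by
      rw [smul_eq_mul, smul_eq_mul]
      linear_combination -hW
    rw [Derivation.leibniz_div, h1, smul_zero])
  exact hcon c (by rw [← hc, div_mul_cancel₀ _ hB])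

theorem pen_L (γ : ℕ) : ∃ r1 : ℕ, ∀ {K L : Type u} [Field K] [IsAlgClosed K] [CharZero K] [Field L] [Algebra K L]
    (t : L), Transcendental K t → FiniteDimensional K⟮t⟯ L → Module.finrank K⟮t⟯ L ≤ γ →
    ∀ {r : ℕ} (A B : L) (l : Fin r → K), Function.Injective l →
    (∀ i, IsSquare (A + algebraMap K L (l i) * B)) → B ≠ 0 → r1 ≤ r → ∃ c : K, A = algebraMap K L c * B := by
  obtain ⟨r0, H⟩ := GB_in.{u} γ
  refine ⟨max 2 r0, ?_⟩
  intro K L _ _ _ _ _ t ht hfd hγ r A B l hl hsq hB hr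
  have hr2 : 2 ≤ r := (le_max_left _ _).trans hr
  have hr0 : r0 ≤ r := (le_max_right _ _).trans hr
  obtain ⟨i0, i1, h01, hw0⟩ : ∃ i0 i1 : Fin r, i0 ≠ i1 ∧ A + algebraMap K L (l i0) * B ≠ 0 := by
    have hne : (⟨0, by omega⟩ : Fin r) ≠ ⟨1, by omega⟩ := by simp [Fin.ext_iff]
    by_cases h : A + algebraMap K L (l ⟨0, by omega⟩) * B = 0
    · refine ⟨⟨1, by omega⟩, ⟨0, by omega⟩, hne.symm, fun h' => ?_⟩
      have h1 : algebraMap K L (l ⟨0, by omega⟩ - l ⟨1, by omega⟩) * B = 0 := by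
        rw [map_sub, sub_mul]
        linear_combination h - h'
      rcases mul_eq_zero.1 h1 with h2 | h2
      · exact hne (hl (sub_eq_zero.1 ((map_eq_zero _).1 h2)))
      · exact hB h2
    · exact ⟨⟨0, by omega⟩, ⟨1, by omega⟩, hne, h⟩
  obtain ⟨w0, hw0'⟩ : ∃ w0, w0 = A + algebraMap K L (l i0) * B := ⟨_, rfl⟩
  rw [← hw0'] at hw0
  obtain ⟨tM, bM, -, h2, h3, h4, h5, h6, h7, h8⟩ :=
    sub_pkg t ht hfd γ hγ (fun _ : Fin 1 => B / w0)
  have hb : ((bM 0 : IntermediateField.adjoin K (insert t (Set.range fun _ : Fin 1 => B / w0))) : L)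
      = B / w0 := h2 0
  have hrange : insert tM (Set.range bM) = {tM, bM 0} :=
    congrArg (insert tM) (Set.range_unique (f := bM))
  rw [hrange] at h8
  obtain ⟨c, hc⟩ := H (L := L) tM h3 h4 h5 h7 (1 - algebraMap K _ (l i0) * bM 0) (bM 0) l hl i0 i1 h01
    (by ring) (by
      intro i
      have h9 : algebraMap (IntermediateField.adjoin K
          (insert t (Set.range fun _ : Fin 1 => B / w0))) L
          (1 - algebraMap K _ (l i0) * bM 0 + algebraMap K _ (l i) * bM 0) =
          (A + algebraMap K L (l i) * B) / w0 := by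
        rw [IntermediateField.algebraMap_apply]
        push_cast
        rw [hb, eq_div_iff hw0]
        field_simp
        rw [hw0']
        ring
      rw [h9]
      exact (hsq i).div (by rw [hw0']; exact hsq i0)) (by
      intro h
      rw [h] at hb
      exact div_ne_zero hB hw0 hb.symm) h8 hr0
  refine ⟨c, ?_⟩
  have h9 := congrArg (fun x : IntermediateField.adjoin K
          (insert t (Set.range fun _ : Fin 1 => B / w0)) => (x : L)) hc
  push_cast at h9
  rw [hb] at h9
  field_simp at h9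
  rw [hw0'] at h9
  linear_combination h9

end Pool.H91.HR
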