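import Pool.Agent.H91.HR.GC0
import Pool.Agent.H91.HR.GB
import Pool.Agent.H91.HQ.LO

set_option autoImplicit false

/-!
Row GC (project MP_259062_HR): the theorem over algebraically closed fields of constants, one variable.

PROOF of `alg_thm`. `m0` from `no_np`, `r1` from `pen_L`. `R = (max r1 1)^2`, `D = R * m0 + 1` (and `≥ 1`). Let `d ≥ D`.
(1) Take `T : Finset (Fin d)` of maximal cardinality with `∀ i j ∈ T, i ≠ j → ∀ c, b i ≠ c b j` (`Finset.exists_max_image` over a filter of `univ`; `∅` qualifies). `#T < m0` (apply `no_np` to the subcube with indices in `T`,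
`T.orderEmbOfFin`, `Finset.sum_map`). By maximality every `i` has `j ∈ T` and `x ∈ K` with `b i = x b j` or `b j = x b i`; `x ≠ 0` since `b ≠ 0`, so in both cases `b i = x' b j`, `x' ≠ 0` (for `i ∈ T` take `j = i`).
(2) Pigeonhole (`Finset.exists_lt_card_fiberwise_of_mul_lt_card_of_maps_to`): `R * #T < d`, so some `j ∈ T` has a set `J` of more than `R` indices `i` with `b i = x i * B`, `B = b j`, `x i ≠ 0` in `K`.
(3) For `V0` disjoint from `J` put `A = a + sum over V0 of b`. For `W ⊆ J`: `A + (sum over W of x) * B` is a square. By `HQ.lo` (over `K`, `E = K`, index type `{i // i ∈ J}`, `S = univ`) each value of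
`sum over W of x` is taken by `N` subsets with `N^2 (#J + 1) ≤ 4^#J`, so there are at least `sqrt (#J + 1) > max r1 1` different values: if there were `q` values, `2^#J ≤ q * Nmax`, `4^#J (#J+1) ≤ q^2 4^#J`, `#J + 1 ≤ q^2`. So there is
an injective `l : Fin r → K` of values with `r1 ≤ r`; `pen_L` gives `A = c B`.
(4) `V0 = ∅`: `a = c B`. `V0 = {i}`, `i ∉ J`: `a + b i = c' B`, so `b i = (c' - c) B`. `i ∈ J`: known. `h = B ≠ 0`.
-/

namespace Pool.H91.HR

open Finset IntermediateField

universe u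

private theorem GC_scal {K L : Type u} [Field K] [Field L] [Algebra K L] (p q : L) (hp : p ≠ 0) (x : K)
    (h : p = algebraMap K L x * q) : x ≠ 0 := by
  rintro rfl
  apply hp
  rw [h, map_zero, zero_mul]

open Classical in
private theorem GC_class {K L : Type u} [Field K] [Field L] [Algebra K L] {d : ℕ} (b : Fin d → L)
    (hb : ∀ i, b i ≠ 0) : ∃ T : Finset (Fin d),
      (∀ i ∈ T, ∀ j ∈ T, i ≠ j → ∀ c : K, b i ≠ algebraMap K L c * b j) ∧
      ∀ i, ∃ j ∈ T, ∃ x : K, x ≠ 0 ∧ b i = algebraMap K L x * b j := by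
  obtain ⟨T, hT, hmax⟩ := Finset.exists_max_image
    (Finset.univ.filter fun T : Finset (Fin d) =>
      ∀ i ∈ T, ∀ j ∈ T, i ≠ j → ∀ c : K, b i ≠ algebraMap K L c * b j)
    Finset.card ⟨∅, by simp⟩
  rw [Finset.mem_filter] at hT
  refine ⟨T, hT.2, fun i => ?_⟩
  by_cases hi : i ∈ T
  · exact ⟨i, hi, 1, one_ne_zero, by rw [map_one, one_mul]⟩
  · by_contra hcon
    push Not at hcon
    have h1 : ∀ j ∈ T, ∀ c : K, b i ≠ algebraMap K L c * b j := by
      intro j hj c h0
      exact hcon j hj c (GC_scal _ _ (hb i) c h0) h0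
    have h1' : ∀ j ∈ T, ∀ c : K, b j ≠ algebraMap K L c * b i := by
      intro j hj c h0
      have hc : c ≠ 0 := GC_scal _ _ (hb j) c h0
      have hc' : algebraMap K L c ≠ 0 := (map_ne_zero _).2 hc
      apply h1 j hj c⁻¹
      rw [h0, map_inv₀, ← mul_assoc, inv_mul_cancel₀ hc', one_mul]
    have h2 : insert i T ∈ (Finset.univ.filter fun T : Finset (Fin d) =>
        ∀ i ∈ T, ∀ j ∈ T, i ≠ j → ∀ c : K, b i ≠ algebraMap K L c * b j) := by
      rw [Finset.mem_filter]
      refine ⟨Finset.mem_univ _, fun p hp q hq hpq => ?_⟩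
      rw [Finset.mem_insert] at hp hq
      rcases hp with rfl | hp
      · rcases hq with rfl | hq
        · exact absurd rfl hpq
        · exact h1 q hq
      · rcases hq with rfl | hq
        · exact h1' p hp
        · exact hT.2 p hp q hq hpq
    have h3 := hmax _ h2
    rw [Finset.card_insert_of_notMem hi] at h3
    omega

open Classical in
private theorem GC_vals {K : Type u} [Field K] [CharZero K] {ι : Type} [Fintype ι] (r : ℕ)
    (hι : r ^ 2 < Fintype.card ι) (g : ι → K) (hg : ∀ i, g i ≠ 0) :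
    ∃ l : Fin r → K, Function.Injective l ∧ ∀ t, ∃ W : Finset ι, ∑ i ∈ W, g i = l t := by
  have hne : ((Finset.univ : Finset (Finset ι)).image fun W => ∑ i ∈ W, g i).Nonempty :=
    Finset.Nonempty.image Finset.univ_nonempty _
  obtain ⟨y0, -, hmax⟩ := Finset.exists_max_image
    ((Finset.univ : Finset (Finset ι)).image fun W => ∑ i ∈ W, g i)
    (fun y => ((Finset.univ : Finset (Finset ι)).filter (fun W => ∑ i ∈ W, g i = y)).card) hne
  set M := ((Finset.univ : Finset (Finset ι)).filter (fun W => ∑ i ∈ W, g i = y0)).card with hM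
  set q := ((Finset.univ : Finset (Finset ι)).image fun W => ∑ i ∈ W, g i).card with hq
  have hlo : M ^ 2 * (Fintype.card ι + 1) ≤ 4 ^ Fintype.card ι := by
    have h := HQ.lo (K := K) g Finset.univ (fun i _ => hg i) y0
    rw [Finset.card_univ] at h
    exact h
  have h2 := Finset.card_le_mul_card_image (f := fun W : Finset ι => ∑ i ∈ W, g i)
    (Finset.univ : Finset (Finset ι)) M (fun y hy => hmax y hy)
  rw [Finset.card_univ, Fintype.card_finset, ← hq] at h2
  have h3 : 4 ^ Fintype.card ι * (Fintype.card ι + 1) ≤ 4 ^ Fintype.card ι * q ^ 2 := by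
    calc 4 ^ Fintype.card ι * (Fintype.card ι + 1)
        = (2 ^ Fintype.card ι) ^ 2 * (Fintype.card ι + 1) := by
          rw [← pow_mul, mul_comm (Fintype.card ι) 2, pow_mul]
          norm_num
      _ ≤ (M * q) ^ 2 * (Fintype.card ι + 1) :=
          Nat.mul_le_mul_right _ (Nat.pow_le_pow_left h2 2)
      _ = (M ^ 2 * (Fintype.card ι + 1)) * q ^ 2 := by ring
      _ ≤ 4 ^ Fintype.card ι * q ^ 2 := Nat.mul_le_mul_right _ hlo
  have h4 : Fintype.card ι + 1 ≤ q ^ 2 := Nat.le_of_mul_le_mul_left h3 (by positivity)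
  have h5 : r ≤ q := by
    by_contra hcon
    push Not at hcon
    have : q ^ 2 ≤ r ^ 2 := Nat.pow_le_pow_left hcon.le 2
    omega
  obtain ⟨V4, hV4, hc⟩ := Finset.exists_subset_card_eq h5
  refine ⟨fun t => ((V4.equivFinOfCardEq hc).symm t : K), ?_, fun t => ?_⟩
  · intro s t hst
    exact (V4.equivFinOfCardEq hc).symm.injective (Subtype.ext hst)
  · have h4 := hV4 ((V4.equivFinOfCardEq hc).symm t).2
    rw [Finset.mem_image] at h4
    obtain ⟨W, -, hW⟩ := h4
    exact ⟨W, hW⟩

theorem alg_thm (γ : ℕ) : ∃ D : ℕ, ∀ {K L : Type u} [Field K] [IsAlgClosed K] [CharZero K] [Field L] [Algebra K L]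
    (t : L), Transcendental K t → FiniteDimensional K⟮t⟯ L → Module.finrank K⟮t⟯ L ≤ γ →
    ∀ {d : ℕ}, D ≤ d → ∀ (a : L) (b : Fin d → L), (∀ i, b i ≠ 0) →
    (∀ V : Finset (Fin d), IsSquare (a + ∑ i ∈ V, b i)) →
    ∃ (h : L) (x : K) (y : Fin d → K), h ≠ 0 ∧ a = algebraMap K L x * h ∧ ∀ i, b i = algebraMap K L (y i) * h := by
  classical
  obtain ⟨m0, hm0⟩ := no_np.{u} γ
  obtain ⟨r1, hr1⟩ := pen_L.{u} γ
  refine ⟨(max r1 1) ^ 2 * m0 + 1, ?_⟩
  intro K L _ _ _ _ _ t ht hfd hrk d hd a b hb hsq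
  obtain ⟨T, hT, hcl⟩ := GC_class (K := K) b hb
  have hTc : T.card < m0 := by
    by_contra hcon
    push Not at hcon
    refine hm0 t ht hfd hrk a (fun i => b (T.orderEmbOfFin rfl i)) ?_ ?_ hcon
    · intro V
      have h := hsq (V.map (T.orderEmbOfFin rfl).toEmbedding)
      rw [Finset.sum_map] at h
      exact h
    · intro i j hij c
      exact hT _ (T.orderEmbOfFin_mem rfl i) _ (T.orderEmbOfFin_mem rfl j)
        (fun h => hij ((T.orderEmbOfFin rfl).injective h)) c
  choose cl hclT x hx0 hx using hcl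
  obtain ⟨j0, hj0, hj0c⟩ := Finset.exists_lt_card_fiber_of_mul_lt_card_of_maps_to
    (s := (Finset.univ : Finset (Fin d))) (t := T) (f := cl) (n := (max r1 1) ^ 2)
    (fun i _ => hclT i) (by
      rw [Finset.card_univ, Fintype.card_fin, mul_comm]
      have := Nat.mul_le_mul_left ((max r1 1) ^ 2) hTc.le
      omega)
  set J := (Finset.univ : Finset (Fin d)).filter (fun i => cl i = j0) with hJdef
  have hJb : ∀ i ∈ J, b i = algebraMap K L (x i) * b j0 := by
    intro i hi
    rw [hJdef, Finset.mem_filter] at hi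
    have h2 := hx i
    rwa [hi.2] at h2
  obtain ⟨l, hl, hlW⟩ := GC_vals (K := K) (ι := J) (max r1 1) (by rw [Fintype.card_coe]; exact hj0c)
    (fun i => x i) (fun i => hx0 i)
  choose W hW using hlW
  have key : ∀ V0 : Finset (Fin d), Disjoint V0 J →
      ∃ α : K, a + ∑ i ∈ V0, b i = algebraMap K L α * b j0 := by
    intro V0 hV0
    refine hr1 t ht hfd hrk _ _ l hl (fun s => ?_) (hb j0) (le_max_left _ _)
    have h := hsq (V0 ∪ (W s).map (Function.Embedding.subtype _))
    have e : (a + ∑ i ∈ V0, b i) + algebraMap K L (l s) * b j0 =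
        a + ∑ i ∈ V0 ∪ (W s).map (Function.Embedding.subtype _), b i := by
      rw [Finset.sum_union, Finset.sum_map, ← add_assoc]
      · congr 1
        rw [← hW s, map_sum, Finset.sum_mul]
        apply Finset.sum_congr rfl
        intro i _
        exact (hJb i i.2).symm
      · rw [Finset.disjoint_left] at hV0 ⊢
        intro i hi hi'
        rw [Finset.mem_map] at hi'
        obtain ⟨i', -, rfl⟩ := hi'
        exact hV0 hi i'.2
    rw [e]
    exact h
  obtain ⟨α, hα⟩ := key ∅ (Finset.disjoint_empty_left _)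
  rw [Finset.sum_empty, add_zero] at hα
  have hy : ∀ i, ∃ y : K, b i = algebraMap K L y * b j0 := by
    intro i
    by_cases hi : i ∈ J
    · exact ⟨x i, hJb i hi⟩
    · obtain ⟨β, hβ⟩ := key {i} (Finset.disjoint_singleton_left.2 hi)
      rw [Finset.sum_singleton] at hβ
      refine ⟨β - α, ?_⟩
      rw [map_sub, sub_mul, ← hβ, ← hα]
      ring
  choose y hy' using hy
  exact ⟨b j0, α, y, hb j0, hα, hy'⟩

end Pool.H91.HR
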