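import Pool.Agent.H91.HR.GA

set_option autoImplicit false

/-!
Row GC0 (project MP_259062_HR): no large cube of squares with pairwise non proportional generators, any base.

PROOF of `no_np`. `m1' = m1 + 1` (`m1` from `no_np1`, and at least `3`). If `a ≠ 0`, `b' i = b i / a`: `wv b' V = (a + sum)/a` is a square (quotient of squares, `V = ∅` shows that `a` is one), `no_np1`. If `a = 0`: `m ≥ 1`; let
`a' = b 0` (index `⟨0, _⟩`), which is nonzero (`m ≥ 2`, `ind` with `c = 0`), and the generators `b ∘ Fin.succ` (write `m = m' + 1`); `a' + sum over V = 0 + sum over insert 0 (V.map succ)`. Then as before.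
-/

namespace Pool.H91.HR

open Finset IntermediateField

universe u

theorem no_np (γ : ℕ) : ∃ m1 : ℕ, ∀ {K L : Type u} [Field K] [IsAlgClosed K] [CharZero K] [Field L] [Algebra K L]
    (t : L), Transcendental K t → FiniteDimensional K⟮t⟯ L → Module.finrank K⟮t⟯ L ≤ γ →
    ∀ {m : ℕ} (a : L) (b : Fin m → L), (∀ V : Finset (Fin m), IsSquare (a + ∑ i ∈ V, b i)) →
    (∀ i j : Fin m, i ≠ j → ∀ c : K, b i ≠ algebraMap K L c * b j) → m1 ≤ m → False := by
  obtain ⟨m1, hm1⟩ := no_np1.{u} γ
  refine ⟨m1 + 3, ?_⟩
  intro K L _ _ _ _ _ t ht hfd hrk m a b hsq hind hm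
  -- the case of a nonzero base
  have key : ∀ {k : ℕ} (a' : L) (b' : Fin k → L), a' ≠ 0 →
      (∀ V : Finset (Fin k), IsSquare (a' + ∑ i ∈ V, b' i)) →
      (∀ i j : Fin k, i ≠ j → ∀ c : K, b' i ≠ algebraMap K L c * b' j) → m1 ≤ k → False := by
    intro k a' b' ha hsq' hind' hk
    refine hm1 t ht hfd hrk (fun i => b' i / a') ?_ ?_ hk
    · intro V
      have h1 : wv (fun i => b' i / a') V = (a' + ∑ i ∈ V, b' i) / a' := by
        unfold wv
        rw [add_div, div_self ha, Finset.sum_div]
      have h2 : IsSquare a' := by simpa using hsq' ∅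
      rw [h1]
      exact (hsq' V).div h2
    · intro i j hij c h
      apply hind' i j hij c
      have h3 : b' i / a' = algebraMap K L c * (b' j / a') := h
      field_simp at h3
      exact h3
  by_cases ha : a = 0
  · subst ha
    obtain ⟨m', rfl⟩ : ∃ m', m = m' + 1 := ⟨m - 1, by omega⟩
    have h01 : (0 : Fin (m' + 1)) ≠ ⟨1, by omega⟩ := by
      intro h
      have := congrArg Fin.val h
      simp at this
    have hb0 : b 0 ≠ 0 := by
      have := hind 0 ⟨1, by omega⟩ h01 0
      simpa using this
    refine key (b 0) (fun i : Fin m' => b i.succ) hb0 ?_ ?_ (by omega)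
    · intro V
      have h := hsq (insert 0 (V.map (Fin.succEmb m')))
      have hn : (0 : Fin (m' + 1)) ∉ V.map (Fin.succEmb m') := by
        simp
      rw [Finset.sum_insert hn, Finset.sum_map, zero_add] at h
      exact h
    · intro i j hij c
      exact hind i.succ j.succ (fun h => hij (Fin.succ_injective _ h)) c
  · exact key a b ha hsq hind (by omega)

end Pool.H91.HR
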