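import Mathlib

set_option autoImplicit false

/-!
Row GD1 (project MP_259062_HR): base change to an algebraically closed field of constants.

PROOF. `Ω = AlgebraicClosure L`, `Kb = algebraicClosure K Ω` (`IntermediateField K Ω`, the elements algebraic over `K`), which is algebraically closed (`algebraicClosure.isAlgClosure` / an element of `Ω` algebraic over
`Kb` is algebraic over `K`, so in `Kb`), characteristic zero. `ι = algebraMap L Ω`. `Lb = IntermediateField.adjoin Kb (Set.range ι)` (`IntermediateField Kb Ω`), with `ι` corestricted to `Lb`.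
* `ι t` is transcendental over `Kb`: otherwise it is algebraic over `Kb`, hence over `K` (`Kb / K` algebraic), hence `t` is algebraic over `K`.
* degree: `L = K⟮t⟯⟮α⟯` with `α` primitive (`Field.exists_primitive_element`, characteristic zero, finite extension), `f` its minimal polynomial over `K⟮t⟯`, of degree `finrank K⟮t⟯ L ≤ γ`. Over `Kb⟮ι t⟯` (which contains the image of `K⟮t⟯`) `ι α` is a root of the image of
`f`, so integral of degree `≤ γ`, and `Kb⟮ι t⟯⟮ι α⟯` contains `Kb` and the image of `L`, so it is `Lb`. So `Lb` is finite over `Kb⟮ι t⟯` of degree `≤ γ` (`IntermediateField.adjoin.finrank`, `minpoly.natDegree_le`/`minpoly.degree_le_of_ne_zero`).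
* if `ι z = algebraMap Kb Lb c` then `ι z` is algebraic over `K`, so `z` is (`ι` injective, a `K`-algebra map).
(The existential quantifies over types with instances: give `Kb`, `Lb` as the coerced types of the intermediate fields.)
-/

namespace Pool.H91.HR

open IntermediateField

universe u

theorem gd_sub {K L : Type u} [Field K] [Field L] [Algebra K L] (T : Subfield L)
    (hK : ∀ c : K, algebraMap K L c ∈ T) (S : Set L) (hS : ∀ x ∈ S, x ∈ T) :
    ∀ x ∈ adjoin K S, x ∈ T := by
  have h : Subfield.closure (Set.range (algebraMap K L) ∪ S) ≤ T := by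
    rw [Subfield.closure_le]
    rintro x (⟨c, rfl⟩ | hx)
    · exact hK c
    · exact hS x hx
  exact fun x hx => h hx

theorem gd_step {K L K' L' : Type u} [Field K] [CharZero K] [Field L] [Algebra K L] [Field K'] [Field L']
    [Algebra K' L'] (j : K →+* K') (ι : L →+* L') (hc : ∀ c, ι (algebraMap K L c) = algebraMap K' L' (j c))
    (t : L) (hfd : FiniteDimensional K⟮t⟯ L) (hgen : adjoin K' (Set.range ι) = ⊤) :
    FiniteDimensional K'⟮ι t⟯ L' ∧ Module.finrank K'⟮ι t⟯ L' ≤ Module.finrank K⟮t⟯ L := by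
  have : CharZero K⟮t⟯ := charZero_of_injective_algebraMap (algebraMap K K⟮t⟯).injective
  obtain ⟨α, hα⟩ := Field.exists_primitive_element K⟮t⟯ L
  have hdeg := (Field.primitive_element_iff_minpoly_natDegree_eq K⟮t⟯ α).1 hα
  -- the map on the small fields
  have h1 : ∀ z ∈ K⟮t⟯, ι z ∈ K'⟮ι t⟯ := by
    intro z hz
    exact gd_sub (K'⟮ι t⟯.toSubfield.comap ι) (fun c => by
      rw [Subfield.mem_comap, hc]
      exact K'⟮ι t⟯.algebraMap_mem _) {t} (fun x hx => by
      rw [Set.mem_singleton_iff] at hx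
      subst hx
      exact mem_adjoin_simple_self K' (ι x)) z hz
  let φ : K⟮t⟯ →+* K'⟮ι t⟯ := (ι.comp (algebraMap K⟮t⟯ L)).codRestrict K'⟮ι t⟯ (fun z => h1 _ z.2)
  have hφ : ∀ z : K⟮t⟯, algebraMap K'⟮ι t⟯ L' (φ z) = ι (algebraMap K⟮t⟯ L z) := fun z => rfl
  -- the polynomial
  have hint : IsIntegral K⟮t⟯ α := IsIntegral.of_finite _ _
  have hmon : ((minpoly K⟮t⟯ α).map φ).Monic := (minpoly.monic hint).map φ
  have hroot : Polynomial.aeval (ι α) ((minpoly K⟮t⟯ α).map φ) = 0 := by
    rw [Polynomial.aeval_def, Polynomial.eval₂_map]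
    have e1 : (algebraMap K'⟮ι t⟯ L').comp φ = ι.comp (algebraMap K⟮t⟯ L) := RingHom.ext hφ
    rw [e1, ← Polynomial.hom_eval₂, ← Polynomial.aeval_def, minpoly.aeval, map_zero]
  have hint' : IsIntegral K'⟮ι t⟯ (ι α) := ⟨_, hmon, by rw [← Polynomial.aeval_def]; exact hroot⟩
  have hle : (minpoly K'⟮ι t⟯ (ι α)).natDegree ≤ Module.finrank K⟮t⟯ L := by
    rw [← hdeg]
    refine (Polynomial.natDegree_le_natDegree (minpoly.min _ _ hmon hroot)).trans ?_
    rw [(minpoly.monic hint).natDegree_map]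
  -- generation
  have htop : K'⟮ι t⟯⟮ι α⟯ = ⊤ := by
    have h2 : ∀ z : L, ι z ∈ K'⟮ι t⟯⟮ι α⟯ := by
      intro z
      have hz : z ∈ K⟮t⟯⟮α⟯ := by rw [hα]; exact mem_top
      exact gd_sub (K'⟮ι t⟯⟮ι α⟯.toSubfield.comap ι) (fun c => by
        rw [Subfield.mem_comap, ← hφ]
        exact K'⟮ι t⟯⟮ι α⟯.algebraMap_mem _) {α} (fun x hx => by
        rw [Set.mem_singleton_iff] at hx
        subst hx
        exact mem_adjoin_simple_self K'⟮ι t⟯ (ι x)) z hz
    rw [eq_top_iff]
    intro x _
    have hx : x ∈ adjoin K' (Set.range ι) := by rw [hgen]; exact mem_top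
    refine gd_sub (K'⟮ι t⟯⟮ι α⟯.toSubfield) (fun c => ?_) (Set.range ι) (fun x hx => ?_) x hx
    · have e2 : algebraMap K' L' c = algebraMap K'⟮ι t⟯ L' (algebraMap K' K'⟮ι t⟯ c) := rfl
      rw [e2]
      exact K'⟮ι t⟯⟮ι α⟯.algebraMap_mem _
    · obtain ⟨z, rfl⟩ := hx
      exact h2 z
  have hfin : FiniteDimensional K'⟮ι t⟯ K'⟮ι t⟯⟮ι α⟯ := adjoin.finiteDimensional hint'
  have hrank := adjoin.finrank hint'
  rw [htop] at hfin hrank
  refine ⟨?_, ?_⟩
  · exact Module.Finite.equiv (topEquiv (F := K'⟮ι t⟯) (E := L')).toLinearEquiv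
  · rw [finrank_top'] at hrank
    rw [hrank]
    exact hle

theorem gd_gen {F E : Type u} [Field F] [Field E] [Algebra F E] (S : Set E) :
    adjoin F {x : adjoin F S | (x : E) ∈ S} = ⊤ := by
  apply lift_injective (adjoin F S)
  rw [lift_adjoin, lift_top]
  congr 1
  ext x
  simp only [Set.mem_image, Set.mem_setOf_eq, Subtype.exists, exists_and_right, exists_eq_right]
  exact ⟨fun h => h.2, fun h => ⟨subset_adjoin F S h, h⟩⟩

theorem base_pkg {K L : Type u} [Field K] [CharZero K] [Field L] [Algebra K L] (t : L) (ht : Transcendental K t)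
    (hfd : FiniteDimensional K⟮t⟯ L) (γ : ℕ) (hγ : Module.finrank K⟮t⟯ L ≤ γ) :
    ∃ (Kb Lb : Type u) (_ : Field Kb) (_ : Field Lb) (_ : Algebra Kb Lb) (ι : L →+* Lb),
      IsAlgClosed Kb ∧ CharZero Kb ∧ Transcendental Kb (ι t) ∧ FiniteDimensional Kb⟮ι t⟯ Lb ∧
      Module.finrank Kb⟮ι t⟯ Lb ≤ γ ∧
      ∀ z : L, (∃ c : Kb, ι z = algebraMap Kb Lb c) → IsAlgebraic K z := by
  let Ω := AlgebraicClosure L
  let Kb : IntermediateField K Ω := algebraicClosure K Ω
  let Lb : IntermediateField Kb Ω := adjoin Kb (Set.range (algebraMap L Ω))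
  let ι : L →+* Lb := (algebraMap L Ω).codRestrict Lb (fun z => subset_adjoin _ _ ⟨z, rfl⟩)
  have hι : ∀ z, ((ι z : Lb) : Ω) = algebraMap L Ω z := fun z => rfl
  have hinj : Function.Injective (algebraMap L Ω) := (algebraMap L Ω).injective
  have hgen : adjoin Kb (Set.range ι) = ⊤ := by
    have h1 := gd_gen (F := Kb) (Set.range (algebraMap L Ω))
    have h2 : Set.range ι = {x : Lb | (x : Ω) ∈ Set.range (algebraMap L Ω)} := by
      ext x
      constructor
      · rintro ⟨z, rfl⟩
        exact ⟨z, rfl⟩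
      · rintro ⟨z, hz⟩
        exact ⟨z, Subtype.ext hz⟩
    rw [h2]
    exact h1
  have hc : ∀ c : K, ι (algebraMap K L c) = algebraMap Kb Lb (algebraMap K Kb c) := by
    intro c
    apply Subtype.ext
    rw [hι, ← IsScalarTower.algebraMap_apply K L Ω]
    rfl
  obtain ⟨h3, h4⟩ := gd_step (algebraMap K Kb) ι hc t hfd hgen
  have halg : ∀ z : L, IsAlgebraic K (algebraMap L Ω z) → IsAlgebraic K z := fun z hz =>
    (isAlgebraic_algebraMap_iff hinj).1 hz
  refine ⟨Kb, Lb, inferInstance, inferInstance, inferInstance, ι, ?_, ?_, ?_, h3, h4.trans hγ, ?_⟩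
  · exact (IsAlgClosure.isAlgClosed K : IsAlgClosed (algebraicClosure K Ω))
  · exact charZero_of_injective_algebraMap (algebraMap K Kb).injective
  · intro h5
    have h6 : IsAlgebraic Kb (algebraMap L Ω t) := by
      have := (isAlgebraic_algebraMap_iff (R := Kb) (S := Lb) (A := Ω) (a := ι t)
        (algebraMap Lb Ω).injective).2 h5
      exact this
    have h7 : IsAlgebraic K (algebraMap L Ω t) := h6.restrictScalars K
    exact ht (halg t h7)
  · rintro z ⟨c, hz⟩
    apply halg
    have e : algebraMap L Ω z = (c : Ω) := by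
      rw [← hι, hz]
      rfl
    rw [e]
    exact mem_algebraicClosure_iff.1 c.2

end Pool.H91.HR
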