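import Pool.Agent.H91.HR.GC
import Pool.Agent.H91.HR.GD1

set_option autoImplicit false

/-!
Row GD (project MP_259062_HR): one variable, arbitrary constants.

PROOF. `D' = max D 1`, `D` from `alg_thm γ`. `base_pkg` gives `Kb`, `Lb`, `ι`. The cube `ι a`, `ι ∘ b` in `Lb`: nonzero generators (`ι` injective), squares map to squares. `alg_thm` gives `h`, `x`, `y` with `ι a = x h`, `ι (b i) = y i h`,
`h ≠ 0`; `y i ≠ 0`. Take `h' = b 0` (index `⟨0, _⟩`, `d ≥ 1`): `ι (a / b 0) = x / y 0`, `ι (b i / b 0) = y i / y 0` are images of elements of `Kb`, so `a / b 0`, `b i / b 0` are algebraic over `K`.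
-/

namespace Pool.H91.HR

open Finset IntermediateField

universe u

theorem gen_thm (γ : ℕ) : ∃ D : ℕ, ∀ {K L : Type u} [Field K] [CharZero K] [Field L] [Algebra K L]
    (t : L), Transcendental K t → FiniteDimensional K⟮t⟯ L → Module.finrank K⟮t⟯ L ≤ γ →
    ∀ {d : ℕ}, D ≤ d → ∀ (a : L) (b : Fin d → L), (∀ i, b i ≠ 0) →
    (∀ V : Finset (Fin d), IsSquare (a + ∑ i ∈ V, b i)) →
    ∃ h : L, h ≠ 0 ∧ IsAlgebraic K (a / h) ∧ ∀ i, IsAlgebraic K (b i / h) := by
  obtain ⟨D, hD⟩ := alg_thm.{u} γ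
  refine ⟨max D 1, ?_⟩
  intro K L _ _ _ _ t ht hfd hγ d hd a b hb hsq
  have hd1 : 1 ≤ d := le_trans (le_max_right _ _) hd
  have hdD : D ≤ d := le_trans (le_max_left _ _) hd
  obtain ⟨Kb, Lb, iK, iL, iA, ι, hac, hcz, htr, hfdb, hγb, halg⟩ := base_pkg t ht hfd γ hγ
  haveI := hac
  haveI := hcz
  have hb' : ∀ i, ι (b i) ≠ 0 := fun i h0 => hb i ((map_eq_zero ι).1 h0)
  have hsq' : ∀ V : Finset (Fin d), IsSquare (ι a + ∑ i ∈ V, ι (b i)) := by
    intro V
    have h1 := (hsq V).map ι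
    rwa [map_add, map_sum] at h1
  obtain ⟨h, x, y, hh, hax, hby⟩ := hD (ι t) htr hfdb hγb hdD (ι a) (fun i => ι (b i)) hb' hsq'
  set i0 : Fin d := ⟨0, hd1⟩ with hi0
  have hy0 : algebraMap Kb Lb (y i0) ≠ 0 := by
    intro h0
    apply hb' i0
    have := hby i0
    simp only [h0, zero_mul] at this
    exact this
  refine ⟨b i0, hb i0, ?_, ?_⟩
  · apply halg
    refine ⟨x / y i0, ?_⟩
    rw [map_div₀, map_div₀, hax, hby i0]
    exact mul_div_mul_right _ _ hh
  · intro i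
    apply halg
    refine ⟨y i / y i0, ?_⟩
    rw [map_div₀, map_div₀, hby i, hby i0]
    exact mul_div_mul_right _ _ hh

end Pool.H91.HR
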