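import Mathlib

set_option autoImplicit false

/-!
Row GE1 (project MP_259062_HR): splitting off one variable.

PROOF. `T : Fin (k+1) → L`, `F = IntermediateField.adjoin K (range (T ∘ Fin.castSucc))`, `t = T (Fin.last k)`, `E = IntermediateField.adjoin K (range T) = F⟮t⟯` (as subfields). `K1 = algebraicClosure F L` (the elements of `L` algebraic
over `F`), as a field with its `K`-algebra structure (e.g. `(algebraicClosure F L).restrictScalars K`, an `IntermediateField K L`). `T' j = ⟨T j.castSucc, _⟩ ∈ K1`.
* `AlgebraicIndependent K T'`: the composition with the injective `K1 → L` is a subfamily of `T` (`AlgebraicIndependent.comp`, `.of_ringHom...`/`AlgHom.algebraicIndependent_iff`-type lemma).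
* `t` is transcendental over `K1`: `t` is transcendental over `F` (algebraic independence: `algebraicIndependent_fin_succ`-type / `AlgebraicIndependent.option_iff`, `transcendental_adjoin...`), and `K1 / F` is algebraic.
* `L` is finite over `K1⟮t⟯` of degree `≤ γ`: `E ≤ K1⟮t⟯` as subfields, so an `E`-spanning set of `L` spans over `K1⟮t⟯`.
* elements of `L` algebraic over `K1` are algebraic over `F`, so in `K1`.
* `[K1 : F] ≤ γ`: let `y_1..y_s ∈ K1` be linearly independent over `F`; then they are linearly independent over `E = F⟮t⟯`: from `sum r_j(t) y_j = 0` with `r_j ∈ F⟮t⟯` clear denominators: `sum p_j(t) y_j = 0`, `p_j ∈ F[X]`; this is a polynomial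
in `t` with coefficients `sum_j (coeff_i p_j) y_j ∈ K1`, and `t` is transcendental over `K1`, so all of these vanish, so all `coeff_i p_j = 0`. So `s ≤ finrank E L ≤ γ`. Hence `K1 / F` is finite of degree `≤ γ`
(`FiniteDimensional` from the bound on independent families), and `IntermediateField.adjoin K (range T')` inside `K1` is the copy of `F`.
-/

namespace Pool.H91.HR

open IntermediateField

universe u

theorem GE1_fin {E M L : Type*} [Field E] [Field M] [Field L] [Algebra E L] [Algebra M L] (f : E →+* M)
    (hf : ∀ x, algebraMap M L (f x) = algebraMap E L x) (hfd : FiniteDimensional E L) :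
    FiniteDimensional M L ∧ Module.finrank M L ≤ Module.finrank E L := by
  letI : Algebra E M := f.toAlgebra
  haveI : IsScalarTower E M L := IsScalarTower.of_algebraMap_eq fun x => (hf x).symm
  haveI h1 : FiniteDimensional M L := Module.Finite.of_restrictScalars_finite E M L
  haveI h2 : FiniteDimensional E M := FiniteDimensional.left E M L
  refine ⟨h1, ?_⟩
  have h3 := Module.finrank_mul_finrank E M L
  have h4 : 0 < Module.finrank E M := Module.finrank_pos
  rw [← h3]
  exact Nat.le_mul_of_pos_left _ h4

theorem GE1_frac {A L : Type*} [Field A] [Field L] [Algebra A L] (t x : L)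
    (hx : x ∈ A⟮t⟯) : ∃ a b : Polynomial A, Polynomial.aeval t b ≠ 0 ∧
      x * Polynomial.aeval t b = Polynomial.aeval t a := by
  obtain ⟨r, s, h⟩ := (IntermediateField.mem_adjoin_simple_iff A x).1 hx
  by_cases hs : Polynomial.aeval t s = 0
  · refine ⟨0, 1, by simp, ?_⟩
    rw [h, hs]
    simp
  · exact ⟨r, s, hs, by rw [h, div_mul_cancel₀ _ hs]⟩

theorem GE1_indep {A B L E : Type*} [Field A] [Field B] [Field L] [Algebra A B] [Algebra B L] [Algebra A L]
    [IsScalarTower A B L] [Field E] [Algebra E L] (t : L) (ht : Transcendental B t)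
    (hE : ∀ x : E, algebraMap E L x ∈ A⟮t⟯) {ι : Type*} (y : ι → B) (hy : LinearIndependent A y) :
    LinearIndependent E (fun i => algebraMap B L (y i)) := by
  classical
  rw [linearIndependent_iff']
  intro s g hg i hi
  choose a b hb hab using fun i => GE1_frac (A := A) t (algebraMap E L (g i)) (hE (g i))
  set p : ι → Polynomial A := fun i => a i * ∏ j ∈ s.erase i, b j with hp
  set Q : L := Polynomial.aeval t (∏ j ∈ s, b j) with hQ
  have hQ0 : Q ≠ 0 := by
    rw [hQ, map_prod]
    exact Finset.prod_ne_zero_iff.2 fun j _ => hb j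
  have hpi : ∀ i ∈ s, algebraMap E L (g i) * Q = Polynomial.aeval t (p i) := by
    intro i hi
    rw [hQ, hp, ← Finset.mul_prod_erase s b hi, map_mul]
    show _ = Polynomial.aeval t (a i * ∏ j ∈ s.erase i, b j)
    rw [map_mul, ← hab i]
    ring
  have hsum : ∑ i ∈ s, Polynomial.aeval t (p i) * algebraMap B L (y i) = 0 := by
    have h1 : ∑ i ∈ s, Polynomial.aeval t (p i) * algebraMap B L (y i)
        = (∑ i ∈ s, g i • algebraMap B L (y i)) * Q := by
      rw [Finset.sum_mul]
      refine Finset.sum_congr rfl fun i hi => ?_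
      rw [← hpi i hi, Algebra.smul_def]
      ring
    rw [h1, hg, zero_mul]
  set P : Polynomial B := ∑ i ∈ s, Polynomial.C (y i) * (p i).map (algebraMap A B) with hP
  have hP0 : Polynomial.aeval t P = 0 := by
    rw [hP, map_sum, ← hsum]
    refine Finset.sum_congr rfl fun i _ => ?_
    rw [map_mul, Polynomial.aeval_C, Polynomial.aeval_map_algebraMap, mul_comm]
  have hPz : P = 0 := by
    by_contra hne
    exact ht ⟨P, hne, hP0⟩
  have hcoef : ∀ n, ∀ i ∈ s, (p i).coeff n = 0 := by
    intro n
    have h1 : ∑ i ∈ s, (p i).coeff n • y i = 0 := by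
      have h2 : P.coeff n = 0 := by rw [hPz]; simp
      rw [hP, Polynomial.finsetSum_coeff] at h2
      rw [← h2]
      refine Finset.sum_congr rfl fun i _ => ?_
      rw [Polynomial.coeff_C_mul, Polynomial.coeff_map, Algebra.smul_def, mul_comm]
    exact fun i hi => linearIndependent_iff'.1 hy s (fun i => (p i).coeff n) h1 i hi
  have hpz : p i = 0 := Polynomial.ext fun n => by rw [hcoef n i hi]; simp
  have h5 := hpi i hi
  rw [hpz, map_zero] at h5
  have h6 : algebraMap E L (g i) = 0 := (mul_eq_zero.1 h5).resolve_right hQ0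
  exact (map_eq_zero (algebraMap E L)).1 h6

theorem tower_pkg {K L : Type u} [Field K] [CharZero K] [Field L] [Algebra K L] (k : ℕ) (T : Fin (k + 1) → L)
    (hT : AlgebraicIndependent K T) (hfd : FiniteDimensional (IntermediateField.adjoin K (Set.range T)) L)
    (γ : ℕ) (hγ : Module.finrank (IntermediateField.adjoin K (Set.range T)) L ≤ γ) :
    ∃ (K1 : IntermediateField K L) (T' : Fin k → K1), AlgebraicIndependent K T' ∧
      FiniteDimensional (IntermediateField.adjoin K (Set.range T')) K1 ∧
      Module.finrank (IntermediateField.adjoin K (Set.range T')) K1 ≤ γ ∧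
      Transcendental K1 (T (Fin.last k)) ∧ FiniteDimensional K1⟮T (Fin.last k)⟯ L ∧
      Module.finrank K1⟮T (Fin.last k)⟯ L ≤ γ ∧ ∀ z : L, IsAlgebraic K1 z → z ∈ K1 := by
  classical
  set F : IntermediateField K L := IntermediateField.adjoin K (Set.range fun j : Fin k => T j.castSucc) with hF
  set K1 : IntermediateField K L := (algebraicClosure F L).restrictScalars K with hK1def
  have hK1 : ∀ z : L, z ∈ K1 ↔ IsAlgebraic F z := fun z => mem_algebraicClosure_iff
  have hcl : ∀ z : L, IsAlgebraic K1 z → z ∈ K1 := by
    intro z hz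
    have h1 : IsAlgebraic (algebraicClosure F L) z := hz
    have h2 : IsIntegral F z := isIntegral_trans z h1.isIntegral
    exact (hK1 z).2 h2.isAlgebraic
  have hTF : ∀ j : Fin k, T j.castSucc ∈ F := fun j =>
    IntermediateField.subset_adjoin K _ ⟨j, rfl⟩
  have hTK : ∀ j : Fin k, T j.castSucc ∈ K1 := fun j =>
    (hK1 _).2 (isAlgebraic_algebraMap (⟨T j.castSucc, hTF j⟩ : F))
  set T' : Fin k → K1 := fun j => ⟨T j.castSucc, hTK j⟩ with hT'
  set A : IntermediateField K K1 := IntermediateField.adjoin K (Set.range T') with hA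
  set t : L := T (Fin.last k) with ht
  -- independence of T'
  have hind : AlgebraicIndependent K T' := by
    have h1 : AlgebraicIndependent K (fun j : Fin k => T j.castSucc) :=
      hT.comp (fun j : Fin k => j.castSucc) (Fin.castSucc_injective k)
    exact AlgebraicIndependent.of_comp K1.val h1
  -- transcendence
  have htF : Transcendental F t := by
    have h1 := hT.transcendental_adjoin (s := Set.range (Fin.castSucc : Fin k → Fin (k + 1))) (i := Fin.last k)
      (by
        rintro ⟨j, hj⟩
        exact (Fin.castSucc_lt_last j).ne hj)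
    rw [← Set.range_comp] at h1
    exact (IntermediateField.transcendental_adjoin_iff).2 h1
  have htK1 : Transcendental K1 t := fun h => htF ((hK1 t).1 (hcl t h))
  -- the big field is generated by A and t
  have hE : ∀ x : IntermediateField.adjoin K (Set.range T), algebraMap _ L x ∈ A⟮t⟯ := by
    have h1 : IntermediateField.adjoin K (Set.range T) ≤ (A⟮t⟯).restrictScalars K := by
      rw [IntermediateField.adjoin_le_iff]
      rintro _ ⟨j, rfl⟩
      show T j ∈ A⟮t⟯
      refine Fin.lastCases ?_ (fun j => ?_) j
      · exact IntermediateField.mem_adjoin_simple_self A t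
      · have h2 : T' j ∈ A := IntermediateField.subset_adjoin K _ ⟨j, rfl⟩
        have h3 := (A⟮t⟯).algebraMap_mem (⟨T' j, h2⟩ : A)
        exact h3
    intro x
    exact h1 x.2
  -- A-finiteness of K1
  have hrank : Module.rank A K1 ≤ γ := by
    refine rank_le fun s hs => ?_
    have h1 := GE1_indep (A := A) (B := K1) (E := IntermediateField.adjoin K (Set.range T)) t htK1 hE _ hs
    have h2 := h1.fintype_card_le_finrank
    rw [Fintype.card_coe] at h2
    exact h2.trans hγ
  have hfin : FiniteDimensional A K1 :=
    Module.rank_lt_aleph0_iff.1 (hrank.trans_lt (Cardinal.natCast_lt_aleph0))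
  -- finiteness over K1(t)
  have hE2 : ∀ x : IntermediateField.adjoin K (Set.range T), (x : L) ∈ K1⟮t⟯ := by
    have h1 : IntermediateField.adjoin K (Set.range T) ≤ (K1⟮t⟯).restrictScalars K := by
      rw [IntermediateField.adjoin_le_iff]
      rintro _ ⟨j, rfl⟩
      show T j ∈ K1⟮t⟯
      refine Fin.lastCases ?_ (fun j => ?_) j
      · exact IntermediateField.mem_adjoin_simple_self K1 t
      · exact (K1⟮t⟯).algebraMap_mem (⟨T j.castSucc, hTK j⟩ : K1)
    intro x
    exact h1 x.2
  let f : IntermediateField.adjoin K (Set.range T) →+* K1⟮t⟯ :=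
    { toFun := fun x => ⟨x, hE2 x⟩
      map_one' := rfl
      map_mul' := fun _ _ => rfl
      map_zero' := rfl
      map_add' := fun _ _ => rfl }
  obtain ⟨hfin2, hle2⟩ := GE1_fin f (fun _ => rfl) hfd
  exact ⟨K1, T', hind, hfin, Module.finrank_le_of_rank_le hrank, htK1, hfin2, hle2.trans hγ, hcl⟩

end Pool.H91.HR
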