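import Pool.Agent.H91.HR.GD
import Pool.Agent.H91.HR.GE1

/-!
Row GE (project MP_259062_HR): several variables.

PROOF of `multi`. `D' = max D 1`, `D` from `gen_thm γ`. Induction on `k`, for all `K`, `L`, `T`, `a`, `b` (`d` fixed, `D' ≤ d`).
`k = 0`: `L` is finite over `adjoin K (range T) = ⊥` (`Fin 0` is empty), so algebraic over `K`; `h = 1`.
`k + 1`: `tower_pkg` gives `K1`, `T'`. `gen_thm` over `K1` with `t = T (last k)`: `h0 ≠ 0` with `a / h0`, `b i / h0` algebraic over `K1`, so in `K1`. `b 0 ≠ 0` (`d ≥ 1`), so `a ≠ 0` or `a + b 0 ≠ 0`: a vertex `w = a + sum over V0 of b ≠ 0`.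
`a / w = (a/h0)/(w/h0) ∈ K1`, `b i / w ∈ K1`. The cube `a / w`, `b i / w` as elements `a1`, `b1 i` of `K1`: nonzero generators; vertex `V` is `(vertex)/w`, a quotient of two squares of `L`, so the square of some `s ∈ L`; `s` is algebraic over `K1`
(`s^2 ∈ K1`), so `s ∈ K1`, and the vertex is a square in `K1`. Induction hypothesis for `K`, `K1`, `T'`: `h1 ∈ K1` nonzero, `a1 / h1`, `b1 i / h1` algebraic over `K`. Take `h = w * h1`: `a / h = a1 / h1` (images in `L` of elements algebraic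
over `K` are algebraic).
PROOF of `final_thm`. `D' = max D 1`. `multi` gives `h0`; `w = g * g` a nonzero vertex as above, `g ≠ 0`; `h = g`, `x = a / g^2 = (a/h0)/(w/h0)` is algebraic over `K`, `y i = b i / g^2` too, `y i ≠ 0`. `x + sum over V of y = (vertex V)/w = (f/g)^2` with `f^2` the vertex;
`z = f / g` is algebraic since `z^2` is (`IsAlgebraic.of_pow`).
-/

set_option autoImplicit false

namespace Pool.H91.HR

open Finset IntermediateField

universe u

theorem GE_vertex {L : Type u} [Field L] {d : ℕ} (hd : 1 ≤ d) (a : L) (b : Fin d → L)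
    (hb : ∀ i, b i ≠ 0) : ∃ V0 : Finset (Fin d), a + ∑ i ∈ V0, b i ≠ 0 := by
  by_cases ha : a = 0
  · refine ⟨{⟨0, hd⟩}, ?_⟩
    rw [Finset.sum_singleton, ha, zero_add]
    exact hb _
  · exact ⟨∅, by simpa using ha⟩

theorem GE_div {K L : Type u} [Field K] [Field L] [Algebra K L] {h x w : L} (hh : h ≠ 0)
    (hx : IsAlgebraic K (x / h)) (hw : IsAlgebraic K (w / h)) : IsAlgebraic K (x / w) := by
  have e : x / w = (x / h) * (w / h)⁻¹ := by
    rw [inv_div, div_mul_div_cancel₀ hh]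
  rw [e]
  exact hx.mul hw.inv

theorem GE_sum {K L : Type u} [Field K] [Field L] [Algebra K L] {h : L} {d : ℕ} (a : L)
    (b : Fin d → L) (ha : IsAlgebraic K (a / h)) (hb : ∀ i, IsAlgebraic K (b i / h))
    (V : Finset (Fin d)) : IsAlgebraic K ((a + ∑ i ∈ V, b i) / h) := by
  rw [← mem_algebraicClosure_iff] at ha ⊢
  rw [add_div, Finset.sum_div]
  refine add_mem ha (sum_mem fun i _ => ?_)
  rw [mem_algebraicClosure_iff]
  exact hb i

theorem GE_zero {K L : Type u} [Field K] [Field L] [Algebra K L] (T : Fin 0 → L)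
    (hfd : FiniteDimensional (IntermediateField.adjoin K (Set.range T)) L) (z : L) :
    IsAlgebraic K z := by
  have hE : IntermediateField.adjoin K (Set.range T) = ⊥ := by
    rw [Set.range_eq_empty, IntermediateField.adjoin_empty]
  rw [hE] at hfd
  have h1 : Algebra.IsAlgebraic (⊥ : IntermediateField K L) L := Algebra.IsAlgebraic.of_finite _ _
  have h2 : Algebra.IsAlgebraic K (⊥ : IntermediateField K L) := by
    refine ⟨fun x => ?_⟩
    obtain ⟨c, hc⟩ := IntermediateField.mem_bot.1 x.2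
    have h3 : x = algebraMap K (⊥ : IntermediateField K L) c := Subtype.ext hc.symm
    rw [h3]
    exact isAlgebraic_algebraMap c
  have h3 : Algebra.IsAlgebraic K L := Algebra.IsAlgebraic.trans K (⊥ : IntermediateField K L) L
  exact h3.isAlgebraic z

theorem multi (γ : ℕ) : ∃ D : ℕ, ∀ (k : ℕ) {K L : Type u} [Field K] [CharZero K] [Field L] [Algebra K L]
    (T : Fin k → L), AlgebraicIndependent K T → FiniteDimensional (IntermediateField.adjoin K (Set.range T)) L →
    Module.finrank (IntermediateField.adjoin K (Set.range T)) L ≤ γ →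
    ∀ {d : ℕ}, D ≤ d → ∀ (a : L) (b : Fin d → L), (∀ i, b i ≠ 0) →
    (∀ V : Finset (Fin d), IsSquare (a + ∑ i ∈ V, b i)) →
    ∃ h : L, h ≠ 0 ∧ IsAlgebraic K (a / h) ∧ ∀ i, IsAlgebraic K (b i / h) := by
  obtain ⟨D, hD⟩ := gen_thm.{u} γ
  refine ⟨max D 1, fun k => ?_⟩
  induction k with
  | zero =>
    intro K L _ _ _ _ T hT hfd hγ d hd a b hb hsq
    exact ⟨1, one_ne_zero, GE_zero T hfd _, fun i => GE_zero T hfd _⟩
  | succ k ih =>
    intro K L _ _ _ _ T hT hfd hγ d hd a b hb hsq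
    obtain ⟨K1, T', hT', hfd', hγ', htr, hfd1, hγ1, hcl⟩ := tower_pkg k T hT hfd γ hγ
    have hcz : CharZero K1 := charZero_of_injective_algebraMap (algebraMap K K1).injective
    obtain ⟨h0, hh0, ha0, hb0⟩ := hD (K := K1) (L := L) (T (Fin.last k)) htr hfd1 hγ1
      ((le_max_left _ _).trans hd) a b hb hsq
    obtain ⟨V0, hV0⟩ := GE_vertex ((le_max_right _ _).trans hd) a b hb
    obtain ⟨w, hw⟩ : ∃ w, w = a + ∑ i ∈ V0, b i := ⟨_, rfl⟩
    rw [← hw] at hV0
    have hwa : IsAlgebraic K1 (w / h0) := by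
      rw [hw]
      exact GE_sum a b ha0 hb0 V0
    obtain ⟨g, hg⟩ := hsq V0
    rw [← hw] at hg
    have haw : a / w ∈ K1 := hcl _ (GE_div hh0 ha0 hwa)
    have hbw : ∀ i, b i / w ∈ K1 := fun i => hcl _ (GE_div hh0 (hb0 i) hwa)
    obtain ⟨h1, hh1, ha1, hb1⟩ := ih (K := K) (L := K1) T' hT' hfd' hγ' hd ⟨a / w, haw⟩
      (fun i => ⟨b i / w, hbw i⟩)
      (fun i h => by
        have h2 : b i / w = 0 := congrArg Subtype.val h
        rcases div_eq_zero_iff.1 h2 with h3 | h3
        · exact hb i h3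
        · exact hV0 h3)
      (fun V => by
        obtain ⟨s, hs⟩ := hsq V
        have e1 : a / w + ∑ i ∈ V, b i / w = (s / g) * (s / g) := by
          rw [← Finset.sum_div, ← add_div, hs, hg, mul_div_mul_comm]
        have h2 : s / g ∈ K1 := by
          apply hcl
          apply IsAlgebraic.of_pow (n := 2) (by norm_num)
          rw [sq, ← e1, ← Finset.sum_div, ← add_div]
          exact GE_div hh0 (GE_sum a b ha0 hb0 V) hwa
        refine ⟨⟨s / g, h2⟩, ?_⟩
        apply (algebraMap K1 L).injective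
        rw [map_add, map_sum, map_mul]
        exact e1)
    refine ⟨w * (h1 : L), mul_ne_zero hV0 (fun h => hh1 (Subtype.ext h)), ?_, fun i => ?_⟩
    · have h2 := ha1.algebraMap (A := L)
      have e : algebraMap K1 L (⟨a / w, haw⟩ / h1) = a / (w * (h1 : L)) := by
        rw [map_div₀]
        change a / w / (h1 : L) = _
        rw [div_div]
      rwa [e] at h2
    · have h2 := (hb1 i).algebraMap (A := L)
      have e : algebraMap K1 L (⟨b i / w, hbw i⟩ / h1) = b i / (w * (h1 : L)) := by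
        rw [map_div₀]
        change b i / w / (h1 : L) = _
        rw [div_div]
      rwa [e] at h2

theorem final_thm (γ : ℕ) : ∃ D : ℕ, ∀ (k : ℕ) {K L : Type u} [Field K] [CharZero K] [Field L] [Algebra K L]
    (T : Fin k → L), AlgebraicIndependent K T → FiniteDimensional (IntermediateField.adjoin K (Set.range T)) L →
    Module.finrank (IntermediateField.adjoin K (Set.range T)) L ≤ γ →
    ∀ {d : ℕ}, D ≤ d → ∀ (a : L) (b : Fin d → L), (∀ i, b i ≠ 0) →
    (∀ V : Finset (Fin d), IsSquare (a + ∑ i ∈ V, b i)) →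
    ∃ (h x : L) (y : Fin d → L), h ≠ 0 ∧ a = x * h ^ 2 ∧ (∀ i, b i = y i * h ^ 2) ∧ IsAlgebraic K x ∧
      (∀ i, IsAlgebraic K (y i) ∧ y i ≠ 0) ∧
      ∀ V : Finset (Fin d), ∃ z : L, IsAlgebraic K z ∧ x + ∑ i ∈ V, y i = z ^ 2 := by
  obtain ⟨D, hD⟩ := multi.{u} γ
  refine ⟨max D 1, ?_⟩
  intro k K L _ _ _ _ T hT hfd hγ d hd a b hb hsq
  obtain ⟨h0, hh0, ha0, hb0⟩ := hD k T hT hfd hγ ((le_max_left _ _).trans hd) a b hb hsq
  obtain ⟨V0, hV0⟩ := GE_vertex ((le_max_right _ _).trans hd) a b hb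
  obtain ⟨w, hw⟩ : ∃ w, w = a + ∑ i ∈ V0, b i := ⟨_, rfl⟩
  rw [← hw] at hV0
  have hwa : IsAlgebraic K (w / h0) := by
    rw [hw]
    exact GE_sum a b ha0 hb0 V0
  obtain ⟨g, hg⟩ := hsq V0
  rw [← hw] at hg
  have hg0 : g ≠ 0 := by
    intro h
    apply hV0
    rw [hg, h, mul_zero]
  have hgw : g ^ 2 = w := by rw [hg, sq]
  refine ⟨g, a / w, fun i => b i / w, hg0, ?_, fun i => ?_, GE_div hh0 ha0 hwa,
    fun i => ⟨GE_div hh0 (hb0 i) hwa, div_ne_zero (hb i) hV0⟩, fun V => ?_⟩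
  · rw [hgw, div_mul_cancel₀ _ hV0]
  · rw [hgw, div_mul_cancel₀ _ hV0]
  · obtain ⟨s, hs⟩ := hsq V
    have e1 : a / w + ∑ i ∈ V, b i / w = (s / g) ^ 2 := by
      rw [← Finset.sum_div, ← add_div, hs, hg, mul_div_mul_comm, sq]
    refine ⟨s / g, ?_, e1⟩
    apply IsAlgebraic.of_pow (n := 2) (by norm_num)
    rw [← e1, ← Finset.sum_div, ← add_div]
    exact GE_div hh0 (GE_sum a b ha0 hb0 V) hwa

end Pool.H91.HR
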