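import Pool.Agent.H91.HR.KM

set_option autoImplicit false

/-!
Row KA (project MP_259062_HR): basic facts on a cube `Cu p m n b e`.

PROOFS.
* `ka_flip`: `symmDiff V W = (V \ W) ∪ (W \ V)`; `sum over symmDiff V W of b = sum over V of b + sum over W of (if i ∈ V then - b i else b i)`.
* `ka_bne`: take `j ≠ i` (`two`), `ind i j` with `c = 0`. `ka_bge`: `b i = wv b {i} - wv b ∅`, `mo.lb`. `ka_fsge`: `ge_sum`, `ge_neg`.
* `ka_coin`: `fs b V W = wv b (symmDiff V W) - wv b V` (`ka_flip`), both terms have order `≥ e + s` by membership in `Iv`.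
* `ka_edge`: otherwise `ka_coin` with `W = {i}`: `fs b V {i} = ± b i` has order `≥ e + s`, contradicting `i ∈ Sv`.
* `ka_half`: `i ∈ Sv`; `Iv` and its image under the involution `V ↦ symmDiff V {i}` are disjoint, of equal size, inside the `2^m` finsets.
* `ka_Sne`: if `Sv` is empty all `b i` have order `≥ e + s` at `P`; with `V ∈ Iv`, for every `V'`, `wv b V' = wv b V + (sum over V' of b - sum over V of b)`
  has order `≥ e + s ≥ e + 1`, contradicting `mo.att P`.
* `ka_anti`: `ge_mono`.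
* `ka_count`: for nonzero `x` with `e P ≤ v P x` and `P`: the number of `s ∈ Icc 1 n` with `e P + s ≤ v P x` is `min n (v P x - e P)`; by `mo_sum_le`
  with `S = {P}`, `v P x - e P ≤ n`. So the number is `v P x - e P`.
* `ka_mass`: the filter over the product `Zs ×ˢ Icc 1 n` is the sum over `P ∈ Zs` of the numbers in `ka_count`; `mo_sum_eq` with `S = Zs` (outside `Zs`
  `v P (wv b V) = e P`; the set in the definition of `Zs` is finite: finite union over `V` of the sets of `mo_fin`).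
* `ka_bcount`: the same with `x = b i`, `mo_sum_le`.
* `ka_mem`: `V ∈ Iv (P, s)`, `s ≥ 1`: `v P (wv b V) ≠ e P`, so `P ∈ Zs`; `s ≤ v - e ≤ n`.
-/

namespace Pool.H91.HR

open Finset

universe u

theorem ka_flip {L : Type u} [Field L] {m : ℕ} (b : Fin m → L) (V W : Finset (Fin m)) :
    wv b (symmDiff V W) = wv b V + fs b V W := by
  have e : ∀ (S : Finset (Fin m)) (g : Fin m → L),
      ∑ i ∈ S, g i = ∑ i, if i ∈ S then g i else 0 := by
    intro S g
    rw [Finset.sum_ite_mem, Finset.univ_inter]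
  rw [wv, wv, fs, add_assoc, e (symmDiff V W), e V, e W, ← Finset.sum_add_distrib]
  congr 1
  refine Finset.sum_congr rfl fun i _ => ?_
  by_cases hV : i ∈ V <;> by_cases hW : i ∈ W <;> simp [Finset.mem_symmDiff, hV, hW]

variable {K L : Type u} [Field K] [Field L] [Algebra K L] {p : PS K L} {m n : ℕ} {b : Fin m → L} {e : p.I → ℤ}

private theorem ka_mem_Iv (q : p.I × ℕ) (V : Finset (Fin m)) :
    V ∈ Iv p b e q ↔ wv b V ≠ 0 ∧ e q.1 + (q.2 : ℤ) ≤ p.v q.1 (wv b V) := by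
  classical
  rw [Iv, Finset.mem_filter]
  exact ⟨fun h => h.2, fun h => ⟨Finset.mem_univ _, h⟩⟩

private theorem ka_mem_Sv (q : p.I × ℕ) (i : Fin m) :
    i ∈ Sv p b e q ↔ ¬ p.ge q.1 (e q.1 + (q.2 : ℤ)) (b i) := by
  classical
  rw [Sv, Finset.mem_filter]
  exact ⟨fun h => h.2, fun h => ⟨Finset.mem_univ _, h⟩⟩

theorem ka_bne (h : Cu p m n b e) (i : Fin m) : b i ≠ 0 := by
  intro h0
  have hm := h.two
  have : Nontrivial (Fin m) := Fin.nontrivial_iff_two_le.2 hm
  obtain ⟨j, hj⟩ := exists_ne i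
  apply h.ind i j hj.symm 0
  rw [h0, map_zero, zero_mul]

theorem ka_bge (h : Cu p m n b e) (P : p.I) (i : Fin m) : p.ge P (e P) (b i) := by
  have e1 : b i = wv b {i} - wv b ∅ := by
    rw [wv, wv, Finset.sum_singleton, Finset.sum_empty]
    ring
  rw [e1]
  exact ge_sub p P (h.mo.lb P {i}) (h.mo.lb P ∅)

theorem ka_fsge (h : Cu p m n b e) (P : p.I) (V W : Finset (Fin m)) : p.ge P (e P) (fs b V W) := by
  rw [fs]
  refine ge_sum p P W _ _ fun i _ => ?_
  split_ifs
  · exact ge_neg p P (ka_bge h P i)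
  · exact ka_bge h P i

theorem ka_coin (h : Cu p m n b e) (q : p.I × ℕ) (V W : Finset (Fin m)) (hV : V ∈ Iv p b e q)
    (hW : symmDiff V W ∈ Iv p b e q) : p.ge q.1 (e q.1 + (q.2 : ℤ)) (fs b V W) := by
  have e1 : fs b V W = wv b (symmDiff V W) - wv b V := by
    rw [ka_flip]; ring
  rw [ka_mem_Iv] at hV hW
  rw [e1]
  exact ge_sub p q.1 (Or.inr hW.2) (Or.inr hV.2)

theorem ka_edge (h : Cu p m n b e) (q : p.I × ℕ) (V : Finset (Fin m)) (i : Fin m) (hV : V ∈ Iv p b e q)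
    (hi : i ∈ Sv p b e q) : symmDiff V {i} ∉ Iv p b e q := by
  intro hV'
  rw [ka_mem_Sv] at hi
  have h1 := ka_coin h q V {i} hV hV'
  rw [fs, Finset.sum_singleton] at h1
  split_ifs at h1
  · apply hi
    have := ge_neg p q.1 h1
    rwa [neg_neg] at this
  · exact hi h1

theorem ka_half (h : Cu p m n b e) (q : p.I × ℕ) (hS : (Sv p b e q).Nonempty) :
    2 * (Iv p b e q).card ≤ 2 ^ m := by
  obtain ⟨i, hi⟩ := hS
  have hinj : Function.Injective (fun V : Finset (Fin m) => symmDiff V {i}) :=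
    symmDiff_left_injective {i}
  have h1 : ((Iv p b e q).image (fun V : Finset (Fin m) => symmDiff V {i})).card =
      (Iv p b e q).card := Finset.card_image_of_injective _ hinj
  have h2 : Disjoint (Iv p b e q) ((Iv p b e q).image (fun V : Finset (Fin m) => symmDiff V {i})) := by
    rw [Finset.disjoint_left]
    intro V hV hV'
    obtain ⟨W, hW, hWV⟩ := Finset.mem_image.1 hV'
    apply ka_edge h q W i hW hi
    rw [hWV]
    exact hV
  have h3 := Finset.card_union_of_disjoint h2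
  have h4 : ((Iv p b e q) ∪ ((Iv p b e q).image (fun V : Finset (Fin m) => symmDiff V {i}))).card ≤
      2 ^ m := by
    refine (Finset.card_le_univ _).trans ?_
    rw [Fintype.card_finset, Fintype.card_fin]
  rw [h3, h1] at h4
  omega

theorem ka_Sne (h : Cu p m n b e) (q : p.I × ℕ) (hq : 1 ≤ q.2) (hI : (Iv p b e q).Nonempty) :
    (Sv p b e q).Nonempty := by
  by_contra hne
  rw [Finset.not_nonempty_iff_eq_empty] at hne
  have hb : ∀ i, p.ge q.1 (e q.1 + (q.2 : ℤ)) (b i) := by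
    intro i
    by_contra hi
    have : i ∈ Sv p b e q := (ka_mem_Sv q i).2 hi
    rw [hne] at this
    exact absurd this (Finset.notMem_empty i)
  obtain ⟨V, hV⟩ := hI
  rw [ka_mem_Iv] at hV
  obtain ⟨V', hV0, hV'⟩ := h.mo.att q.1
  have h1 : wv b V' = wv b V + (∑ i ∈ V', b i - ∑ i ∈ V, b i) := by
    rw [wv, wv]
    ring
  have h2 : p.ge q.1 (e q.1 + (q.2 : ℤ)) (wv b V') := by
    rw [h1]
    exact ge_add p q.1 (Or.inr hV.2) (ge_sub p q.1 (ge_sum p q.1 _ _ _ fun i _ => hb i)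
      (ge_sum p q.1 _ _ _ fun i _ => hb i))
  rw [ge_iff p q.1 _ hV0, hV'] at h2
  omega

theorem ka_anti (P : p.I) {s s' : ℕ} (hs : s ≤ s') : Sv p b e (P, s) ⊆ Sv p b e (P, s') := by
  intro i hi
  rw [ka_mem_Sv] at hi ⊢
  intro h
  apply hi
  refine ge_mono p P ?_ h
  have : (s : ℤ) ≤ (s' : ℤ) := by exact_mod_cast hs
  show e P + (s : ℤ) ≤ e P + (s' : ℤ)
  omega

private theorem ka_le (h : Cu p m n b e) (P : p.I) (x : L) (hx : x ≠ 0)
    (hge : ∀ P' : p.I, e P' ≤ p.v P' x) : p.v P x - e P ≤ n := by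
  have := mo_sum_le h.mo x hx hge {P}
  rwa [Finset.sum_singleton] at this

open Classical in
theorem ka_count (h : Cu p m n b e) (P : p.I) (x : L) (hx : x ≠ 0) (hge : ∀ P' : p.I, e P' ≤ p.v P' x) :
    (((Icc 1 n).filter (fun s : ℕ => e P + (s : ℤ) ≤ p.v P x)).card : ℤ) = p.v P x - e P := by
  have h1 := ka_le h P x hx hge
  have h2 := hge P
  obtain ⟨k, hk⟩ : ∃ k : ℕ, (k : ℤ) = p.v P x - e P := ⟨(p.v P x - e P).toNat, by omega⟩
  have h3 : (Icc 1 n).filter (fun s : ℕ => e P + (s : ℤ) ≤ p.v P x) = Icc 1 k := by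
    ext s
    rw [Finset.mem_filter, Finset.mem_Icc, Finset.mem_Icc]
    constructor
    · rintro ⟨⟨h4, h5⟩, h6⟩
      omega
    · rintro ⟨h4, h5⟩
      omega
  rw [h3, Nat.card_Icc, ← hk]
  omega

private theorem ka_zfin (h : Cu p m n b e) :
    {P : p.I | ∃ V, wv b V ≠ 0 ∧ p.v P (wv b V) ≠ e P}.Finite := by
  have h1 : (⋃ V : Finset (Fin m), {P : p.I | wv b V ≠ 0 ∧ p.v P (wv b V) ≠ e P}).Finite := by
    refine Set.finite_iUnion fun V => ?_
    by_cases hV : wv b V = 0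
    · convert Set.finite_empty
      ext P
      simp [hV]
    · refine (mo_fin h.mo (wv b V) hV).subset ?_
      rintro P ⟨-, h2⟩
      exact h2
  refine h1.subset ?_
  rintro P ⟨V, hV⟩
  exact Set.mem_iUnion.2 ⟨V, hV⟩

private theorem ka_mem_Zs (h : Cu p m n b e) (P : p.I) :
    P ∈ Zs p b e ↔ ∃ V, wv b V ≠ 0 ∧ p.v P (wv b V) ≠ e P := by
  rw [Zs, dif_pos (ka_zfin h), Set.Finite.mem_toFinset]
  rfl

private theorem ka_lb (h : Cu p m n b e) (V : Finset (Fin m)) (hV : wv b V ≠ 0) (P : p.I) :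
    e P ≤ p.v P (wv b V) := by
  have := h.mo.lb P V
  rwa [ge_iff p P _ hV] at this

open Classical in
private theorem ka_sum (h : Cu p m n b e) (x : L) (hx : x ≠ 0) (hge : ∀ P' : p.I, e P' ≤ p.v P' x) :
    (((Pts p b e n).filter (fun q => e q.1 + (q.2 : ℤ) ≤ p.v q.1 x)).card : ℤ) =
      ∑ P ∈ Zs p b e, (p.v P x - e P) := by
  rw [Finset.card_filter, Pts, Finset.sum_product]
  push_cast
  refine Finset.sum_congr rfl fun P _ => ?_
  rw [← ka_count h P x hx hge, Finset.card_filter]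
  push_cast
  rfl

open Classical in
theorem ka_mass (h : Cu p m n b e) (V : Finset (Fin m)) (hV : wv b V ≠ 0) :
    ((Pts p b e n).filter (fun q => V ∈ Iv p b e q)).card = n := by
  have h1 := ka_sum h (wv b V) hV (ka_lb h V hV)
  have h2 := mo_sum_eq h.mo (wv b V) hV (Zs p b e) (fun P hP => by
    by_contra hne
    exact hP ((ka_mem_Zs h P).2 ⟨V, hV, hne⟩))
  have h3 : (Pts p b e n).filter (fun q => V ∈ Iv p b e q) =
      (Pts p b e n).filter (fun q => e q.1 + (q.2 : ℤ) ≤ p.v q.1 (wv b V)) := by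
    refine Finset.filter_congr fun q _ => ?_
    rw [ka_mem_Iv]
    exact ⟨fun h => h.2, fun h => ⟨hV, h⟩⟩
  rw [h3]
  rw [h2] at h1
  exact_mod_cast h1

open Classical in
theorem ka_bcount (h : Cu p m n b e) (i : Fin m) :
    ((Pts p b e n).filter (fun q => i ∉ Sv p b e q)).card ≤ n := by
  have hb := ka_bne h i
  have hge : ∀ P' : p.I, e P' ≤ p.v P' (b i) := fun P' => by
    have := ka_bge h P' i
    rwa [ge_iff p P' _ hb] at this
  have h1 := ka_sum h (b i) hb hge
  have h2 := mo_sum_le h.mo (b i) hb hge (Zs p b e)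
  have h3 : (Pts p b e n).filter (fun q => i ∉ Sv p b e q) =
      (Pts p b e n).filter (fun q => e q.1 + (q.2 : ℤ) ≤ p.v q.1 (b i)) := by
    refine Finset.filter_congr fun q _ => ?_
    rw [ka_mem_Sv, not_not, ge_iff p q.1 _ hb]
  rw [h3]
  rw [← h1] at h2
  exact_mod_cast h2

theorem ka_mem (h : Cu p m n b e) (q : p.I × ℕ) (V : Finset (Fin m)) (hV : V ∈ Iv p b e q) (hq : 1 ≤ q.2) :
    q ∈ Pts p b e n := by
  rw [ka_mem_Iv] at hV
  obtain ⟨h1, h2⟩ := hV
  have h3 := ka_le h q.1 (wv b V) h1 (ka_lb h V h1)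
  rw [Pts, Finset.mem_product, Finset.mem_Icc, ka_mem_Zs h]
  refine ⟨⟨V, h1, ?_⟩, hq, ?_⟩
  · omega
  · omega

end Pool.H91.HR
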