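import Pool.Agent.H91.HR.KA
import Pool.Agent.H91.HQ.LO

set_option autoImplicit false

/-!
Row KB (project MP_259062_HR): few points have small support; few vertices are zero; mass of the points with large support.

PROOF of `kb_junta`. `sum over q ∈ Pts of #(univ \ Sv q) = sum over i of #{q ∈ Pts | i ∉ Sv q} ≤ m n` (`ka_bcount`). Each `q` with `#(Sv q) ≤ M` contributes
`m - #(Sv q) ≥ m - M ≥ 9 m / 10`. So `X * 9 m ≤ 10 m n`; cancel `m ≥ 2`.
PROOF of `kb_zero`. `wv b V = 0` iff `sum over V of b = -1`: `HQ.lo` with `E = L`, `g = b`, `S = univ` (`ka_bne`), `x = -1`.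
PROOF of `kb_mass`. `sum over q ∈ Pts of #(Iv q ∩ Bg) = sum over V ∈ Bg of #{q ∈ Pts | V ∈ Iv q} = n * #Bg ≥ (49/50) n 2^m` (`ka_mass`). For `q ∈ Pts`
(so `q.2 ≥ 1`) with `#(Sv q) ≤ M`: `#(Iv q ∩ Bg) ≤ #(Iv q) ≤ 2^m/2` (empty, or `ka_Sne`, `ka_half`); there are at most `10 n / 9` such `q`
(`kb_junta`), total `≤ (5/9) n 2^m`. `49/50 - 5/9 ≥ 2/5`.
-/

namespace Pool.H91.HR

open Finset

universe u

variable {K L : Type u} [Field K] [Field L] [Algebra K L] {p : PS K L} {m n : ℕ} {b : Fin m → L} {e : p.I → ℤ}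

open Classical in
theorem kb_junta (h : Cu p m n b e) (M : ℕ) (hM : 10 * M ≤ m) :
    9 * ((Pts p b e n).filter (fun q => (Sv p b e q).card ≤ M)).card ≤ 10 * n := by
  have h1 : ∑ i : Fin m, ((Pts p b e n).filter (fun q => i ∉ Sv p b e q)).card ≤ ∑ _i : Fin m, n :=
    sum_le_sum fun i _ => ka_bcount h i
  have h2 : ∑ i : Fin m, ((Pts p b e n).filter (fun q => i ∉ Sv p b e q)).card =
      ∑ q ∈ Pts p b e n, (univ.filter (fun i => i ∉ Sv p b e q)).card := by
    simp only [card_filter]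
    exact sum_comm
  have h3 : ∑ _i : Fin m, n = m * n := by
    rw [sum_const, smul_eq_mul, card_univ, Fintype.card_fin]
  have h4 : ∀ q ∈ (Pts p b e n).filter (fun q => (Sv p b e q).card ≤ M), m - M ≤
      (univ.filter (fun i => i ∉ Sv p b e q)).card := by
    intro q hq
    have hq2 := (mem_filter.1 hq).2
    have h5 : univ.filter (fun i => i ∉ Sv p b e q) = (Sv p b e q)ᶜ := by
      ext i
      rw [mem_filter, mem_compl]
      exact ⟨fun h => h.2, fun h => ⟨mem_univ _, h⟩⟩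
    rw [h5, card_compl, Fintype.card_fin]
    omega
  have h5 : ((Pts p b e n).filter (fun q => (Sv p b e q).card ≤ M)).card * (m - M) ≤ m * n := by
    calc ((Pts p b e n).filter (fun q => (Sv p b e q).card ≤ M)).card * (m - M)
        = ∑ _q ∈ (Pts p b e n).filter (fun q => (Sv p b e q).card ≤ M), (m - M) := by
          rw [sum_const, smul_eq_mul]
      _ ≤ ∑ q ∈ (Pts p b e n).filter (fun q => (Sv p b e q).card ≤ M),
          (univ.filter (fun i => i ∉ Sv p b e q)).card := sum_le_sum h4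
      _ ≤ ∑ q ∈ Pts p b e n, (univ.filter (fun i => i ∉ Sv p b e q)).card :=
          sum_le_sum_of_subset (filter_subset _ _)
      _ ≤ m * n := by
          rw [← h2]
          exact h1.trans h3.le
  generalize ((Pts p b e n).filter (fun q => (Sv p b e q).card ≤ M)).card = Y at h5
  obtain ⟨u, hu⟩ : ∃ u, m - M = u := ⟨_, rfl⟩
  have h6 : 9 * m ≤ 10 * u := by omega
  rw [hu] at h5
  have hm := h.two
  have h8 : m * (9 * Y) ≤ m * (10 * n) := by
    calc m * (9 * Y) = Y * (9 * m) := by ring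
      _ ≤ Y * (10 * u) := Nat.mul_le_mul_left _ h6
      _ = 10 * (Y * u) := by ring
      _ ≤ 10 * (m * n) := Nat.mul_le_mul_left _ h5
      _ = m * (10 * n) := by ring
  exact Nat.le_of_mul_le_mul_left h8 (by omega)

open Classical in
theorem kb_zero [CharZero K] (h : Cu p m n b e) :
    ((univ.filter (fun V : Finset (Fin m) => wv b V = 0)).card) ^ 2 * (m + 1) ≤ 4 ^ m := by
  have h1 := HQ.lo (K := K) b univ (fun i _ => ka_bne h i) (-1)
  rw [card_univ, Fintype.card_fin] at h1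
  have h2 : univ.filter (fun V : Finset (Fin m) => wv b V = 0) =
      univ.filter (fun W : Finset (Fin m) => ∑ i ∈ W, b i = -1) := by
    ext V
    rw [mem_filter, mem_filter, wv]
    have h3 : 1 + ∑ i ∈ V, b i = 0 ↔ ∑ i ∈ V, b i = -1 := by
      constructor
      · intro h5
        exact (neg_eq_of_add_eq_zero_right h5).symm
      · intro h5
        rw [h5, add_neg_cancel]
    rw [h3]
  rw [h2]
  exact h1

open Classical in
theorem kb_mass (h : Cu p m n b e) (M : ℕ) (hM : 10 * M ≤ m) (Bg : Finset (Finset (Fin m)))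
    (hB : ∀ V ∈ Bg, wv b V ≠ 0) (hc : (49 / 50 : ℝ) * 2 ^ m ≤ (Bg.card : ℝ)) :
    (2 / 5 : ℝ) * ((n : ℝ) * 2 ^ m) ≤
      ∑ q ∈ (Pts p b e n).filter (fun q => M < (Sv p b e q).card), ((Iv p b e q ∩ Bg).card : ℝ) := by
  have h1 : ∑ q ∈ Pts p b e n, (Iv p b e q ∩ Bg).card = n * Bg.card := by
    have h2 : ∀ q : p.I × ℕ, (Iv p b e q ∩ Bg).card =
        ∑ V ∈ Bg, if V ∈ Iv p b e q then 1 else 0 := by
      intro q
      rw [inter_comm, ← filter_mem_eq_inter, card_filter]
    rw [sum_congr rfl fun q _ => h2 q, sum_comm]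
    have h3 : ∀ V ∈ Bg, (∑ q ∈ Pts p b e n, if V ∈ Iv p b e q then 1 else 0) = n := by
      intro V hV
      rw [← card_filter]
      exact ka_mass h V (hB V hV)
    rw [sum_congr rfl h3, sum_const, smul_eq_mul, mul_comm]
  have h1' : ∑ q ∈ Pts p b e n, ((Iv p b e q ∩ Bg).card : ℝ) = n * Bg.card := by
    exact_mod_cast h1
  have h4 := sum_filter_add_sum_filter_not (Pts p b e n) (fun q => (Sv p b e q).card ≤ M)
    (fun q => ((Iv p b e q ∩ Bg).card : ℝ))
  have h5 : ∑ q ∈ (Pts p b e n).filter (fun q => ¬ (Sv p b e q).card ≤ M),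
      ((Iv p b e q ∩ Bg).card : ℝ) =
      ∑ q ∈ (Pts p b e n).filter (fun q => M < (Sv p b e q).card), ((Iv p b e q ∩ Bg).card : ℝ) := by
    have h51 : (Pts p b e n).filter (fun q => ¬ (Sv p b e q).card ≤ M) =
        (Pts p b e n).filter (fun q => M < (Sv p b e q).card) := by
      ext q
      rw [mem_filter, mem_filter, not_le]
    rw [h51]
  have h6 : ∑ q ∈ (Pts p b e n).filter (fun q => (Sv p b e q).card ≤ M),
      ((Iv p b e q ∩ Bg).card : ℝ) ≤
      (((Pts p b e n).filter (fun q => (Sv p b e q).card ≤ M)).card : ℝ) * (2 ^ m / 2) := by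
    rw [← nsmul_eq_mul]
    refine sum_le_card_nsmul _ _ _ fun q hq => ?_
    have hq1 : 1 ≤ q.2 := by
      have hq0 := (mem_filter.1 hq).1
      unfold Pts at hq0
      exact (mem_Icc.1 (mem_product.1 hq0).2).1
    have h7 : 2 * (Iv p b e q).card ≤ 2 ^ m := by
      rcases (Iv p b e q).eq_empty_or_nonempty with h0 | h0
      · rw [h0, card_empty]
        positivity
      · exact ka_half h q (ka_Sne h q hq1 h0)
    have h8 : 2 * ((Iv p b e q).card : ℝ) ≤ 2 ^ m := by exact_mod_cast h7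
    have h9 : ((Iv p b e q ∩ Bg).card : ℝ) ≤ ((Iv p b e q).card : ℝ) := by
      exact_mod_cast card_le_card inter_subset_left
    linarith
  have h7 : 9 * (((Pts p b e n).filter (fun q => (Sv p b e q).card ≤ M)).card : ℝ) ≤ 10 * n := by
    exact_mod_cast kb_junta h M hM
  have h8 : (0 : ℝ) < 2 ^ m := by positivity
  have h9 : (0 : ℝ) ≤ n := Nat.cast_nonneg n
  rw [← h5]
  set Y : ℝ := (((Pts p b e n).filter (fun q => (Sv p b e q).card ≤ M)).card : ℝ) with hY
  have h10 : Y * (2 ^ m / 2) ≤ 10 * n / 9 * (2 ^ m / 2) :=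
    mul_le_mul_of_nonneg_right (by linarith) (by positivity)
  have h11 : (n : ℝ) * ((49 / 50 : ℝ) * 2 ^ m) ≤ n * (Bg.card : ℝ) :=
    mul_le_mul_of_nonneg_left hc h9
  nlinarith [mul_nonneg h9 h8.le]

end Pool.H91.HR
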