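import Pool.Agent.H91.HR.KA
import Pool.Agent.H91.HQ.CL

set_option autoImplicit false

/-!
Row KC (project MP_259062_HR): coincidences are rare, points with large support have small density.

PROOF of `kc_coin`. `M` from `HQ.clo R hR ε hε` (with `E : Type u`). Let `q = (P, s)`, `k = e P + s`. `E := L ⧸ (Ws p P k)` (a `K`-module), `g i :=` class of
`(if i ∈ V then -(b i) else b i)`, `S := Sv p b e q`: for `i ∈ S` the class is nonzero (`Submodule.Quotient.mk_eq_zero`, `mem_Ws`, `ge_neg`). If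
`symmDiff V (cs c Q) ∈ Iv q`, then with `V ∈ Iv q` and `ka_coin` `fs b V (cs c Q)` has order `≥ k`, i.e. `sum over cs c Q of g = 0` (`map_sum` for
`Submodule.mkQ`). So the set of `c` is contained in the set counted by `clo`. (See `Pool/Agent/H91/HQ/NK.lean`, the same proof for polynomials.)
PROOF of `kc_dens`. `M` with `1 ≤ ε^2 * M` (`exists_nat_ge`). `HQ.lu` with `E = L ⧸ (Ws p P k)`, `g i =` class of `b i`, `U = univ`, `S = Sv q`,
`x =` class of `-1`: if `V ∈ Iv q` then `wv b V = 1 + sum` has order `≥ k`, so `sum over V of g = -1`. `univ.powerset = univ`, `#univ = m`.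
-/

namespace Pool.H91.HR

open Finset
open Pool.H91.HQ (cs QQ clo lu)

universe u

open Classical in
theorem kc_coin (R : ℕ) (hR : 1 ≤ R) (ε : ℝ) (hε : 0 < ε) : ∃ M : ℕ, ∀ {K L : Type u} [Field K] [CharZero K]
    [Field L] [Algebra K L] {p : PS K L} {m n : ℕ} {b : Fin m → L} {e : p.I → ℤ}, Cu p m n b e →
    ∀ q : p.I × ℕ, M ≤ (Sv p b e q).card → ∀ (Q : Finset (Fin R)) (q0 q1 : Fin R), q0 ∉ Q → q1 ∈ Q →
    ∀ V ∈ Iv p b e q,
    (((univ.filter (fun c : Fin m → Fin R => symmDiff V (cs c Q) ∈ Iv p b e q)).card : ℕ) : ℝ)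
      ≤ ε * (R : ℝ) ^ m := by
  obtain ⟨M, hM⟩ := clo.{u, u} R hR ε hε
  refine ⟨M, ?_⟩
  intro K L _ _ _ _ p m n b e h q hMp Q q0 q1 h0 h1 V hV
  have key := hM (K := K) (E := L ⧸ (Ws p q.1 (e q.1 + (q.2 : ℤ))))
    (fun i => (Ws p q.1 (e q.1 + (q.2 : ℤ))).mkQ (if i ∈ V then -(b i) else b i)) (Sv p b e q) (by
      intro i hi
      rw [Sv, Finset.mem_filter] at hi
      intro hc
      rw [Submodule.mkQ_apply, Submodule.Quotient.mk_eq_zero, mem_Ws] at hc
      apply hi.2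
      by_cases hiV : i ∈ V
      · rw [if_pos hiV] at hc
        have := ge_neg p q.1 hc
        rwa [neg_neg] at this
      · rwa [if_neg hiV] at hc) hMp Q q0 q1 h0 h1
  refine le_trans ?_ key
  have h2 : (univ.filter (fun c : Fin m → Fin R => symmDiff V (cs c Q) ∈ Iv p b e q)).card ≤
      (univ.filter (fun c : Fin m → Fin R => ∑ i ∈ cs c Q,
        ((Ws p q.1 (e q.1 + (q.2 : ℤ))).mkQ (if i ∈ V then -(b i) else b i)) = 0)).card := by
    apply Finset.card_le_card
    intro c hc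
    rw [Finset.mem_filter] at hc ⊢
    refine ⟨Finset.mem_univ _, ?_⟩
    have h4 := ka_coin h q V (cs c Q) hV hc.2
    rw [← map_sum, Submodule.mkQ_apply, Submodule.Quotient.mk_eq_zero, mem_Ws]
    exact h4
  exact_mod_cast h2

theorem kc_dens (ε : ℝ) (hε : 0 < ε) : ∃ M : ℕ, ∀ {K L : Type u} [Field K] [CharZero K]
    [Field L] [Algebra K L] {p : PS K L} {m n : ℕ} {b : Fin m → L} {e : p.I → ℤ}, Cu p m n b e →
    ∀ q : p.I × ℕ, M ≤ (Sv p b e q).card → ((Iv p b e q).card : ℝ) ≤ ε * 2 ^ m := by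
  classical
  obtain ⟨M, hM⟩ := exists_nat_ge (1 / ε ^ 2)
  refine ⟨M, ?_⟩
  intro K L _ _ _ _ p m n b e h q hMp
  have hM' : 1 ≤ ε ^ 2 * ((Sv p b e q).card : ℝ) := by
    have h1 : (M : ℝ) ≤ ((Sv p b e q).card : ℝ) := by exact_mod_cast hMp
    have h2 : 1 / ε ^ 2 ≤ ((Sv p b e q).card : ℝ) := hM.trans h1
    rw [div_le_iff₀ (by positivity)] at h2
    linarith
  have key := lu (K := K) (E := L ⧸ (Ws p q.1 (e q.1 + (q.2 : ℤ))))
    (fun i => (Ws p q.1 (e q.1 + (q.2 : ℤ))).mkQ (b i)) univ (Sv p b e q) (Finset.subset_univ _) (by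
      intro i hi
      rw [Sv, Finset.mem_filter] at hi
      intro hc
      rw [Submodule.mkQ_apply, Submodule.Quotient.mk_eq_zero, mem_Ws] at hc
      exact hi.2 hc) ((Ws p q.1 (e q.1 + (q.2 : ℤ))).mkQ (-1)) ε hε hM'
  rw [Finset.card_univ, Fintype.card_fin] at key
  refine le_trans ?_ key
  have h2 : (Iv p b e q).card ≤ (univ.powerset.filter (fun W : Finset (Fin m) =>
      ∑ i ∈ W, ((Ws p q.1 (e q.1 + (q.2 : ℤ))).mkQ (b i)) =
        (Ws p q.1 (e q.1 + (q.2 : ℤ))).mkQ (-1))).card := by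
    apply Finset.card_le_card
    intro V hV
    rw [Iv, Finset.mem_filter] at hV
    rw [Finset.mem_filter]
    refine ⟨Finset.mem_powerset.2 (Finset.subset_univ _), ?_⟩
    rw [← map_sum, ← sub_eq_zero, ← map_sub, Submodule.mkQ_apply, Submodule.Quotient.mk_eq_zero, mem_Ws]
    have h3 : ∑ i ∈ V, b i - (-1) = wv b V := by
      rw [wv]
      ring
    rw [h3]
    exact Or.inr hV.2.2
  exact_mod_cast h2

end Pool.H91.HR
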