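import Pool.Agent.H91.HR.KB
import Pool.Agent.H91.HR.KC
import Pool.Agent.H91.HQ.BF

set_option autoImplicit false

/-!
Row KD (project MP_259062_HR): a positive proportion of the random subcubes hits many zeros.

PROOF. `N = 2^(R-1)`, `ε = 1/(4 N)`, `M0` from `kc_coin R hR ε`. Given `M ≥ M0` let `m1 = 10 * M`. `Pn := (Pts p b e n).filter (M < #(Sv q))`.
`sum over (V,c) of hit V c = sum over q ∈ Pn of #{(V,c) | ∃ Q ∈ QQ R, symmDiff V (cs c Q) ∈ Iv q ∩ Bg}` (double counting)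
`≥ sum over q ∈ Pn of #(Iv q ∩ Bg) * R^m * (N - N^2 ε)` by `HQ.bonf` with `I = Iv q ∩ Bg` (its hypothesis from `kc_coin` with `q0 = 0` and `q1 ∈ Q`;
`I ⊆ Iv q`), `= (3/4) N R^m * (sum over q ∈ Pn of #(Iv q ∩ Bg)) ≥ (3/4) N R^m (2/5) n 2^m = (3/10) N n T`, `T = 2^m R^m` (`kb_mass`).
Upper bound: `hit V c ≤ sum over Q ∈ QQ R of #{q ∈ Pts | symmDiff V (cs c Q) ∈ Iv q ∩ Bg} ≤ N n` (`n` by `ka_mass` if the vertex is in `Bg`, `0` otherwise;
`#(QQ R) = N`: `HQ.bf_QQ`). Let `Y` be the number of `(V,c)` with `N n ≤ 10 * hit`. There are `T` pairs. `(3/10) N n T ≤ Y N n + T N n/10`, so `Y ≥ T/5`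
(`n ≥ 1`). (See `Pool/Agent/H91/HQ/NE.lean` for the same proof with other constants.)
-/

namespace Pool.H91.HR

open Finset
open Pool.H91.HQ (cs QQ bonf bf_QQ)

universe u

open Classical in
/-- Number of points with support bigger than `M` hit by the random subcube `(V, c)`: its vertices are the
`symmDiff V (cs c Q)`, `Q` in `QQ R`. -/
noncomputable def hit {K L : Type u} [Field K] [Field L] [Algebra K L] (p : PS K L) {m : ℕ} (b : Fin m → L)
    (e : p.I → ℤ) (n M : ℕ) (Bg : Finset (Finset (Fin m))) {R : ℕ} [NeZero R]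
    (V : Finset (Fin m)) (c : Fin m → Fin R) : ℕ :=
  (((Pts p b e n).filter (fun q => M < (Sv p b e q).card)).filter
    (fun q => ∃ Q ∈ QQ R, symmDiff V (cs c Q) ∈ Iv p b e q ∩ Bg)).card

open Classical in
theorem kd_hit {K L : Type u} [Field K] [Field L] [Algebra K L] {p : PS K L} {m n : ℕ} {b : Fin m → L}
    {e : p.I → ℤ} (h : Cu p m n b e) (M : ℕ) (Bg : Finset (Finset (Fin m))) (hB : ∀ V ∈ Bg, wv b V ≠ 0)
    {R : ℕ} [NeZero R] (V : Finset (Fin m)) (c : Fin m → Fin R) : hit p b e n M Bg V c ≤ 2 ^ (R - 1) * n := by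
  have h1 : hit p b e n M Bg V c ≤ ((QQ R).biUnion (fun Q =>
      (Pts p b e n).filter (fun q => symmDiff V (cs c Q) ∈ Iv p b e q ∩ Bg))).card := by
    unfold hit
    refine Finset.card_le_card (fun q hq => ?_)
    rw [Finset.mem_filter, Finset.mem_filter] at hq
    obtain ⟨⟨hq1, _⟩, Q, hQ, hq2⟩ := hq
    rw [Finset.mem_biUnion]
    exact ⟨Q, hQ, Finset.mem_filter.mpr ⟨hq1, hq2⟩⟩
  refine h1.trans ?_
  rw [← bf_QQ R]
  refine Finset.card_biUnion_le_card_mul _ _ _ (fun Q _ => ?_)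
  by_cases h0 : symmDiff V (cs c Q) ∈ Bg
  · refine le_trans (Finset.card_le_card ?_) (ka_mass h _ (hB _ h0)).le
    intro q hq
    rw [Finset.mem_filter] at hq ⊢
    exact ⟨hq.1, (Finset.mem_inter.mp hq.2).1⟩
  · have h2 : (Pts p b e n).filter (fun q => symmDiff V (cs c Q) ∈ Iv p b e q ∩ Bg) = ∅ := by
      refine Finset.filter_false_of_mem (fun q _ hq => ?_)
      exact h0 (Finset.mem_inter.mp hq).2
    rw [h2, Finset.card_empty]
    exact Nat.zero_le _

open Classical in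
theorem kd_many (R : ℕ) [NeZero R] (hR : 1 ≤ R) : ∃ M0 : ℕ, ∀ M : ℕ, M0 ≤ M → ∃ m1 : ℕ,
    ∀ {K L : Type u} [Field K] [CharZero K] [Field L] [Algebra K L] {p : PS K L} {m n : ℕ} {b : Fin m → L}
    {e : p.I → ℤ}, Cu p m n b e → m1 ≤ m → ∀ Bg : Finset (Finset (Fin m)), (∀ V ∈ Bg, wv b V ≠ 0) →
    (49 / 50 : ℝ) * 2 ^ m ≤ (Bg.card : ℝ) →
    (1 / 5 : ℝ) * (2 ^ m * (R : ℝ) ^ m) ≤
      (((univ : Finset (Finset (Fin m) × (Fin m → Fin R))).filter
        (fun x => 2 ^ (R - 1) * n ≤ 10 * hit p b e n M Bg x.1 x.2)).card : ℝ) := by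
  obtain ⟨N, hN⟩ : ∃ N : ℕ, N = 2 ^ (R - 1) := ⟨_, rfl⟩
  have hN0 : (0 : ℝ) < (N : ℝ) := by
    have : 0 < N := by rw [hN]; positivity
    exact_mod_cast this
  have hNr : (2 : ℝ) ^ (R - 1) = (N : ℝ) := by rw [hN]; push_cast; rfl
  have hNr4 : (4 : ℝ) ^ (R - 1) = (N : ℝ) * (N : ℝ) := by
    rw [← hNr, ← mul_pow]; norm_num
  have hε : (0 : ℝ) < 1 / (4 * (N : ℝ)) := by positivity
  obtain ⟨M0, hM0⟩ := kc_coin.{u} R hR (1 / (4 * (N : ℝ))) hε
  refine ⟨M0, fun M hM => ⟨10 * M, ?_⟩⟩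
  intro K L _ _ _ _ p m n b e h hm Bg hB hc
  have hn : (1 : ℝ) ≤ (n : ℝ) := by exact_mod_cast h.pos
  have hRm : (0 : ℝ) < (R : ℝ) ^ m := by
    have : (0 : ℝ) < (R : ℝ) := by exact_mod_cast hR
    positivity
  -- double counting
  have hdc : ∑ x : Finset (Fin m) × (Fin m → Fin R), (hit p b e n M Bg x.1 x.2 : ℝ) =
      ∑ q ∈ (Pts p b e n).filter (fun q => M < (Sv p b e q).card),
        (((univ : Finset (Finset (Fin m) × (Fin m → Fin R))).filter
        (fun x => ∃ Q ∈ QQ R, symmDiff x.1 (cs x.2 Q) ∈ Iv p b e q ∩ Bg)).card : ℝ) := by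
    have e1 : ∀ x : Finset (Fin m) × (Fin m → Fin R), (hit p b e n M Bg x.1 x.2 : ℝ) =
        ∑ q ∈ (Pts p b e n).filter (fun q => M < (Sv p b e q).card),
          (if ∃ Q ∈ QQ R, symmDiff x.1 (cs x.2 Q) ∈ Iv p b e q ∩ Bg then (1 : ℝ) else 0) := by
      intro x
      rw [hit, Finset.sum_boole]
    have e2 : ∀ q ∈ (Pts p b e n).filter (fun q => M < (Sv p b e q).card),
        (((univ : Finset (Finset (Fin m) × (Fin m → Fin R))).filter
        (fun x => ∃ Q ∈ QQ R, symmDiff x.1 (cs x.2 Q) ∈ Iv p b e q ∩ Bg)).card : ℝ) =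
        ∑ x : Finset (Fin m) × (Fin m → Fin R),
          (if ∃ Q ∈ QQ R, symmDiff x.1 (cs x.2 Q) ∈ Iv p b e q ∩ Bg then (1 : ℝ) else 0) := by
      intro q _
      rw [Finset.sum_boole]
    rw [Finset.sum_congr rfl (fun x _ => e1 x), Finset.sum_congr rfl e2, Finset.sum_comm]
  -- lower bound
  have hlow : (3 / 10 : ℝ) * (N * n) * (2 ^ m * (R : ℝ) ^ m) ≤
      ∑ x : Finset (Fin m) × (Fin m → Fin R), (hit p b e n M Bg x.1 x.2 : ℝ) := by
    rw [hdc]
    have h2 : ∀ q ∈ (Pts p b e n).filter (fun q => M < (Sv p b e q).card),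
        ((Iv p b e q ∩ Bg).card : ℝ) * ((R : ℝ) ^ m * (3 / 4 * N)) ≤
        (((univ : Finset (Finset (Fin m) × (Fin m → Fin R))).filter
        (fun x => ∃ Q ∈ QQ R, symmDiff x.1 (cs x.2 Q) ∈ Iv p b e q ∩ Bg)).card : ℝ) := by
      intro q hq
      rw [Finset.mem_filter] at hq
      have h3 := bonf R (Iv p b e q ∩ Bg) (1 / (4 * (N : ℝ))) hε.le (fun Q h0 hQ V hV => by
        obtain ⟨q1, hq1⟩ := hQ
        refine le_trans ?_ (hM0 h q (hM.trans hq.2.le) Q 0 q1 h0 hq1 V (Finset.mem_inter.mp hV).1)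
        have h4 : (univ.filter (fun c : Fin m → Fin R => symmDiff V (cs c Q) ∈ Iv p b e q ∩ Bg)).card ≤
            (univ.filter (fun c : Fin m → Fin R => symmDiff V (cs c Q) ∈ Iv p b e q)).card := by
          refine Finset.card_le_card (fun c hc => ?_)
          rw [Finset.mem_filter] at hc ⊢
          exact ⟨hc.1, (Finset.mem_inter.mp hc.2).1⟩
        exact_mod_cast h4)
      refine le_trans (le_of_eq ?_) h3
      rw [hNr, hNr4]
      field_simp
      ring
    refine le_trans ?_ (Finset.sum_le_sum h2)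
    rw [← Finset.sum_mul]
    have h3 := kb_mass h M hm Bg hB hc
    have h4 : (0 : ℝ) < (R : ℝ) ^ m * (3 / 4 * N) := by positivity
    refine le_trans (le_of_eq ?_) (mul_le_mul_of_nonneg_right h3 h4.le)
    ring
  -- upper bound
  have hup : ∑ x : Finset (Fin m) × (Fin m → Fin R), (hit p b e n M Bg x.1 x.2 : ℝ) ≤
      (((univ : Finset (Finset (Fin m) × (Fin m → Fin R))).filter
      (fun x => 2 ^ (R - 1) * n ≤ 10 * hit p b e n M Bg x.1 x.2)).card : ℝ) * (N * n) +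
      (2 ^ m * (R : ℝ) ^ m) * (N * n / 10) := by
    rw [← Finset.sum_filter_add_sum_filter_not univ
      (fun x : Finset (Fin m) × (Fin m → Fin R) => 2 ^ (R - 1) * n ≤ 10 * hit p b e n M Bg x.1 x.2)]
    refine add_le_add ?_ ?_
    · have h1 : ∀ x ∈ (univ : Finset (Finset (Fin m) × (Fin m → Fin R))).filter
          (fun x => 2 ^ (R - 1) * n ≤ 10 * hit p b e n M Bg x.1 x.2),
          (hit p b e n M Bg x.1 x.2 : ℝ) ≤ N * n := by
        intro x _
        have h2 := kd_hit h M Bg hB x.1 x.2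
        rw [← hN] at h2
        exact_mod_cast h2
      refine (Finset.sum_le_sum h1).trans (le_of_eq ?_)
      rw [Finset.sum_const, nsmul_eq_mul]
    · have h1 : ∀ x ∈ (univ : Finset (Finset (Fin m) × (Fin m → Fin R))).filter
          (fun x => ¬ 2 ^ (R - 1) * n ≤ 10 * hit p b e n M Bg x.1 x.2),
          (hit p b e n M Bg x.1 x.2 : ℝ) ≤ N * n / 10 := by
        intro x hx
        rw [Finset.mem_filter, not_le] at hx
        have h2 : (10 : ℝ) * hit p b e n M Bg x.1 x.2 ≤ N * n := by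
          have h3 := hx.2.le
          rw [← hN] at h3
          exact_mod_cast h3
        linarith
      refine (Finset.sum_le_sum h1).trans ?_
      rw [Finset.sum_const, nsmul_eq_mul]
      refine mul_le_mul_of_nonneg_right ?_ (by positivity)
      have h3 : ((univ : Finset (Finset (Fin m) × (Fin m → Fin R))).filter
          (fun x => ¬ 2 ^ (R - 1) * n ≤ 10 * hit p b e n M Bg x.1 x.2)).card ≤ 2 ^ m * R ^ m := by
        refine (Finset.card_le_univ _).trans (le_of_eq ?_)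
        rw [Fintype.card_prod, Fintype.card_finset, Fintype.card_fin, Fintype.card_fun,
          Fintype.card_fin, Fintype.card_fin]
      exact_mod_cast h3
  have hfin := hlow.trans hup
  have hpos : (0 : ℝ) < N * n := by positivity
  have h5 : ((N : ℝ) * (n : ℝ)) * ((1 / 5 : ℝ) * (2 ^ m * (R : ℝ) ^ m)) ≤ ((N : ℝ) * (n : ℝ)) *
      (((univ : Finset (Finset (Fin m) × (Fin m → Fin R))).filter
      (fun x => 2 ^ (R - 1) * n ≤ 10 * hit p b e n M Bg x.1 x.2)).card : ℝ) := by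
    nlinarith [hfin]
  exact le_of_mul_le_mul_left h5 hpos

end Pool.H91.HR
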