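import Pool.Agent.H91.HR.KV
import Pool.Agent.H91.HQ.AC

set_option autoImplicit false

/-!
Row KF (project MP_259062_HR): for a fixed colouring with many indices of colour `0` only few `V` hit many zeros.

PROOF of `kf_par`. `E = 64 c^2`; let `j` be least with `1280 c^3 < 2^j`, so `2^j ≤ 2560 c^3`; `R = j + 1`; `2^j c ≤ 2560 c^4 < 4096 c^4 = E^2`,
`20 E c = 1280 c^3 < 2^j`.
PROOF of `kf_ne`. If `b i D (b j) - D (b i) b j = 0` then `D (b i / b j) = 0` (`Derivation.leibniz_div`), so `b i = c b j` (`hD.ker`), contradiction to `ind`.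
PROOF of `kf_fx`. `L0` from `HQ.ac (2*E) (1/50)` with `F = L` (`CharZero L`). Let `U = cs c {0}`. Fix `A ⊆ univ \ U`. `ku_aux` with `τ = QQ R` (as a subtype,
`card = 2^(R-1)`: `HQ.bf_QQ`), `σ Q = -(fs b A (cs c Q))` (`ka_fsge`, `ge_neg`; `mo_bd h.mo`; `hcard` is `hE2`) gives `G`.
Let `V` have `V \ U = A` and `2^(R-1) * n ≤ 10 * hit V c`. For `Q ∈ QQ R` the set `cs c Q` is disjoint from `U`, so `fs b V (cs c Q) = fs b A (cs c Q)`
(`i ∈ V ↔ i ∈ A` for `i ∉ U`). `20 * (E n (γ+3+C)) < 2^(R-1) n ≤ 10 hit` by `hE`. `kv_vanish` gives `sum G i j (wv b V)^i (D (wv b V))^j = 0`, and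
`wv b V = wv b A + sum over V ∩ U of b`. With `e i = (b i, D (b i))` (`hpar`: `kf_ne`), `v = (wv b A, D (wv b A))`,
`hfun x = sum G i j x.1^i x.2^j`, which is in `PF (2*E)` (`HQ.pf_poly`), `LP` (`HQ.lp_poly`), not identically zero (`HQ.poly_ne`):
`hfun (v + sum over W of e) = 0` for `W = V ∩ U`. By `ac` at most `2^#U / 50` sets `W ⊆ U`, and `V ↦ V ∩ U` is injective on
`{V | V \ U = A}`. Sum over the `2^(m - #U)` sets `A` (`Finset.card_eq_sum_card_fiberwise` for `V ↦ V \ U`).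
(See `Pool/Agent/H91/HQ/FX.lean` for the same proof with other constants.)
-/

namespace Pool.H91.HR

open Finset
open Pool.H91.HQ (cs QQ PF LP bf_QQ ac pf_poly lp_poly poly_ne)

universe u

theorem kf_par (c : ℕ) (hc : 1 ≤ c) : ∃ E R : ℕ, 1 ≤ R ∧ 20 * E * c < 2 ^ (R - 1) ∧ 2 ^ (R - 1) * c < E ^ 2 := by
  have hpos : 1280 * c ^ 3 ≠ 0 := by positivity
  refine ⟨64 * c ^ 2, Nat.log 2 (1280 * c ^ 3) + 2, by omega, ?_, ?_⟩
  · have h1 := Nat.lt_pow_succ_log_self (by norm_num : 1 < 2) (1280 * c ^ 3)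
    have h2 : Nat.log 2 (1280 * c ^ 3) + 2 - 1 = (Nat.log 2 (1280 * c ^ 3)).succ := by omega
    rw [h2]
    calc 20 * (64 * c ^ 2) * c = 1280 * c ^ 3 := by ring
      _ < _ := h1
  · have h1 := Nat.pow_log_le_self 2 hpos
    have h2 : Nat.log 2 (1280 * c ^ 3) + 2 - 1 = Nat.log 2 (1280 * c ^ 3) + 1 := by omega
    rw [h2, pow_succ]
    calc 2 ^ Nat.log 2 (1280 * c ^ 3) * 2 * c ≤ (1280 * c ^ 3) * 2 * c := by gcongr
      _ = 2560 * c ^ 4 := by ring
      _ < 4096 * c ^ 4 := by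
          have : 0 < c ^ 4 := by positivity
          omega
      _ = (64 * c ^ 2) ^ 2 := by ring

theorem kf_ne {K L : Type u} [Field K] [CharZero K] [Field L] [Algebra K L] {p : PS K L} {m n : ℕ}
    {b : Fin m → L} {e : p.I → ℤ} (h : Cu p m n b e) (D : Derivation K L L) (r : p.I → ℤ) (N : ℤ)
    (hD : Df p D r N) (i j : Fin m) (hij : i ≠ j) : b i * D (b j) - D (b i) * b j ≠ 0 := by
  intro h0
  have hj := ka_bne h j
  have h1 : D (b i / b j) = 0 := by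
    rw [Derivation.leibniz_div, smul_eq_mul, smul_eq_mul, smul_eq_mul]
    have h2 : b j * D (b i) - b i * D (b j) = 0 := by linear_combination -h0
    rw [h2, mul_zero]
  obtain ⟨c, hc⟩ := hD.ker _ h1
  exact h.ind i j hij c (by rw [← hc, div_mul_cancel₀ _ hj])

theorem KF_fs {L : Type u} [Field L] {m R : ℕ} [NeZero R] (b : Fin m → L) (V : Finset (Fin m))
    (c : Fin m → Fin R) (Q : Finset (Fin R)) (hQ : Q ∈ QQ R) :
    fs b V (cs c Q) = fs b (V \ cs c {0}) (cs c Q) := by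
  unfold fs
  refine sum_congr rfl fun i hi => ?_
  rw [cs, mem_filter] at hi
  rw [QQ, mem_filter] at hQ
  have h1 : i ∉ cs c {0} := by
    rw [cs, mem_filter, mem_singleton]
    rintro ⟨_, h⟩
    rw [h] at hi
    exact hQ.2 hi.2
  have h2 : i ∈ V \ cs c {0} ↔ i ∈ V := by
    rw [mem_sdiff]
    exact ⟨fun h => h.1, fun h => ⟨h, h1⟩⟩
  by_cases h3 : i ∈ V
  · rw [if_pos h3, if_pos (h2.2 h3)]
  · rw [if_neg h3, if_neg (fun h => h3 (h2.1 h))]

theorem KF_pair {R S : Type*} [AddCommGroup R] [AddCommGroup S] {m : ℕ} (W : Finset (Fin m))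
    (x : R) (y : S) (g : Fin m → R) (k : Fin m → S) :
    ((x, y) + ∑ i ∈ W, (g i, k i)).1 = x + ∑ i ∈ W, g i ∧
      ((x, y) + ∑ i ∈ W, (g i, k i)).2 = y + ∑ i ∈ W, k i := by
  rw [Prod.fst_add, Prod.snd_add, Prod.fst_sum, Prod.snd_sum]
  exact ⟨rfl, rfl⟩

/-- Conclusion of the anticoncentration result. -/
def KF_AC (E L0 : ℕ) : Prop :=
  ∀ {F : Type u} [Field F] [CharZero F] {m : ℕ}
    (e : Fin m → F × F), (∀ i j, i ≠ j → (e i).1 * (e j).2 - (e i).2 * (e j).1 ≠ 0) →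
    ∀ U : Finset (Fin m), L0 ≤ U.card → ∀ h : F × F → F, PF (2 * E) h → LP h →
    (∃ x, h x ≠ 0) → ∀ (v : F × F) (S : Finset (Finset (Fin m))),
    (∀ W ∈ S, W ⊆ U ∧ h (v + ∑ i ∈ W, e i) = 0) →
    ((S.card : ℕ) : ℝ) ≤ (1 / 50 : ℝ) * 2 ^ U.card

theorem KF_ac (E : ℕ) : ∃ L0 : ℕ, KF_AC.{u} E L0 := by
  obtain ⟨L, hL⟩ := ac.{u} (2 * E) (1 / 50) (by norm_num)
  refine ⟨L, ?_⟩
  intro F _ _ m e hpar U hU h hpf hlp hne v S hS
  refine (Nat.cast_le.2 (card_le_card ?_)).trans (hL e hpar U hU h hpf hlp hne v)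
  intro W hW
  simp only [Finset.mem_filter, Finset.mem_powerset]
  exact hS W hW

open Classical in
theorem KF_fiber (C γ E R : ℕ) [NeZero R] (hE : 20 * E * (γ + 4 + C) < 2 ^ (R - 1))
    (hE2 : 2 ^ (R - 1) * (γ + 4 + C) < E ^ 2) (L0 : ℕ) (hL : KF_AC.{u} E L0)
    {K L : Type u} [Field K] [CharZero K] [Field L] [Algebra K L] {p : PS K L} {m n : ℕ}
    {b : Fin m → L} {e : p.I → ℤ} (h : Cu p m n b e) (D : Derivation K L L) (r : p.I → ℤ)
    (hD : Df p D r ((C * n : ℕ) : ℤ)) (t : L) (ht : Transcendental K t) (hγ : Bd (p.pol t) γ)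
    (M : ℕ) (Bg : Finset (Finset (Fin m)))
    (h2 : ∀ W ∈ Bg, ∀ q : p.I × ℕ, 1 ≤ q.2 → M < (Sv p b e q).card → W ∈ Iv p b e q →
      e q.1 + 2 ≤ p.v q.1 (wv b W))
    (c : Fin m → Fin R) (hU : L0 ≤ (cs c {0}).card) (A : Finset (Fin m)) :
    ((((univ.filter (fun V : Finset (Fin m) => 2 ^ (R - 1) * n ≤ 10 * hit p b e n M Bg V c)).filter
      (fun V => V \ cs c {0} = A)).card : ℕ) : ℝ) ≤ (1 / 50 : ℝ) * 2 ^ (cs c {0}).card := by
  have hpos := h.pos
  have hcz : CharZero L := charZero_of_injective_algebraMap (algebraMap K L).injective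
  obtain ⟨G, ⟨i0, j0, hG0⟩, hGd, hGz⟩ := ku_aux p D e r n C γ t ht hγ (mo_bd h.mo) hD hpos E
    (τ := {Q : Finset (Fin R) // Q ∈ QQ R}) (fun Q => -(fs b A (cs c Q.1)))
    (fun Q P => ge_neg p P (ka_fsge h P A _)) (by rw [Fintype.card_coe, bf_QQ]; exact hE2)
  obtain ⟨hf, hfe⟩ : ∃ hf : L × L → L,
      ∀ x, hf x = ∑ i : Fin E, ∑ j : Fin E, G i j * x.1 ^ (i : ℕ) * x.2 ^ (j : ℕ) := ⟨_, fun _ => rfl⟩
  have hfe2 : hf = fun x => ∑ i : Fin E, ∑ j : Fin E,
        G i j * x.1 ^ (i : ℕ) * x.2 ^ (j : ℕ) := funext hfe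
  have hpf : PF (2 * E) hf := by
    rw [hfe2]
    exact pf_poly E fun i j => G i j
  have hlp : LP hf := by
    rw [hfe2]
    exact lp_poly E fun i j => G i j
  have hne : ∃ x, hf x ≠ 0 := by
    rw [hfe2]
    exact poly_ne E (fun i j => G i j) i0 j0 hG0
  have key := hL (F := L)
    (fun i => (b i, D (b i)))
    (fun i j hij => kf_ne h D r _ hD i j hij)
    (cs c {0}) hU hf hpf hlp hne
    (wv b A, D (wv b A))
    (((univ.filter (fun V : Finset (Fin m) => 2 ^ (R - 1) * n ≤ 10 * hit p b e n M Bg V c)).filter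
      (fun V => V \ cs c {0} = A)).image (fun V => V ∩ cs c {0}))
    (by
      intro W hW
      rw [mem_image] at hW
      obtain ⟨V, hV, rfl⟩ := hW
      rw [mem_filter, mem_filter] at hV
      obtain ⟨⟨_, hV1⟩, hV2⟩ := hV
      refine ⟨inter_subset_right, ?_⟩
      have hh : 2 * (E * n * (γ + 3 + C)) < hit p b e n M Bg V c := by
        have e1 : 20 * E * (γ + 4 + C) * n < 2 ^ (R - 1) * n := Nat.mul_lt_mul_of_pos_right hE hpos
        have e2 : 10 * (2 * (E * n * (γ + 3 + C))) ≤ 20 * E * (γ + 4 + C) * n := by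
          have : E * n * (γ + 3 + C) ≤ E * n * (γ + 4 + C) := Nat.mul_le_mul_left _ (by omega)
          calc 10 * (2 * (E * n * (γ + 3 + C))) = 20 * (E * n * (γ + 3 + C)) := by ring
            _ ≤ 20 * (E * n * (γ + 4 + C)) := Nat.mul_le_mul_left _ this
            _ = 20 * E * (γ + 4 + C) * n := by ring
        omega
      have h1 := kv_vanish h D r C γ hD t hγ E M R Bg h2 V c G hGd (by
        intro Q hQ
        rw [KF_fs b V c Q hQ, hV2]
        exact hGz ⟨Q, hQ⟩) hh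
      have h2' : wv b V = wv b A + ∑ i ∈ V ∩ cs c {0}, b i := by
        have h4 := Finset.sum_inter_add_sum_sdiff V (cs c {0}) b
        rw [wv, wv, ← h4, hV2]
        ring
      obtain ⟨p1, p2⟩ := KF_pair (V ∩ cs c {0}) (wv b A) (D (wv b A)) (fun i => b i)
        (fun i => D (b i))
      rw [hfe, p1, p2, ← map_sum, ← map_add, ← h2', h1])
  rw [card_image_of_injOn] at key
  · exact key
  · intro V hV V' hV' hVV
    rw [Finset.mem_coe, mem_filter] at hV hV'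
    have hVV' : V ∩ cs c {0} = V' ∩ cs c {0} := hVV
    rw [← Finset.sdiff_union_inter V (cs c {0}), ← Finset.sdiff_union_inter V' (cs c {0}), hV.2,
      hV'.2, hVV']

open Classical in
theorem kf_fx (C γ E R : ℕ) [NeZero R] (hE : 20 * E * (γ + 4 + C) < 2 ^ (R - 1))
    (hE2 : 2 ^ (R - 1) * (γ + 4 + C) < E ^ 2) : ∃ L0 : ℕ,
    ∀ {K L : Type u} [Field K] [CharZero K] [Field L] [Algebra K L] {p : PS K L} {m n : ℕ}
    {b : Fin m → L} {e : p.I → ℤ}, Cu p m n b e → ∀ (D : Derivation K L L) (r : p.I → ℤ),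
    Df p D r ((C * n : ℕ) : ℤ) → ∀ t : L, Transcendental K t → Bd (p.pol t) γ →
    ∀ (M : ℕ) (Bg : Finset (Finset (Fin m))),
    (∀ W ∈ Bg, ∀ q : p.I × ℕ, 1 ≤ q.2 → M < (Sv p b e q).card → W ∈ Iv p b e q →
      e q.1 + 2 ≤ p.v q.1 (wv b W)) →
    ∀ c : Fin m → Fin R, L0 ≤ (cs c {0}).card →
    (((univ.filter (fun V : Finset (Fin m) => 2 ^ (R - 1) * n ≤ 10 * hit p b e n M Bg V c)).card : ℕ) : ℝ)
      ≤ (1 / 50 : ℝ) * 2 ^ m := by
  obtain ⟨L0, hL⟩ := KF_ac.{u} E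
  refine ⟨L0, ?_⟩
  intro K L _ _ _ _ p m n b e h D r hD t ht hγ M Bg h2 c hU
  rw [Finset.card_eq_sum_card_fiberwise (f := fun V => V \ cs c {0})
    (t := (univ \ cs c {0}).powerset) (fun V _ => by
      rw [Finset.mem_coe, mem_powerset]
      exact sdiff_subset_sdiff (subset_univ _) (Finset.Subset.refl _))]
  rw [Nat.cast_sum]
  refine (sum_le_sum fun A _ => KF_fiber C γ E R hE hE2 L0 hL h D r hD t ht hγ M Bg h2 c hU A).trans ?_
  rw [sum_const, card_powerset, nsmul_eq_mul, Nat.cast_pow, Nat.cast_ofNat]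
  have h1 : (univ \ cs c {0}).card + (cs c {0}).card = m := by
    have h2 := Finset.card_sdiff_add_card_eq_card (Finset.subset_univ (cs c {0}))
    rw [h2, card_univ, Fintype.card_fin]
  have h3 : (2 : ℝ) ^ m = 2 ^ (univ \ cs c {0}).card * 2 ^ (cs c {0}).card := by
    rw [← pow_add, h1]
  rw [h3]
  apply le_of_eq
  ring

end Pool.H91.HR
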