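import Pool.Agent.H91.HR.RB

set_option autoImplicit false

/-!
Row KM (project MP_259062_HR): minimal orders of a finite family.

PROOF of `mo_exists`. `e P = min of v P (w j)` over the `j` with `w j ≠ 0` (`Finset.inf'` / `Finset.exists_min_image`; `j0` is such an index).
`e P ≤ v P 1 = 0`. `{e ≠ 0}` is contained in the union over `j` (with `w j ≠ 0`) of `{v P (w j) ≠ 0}`, finite by `v_fin`. `n = (-(finsum e)).toNat`; the
finsum is `≤ 0` (`finsum_nonneg`/`finsum_eq_sum_of_support_subset`).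
`mo_fin`: `v P x ≠ e P` implies `v P x ≠ 0` or `e P ≠ 0`. `mo_bd`: a finite sum of the nonnegative `-(e P)` over `S` is at most the sum over
`S ∪ {e ≠ 0}`, which is `n`. `mo_sum_eq`: enlarge `S` by the finite set of places with `v P x ≠ 0` or `e P ≠ 0` (the added terms are `0`); the sum of
`v P x` is `0` (`v_sum`), the sum of `e P` is `-n`. `mo_sum_le`: enlarge `S`, the added terms are `≥ 0`.
`mo_zero`: `n = 0` gives `e P = 0` for all `P` (`mo_bd` with `S = {P}`), `const_of_ge`.
-/

namespace Pool.H91.HR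

open Finset

universe u

variable {K L : Type u} [Field K] [Field L] [Algebra K L] (p : PS K L)

theorem mo_exists {ι : Type} [Fintype ι] (w : ι → L) (j0 : ι) (h0 : w j0 = 1) :
    ∃ (e : p.I → ℤ) (n : ℕ), Mo p w e n := by
  classical
  have hne : (univ.filter (fun j : ι => w j ≠ 0)).Nonempty :=
    ⟨j0, Finset.mem_filter.2 ⟨Finset.mem_univ _, by rw [h0]; exact one_ne_zero⟩⟩
  have hex : ∀ P : p.I, ∃ j : ι, w j ≠ 0 ∧ ∀ i : ι, w i ≠ 0 → p.v P (w j) ≤ p.v P (w i) := by
    intro P
    obtain ⟨j, hj, hmin⟩ := Finset.exists_min_image _ (fun j => p.v P (w j)) hne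
    refine ⟨j, (Finset.mem_filter.1 hj).2, fun i hi => hmin i ?_⟩
    exact Finset.mem_filter.2 ⟨Finset.mem_univ _, hi⟩
  choose J hJ0 hJ using hex
  set e : p.I → ℤ := fun P => p.v P (w (J P)) with he
  have hle : ∀ P, e P ≤ 0 := by
    intro P
    have h := hJ P j0 (by rw [h0]; exact one_ne_zero)
    rw [h0, v_one] at h
    exact h
  have hfin : {P : p.I | e P ≠ 0}.Finite := by
    have hU : (⋃ j ∈ univ.filter (fun j : ι => w j ≠ 0), {P : p.I | p.v P (w j) ≠ 0}).Finite := by
      refine Set.Finite.biUnion (Finset.finite_toSet _) (fun j hj => ?_)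
      exact p.v_fin (w j) (Finset.mem_filter.1 hj).2
    refine hU.subset (fun P hP => ?_)
    refine Set.mem_biUnion (x := J P) ?_ hP
    exact Finset.mem_coe.2 (Finset.mem_filter.2 ⟨Finset.mem_univ _, hJ0 P⟩)
  have hsum : ∑ᶠ P, e P ≤ 0 := by
    rw [finsum_eq_sum_of_support_subset (s := hfin.toFinset) e (fun P hP => by simpa using hP)]
    exact Finset.sum_nonpos (fun P _ => hle P)
  refine ⟨e, (-(∑ᶠ P, e P)).toNat, ?_⟩
  refine ⟨fun P j => ?_, fun P => ⟨J P, hJ0 P, rfl⟩, hfin, ?_, ⟨j0, h0⟩⟩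
  · by_cases hj : w j = 0
    · exact Or.inl hj
    · exact Or.inr (hJ P j hj)
  · rw [Int.toNat_of_nonneg (by omega)]
    ring

variable {p} {ι : Type} {w : ι → L} {e : p.I → ℤ} {n : ℕ}

theorem mo_nonpos (h : Mo p w e n) (P : p.I) : e P ≤ 0 := by
  obtain ⟨j, hj⟩ := h.one
  have h1 := h.lb P j
  rw [hj] at h1
  have h2 := h1.resolve_left one_ne_zero
  rw [v_one] at h2
  exact h2

theorem mo_sum (h : Mo p w e n) (T : Finset p.I) (hT : ∀ P, P ∉ T → e P = 0) :
    ∑ P ∈ T, e P = -(n : ℤ) := by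
  rw [← h.sum]
  symm
  apply finsum_eq_sum_of_support_subset
  intro P hP
  by_contra hc
  exact hP (hT P hc)

theorem mo_bd (h : Mo p w e n) : Bd (fun P => -(e P)) n := by
  classical
  refine ⟨fun P => ?_, fun S => ?_⟩
  · have := mo_nonpos h P
    show 0 ≤ -(e P)
    omega
  · have h1 := mo_sum h (S ∪ h.fin.toFinset) (fun P hP => by
      by_contra hc
      exact hP (Finset.mem_union_right _ (by simpa using hc)))
    have h2 : ∑ P ∈ S, -(e P) ≤ ∑ P ∈ S ∪ h.fin.toFinset, -(e P) := by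
      refine Finset.sum_le_sum_of_subset_of_nonneg Finset.subset_union_left (fun P _ _ => ?_)
      have := mo_nonpos h P
      omega
    rw [Finset.sum_neg_distrib (f := e) (s := S ∪ h.fin.toFinset), h1] at h2
    simpa using h2

theorem mo_fin (h : Mo p w e n) (x : L) (hx : x ≠ 0) : {P : p.I | p.v P x ≠ e P}.Finite := by
  refine ((p.v_fin x hx).union h.fin).subset (fun P hP => ?_)
  by_contra hc
  simp only [Set.mem_union, Set.mem_setOf_eq, not_or, not_not] at hc
  exact hP (by rw [hc.1, hc.2])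

theorem mo_big (h : Mo p w e n) (x : L) (hx : x ≠ 0) (T : Finset p.I)
    (hT : ∀ P, P ∉ T → p.v P x = 0 ∧ e P = 0) : ∑ P ∈ T, (p.v P x - e P) = n := by
  have h1 := mo_sum h T (fun P hP => (hT P hP).2)
  have h2 : ∑ P ∈ T, p.v P x = 0 := by
    rw [← p.v_sum x hx]
    symm
    apply finsum_eq_sum_of_support_subset
    intro P hP
    by_contra hc
    exact hP (hT P hc).1
  rw [Finset.sum_sub_distrib, h1, h2]
  ring

theorem mo_sum_eq (h : Mo p w e n) (x : L) (hx : x ≠ 0) (S : Finset p.I) (hS : ∀ P, P ∉ S → p.v P x = e P) :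
    ∑ P ∈ S, (p.v P x - e P) = n := by
  classical
  have h1 := mo_big h x hx (S ∪ ((p.v_fin x hx).toFinset ∪ h.fin.toFinset)) (fun P hP => by
    simp only [Finset.mem_union, Set.Finite.mem_toFinset, Set.mem_setOf_eq, not_or, not_not] at hP
    exact hP.2)
  rw [← h1]
  refine Finset.sum_subset Finset.subset_union_left (fun P _ hP => ?_)
  rw [hS P hP, sub_self]

theorem mo_sum_le (h : Mo p w e n) (x : L) (hx : x ≠ 0) (hge : ∀ P : p.I, e P ≤ p.v P x) (S : Finset p.I) :
    ∑ P ∈ S, (p.v P x - e P) ≤ n := by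
  classical
  have h1 := mo_big h x hx (S ∪ ((p.v_fin x hx).toFinset ∪ h.fin.toFinset)) (fun P hP => by
    simp only [Finset.mem_union, Set.Finite.mem_toFinset, Set.mem_setOf_eq, not_or, not_not] at hP
    exact hP.2)
  rw [← h1]
  refine Finset.sum_le_sum_of_subset_of_nonneg Finset.subset_union_left (fun P _ _ => ?_)
  have := hge P
  omega

theorem mo_zero (h : Mo p w e 0) (j : ι) : ∃ c : K, w j = algebraMap K L c := by
  refine const_of_ge p (w j) (fun P => ?_)
  have h1 := (mo_bd h).2 {P}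
  rw [Finset.sum_singleton] at h1
  have h2 := mo_nonpos h P
  have h3 : e P = 0 := by
    have h4 : -(e P) ≤ 0 := by simpa using h1
    omega
  have h5 := h.lb P j
  rw [h3] at h5
  exact h5

end Pool.H91.HR
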