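import Pool.Agent.H91.HR.KB
import Pool.Agent.H91.HR.KC

set_option autoImplicit false

/-!
Row KP (project MP_259062_HR): vertices in big classes have no simple zeros at points with large support.

`Bgs` is the set of the vertices with nonzero value whose class (colour) has density at least `δ = 1/(100 (s+1))`.
PROOF of `kp_card`. `m1 = 10000`. Complement of `Bgs`: the `V` with `wv b V = 0`, at most `2^m/100` of them (`kb_zero`: `X^2 (m+1) ≤ 4^m` and
`m + 1 ≥ 10^4`), and, for every colour `k : Fin s` whose class `{V | wv b V ≠ 0, col V = k}` has less than `δ 2^m` elements, this class; in total at most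
`s δ 2^m ≤ 2^m/100`. So `#Bgs ≥ 2^m - 2^m/50`.
PROOF of `kp_two`. `M` from `kc_dens (δ/2)`. Let `q = (P, k)`, `k ≥ 1`. `e P + k ≤ v P (wv b V)`. Suppose `v P (wv b V) < e P + 2`; then `v P (wv b V) = e P + 1`.
Every `V'` with `wv b V' ≠ 0`, `col V' = col V` has `v P (wv b V') ≥ e P` (`mo.lb`) and `2 ∣ v P (wv b V') - v P (wv b V)`, so
`v P (wv b V') ≥ e P + 1`, and `V' ∈ Iv (P, 1)`. So `#Iv (P,1) ≥ δ 2^m` (`V ∈ Bgs`). As `k = 1` (`e + k ≤ e + 1`), `q = (P, 1)` and `kc_dens` gives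
`#Iv (P,1) ≤ (δ/2) 2^m`: contradiction.
-/

namespace Pool.H91.HR

open Finset

universe u

open Classical in
/-- Vertices with nonzero value in a class of density at least `1/(100 (s+1))`. -/
noncomputable def Bgs {L : Type u} [Field L] {m s : ℕ} (b : Fin m → L) (col : Finset (Fin m) → Fin s) :
    Finset (Finset (Fin m)) :=
  univ.filter (fun V => wv b V ≠ 0 ∧ (1 / (100 * ((s : ℝ) + 1))) * 2 ^ m ≤
    (((univ.filter (fun V' : Finset (Fin m) => wv b V' ≠ 0 ∧ col V' = col V)).card : ℕ) : ℝ))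

theorem kp_card (s : ℕ) : ∃ m1 : ℕ, ∀ {K L : Type u} [Field K] [CharZero K] [Field L] [Algebra K L]
    {p : PS K L} {m n : ℕ} {b : Fin m → L} {e : p.I → ℤ}, Cu p m n b e → m1 ≤ m →
    ∀ col : Finset (Fin m) → Fin s, (49 / 50 : ℝ) * 2 ^ m ≤ ((Bgs b col).card : ℝ) := by
  classical
  refine ⟨10000, ?_⟩
  intro K L _ _ _ _ p m n b e h hm col
  have hN : (0 : ℝ) < 2 ^ m := by positivity
  have hs1 : (0 : ℝ) < (s : ℝ) + 1 := by positivity
  set δ : ℝ := 1 / (100 * ((s : ℝ) + 1)) with hδ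
  have hδ0 : 0 < δ := by positivity
  set Z : Finset (Finset (Fin m)) := univ.filter (fun V : Finset (Fin m) => wv b V = 0) with hZ
  set T : Fin s → Finset (Finset (Fin m)) := fun k =>
    univ.filter (fun V : Finset (Fin m) => wv b V ≠ 0 ∧ col V = k) with hT
  set Sm : Finset (Fin s) := univ.filter (fun k : Fin s => ((T k).card : ℝ) < δ * 2 ^ m) with hSm
  have hZc : (Z.card : ℝ) ≤ 2 ^ m / 100 := by
    have h1 : (Z.card) ^ 2 * (m + 1) ≤ 4 ^ m := kb_zero h
    have h2 : (Z.card : ℝ) ^ 2 * ((m : ℝ) + 1) ≤ 4 ^ m := by exact_mod_cast h1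
    have h3 : (10000 : ℝ) ≤ (m : ℝ) + 1 := by
      have : (10000 : ℝ) ≤ (m : ℝ) := by exact_mod_cast hm
      linarith
    have h4 : (4 : ℝ) ^ m = (2 ^ m) ^ 2 := by
      rw [← pow_mul, mul_comm, pow_mul]
      norm_num
    have h5 : (100 * (Z.card : ℝ)) ^ 2 ≤ (2 ^ m) ^ 2 := by
      rw [← h4]
      refine le_trans ?_ h2
      nlinarith [sq_nonneg (Z.card : ℝ)]
    have h6 : 100 * (Z.card : ℝ) ≤ 2 ^ m := by
      exact (sq_le_sq₀ (by positivity) hN.le).mp h5
    linarith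
  have hcov : (univ : Finset (Finset (Fin m))) ⊆ Bgs b col ∪ (Z ∪ Sm.biUnion T) := by
    intro V _
    by_cases hV : wv b V = 0
    · apply mem_union_right
      apply mem_union_left
      rw [hZ, mem_filter]
      exact ⟨mem_univ _, hV⟩
    · by_cases hk : ((T (col V)).card : ℝ) < δ * 2 ^ m
      · apply mem_union_right
        apply mem_union_right
        rw [mem_biUnion]
        refine ⟨col V, ?_, ?_⟩
        · rw [hSm, mem_filter]
          exact ⟨mem_univ _, hk⟩
        · rw [hT, mem_filter]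
          exact ⟨mem_univ _, hV, rfl⟩
      · apply mem_union_left
        unfold Bgs
        rw [mem_filter]
        refine ⟨mem_univ _, hV, ?_⟩
        push Not at hk
        exact hk
  have hbi : ((Sm.biUnion T).card : ℝ) ≤ 2 ^ m / 100 := by
    have h1 : ((Sm.biUnion T).card : ℝ) ≤ ∑ k ∈ Sm, ((T k).card : ℝ) := by
      exact_mod_cast card_biUnion_le
    have h2 : ∑ k ∈ Sm, ((T k).card : ℝ) ≤ ∑ k ∈ Sm, δ * 2 ^ m := by
      apply sum_le_sum
      intro k hk
      rw [hSm, mem_filter] at hk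
      exact hk.2.le
    have h3 : ∑ k ∈ Sm, δ * 2 ^ m = (Sm.card : ℝ) * (δ * 2 ^ m) := by
      rw [sum_const, nsmul_eq_mul]
    have h4 : (Sm.card : ℝ) ≤ s := by
      have : Sm.card ≤ s := by
        have := card_le_univ Sm
        rwa [Fintype.card_fin] at this
      exact_mod_cast this
    have h5 : (Sm.card : ℝ) * (δ * 2 ^ m) ≤ s * (δ * 2 ^ m) := by gcongr
    have h6 : (s : ℝ) * (δ * 2 ^ m) ≤ 2 ^ m / 100 := by
      rw [hδ]
      rw [div_mul_eq_mul_div, one_mul, mul_div_assoc', div_le_div_iff₀ (by positivity) (by norm_num)]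
      nlinarith
    linarith
  have hcard : (2 : ℝ) ^ m ≤ ((Bgs b col).card : ℝ) + ((Z.card : ℝ) + ((Sm.biUnion T).card : ℝ)) := by
    have h1 := card_le_card hcov
    have h2 := card_union_le (Bgs b col) (Z ∪ Sm.biUnion T)
    have h3 := card_union_le Z (Sm.biUnion T)
    have h4 : (univ : Finset (Finset (Fin m))).card = 2 ^ m := by
      rw [card_univ, Fintype.card_finset, Fintype.card_fin]
    rw [h4] at h1
    have h5 : 2 ^ m ≤ (Bgs b col).card + (Z.card + (Sm.biUnion T).card) := by omega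
    exact_mod_cast h5
  linarith

theorem kp_two (s : ℕ) : ∃ M : ℕ, ∀ {K L : Type u} [Field K] [CharZero K] [Field L] [Algebra K L]
    {p : PS K L} {m n : ℕ} {b : Fin m → L} {e : p.I → ℤ}, Cu p m n b e →
    ∀ col : Finset (Fin m) → Fin s,
    (∀ V V', wv b V ≠ 0 → wv b V' ≠ 0 → col V = col V' → ∀ P : p.I, (2 : ℤ) ∣ p.v P (wv b V) - p.v P (wv b V')) →
    ∀ V ∈ Bgs b col, ∀ q : p.I × ℕ, 1 ≤ q.2 → M ≤ (Sv p b e q).card → V ∈ Iv p b e q →
    e q.1 + 2 ≤ p.v q.1 (wv b V) := by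
  classical
  have hs1 : (0 : ℝ) < (s : ℝ) + 1 := by positivity
  have hδ0 : (0 : ℝ) < 1 / (100 * ((s : ℝ) + 1)) := by positivity
  obtain ⟨M, hM⟩ := kc_dens (1 / (100 * ((s : ℝ) + 1)) / 2) (by positivity)
  refine ⟨M, ?_⟩
  intro K L _ _ _ _ p m n b e h col hcol V hV q hq hSv hI
  have hN : (0 : ℝ) < 2 ^ m := by positivity
  have hd := hM h q hSv
  unfold Bgs at hV
  rw [mem_filter] at hV
  obtain ⟨-, hV0, hVc⟩ := hV
  have hI' := hI
  unfold Iv at hI'
  rw [mem_filter] at hI'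
  obtain ⟨-, -, hIv⟩ := hI'
  by_contra hcon
  push Not at hcon
  have hq1 : q.2 = 1 := by omega
  have hv1 : p.v q.1 (wv b V) = e q.1 + 1 := by
    rw [hq1] at hIv
    push_cast at hIv
    omega
  have hsub : (univ.filter (fun V' : Finset (Fin m) => wv b V' ≠ 0 ∧ col V' = col V))
      ⊆ Iv p b e q := by
    intro V' hV'
    rw [mem_filter] at hV'
    obtain ⟨-, hV'0, hV'c⟩ := hV'
    unfold Iv
    rw [mem_filter]
    refine ⟨mem_univ _, hV'0, ?_⟩
    have h1 := h.mo.lb q.1 V'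
    rw [ge_iff p q.1 _ hV'0] at h1
    have h2 := hcol V V' hV0 hV'0 hV'c.symm q.1
    rw [hv1] at h2
    rw [hq1]
    push_cast
    omega
  have hc := card_le_card hsub
  have hc' : (((univ.filter (fun V' : Finset (Fin m) => wv b V' ≠ 0 ∧ col V' = col V)).card : ℕ) : ℝ)
      ≤ ((Iv p b e q).card : ℝ) := by exact_mod_cast hc
  have h5 : (1 / (100 * ((s : ℝ) + 1))) * 2 ^ m ≤ (1 / (100 * ((s : ℝ) + 1)) / 2) * 2 ^ m :=
    hVc.trans (hc'.trans hd)
  nlinarith [mul_pos hδ0 hN]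

end Pool.H91.HR
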