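import Pool.Agent.H91.HR.KF
import Pool.Agent.H91.HR.KP
import Pool.Agent.H91.HQ.CT

set_option autoImplicit false

/-!
Row KN (project MP_259062_HR): no cube of large dimension with pairwise non proportional generators.

PROOF. `c0 = γ + 4 + C`, `E`, `R` from `kf_par c0`. `NeZero R`. `Ma` from `kp_two s`, `M0` from `kd_many R`, `M = max Ma M0`, `m1` from `kd_many` for this `M`,
`m1'` from `kp_card s`, `L0` from `kf_fx`, `m2` with `2^L0 (1 - 1/(2R))^m ≤ 1/50` for `m ≥ m2` (the power tends to `0`); `m0 = max` of all.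
Suppose `m0 ≤ m`. `Bg = Bgs b col` (`kp_card`; `wv b V ≠ 0` on it by definition). `h2` of `kf_fx` from `kp_two` (`M < #Sv` gives `Ma ≤ #Sv`).
Let `B = {(V,c) | 2^(R-1) n ≤ 10 hit}`. `(1/5) 2^m R^m ≤ #B` (`kd_many`). Fibre over `c`: if `#(cs c {0}) ≥ L0`, at most `2^m/50` sets `V` (`kf_fx`), else at
most `2^m`; the number of `c` with `#(cs c {0}) < L0` is `≤ 2^L0 (1 - 1/(2R))^m R^m ≤ R^m/50` (`HQ.ct` with `Q = {0}`, `S = univ`, `h = L0`).
So `#B ≤ R^m 2^m/50 + 2^m R^m/50 = 2^m R^m/25 < 2^m R^m/5`. Contradiction. (See `Pool/Agent/H91/HQ/NX.lean`.)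
-/

namespace Pool.H91.HR

open Finset
open Pool.H91.HQ (cs QQ ct)

universe u

theorem no_cu (C γ s : ℕ) : ∃ m0 : ℕ, ∀ {K L : Type u} [Field K] [CharZero K] [Field L] [Algebra K L]
    {p : PS K L} {m n : ℕ} {b : Fin m → L} {e : p.I → ℤ}, Cu p m n b e → ∀ (D : Derivation K L L) (r : p.I → ℤ),
    Df p D r ((C * n : ℕ) : ℤ) → ∀ t : L, Transcendental K t → Bd (p.pol t) γ →
    ∀ col : Finset (Fin m) → Fin s,
    (∀ V V', wv b V ≠ 0 → wv b V' ≠ 0 → col V = col V' → ∀ P : p.I, (2 : ℤ) ∣ p.v P (wv b V) - p.v P (wv b V')) →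
    m0 ≤ m → False := by
  obtain ⟨E, R, hR, hE, hE2⟩ := kf_par (γ + 4 + C) (by omega)
  have hRz : NeZero R := ⟨by omega⟩
  obtain ⟨Ma, hMa⟩ := kp_two.{u} s
  obtain ⟨M0, hM0⟩ := kd_many.{u} R hR
  obtain ⟨m1, hm1⟩ := hM0 (max Ma M0) (le_max_right _ _)
  obtain ⟨m1', hm1'⟩ := kp_card.{u} s
  obtain ⟨L0, hL0⟩ := kf_fx.{u} C γ E R hE hE2
  have hR1 : (1 : ℝ) ≤ (R : ℝ) := by exact_mod_cast hR
  have hq0 : (0 : ℝ) ≤ 1 - 1 / (2 * (R : ℝ)) := by
    have : 1 / (2 * (R : ℝ)) ≤ 1 := by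
      rw [div_le_one (by linarith)]
      linarith
    linarith
  have hq1 : (1 : ℝ) - 1 / (2 * (R : ℝ)) < 1 := by
    have : 0 < 1 / (2 * (R : ℝ)) := by positivity
    linarith
  obtain ⟨m2, hm2⟩ : ∃ m2 : ℕ, ∀ m, m2 ≤ m →
      (2 : ℝ) ^ L0 * (1 - 1 / (2 * (R : ℝ))) ^ m ≤ 1 / 50 := by
    obtain ⟨m2, h⟩ := exists_pow_lt_of_lt_one (show (0 : ℝ) < 1 / 50 / 2 ^ L0 by positivity) hq1
    refine ⟨m2, fun m hm => ?_⟩
    have h3 : (1 - 1 / (2 * (R : ℝ)) : ℝ) ^ m ≤ (1 - 1 / (2 * (R : ℝ))) ^ m2 :=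
      pow_le_pow_of_le_one hq0 hq1.le hm
    have h4 : (1 - 1 / (2 * (R : ℝ)) : ℝ) ^ m ≤ 1 / 50 / 2 ^ L0 := h3.trans h.le
    rw [le_div_iff₀ (by positivity)] at h4
    rw [mul_comm]
    exact h4
  refine ⟨max m1 (max m1' m2), ?_⟩
  intro K L _ _ _ _ p m n b e hCu D r hDf t ht htp col hcol hm
  classical
  have hBg := hm1' hCu (le_trans (le_trans (le_max_left _ _) (le_max_right _ _)) hm) col
  have hBg0 : ∀ V ∈ Bgs b col, wv b V ≠ 0 := by
    intro V hV
    rw [Bgs, Finset.mem_filter] at hV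
    exact hV.2.1
  have hmany := hm1 hCu (le_trans (le_max_left _ _) hm) (Bgs b col) hBg0 hBg
  have hmm2 := hm2 m (le_trans (le_trans (le_max_right _ _) (le_max_right _ _)) hm)
  have hfx := hL0 hCu D r hDf t ht htp (max Ma M0) (Bgs b col)
    (fun W hW q hq hM hWI => hMa hCu col hcol W hW q hq ((le_max_left _ _).trans hM.le) hWI)
  set M := max Ma M0 with hM
  set Bg := Bgs b col with hBgd
  have hcard : ((univ : Finset (Finset (Fin m) × (Fin m → Fin R))).filter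
      (fun x => 2 ^ (R - 1) * n ≤ 10 * hit p b e n M Bg x.1 x.2)).card =
      ∑ c : Fin m → Fin R,
        (univ.filter (fun V : Finset (Fin m) => 2 ^ (R - 1) * n ≤ 10 * hit p b e n M Bg V c)).card := by
    rw [Finset.card_filter, Fintype.sum_prod_type_right]
    refine Finset.sum_congr rfl (fun c _ => ?_)
    rw [Finset.card_filter]
  have hV : ∀ c : Fin m → Fin R,
      (((univ.filter (fun V : Finset (Fin m) =>
        2 ^ (R - 1) * n ≤ 10 * hit p b e n M Bg V c)).card : ℕ) : ℝ) ≤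
      2 ^ m / 50 + (if ((cs c {0}) ∩ (univ : Finset (Fin m))).card < L0 then (2 : ℝ) ^ m else 0) := by
    intro c
    by_cases hc : ((cs c {0}) ∩ (univ : Finset (Fin m))).card < L0
    · rw [if_pos hc]
      have h3 : (univ.filter (fun V : Finset (Fin m) =>
          2 ^ (R - 1) * n ≤ 10 * hit p b e n M Bg V c)).card ≤ 2 ^ m := by
        refine (Finset.card_le_univ _).trans ?_
        rw [Fintype.card_finset, Fintype.card_fin]
      have h4 : (((univ.filter (fun V : Finset (Fin m) =>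
          2 ^ (R - 1) * n ≤ 10 * hit p b e n M Bg V c)).card : ℕ) : ℝ) ≤ 2 ^ m := by exact_mod_cast h3
      have h5 : (0 : ℝ) ≤ 2 ^ m / 50 := by positivity
      linarith
    · rw [if_neg hc, add_zero]
      rw [Finset.inter_univ] at hc
      have h6 := hfx c (not_lt.1 hc)
      calc _ ≤ _ := h6
        _ = _ := by ring
  have hct := ct (m := m) (R := R) hR {0} (Finset.singleton_nonempty 0) univ L0
  rw [Finset.card_univ, Fintype.card_fin] at hct
  have hct2 : (((univ.filter (fun c : Fin m → Fin R =>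
      ((cs c {0}) ∩ (univ : Finset (Fin m))).card < L0)).card : ℕ) : ℝ) ≤ (R : ℝ) ^ m / 50 := by
    refine hct.trans ?_
    have h5 : (0 : ℝ) ≤ (R : ℝ) ^ m := by positivity
    have h6 := mul_le_mul_of_nonneg_right hmm2 h5
    refine h6.trans (le_of_eq ?_)
    ring
  have hub : (((univ : Finset (Finset (Fin m) × (Fin m → Fin R))).filter
      (fun x => 2 ^ (R - 1) * n ≤ 10 * hit p b e n M Bg x.1 x.2)).card : ℝ) ≤
      2 ^ m * (R : ℝ) ^ m / 25 := by
    rw [hcard, Nat.cast_sum]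
    refine (Finset.sum_le_sum (fun c _ => hV c)).trans ?_
    rw [Finset.sum_add_distrib, Finset.sum_const, Finset.card_univ, nsmul_eq_mul,
      Fintype.card_fun, Fintype.card_fin, Fintype.card_fin, ← Finset.sum_filter,
      Finset.sum_const, nsmul_eq_mul]
    have h7 : (0 : ℝ) ≤ 2 ^ m := by positivity
    have h8 := mul_le_mul_of_nonneg_right hct2 h7
    push_cast
    linarith
  have h9 : (0 : ℝ) < 2 ^ m * (R : ℝ) ^ m := by positivity
  have h10 := hmany.trans hub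
  linarith

end Pool.H91.HR
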