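import Pool.Agent.H91.HR.RB

set_option autoImplicit false

/-!
Row RD (project MP_259062_HR): a bounded derivation shifts every nonzero order by the same amount.

PROOF of `mu_exists`. The set `T = {v P (D x) - v P x | x ≠ 0, D x ≠ 0}` of integers is nonempty (`hD`; `D 0 = 0`) and bounded below by `-N`, so it
has a least element `μ = v P (D x0) - v P x0` (`Int.exists_least_of_bdd`). First claim: clear. For the second one take `y` with `v P y = 1`
(`v_surj`) and put `y_k = y ^ k` (`k : ℤ`), `D (y^k) = k * y^(k-1) * D y` (`Derivation.leibniz_zpow` or `leibniz_pow`/`leibniz_inv`).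
(a) `D y ≠ 0` and `v P (D y) = 1 + μ`: let `k = v P x0`. By `v_res'` there is `c ≠ 0` with `ge P (k+1) z`, `z = x0 - c y^k`. `D x0 = c k y^(k-1) D y + D z`
and `D z = 0` or `v P (D z) ≥ v P z + μ ≥ k + 1 + μ` (if `z = 0`, `D z = 0`). `D x0` has order `k + μ`. So `c k y^(k-1) D y = D x0 - D z` is nonzero of
order exactly `k + μ` (`v_add_lt`), hence `k ≠ 0`, `D y ≠ 0`, `k - 1 + v P (D y) = k + μ`.
(b) for `x ≠ 0`, `k = v P x ≠ 0`: the same decomposition `x = c y^k + z`: the first term `c k y^(k-1) D y` is nonzero (characteristic zero) of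
order `k - 1 + 1 + μ = k + μ`, and `D z = 0` or has order `≥ k + 1 + μ`. So `D x ≠ 0` has order `k + μ` (`v_add_lt`).
`D` is `K`-linear: `D (algebraMap c * w) = algebraMap c * D w` (`Derivation.map_smul`, `Algebra.smul_def`); `D (algebraMap c) = 0`.
PROOF of `ker_const`. If `x` is not a constant it has a pole `P` (`exists_pole`), `v P x ≠ 0`, so `D x ≠ 0` by `mu_exists`.
PROOF of `dx_ge`. If `D x = 0` clear. `v P x ≥ k` and `k < 0`: `hlow` gives `v P (D x) ≥ k - 1 - r`. `k = 0`: if `v P x ≥ 1` then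
`v P (D x) ≥ -r`. If `v P x = 0`, take `c` with `x - c = 0` or `0 < v P (x - c)` (`v_res`), `D x = D (x - c)`.
-/

namespace Pool.H91.HR

open Finset

universe u

variable {K L : Type u} [Field K] [CharZero K] [Field L] [Algebra K L] (p : PS K L)

omit [CharZero K] in
theorem D_cmul (D : Derivation K L L) (c : K) (w : L) :
    D (algebraMap K L c * w) = algebraMap K L c * D w := by
  rw [← Algebra.smul_def, ← Algebra.smul_def, Derivation.map_smul]

omit [CharZero K] in
theorem D_zpow (D : Derivation K L L) (y : L) (k : ℤ) :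
    D (y ^ k) = (k : L) * y ^ (k - 1) * D y := by
  rw [Derivation.leibniz_zpow, smul_eq_mul, zsmul_eq_mul, mul_assoc]

/-- Decomposition of `x` with respect to a uniformizer `y`. -/
theorem decomp (D : Derivation K L L) (P : p.I) (μ : ℤ)
    (hmu : ∀ x : L, x ≠ 0 → D x ≠ 0 → p.v P x + μ ≤ p.v P (D x))
    (y : L) (hy : y ≠ 0) (hy1 : p.v P y = 1) (x : L) (hx : x ≠ 0) :
    ∃ c : K, c ≠ 0 ∧ ∃ w : L, D x = algebraMap K L c * ((p.v P x : ℤ) : L) * y ^ (p.v P x - 1) * D y + w ∧
      (w = 0 ∨ p.v P x + 1 + μ ≤ p.v P w) := by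
  have hk : p.v P x = p.v P (y ^ (p.v P x)) := by
    rw [v_zpow p P y hy, hy1, mul_one]
  obtain ⟨c, hc, hge⟩ := v_res' p P x (y ^ (p.v P x)) hx (zpow_ne_zero _ hy) hk
  refine ⟨c, hc, D (x - algebraMap K L c * y ^ (p.v P x)), ?_, ?_⟩
  · rw [Derivation.map_sub, D_cmul, D_zpow]
    ring
  · by_cases h0 : D (x - algebraMap K L c * y ^ (p.v P x)) = 0
    · exact Or.inl h0
    · right
      have hz : x - algebraMap K L c * y ^ (p.v P x) ≠ 0 := by
        intro h
        rw [h] at h0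
        exact h0 (map_zero D)
      rw [ge_iff p P _ hz] at hge
      have := hmu _ hz h0
      linarith

omit [CharZero K] in
theorem v_main (P : p.I) (c : K) (hc : c ≠ 0) (n : ℤ) (hn : ((n : ℤ) : K) ≠ 0)
    (y : L) (hy : y ≠ 0) (hy1 : p.v P y = 1) (k : ℤ) (w : L) (hw : w ≠ 0) :
    algebraMap K L c * (n : L) * y ^ k * w ≠ 0 ∧
      p.v P (algebraMap K L c * (n : L) * y ^ k * w) = k + p.v P w := by
  have e : algebraMap K L c * (n : L) * y ^ k * w = algebraMap K L (c * n) * (y ^ k * w) := by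
    rw [map_mul, map_intCast]
    ring
  have h1 : y ^ k * w ≠ 0 := mul_ne_zero (zpow_ne_zero _ hy) hw
  have h2 : c * (n : K) ≠ 0 := mul_ne_zero hc hn
  rw [e]
  refine ⟨mul_ne_zero ?_ h1, ?_⟩
  · rw [Ne, map_eq_zero]
    exact h2
  · rw [v_cmul p P _ h2 _ h1, p.v_mul P _ _ (zpow_ne_zero _ hy) hw, v_zpow p P y hy, hy1, mul_one]

theorem mu_exists (D : Derivation K L L) (P : p.I)
    (hb : ∃ N : ℤ, ∀ x : L, x ≠ 0 → D x ≠ 0 → p.v P x - N ≤ p.v P (D x)) (hD : ∃ x, D x ≠ 0) :
    ∃ μ : ℤ, (∀ x : L, x ≠ 0 → D x ≠ 0 → p.v P x + μ ≤ p.v P (D x)) ∧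
      ∀ x : L, x ≠ 0 → p.v P x ≠ 0 → D x ≠ 0 ∧ p.v P (D x) = p.v P x + μ := by
  obtain ⟨N, hN⟩ := hb
  obtain ⟨x1, hx1⟩ := hD
  have hx10 : x1 ≠ 0 := by
    rintro rfl
    exact hx1 (map_zero D)
  obtain ⟨μ, ⟨x0, hx0, hDx0, hμ⟩, hmin⟩ := Int.exists_least_of_bdd
    (P := fun m : ℤ => ∃ x : L, x ≠ 0 ∧ D x ≠ 0 ∧ m = p.v P (D x) - p.v P x)
    ⟨-N, by
      rintro z ⟨x, hx, hDx, rfl⟩
      have := hN x hx hDx
      linarith⟩
    ⟨_, x1, hx10, hx1, rfl⟩
  have hmu : ∀ x : L, x ≠ 0 → D x ≠ 0 → p.v P x + μ ≤ p.v P (D x) := by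
    intro x hx hDx
    have := hmin _ ⟨x, hx, hDx, rfl⟩
    linarith
  obtain ⟨y, hy, hy1⟩ := p.v_surj P
  -- the derivative of the uniformizer
  have hDy : D y ≠ 0 ∧ p.v P (D y) = 1 + μ := by
    obtain ⟨c, hc, w, hw, hw'⟩ := decomp p D P μ hmu y hy hy1 x0 hx0
    have hk0 : ((p.v P x0 : ℤ) : K) ≠ 0 ∧ D y ≠ 0 := by
      by_contra hcon
      have hz : algebraMap K L c * ((p.v P x0 : ℤ) : L) * y ^ (p.v P x0 - 1) * D y = 0 := by
        by_cases h1 : D y = 0
        · rw [h1, mul_zero]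
        · have h2 : ((p.v P x0 : ℤ) : K) = 0 := by
            by_contra h2
            exact hcon ⟨h2, h1⟩
          have h3 : ((p.v P x0 : ℤ) : L) = 0 := by
            rw [← map_intCast (algebraMap K L), h2, map_zero]
          rw [h3]
          ring
      rw [hz, zero_add] at hw
      rcases hw' with h | h
      · exact hDx0 (hw.trans h)
      · rw [hw] at hμ
        linarith
    obtain ⟨hk0, hDy⟩ := hk0
    refine ⟨hDy, ?_⟩
    obtain ⟨hm0, hm1⟩ := v_main p P c hc (p.v P x0) hk0 y hy hy1 (p.v P x0 - 1) (D y) hDy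
    have hlow := hmu y hy hDy
    rw [hy1] at hlow
    rcases hw' with h | h
    · rw [h, add_zero] at hw
      rw [← hw] at hm1
      linarith
    · by_contra hne
      have hlt : 1 + μ < p.v P (D y) := lt_of_le_of_ne hlow (Ne.symm hne)
      have h1 : p.ge P (p.v P x0 + 1 + μ)
          (algebraMap K L c * ((p.v P x0 : ℤ) : L) * y ^ (p.v P x0 - 1) * D y) := by
        right
        rw [hm1]
        linarith
      have h2 : p.ge P (p.v P x0 + 1 + μ) (D x0) := by
        rw [hw]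
        exact ge_add p P h1 (Or.inr h)
      rw [ge_iff p P _ hDx0] at h2
      linarith
  refine ⟨μ, hmu, fun x hx hvx => ?_⟩
  obtain ⟨c, hc, w, hw, hw'⟩ := decomp p D P μ hmu y hy hy1 x hx
  have hk0 : ((p.v P x : ℤ) : K) ≠ 0 := by exact_mod_cast hvx
  obtain ⟨hm0, hm1⟩ := v_main p P c hc (p.v P x) hk0 y hy hy1 (p.v P x - 1) (D y) hDy.1
  by_cases h0 : w = 0
  · rw [h0, add_zero] at hw
    rw [hw]
    refine ⟨hm0, ?_⟩
    rw [hm1, hDy.2]
    ring
  · have h := hw'.resolve_left h0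
    have hlt : p.v P (algebraMap K L c * ((p.v P x : ℤ) : L) * y ^ (p.v P x - 1) * D y) < p.v P w := by
      rw [hm1, hDy.2]
      linarith
    obtain ⟨h1, h2⟩ := v_add_lt p P _ _ hm0 h0 hlt
    rw [hw]
    refine ⟨h1, ?_⟩
    rw [h2, hm1, hDy.2]
    ring

theorem ker_const (D : Derivation K L L) (hb : DBd p D) (hD : ∃ x, D x ≠ 0) (x : L) (hx : D x = 0) :
    ∃ c : K, x = algebraMap K L c := by
  by_contra hcon
  push Not at hcon
  obtain ⟨P, hP⟩ := exists_pole p x hcon
  obtain ⟨μ, -, h2⟩ := mu_exists p D P (hb P) hD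
  have hx0 : x ≠ 0 := by
    intro h
    apply hcon 0
    rw [h, map_zero]
  exact (h2 x hx0 (ne_of_lt hP)).1 hx

/-- Order of `D x` for a derivation with defect, `k ≤ 0`. -/
theorem dx_ge (D : Derivation K L L) (r : p.I → ℤ) (N : ℤ) (hD : Df p D r N) (P : p.I) (k : ℤ) (hk : k ≤ 0)
    (x : L) (hx : p.ge P k x) : p.ge P (k - (if k = 0 then 0 else 1) - r P) (D x) := by
  by_cases h0 : D x = 0
  · exact Or.inl h0
  have hx0 : x ≠ 0 := by
    intro h
    rw [h] at h0
    exact h0 (map_zero D)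
  rw [ge_iff p P _ hx0] at hx
  right
  by_cases hk0 : k = 0
  · rw [if_pos hk0, hk0]
    rw [hk0] at hx
    rcases lt_or_eq_of_le hx with h | h
    · have := hD.low P x hx0 h0
      linarith
    · obtain ⟨c, hc⟩ := p.v_res P x hx0 h.symm
      have hDc : D (x - algebraMap K L c) = D x := by
        rw [Derivation.map_sub, Derivation.map_algebraMap, sub_zero]
      rcases hc with hc | hc
      · rw [hc, map_zero] at hDc
        exact absurd hDc.symm h0
      · have hz : x - algebraMap K L c ≠ 0 := by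
          intro h'
          rw [h', map_zero] at hDc
          exact h0 hDc.symm
        have := hD.low P _ hz (by rw [hDc]; exact h0)
        rw [hDc] at this
        linarith
  · rw [if_neg hk0]
    have := hD.low P x hx0 h0
    linarith

end Pool.H91.HR
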