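import Pool.Agent.H91.HR.KM
import Pool.Agent.H91.HR.RD

set_option autoImplicit false

/-!
Row KQ (project MP_259062_HR): a pencil with many squares (up to few classes) is constant.

PROOF. `r0 = 2 * (3 + C) + s + 2`. Write `w i = A + l i * B`, `Wr = A * D B - B * D A`; suppose `Wr ≠ 0` (so `B ≠ 0`). For all `i`: `Wr = w i * D B - B * D (w i)`
(`D (algebraMap c * B) = algebraMap c * D B`).
(0) `n ≥ 1`: if `n = 0` all `w i` are constants (`mo_zero`), `B = (w i - w j)/(l i - l j)` and `A` too, so `D A = D B = 0`, `Wr = 0`.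
(1) `A`, `B` have order `≥ e P` everywhere (combinations of two of the `w i`, `ge_cmul`), `e P ≤ 0` (`mo_nonpos`), `D A`, `D B`, `D (w i)` have order
`≥ e P - ι P - ρ P`, `ι P = if e P = 0 then 0 else 1` (`dx_ge`). So `Wr` has order `≥ 2 e P - ι P - ρ P`.
(2) At each `P` at most one `i` has (`w i = 0` or) `v P (w i) > e P`: for two such `i ≠ j`, `(l i - l j) B = w i - w j` has order `≥ e P + 1`, then `A = w i - l i B`
also, then all `w k` do: contradiction to `att`. In particular at most one `w i` is zero (there is a place, `p.ne`).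
(3) Call `i` good if `w i ≠ 0` and some `j ≠ i` has `w j ≠ 0`, `col j = col i`. At most `s + 1` indices are not good (one with `w i = 0`, and at most one
in each of the `s` colour classes). For good `i`, `κ i P = v P (w i) - e P` is even at every `P`: if it is odd then `κ j P` is odd for the `j` above (`hpar`), so
both are `≥ 1`, contradiction to (2).
(4) If `κ i P ≥ 2` then `Wr = w i * D B - B * D (w i)` has order `≥ 2 e P + κ i P - 1 - ι P - ρ P` (first term `(e + κ) + (e - ι - ρ)`, second term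
`e + (e + κ - 1 - ρ)` by `low`).
(5) `S` = the finite set of places where some good `i` has `κ i P > 0` (`mo_fin`), `κ P` the value for this unique `i`. `zl` with `x = Wr`,
`g P = 2 (-(e P)) + ι P + ρ P` (`Bd g (2n + n + C n)`: `bd_mul`, `bd_ind`, `bd_add`), `h P = κ P - 1`: `sum over S of (κ P - 1) ≤ (3 + C) n`. `κ P ≤ 2 (κ P - 1)`, and
`sum over S of κ P = sum over good i of (sum over S of κ i P) = #good * n` (`mo_sum_eq`). So `#good * n ≤ 2 (3 + C) n`, `#good ≤ 2 (3 + C)`,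
`r ≤ 2 (3 + C) + s + 1 < r0`: contradiction.
-/

namespace Pool.H91.HR

open Finset

universe u

theorem kq_two {K L : Type u} [Field K] [CharZero K] [Field L] [Algebra K L] {p : PS K L}
    {r : ℕ} {A B : L} {l : Fin r → K} (hl : Function.Injective l) {w : Fin r → L}
    (hw : ∀ i, w i = A + algebraMap K L (l i) * B) (P : p.I) (k : ℤ) {i j : Fin r} (hij : i ≠ j)
    (hi : p.ge P k (w i)) (hj : p.ge P k (w j)) : p.ge P k A ∧ p.ge P k B := by
  have hne : l i - l j ≠ 0 := sub_ne_zero.2 (fun h => hij (hl h))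
  have hB : B = algebraMap K L (l i - l j)⁻¹ * (w i - w j) := by
    have h1 : w i - w j = algebraMap K L (l i - l j) * B := by
      rw [hw, hw, map_sub]; ring
    rw [h1, ← mul_assoc, ← map_mul, inv_mul_cancel₀ hne, map_one, one_mul]
  have hB' : p.ge P k B := by
    rw [hB]
    exact ge_cmul p P _ (ge_sub p P hi hj)
  refine ⟨?_, hB'⟩
  have hA : A = w i - algebraMap K L (l i) * B := by rw [hw]; ring
  rw [hA]
  exact ge_sub p P hi (ge_cmul p P _ hB')

theorem pen (C s : ℕ) : ∃ r0 : ℕ, ∀ {K L : Type u} [Field K] [CharZero K] [Field L] [Algebra K L]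
    {p : PS K L} {r n : ℕ} (A B : L) (l : Fin r → K), Function.Injective l → ∀ e : p.I → ℤ,
    Mo p (fun i : Fin r => A + algebraMap K L (l i) * B) e n → ∀ (D : Derivation K L L) (ρ : p.I → ℤ),
    Df p D ρ ((C * n : ℕ) : ℤ) → ∀ col : Fin r → Fin s,
    (∀ i j, A + algebraMap K L (l i) * B ≠ 0 → A + algebraMap K L (l j) * B ≠ 0 → col i = col j →
      ∀ P : p.I, (2 : ℤ) ∣ p.v P (A + algebraMap K L (l i) * B) - p.v P (A + algebraMap K L (l j) * B)) →
    r0 ≤ r → A * D B - B * D A = 0 := by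
  classical
  refine ⟨2 * (3 + C) + s + 2, ?_⟩
  intro K L _ _ _ _ p r n A B l hl e hmo D ρ hD col hpar hr
  by_contra hW
  obtain ⟨w, hw⟩ : ∃ w : Fin r → L, ∀ i, w i = A + algebraMap K L (l i) * B := ⟨_, fun _ => rfl⟩
  have hww : (fun i : Fin r => A + algebraMap K L (l i) * B) = w := by
    funext i; rw [hw]
  rw [hww] at hmo
  have hpar' : ∀ i j, w i ≠ 0 → w j ≠ 0 → col i = col j →
      ∀ P : p.I, (2 : ℤ) ∣ p.v P (w i) - p.v P (w j) := by
    intro i j hi hj hc P
    rw [hw] at hi hj ⊢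
    rw [hw j]
    exact hpar i j hi hj hc P
  obtain ⟨i0, i1, h01⟩ : ∃ i0 i1 : Fin r, i0 ≠ i1 :=
    ⟨⟨0, by omega⟩, ⟨1, by omega⟩, by simp [Fin.ext_iff]⟩
  -- orders of A and B
  have hAB : ∀ P : p.I, p.ge P (e P) A ∧ p.ge P (e P) B := fun P =>
    kq_two hl hw P (e P) h01 (hmo.lb P i0) (hmo.lb P i1)
  -- n is positive
  have hn : 1 ≤ n := by
    by_contra hn0
    have hn0 : n = 0 := by omega
    subst hn0
    obtain ⟨c0, hc0⟩ := mo_zero hmo i0
    obtain ⟨c1, hc1⟩ := mo_zero hmo i1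
    have hne : l i0 - l i1 ≠ 0 := sub_ne_zero.2 (fun h => h01 (hl h))
    have hB : B = algebraMap K L ((l i0 - l i1)⁻¹ * (c0 - c1)) := by
      have h1 : algebraMap K L (c0 - c1) = algebraMap K L (l i0 - l i1) * B := by
        rw [map_sub, ← hc0, ← hc1, hw, hw, map_sub]; ring
      rw [map_mul, h1, ← mul_assoc, ← map_mul, inv_mul_cancel₀ hne, map_one, one_mul]
    have hA : A = algebraMap K L (c0 - l i0 * ((l i0 - l i1)⁻¹ * (c0 - c1))) := by
      have h1 : A = w i0 - algebraMap K L (l i0) * B := by rw [hw]; ring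
      rw [h1, hc0, hB]
      simp only [map_sub, map_mul]
    apply hW
    rw [hA, hB, Derivation.map_algebraMap, Derivation.map_algebraMap]
    ring
  -- at most one high index at every place
  have hhigh : ∀ (P : p.I) (i j : Fin r), i ≠ j → p.ge P (e P + 1) (w i) →
      ¬ p.ge P (e P + 1) (w j) := by
    intro P i j hij hi hj
    obtain ⟨h1, h2⟩ := kq_two hl hw P (e P + 1) hij hi hj
    obtain ⟨k, hk0, hk⟩ := hmo.att P
    have h3 : p.ge P (e P + 1) (w k) := by
      rw [hw]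
      exact ge_add p P h1 (ge_cmul p P _ h2)
    rw [ge_iff p P _ hk0, hk] at h3
    omega
  -- orders of the Wronskian
  let ι : p.I → ℤ := fun P => if e P = 0 then 0 else 1
  have hι0 : ∀ P, 0 ≤ ι P := fun P => by
    change 0 ≤ (if e P = 0 then (0 : ℤ) else 1)
    split_ifs <;> norm_num
  have hDA : ∀ P : p.I, p.ge P (e P - ι P - ρ P) (D A) := fun P =>
    dx_ge p D ρ _ hD P (e P) (mo_nonpos hmo P) A (hAB P).1
  have hDB : ∀ P : p.I, p.ge P (e P - ι P - ρ P) (D B) := fun P =>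
    dx_ge p D ρ _ hD P (e P) (mo_nonpos hmo P) B (hAB P).2
  have hWge : ∀ P : p.I, 2 * e P - ι P - ρ P ≤ p.v P (A * D B - B * D A) := by
    intro P
    rw [← ge_iff p P _ hW]
    have h1 := ge_mul p P (hAB P).1 (hDB P)
    have h2 := ge_mul p P (hAB P).2 (hDA P)
    have h3 := ge_sub p P h1 h2
    exact ge_mono p P (by linarith) h3
  have hWw : ∀ i, A * D B - B * D A = w i * D B - B * D (w i) := by
    intro i
    rw [hw, map_add, D_cmul]
    ring
  have hWk : ∀ (P : p.I) (i : Fin r), w i ≠ 0 →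
      p.v P (w i) + e P - 1 - ι P - ρ P ≤ p.v P (A * D B - B * D A) := by
    intro P i hi
    rw [← ge_iff p P _ hW, hWw i]
    have h1 : p.ge P (p.v P (w i)) (w i) := Or.inr le_rfl
    have h2 := ge_mul p P h1 (hDB P)
    have h3 : p.ge P (p.v P (w i) - 1 - ρ P) (D (w i)) := by
      by_cases h0 : D (w i) = 0
      · exact Or.inl h0
      · exact Or.inr (hD.low P (w i) hi h0)
    have h4 := ge_mul p P (hAB P).2 h3
    have h5 := hι0 P
    exact ge_sub p P (ge_mono p P (by linarith) h2) (ge_mono p P (by linarith) h4)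
  -- good indices
  let Gd : Finset (Fin r) := univ.filter (fun i => w i ≠ 0 ∧ ∃ j, j ≠ i ∧ w j ≠ 0 ∧ col j = col i)
  have hbad : (univ.filter (fun i => ¬ (w i ≠ 0 ∧ ∃ j, j ≠ i ∧ w j ≠ 0 ∧ col j = col i))).card ≤
      s + 1 := by
    have h1 : univ.filter (fun i => ¬ (w i ≠ 0 ∧ ∃ j, j ≠ i ∧ w j ≠ 0 ∧ col j = col i)) ⊆
        univ.filter (fun i => w i = 0) ∪
        univ.filter (fun i => w i ≠ 0 ∧ ¬ ∃ j, j ≠ i ∧ w j ≠ 0 ∧ col j = col i) := by
      intro i hi
      have h2 := (Finset.mem_filter.1 hi).2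
      rw [Finset.mem_union]
      by_cases h0 : w i = 0
      · exact Or.inl (Finset.mem_filter.2 ⟨Finset.mem_univ _, h0⟩)
      · exact Or.inr (Finset.mem_filter.2 ⟨Finset.mem_univ _, h0, fun h => h2 ⟨h0, h⟩⟩)
    have h2 : (univ.filter (fun i => w i = 0)).card ≤ 1 := by
      rw [Finset.card_le_one]
      intro i hi j hj
      by_contra hij
      obtain ⟨P⟩ := p.ne
      exact hhigh P i j hij (Or.inl (Finset.mem_filter.1 hi).2) (Or.inl (Finset.mem_filter.1 hj).2)
    have h3 : (univ.filter (fun i => w i ≠ 0 ∧ ¬ ∃ j, j ≠ i ∧ w j ≠ 0 ∧ col j = col i)).card ≤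
        s := by
      have h4 := Finset.card_le_card_of_injOn (s := univ.filter (fun i => w i ≠ 0 ∧
        ¬ ∃ j, j ≠ i ∧ w j ≠ 0 ∧ col j = col i)) (t := (univ : Finset (Fin s))) col
        (fun _ _ => Finset.mem_coe.2 (Finset.mem_univ _)) (by
          intro i hi j hj hc
          have hi' := (Finset.mem_filter.1 (Finset.mem_coe.1 hi)).2
          have hj' := (Finset.mem_filter.1 (Finset.mem_coe.1 hj)).2
          by_contra hij
          exact hi'.2 ⟨j, fun h => hij h.symm, hj'.1, hc.symm⟩)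
      rwa [Finset.card_univ, Fintype.card_fin] at h4
    exact (Finset.card_le_card h1).trans ((Finset.card_union_le _ _).trans (by omega))
  have hsplit : Gd.card + (univ.filter (fun i => ¬ (w i ≠ 0 ∧
      ∃ j, j ≠ i ∧ w j ≠ 0 ∧ col j = col i))).card = r := by
    have := Finset.card_filter_add_card_filter_not (s := (univ : Finset (Fin r)))
      (fun i => w i ≠ 0 ∧ ∃ j, j ≠ i ∧ w j ≠ 0 ∧ col j = col i)
    rw [Finset.card_univ, Fintype.card_fin] at this
    exact this
  have hlb : ∀ (P : p.I) (i : Fin r), w i ≠ 0 → e P ≤ p.v P (w i) := fun P i hi =>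
    (ge_iff p P _ hi _).1 (hmo.lb P i)
  have heven : ∀ i ∈ Gd, ∀ P : p.I, p.v P (w i) ≠ e P → 2 ≤ p.v P (w i) - e P := by
    intro i hi P hne
    obtain ⟨hi0, j, hji, hj0, hc⟩ := (Finset.mem_filter.1 hi).2
    have h1 := hlb P i hi0
    have h2 := hlb P j hj0
    have h3 : p.ge P (e P + 1) (w i) := Or.inr (by omega)
    have h4 := hhigh P i j hji.symm h3
    rw [ge_iff p P _ hj0] at h4
    have h5 : p.v P (w j) = e P := by omega
    obtain ⟨t, ht⟩ := hpar' i j hi0 hj0 hc.symm P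
    omega
  have hg0 : ∀ i ∈ Gd, w i ≠ 0 := fun i hi => (Finset.mem_filter.1 hi).2.1
  -- the places
  have hfin : ∀ i ∈ Gd, {P : p.I | p.v P (w i) ≠ e P}.Finite := fun i hi =>
    mo_fin hmo (w i) (hg0 i hi)
  let F : Fin r → Finset p.I := fun i =>
    if h : {P : p.I | p.v P (w i) ≠ e P}.Finite then h.toFinset else ∅
  have hF : ∀ i ∈ Gd, ∀ P, P ∈ F i ↔ p.v P (w i) ≠ e P := by
    intro i hi P
    simp only [F, dif_pos (hfin i hi)]
    simp
  let S : Finset p.I := Gd.biUnion F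
  let κ : p.I → ℤ := fun P => ∑ i ∈ Gd, (p.v P (w i) - e P)
  have hκ : ∀ P ∈ S, ∃ i ∈ Gd, κ P = p.v P (w i) - e P ∧ p.v P (w i) ≠ e P := by
    intro P hP
    obtain ⟨i, hi, hPi⟩ := Finset.mem_biUnion.1 hP
    have h1 := (hF i hi P).1 hPi
    refine ⟨i, hi, ?_, h1⟩
    apply Finset.sum_eq_single_of_mem i hi
    intro j hj hji
    have h2 := hlb P i (hg0 i hi)
    have h3 := hlb P j (hg0 j hj)
    have h4 := hhigh P i j hji.symm (Or.inr (by omega))
    rw [ge_iff p P _ (hg0 j hj)] at h4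
    omega
  have hBd : Bd (fun P => (2 : ℕ) * (-(e P)) + (if -(e P) = 0 then (0 : ℤ) else 1) + ρ P)
      (((2 : ℕ) : ℤ) * n + n + ((C * n : ℕ) : ℤ)) := by
    have h1 := mo_bd hmo
    have h2 := bd_add (bd_add (bd_mul h1 2) (bd_ind h1)) hD.bd
    exact h2
  have hιe : ∀ P, (if -(e P) = 0 then (0 : ℤ) else 1) = ι P := by
    intro P
    change _ = (if e P = 0 then (0 : ℤ) else 1)
    simp only [neg_eq_zero]
  have hzl := zl p (A * D B - B * D A) hW _ (fun P => κ P - 1) _ hBd S (by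
    intro P hP
    obtain ⟨i, hi, h1, h2⟩ := hκ P hP
    have h3 := hWk P i (hg0 i hi)
    have h4 := hιe P
    change κ P - 1 - (((2 : ℕ) : ℤ) * (-(e P)) + (if -(e P) = 0 then (0 : ℤ) else 1) + ρ P) ≤ _
    rw [h4, h1]
    push_cast
    linarith) (by
    intro P _
    have h3 := hWge P
    have h4 := hιe P
    change -(((2 : ℕ) : ℤ) * (-(e P)) + (if -(e P) = 0 then (0 : ℤ) else 1) + ρ P) ≤ _
    rw [h4]
    push_cast
    linarith)
  have hsum : ∑ P ∈ S, κ P = Gd.card * n := by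
    change ∑ P ∈ S, ∑ i ∈ Gd, (p.v P (w i) - e P) = _
    rw [Finset.sum_comm]
    have h1 : ∀ i ∈ Gd, ∑ P ∈ S, (p.v P (w i) - e P) = n := by
      intro i hi
      apply mo_sum_eq hmo (w i) (hg0 i hi)
      intro P hP
      by_contra hne
      exact hP (Finset.mem_biUnion.2 ⟨i, hi, (hF i hi P).2 hne⟩)
    rw [Finset.sum_congr rfl h1, Finset.sum_const, nsmul_eq_mul]
  have hle : ∑ P ∈ S, κ P ≤ ∑ P ∈ S, 2 * (κ P - 1) := by
    apply Finset.sum_le_sum
    intro P hP
    obtain ⟨i, hi, h1, h2⟩ := hκ P hP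
    have h3 := heven i hi P h2
    rw [h1]
    linarith
  rw [← Finset.mul_sum, hsum] at hle
  have h1 : (Gd.card : ℤ) * n ≤ (2 * (3 + C) : ℤ) * n := by
    push_cast at hzl
    nlinarith
  have h2 : (Gd.card : ℤ) ≤ 2 * (3 + C) := by
    have hn' : (0 : ℤ) < n := by exact_mod_cast hn
    exact le_of_mul_le_mul_right h1 hn'
  have h3 : Gd.card ≤ 2 * (3 + C) := by exact_mod_cast h2
  omega

end Pool.H91.HR
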