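import Pool.Agent.H91.HR.RC
import Pool.Agent.H91.HR.RD

set_option autoImplicit false

/-!
Row KU (project MP_259062_HR): auxiliary polynomial in two variables.

`gB P` bounds the poles of `G i j * x^i * (D x)^j` (`i, j < E`).
PROOF of `gB_bd`. `bd_mul`, `bd_add`, `bd_ind` (for `-(e P)`, the number of places with `e P ≠ 0` is at most `n`); the total is
`E n γ + E n + E (n + n + C n) = E n (γ + 3 + C)`.
PROOF of `ku_aux`. `dim_many` with `ι = Fin E × Fin E × Fin (E * n)`, `y l (i, j, k) = t^k * (σ l)^i * (D (σ l))^j`, `g = gB`, `N = E n (γ + 3 + C)`.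
Orders: `ge P (-(pol t P)) t` (definition of `pol`, `t ≠ 0`), `ge P (e P) (σ l)`, `ge P (e P - (if e P = 0 then 0 else 1) - r P) (D (σ l))` (`dx_ge`, `e P ≤ 0` by
`he`); `ge_pow`, `ge_mul`, `ge_mono` (`k ≤ E n`, `i, j ≤ E`, and `-(pol t P)`, `e P`, `e P - .. - r P` are `≤ 0`).
Cardinality: `#τ * (E n (γ+3+C) + 1) ≤ #τ * E n (γ+4+C) < E^2 * (E n)` (`E n ≥ 1`: `E = 0` contradicts `hcard`).
The relation `c ≠ 0` gives `G i j = sum over k of c (i,j,k) t^k`. Some `G i j ≠ 0`: some `c (i,j,k) ≠ 0`, and `G i j = aeval t (sum over k of c X^k)` with a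
nonzero polynomial, `t` transcendental. Order of `G i j`: `ge_sum`, `ge_cmul`. The relation is `sum_i sum_j G i j (σ l)^i (D (σ l))^j = 0`.
-/

namespace Pool.H91.HR

open Finset

universe u

/-- Bound for the poles. -/
noncomputable def gB {K L : Type u} [Field K] [Field L] [Algebra K L] (p : PS K L) (t : L) (e r : p.I → ℤ)
    (n E : ℕ) (P : p.I) : ℤ :=
  ((E * n : ℕ) : ℤ) * p.pol t P + ((E : ℤ) * (-(e P)) + (E : ℤ) * (-(e P) + (if -(e P) = 0 then 0 else 1) + r P))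

theorem gB_bd {K L : Type u} [Field K] [Field L] [Algebra K L] (p : PS K L) (t : L) (e r : p.I → ℤ)
    (n E C γ : ℕ) (hγ : Bd (p.pol t) γ) (he : Bd (fun P => -(e P)) n) (hr : Bd r ((C * n : ℕ) : ℤ)) :
    Bd (gB p t e r n E) ((E * n * (γ + 3 + C) : ℕ) : ℤ) := by
  have h1 := bd_mul hγ (E * n)
  have h2 := bd_mul he E
  have h3 : Bd (fun P => if -(e P) = 0 then (0 : ℤ) else 1) n := by
    convert bd_ind he
  have h4 := bd_mul (bd_add (bd_add he h3) hr) E
  have h5 := bd_add h1 (bd_add h2 h4)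
  refine bd_mono h5 (le_of_eq ?_)
  push_cast
  ring

private theorem KU_ge {K L : Type u} [Field K] [CharZero K] [Field L] [Algebra K L] (p : PS K L)
    (D : Derivation K L L) (e r : p.I → ℤ) (n C : ℕ) (t : L)
    (he : Bd (fun P => -(e P)) n) (hD : Df p D r ((C * n : ℕ) : ℤ)) (E : ℕ) (s : L)
    (hs : ∀ P : p.I, p.ge P (e P) s) (i j k : ℕ) (hi : i ≤ E) (hj : j ≤ E) (hk : k ≤ E * n)
    (P : p.I) : p.ge P (-(gB p t e r n E P)) (t ^ k * s ^ i * (D s) ^ j) := by
  have he0 : 0 ≤ -(e P) := he.1 P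
  have hr0 : 0 ≤ r P := hD.bd.1 P
  have ht0 : 0 ≤ p.pol t P := le_max_left _ _
  have h1 : p.ge P (-(p.pol t P)) t := by
    right
    have : -(p.v P t) ≤ p.pol t P := le_max_right _ _
    linarith
  have h2 := ge_pow p P h1 k
  have h3 := ge_pow p P (hs P) i
  have h4 := ge_pow p P (dx_ge p D r _ hD P (e P) (by linarith) s (hs P)) j
  have h5 := ge_mul p P (ge_mul p P h2 h3) h4
  refine ge_mono p P ?_ h5
  have hite : (if -(e P) = 0 then (0 : ℤ) else 1) = if e P = 0 then 0 else 1 := by simp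
  have hite0 : 0 ≤ (if e P = 0 then (0 : ℤ) else 1) := by split_ifs <;> norm_num
  unfold gB
  rw [hite]
  obtain ⟨q, hq⟩ : ∃ q, q = (if e P = 0 then (0 : ℤ) else 1) := ⟨_, rfl⟩
  rw [← hq] at hite0 ⊢
  have a1 : (k : ℤ) * p.pol t P ≤ ((E * n : ℕ) : ℤ) * p.pol t P :=
    mul_le_mul_of_nonneg_right (by exact_mod_cast hk) ht0
  have a2 : (i : ℤ) * (-(e P)) ≤ (E : ℤ) * (-(e P)) :=
    mul_le_mul_of_nonneg_right (by exact_mod_cast hi) he0
  have a3 : (j : ℤ) * (-(e P) + q + r P) ≤ (E : ℤ) * (-(e P) + q + r P) :=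
    mul_le_mul_of_nonneg_right (by exact_mod_cast hj) (by linarith)
  linarith

theorem ku_aux {K L : Type u} [Field K] [CharZero K] [Field L] [Algebra K L] (p : PS K L) (D : Derivation K L L)
    (e r : p.I → ℤ) (n C γ : ℕ) (t : L) (ht : Transcendental K t) (hγ : Bd (p.pol t) γ)
    (he : Bd (fun P => -(e P)) n) (hD : Df p D r ((C * n : ℕ) : ℤ)) (hn : 1 ≤ n) (E : ℕ)
    {τ : Type} [Fintype τ] (σ : τ → L) (hσ : ∀ (l : τ) (P : p.I), p.ge P (e P) (σ l))
    (hcard : Fintype.card τ * (γ + 4 + C) < E ^ 2) :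
    ∃ G : Fin E → Fin E → L, (∃ i j, G i j ≠ 0) ∧
      (∀ (i j : Fin E) (P : p.I), p.ge P (-(((E * n : ℕ) : ℤ) * p.pol t P)) (G i j)) ∧
      ∀ l : τ, ∑ i : Fin E, ∑ j : Fin E, G i j * (σ l) ^ (i : ℕ) * (D (σ l)) ^ (j : ℕ) = 0 := by
  have hE : 1 ≤ E := by
    by_contra hE
    have hE0 : E = 0 := by omega
    rw [hE0] at hcard
    simp at hcard
  have hEn : 1 ≤ E * n := Nat.mul_pos hE hn
  have hc : Fintype.card τ * (E * n * (γ + 3 + C) + 1) <
      Fintype.card (Fin E × Fin E × Fin (E * n)) := by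
    rw [Fintype.card_prod, Fintype.card_prod, Fintype.card_fin, Fintype.card_fin]
    calc Fintype.card τ * (E * n * (γ + 3 + C) + 1)
        ≤ Fintype.card τ * (E * n * (γ + 3 + C) + E * n) :=
          Nat.mul_le_mul_left _ (Nat.add_le_add_left hEn _)
      _ = Fintype.card τ * (γ + 4 + C) * (E * n) := by ring
      _ < E ^ 2 * (E * n) := Nat.mul_lt_mul_of_pos_right hcard hEn
      _ = E * (E * (E * n)) := by ring
  obtain ⟨c, hc0, hrel⟩ := dim_many p
    (fun (l : τ) (x : Fin E × Fin E × Fin (E * n)) =>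
      t ^ (x.2.2 : ℕ) * (σ l) ^ (x.1 : ℕ) * (D (σ l)) ^ (x.2.1 : ℕ))
    (gB p t e r n E) (E * n * (γ + 3 + C)) (gB_bd p t e r n E C γ hγ he hD.bd)
    (fun l x P => KU_ge p D e r n C t he hD E (σ l) (hσ l) _ _ _ x.1.2.le x.2.1.2.le x.2.2.2.le P)
    hc
  refine ⟨fun i j => ∑ k : Fin (E * n), algebraMap K L (c (i, j, k)) * t ^ (k : ℕ), ?_, ?_, ?_⟩
  · obtain ⟨⟨i, j, k⟩, hx⟩ : ∃ x, c x ≠ 0 := by
      by_contra hcon
      push Not at hcon
      exact hc0 (funext hcon)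
    refine ⟨i, j, fun h0 => hx ?_⟩
    have h1 : Polynomial.aeval t (∑ k : Fin (E * n),
        Polynomial.C (c (i, j, k)) * Polynomial.X ^ (k : ℕ)) = 0 := by
      rw [map_sum, ← h0]
      refine Finset.sum_congr rfl fun k _ => ?_
      rw [map_mul, Polynomial.aeval_C, map_pow, Polynomial.aeval_X]
    have h2 := (transcendental_iff.1 ht) _ h1
    have h3 := congrArg (fun q => Polynomial.coeff q (k : ℕ)) h2
    simp only [Polynomial.finsetSum_coeff, Polynomial.coeff_C_mul, Polynomial.coeff_X_pow,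
      Polynomial.coeff_zero] at h3
    rw [Finset.sum_eq_single k] at h3
    · simpa using h3
    · intro b _ hb
      have : (k : ℕ) ≠ (b : ℕ) := fun h => hb (Fin.ext h.symm)
      simp [this]
    · intro h
      exact absurd (Finset.mem_univ k) h
  · intro i j P
    refine ge_sum p P _ _ _ fun k _ => ge_cmul p P _ ?_
    have ht0 : 0 ≤ p.pol t P := le_max_left _ _
    have h1 : p.ge P (-(p.pol t P)) t := by
      right
      have : -(p.v P t) ≤ p.pol t P := le_max_right _ _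
      linarith
    refine ge_mono p P ?_ (ge_pow p P h1 k)
    have a1 : (((k : ℕ) : ℤ)) * p.pol t P ≤ ((E * n : ℕ) : ℤ) * p.pol t P :=
      mul_le_mul_of_nonneg_right (by exact_mod_cast k.2.le) ht0
    linarith
  · intro l
    rw [← hrel l, Fintype.sum_prod_type]
    refine Finset.sum_congr rfl fun i _ => ?_
    rw [Fintype.sum_prod_type]
    refine Finset.sum_congr rfl fun j _ => ?_
    rw [Finset.sum_mul, Finset.sum_mul]
    refine Finset.sum_congr rfl fun k _ => ?_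
    ring

end Pool.H91.HR
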