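import Pool.Agent.H91.HR.KD
import Pool.Agent.H91.HR.KU

set_option autoImplicit false

/-!
Row KV (project MP_259062_HR): the auxiliary polynomial vanishes at the base point of a subcube which hits many zeros.

PROOF of `kv_term`. `k = e P + κ` is a lower bound for the order of `x - σ` and `k - 1 - r P` for that of `y - y'`.
`x^i y^j - σ^i y'^j = (x^i - σ^i) y^j + σ^i (y^j - y'^j)`; `x^i - σ^i = (x - σ) * (sum of products x^a σ^b, a + b = i - 1)` (`Commute.geom_sum₂_mul`,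
`sub_dvd_pow_sub_pow`, or induction on `i`) has order `≥ (e + κ) + (i-1) e = i e + κ` (for `i = 0` it is `0`). Likewise `y^j - y'^j` has order
`≥ (e + κ - 1 - r) + (j-1) (e - ι - r) ≥ j (e - ι - r) + κ - 1` (`ι ≥ 0`). Everything is `≤ 0` apart from `κ`, `i, j ≤ E`, so the total order is at least
`-(E n pol t) + E e + E (e - ι - r) + κ - 1 = -(gB P) + κ - 1`.
PROOF of `kv_vanish`. Let `R0` be the sum in the conclusion, suppose `R0 ≠ 0`. For `Q ∈ QQ R` put `σ = -(fs b V (cs c Q))`, `W = symmDiff V (cs c Q)`; then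
`wv b V - σ = wv b W` (`ka_flip`). Let `S` be the finite set of the places `P` of the hit points. For `P ∈ S` let `(P, s)` be the hit point with
largest `s`, `W ∈ Iv (P, s) ∩ Bg` the vertex, `κ P = v P (wv b W) - e P`. `κ P ≥ s` (membership in `Iv`) and `κ P ≥ 2` (`h2`). `R0 = R0 - 0 = sum of
G i j (x^i y^j - σ^i (D σ)^j)` with `x = wv b V`, `y = D x`, `σ` for this `Q` (`hz`), and `y - D σ = D (wv b W)` is `0` or has order
`≥ e + κ - 1 - r` (`hD.low`). By `kv_term` and `ge_sum`, `v P R0 ≥ -(gB P) + κ P - 1`. For `P ∉ S`: `v P R0 ≥ -(gB P)` (`ge_pow`, `dx_ge`, as in `ku_aux`).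
`zl` with `g = gB`, `h P = κ P - 1`: `sum over S of (κ P - 1) ≤ E n (γ+3+C)`. The number of hit points with place `P` is at most `s ≤ κ P ≤ 2 (κ P - 1)`
(they are `(P, s')`, `1 ≤ s' ≤ s`), so `hit ≤ 2 E n (γ+3+C)`: contradiction to `hhit`.
-/

namespace Pool.H91.HR

open Finset
open Pool.H91.HQ (cs QQ)

universe u

theorem kv_pow {K L : Type u} [Field K] [Field L] [Algebra K L] (p : PS K L) (P : p.I) (a d : ℤ)
    (x σ : L) (hx : p.ge P a x) (hσ : p.ge P a σ) (hd : p.ge P (a + d) (x - σ)) (i : ℕ) :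
    p.ge P (i * a + d) (x ^ i - σ ^ i) := by
  induction i with
  | zero =>
    rw [pow_zero, pow_zero, sub_self]
    exact ge_zero p P _
  | succ i ih =>
    have e1 : x ^ (i + 1) - σ ^ (i + 1) = x * (x ^ i - σ ^ i) + (x - σ) * σ ^ i := by ring
    rw [e1]
    refine ge_add p P ?_ ?_
    · refine ge_mono p P (le_of_eq ?_) (ge_mul p P hx ih)
      push_cast
      ring
    · refine ge_mono p P (le_of_eq ?_) (ge_mul p P hd (ge_pow p P hσ i))
      push_cast
      ring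

theorem kv_term {K L : Type u} [Field K] [Field L] [Algebra K L] (p : PS K L) (t : L) (e r : p.I → ℤ) (n E : ℕ)
    (P : p.I) (he : e P ≤ 0) (hr : 0 ≤ r P) (κ : ℤ) (hκ : 1 ≤ κ) (x σ y y' g : L)
    (hx : p.ge P (e P) x) (hσ : p.ge P (e P) σ)
    (hy : p.ge P (e P - (if e P = 0 then 0 else 1) - r P) y)
    (hy' : p.ge P (e P - (if e P = 0 then 0 else 1) - r P) y')
    (hxσ : p.ge P (e P + κ) (x - σ)) (hyy : p.ge P (e P + κ - 1 - r P) (y - y'))
    (hg : p.ge P (-(((E * n : ℕ) : ℤ) * p.pol t P)) g) (i j : ℕ) (hi : i ≤ E) (hj : j ≤ E) :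
    p.ge P (-(gB p t e r n E P) + κ - 1) (g * x ^ i * y ^ j - g * σ ^ i * y' ^ j) := by
  have e1 : g * x ^ i * y ^ j - g * σ ^ i * y' ^ j =
      g * (x ^ i - σ ^ i) * y ^ j + g * σ ^ i * (y ^ j - y' ^ j) := by ring
  have hgB : gB p t e r n E P = ((E * n : ℕ) : ℤ) * p.pol t P +
      ((E : ℤ) * (-(e P)) + (E : ℤ) * (-(e P) + (if e P = 0 then 0 else 1) + r P)) := by
    unfold gB
    simp only [neg_eq_zero]
  rw [e1, hgB]
  set ι : ℤ := (if e P = 0 then 0 else 1) with hι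
  have hι0 : 0 ≤ ι := by
    rw [hι]
    split_ifs <;> simp
  have hi' : (E : ℤ) * e P ≤ i * e P := by
    have h1 : (i : ℤ) ≤ E := by exact_mod_cast hi
    nlinarith
  have hj' : (E : ℤ) * (e P - ι - r P) ≤ j * (e P - ι - r P) := by
    have h1 : (j : ℤ) ≤ E := by exact_mod_cast hj
    nlinarith
  have h1 := kv_pow p P (e P) κ x σ hx hσ hxσ i
  have h2 : p.ge P (j * (e P - ι - r P) + (κ - 1 + ι)) (y ^ j - y' ^ j) := by
    refine kv_pow p P (e P - ι - r P) (κ - 1 + ι) y y' hy hy' ?_ j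
    refine ge_mono p P (le_of_eq ?_) hyy
    ring
  refine ge_add p P ?_ ?_
  · refine ge_mono p P ?_ (ge_mul p P (ge_mul p P hg h1) (ge_pow p P hy j))
    linarith
  · refine ge_mono p P ?_ (ge_mul p P (ge_mul p P hg (ge_pow p P hσ i)) h2)
    linarith

theorem kv_vanish {K L : Type u} [Field K] [CharZero K] [Field L] [Algebra K L] {p : PS K L} {m n : ℕ}
    {b : Fin m → L} {e : p.I → ℤ} (h : Cu p m n b e) (D : Derivation K L L) (r : p.I → ℤ) (C γ : ℕ)
    (hD : Df p D r ((C * n : ℕ) : ℤ)) (t : L) (hγ : Bd (p.pol t) γ) (E M R : ℕ) [NeZero R]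
    (Bg : Finset (Finset (Fin m)))
    (h2 : ∀ W ∈ Bg, ∀ q : p.I × ℕ, 1 ≤ q.2 → M < (Sv p b e q).card → W ∈ Iv p b e q →
      e q.1 + 2 ≤ p.v q.1 (wv b W))
    (V : Finset (Fin m)) (c : Fin m → Fin R) (G : Fin E → Fin E → L)
    (hG : ∀ (i j : Fin E) (P : p.I), p.ge P (-(((E * n : ℕ) : ℤ) * p.pol t P)) (G i j))
    (hz : ∀ Q ∈ QQ R, ∑ i : Fin E, ∑ j : Fin E,
      G i j * (-(fs b V (cs c Q))) ^ (i : ℕ) * (D (-(fs b V (cs c Q)))) ^ (j : ℕ) = 0)
    (hhit : 2 * (E * n * (γ + 3 + C)) < hit p b e n M Bg V c) :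
    ∑ i : Fin E, ∑ j : Fin E, G i j * (wv b V) ^ (i : ℕ) * (D (wv b V)) ^ (j : ℕ) = 0 := by
  classical
  by_contra hR
  set R0 : L := ∑ i : Fin E, ∑ j : Fin E, G i j * (wv b V) ^ (i : ℕ) * (D (wv b V)) ^ (j : ℕ) with hR0
  have he : ∀ P, e P ≤ 0 := mo_nonpos h.mo
  have hr : ∀ P, 0 ≤ r P := hD.bd.1
  -- the general bound
  have hgen : ∀ P, -(gB p t e r n E P) ≤ p.v P R0 := by
    intro P
    have h1 : p.ge P (-(gB p t e r n E P)) R0 := by
      refine ge_sum p P _ _ _ fun i _ => ge_sum p P _ _ _ fun j _ => ?_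
      have hx := ge_pow p P (h.mo.lb P V) (i : ℕ)
      have hy := ge_pow p P (dx_ge p D r _ hD P (e P) (he P) _ (h.mo.lb P V)) (j : ℕ)
      refine ge_mono p P ?_ (ge_mul p P (ge_mul p P (hG i j P) hx) hy)
      have hgB : gB p t e r n E P = ((E * n : ℕ) : ℤ) * p.pol t P +
          ((E : ℤ) * (-(e P)) + (E : ℤ) * (-(e P) + (if e P = 0 then 0 else 1) + r P)) := by
        unfold gB
        simp only [neg_eq_zero]
      rw [hgB]
      have hι0 : (0 : ℤ) ≤ (if e P = 0 then 0 else 1) := by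
        split_ifs <;> simp
      generalize (if e P = 0 then (0 : ℤ) else 1) = ι at hι0 ⊢
      have hi' : (E : ℤ) * e P ≤ (i : ℕ) * e P := by
        have h1 : ((i : ℕ) : ℤ) ≤ E := by exact_mod_cast i.2.le
        have h2 := he P
        nlinarith
      have hj' : (E : ℤ) * (e P - ι - r P) ≤ (j : ℕ) * (e P - ι - r P) := by
        have h1 : ((j : ℕ) : ℤ) ≤ E := by exact_mod_cast j.2.le
        have h2 := he P
        have h3 := hr P
        nlinarith
      linarith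
    exact (ge_iff p P _ hR _).1 h1
  -- the hit points
  have hkey : ∀ q ∈ ((Pts p b e n).filter (fun q => M < (Sv p b e q).card)).filter
      (fun q => ∃ Q ∈ QQ R, symmDiff V (cs c Q) ∈ Iv p b e q ∩ Bg),
      1 ≤ q.2 ∧ (q.2 : ℤ) ≤ p.v q.1 R0 + gB p t e r n E q.1 + 1 ∧
        1 ≤ p.v q.1 R0 + gB p t e r n E q.1 := by
    intro q hq
    rw [Finset.mem_filter, Finset.mem_filter] at hq
    obtain ⟨⟨hq1, hq2⟩, Q, hQ, hW⟩ := hq
    rw [Finset.mem_inter] at hW
    obtain ⟨hW1, hW2⟩ := hW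
    have hq3 : 1 ≤ q.2 := by
      rw [Pts, Finset.mem_product, Finset.mem_Icc] at hq1
      exact hq1.2.1
    have hκ2 := h2 _ hW2 q hq3 hq2 hW1
    rw [Iv, Finset.mem_filter] at hW1
    obtain ⟨-, hW0, hκs⟩ := hW1
    set W := symmDiff V (cs c Q) with hWdef
    set κ : ℤ := p.v q.1 (wv b W) - e q.1 with hκ
    have hflip : wv b V - (-(fs b V (cs c Q))) = wv b W := by
      rw [sub_neg_eq_add, hWdef, ka_flip]
    have hxσ : p.ge q.1 (e q.1 + κ) (wv b V - (-(fs b V (cs c Q)))) := by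
      rw [hflip]
      exact Or.inr (by rw [hκ]; linarith)
    have hyy : p.ge q.1 (e q.1 + κ - 1 - r q.1) (D (wv b V) - D (-(fs b V (cs c Q)))) := by
      rw [← map_sub, hflip]
      by_cases hD0 : D (wv b W) = 0
      · exact Or.inl hD0
      · refine Or.inr ?_
        have := hD.low q.1 (wv b W) hW0 hD0
        rw [hκ]
        linarith
    have hσ : p.ge q.1 (e q.1) (-(fs b V (cs c Q))) := ge_neg p q.1 (ka_fsge h q.1 V (cs c Q))
    have h3 : p.ge q.1 (-(gB p t e r n E q.1) + κ - 1) R0 := by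
      have e3 : R0 = ∑ i : Fin E, ∑ j : Fin E, (G i j * (wv b V) ^ (i : ℕ) * (D (wv b V)) ^ (j : ℕ) -
          G i j * (-(fs b V (cs c Q))) ^ (i : ℕ) * (D (-(fs b V (cs c Q)))) ^ (j : ℕ)) := by
        simp only [Finset.sum_sub_distrib]
        rw [hz Q hQ, sub_zero]
      rw [e3]
      refine ge_sum p q.1 _ _ _ fun i _ => ge_sum p q.1 _ _ _ fun j _ => ?_
      exact kv_term p t e r n E q.1 (he q.1) (hr q.1) κ (by linarith) _ _ _ _ _ (h.mo.lb q.1 V) hσ
        (dx_ge p D r _ hD q.1 (e q.1) (he q.1) _ (h.mo.lb q.1 V))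
        (dx_ge p D r _ hD q.1 (e q.1) (he q.1) _ hσ) hxσ hyy (hG i j q.1) i j i.2.le j.2.le
    have h4 := (ge_iff p q.1 _ hR _).1 h3
    refine ⟨hq3, ?_, ?_⟩
    · linarith
    · linarith
  -- counting
  rw [hit] at hhit
  set S0 := ((Pts p b e n).filter (fun q => M < (Sv p b e q).card)).filter
      (fun q => ∃ Q ∈ QQ R, symmDiff V (cs c Q) ∈ Iv p b e q ∩ Bg) with hS0
  have hzl := zl p R0 hR (gB p t e r n E) (fun P => p.v P R0 + gB p t e r n E P)
    ((E * n * (γ + 3 + C) : ℕ) : ℤ) (gB_bd p t e r n E C γ hγ (mo_bd h.mo) hD.bd) (S0.image Prod.fst)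
    (fun P _ => by simp) (fun P _ => hgen P)
  have hcard : (S0.card : ℤ) ≤ ∑ P ∈ S0.image Prod.fst, 2 * (p.v P R0 + gB p t e r n E P) := by
    rw [Finset.card_eq_sum_card_image Prod.fst S0]
    push_cast
    refine Finset.sum_le_sum fun P hP => ?_
    rw [Finset.mem_image] at hP
    obtain ⟨q0, hq0, rfl⟩ := hP
    have hk0 := hkey q0 hq0
    have h5 : (S0.filter (fun q => q.1 = q0.1)).card ≤
        (Icc 1 (2 * (p.v q0.1 R0 + gB p t e r n E q0.1)).toNat).card := by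
      refine Finset.card_le_card_of_injOn Prod.snd ?_ ?_
      · intro q hq
        rw [Finset.mem_coe, Finset.mem_filter] at hq
        have hk := hkey q hq.1
        rw [hq.2] at hk
        rw [Finset.mem_coe, Finset.mem_Icc]
        refine ⟨hk.1, ?_⟩
        omega
      · intro q hq q' hq' hqq
        rw [Finset.mem_coe, Finset.mem_filter] at hq hq'
        exact Prod.ext (hq.2.trans hq'.2.symm) hqq
    rw [Nat.card_Icc] at h5
    omega
  rw [← Finset.mul_sum] at hcard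
  have h6 : (S0.card : ℤ) ≤ 2 * ((E * n * (γ + 3 + C) : ℕ) : ℤ) := by
    refine hcard.trans ?_
    linarith
  have h7 : S0.card ≤ 2 * (E * n * (γ + 3 + C)) := by exact_mod_cast h6
  omega

end Pool.H91.HR
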