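import Pool.Agent.H91.HR.Defs

set_option autoImplicit false

/-!
Row RA (project MP_259062_HR): basic properties of the valuations of a place system.

PROOF. All from the axioms of `PS`. `v 1 = 0`: `v (1*1) = v 1 + v 1`. `v (-1) = 0`: `v_const` with `c = -1` (`-1 ≠ 0` in a field), so
`v (-x) = v x`. `v x⁻¹ = - v x` from `x * x⁻¹ = 1`. `ge` for sums: if one summand or the sum is zero it is trivial, else `v_add`.
`v_add_lt`: if `v x < v y` then `x + y ≠ 0` (else `y = -x`, `v y = v x`), `v (x+y) ≥ v x` by `v_add`; if `v (x+y) > v x`, apply `v_add` to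
`x = (x + y) + (-y)`: `v x ≥ min (v (x+y)) (v y) > v x`. `v_res'`: apply `v_res` to `x * y⁻¹`; `c ≠ 0` because `v (x/y) = 0` (if `c = 0` then
`x/y = 0` or `0 < v (x/y)`); `x - c y = (x/y - c) * y`.
-/

namespace Pool.H91.HR

open Finset

universe u

variable {K L : Type u} [Field K] [Field L] [Algebra K L] (p : PS K L) (P : p.I)

theorem v_one : p.v P 1 = 0 := by
  have h := p.v_mul P 1 1 one_ne_zero one_ne_zero
  rw [mul_one] at h
  omega

theorem v_neg (x : L) (hx : x ≠ 0) : p.v P (-x) = p.v P x := by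
  have h := p.v_mul P (-1) x (neg_ne_zero.2 one_ne_zero) hx
  have h2 := p.v_const P (-1) (neg_ne_zero.2 one_ne_zero)
  rw [map_neg, map_one] at h2
  rw [neg_one_mul, h2, zero_add] at h
  exact h

theorem v_inv (x : L) (hx : x ≠ 0) : p.v P x⁻¹ = -(p.v P x) := by
  have h := p.v_mul P x x⁻¹ hx (inv_ne_zero hx)
  rw [mul_inv_cancel₀ hx, v_one] at h
  omega

theorem v_div (x y : L) (hx : x ≠ 0) (hy : y ≠ 0) : p.v P (x / y) = p.v P x - p.v P y := by
  rw [div_eq_mul_inv, p.v_mul P x y⁻¹ hx (inv_ne_zero hy), v_inv p P y hy]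
  ring

theorem v_pow (x : L) (hx : x ≠ 0) (k : ℕ) : p.v P (x ^ k) = k * p.v P x := by
  induction k with
  | zero => simp [v_one]
  | succ k ih =>
    rw [pow_succ, p.v_mul P _ _ (pow_ne_zero k hx) hx, ih]
    push_cast
    ring

theorem v_zpow (x : L) (hx : x ≠ 0) (k : ℤ) : p.v P (x ^ k) = k * p.v P x := by
  cases k with
  | ofNat k =>
    have := v_pow p P x hx k
    simpa using this
  | negSucc k =>
    rw [zpow_negSucc, v_inv p P _ (pow_ne_zero _ hx), v_pow p P x hx]
    rw [Int.negSucc_eq]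
    push_cast
    ring

theorem v_cmul (c : K) (hc : c ≠ 0) (x : L) (hx : x ≠ 0) : p.v P (algebraMap K L c * x) = p.v P x := by
  rw [p.v_mul P _ _ ((map_ne_zero _).2 hc) hx, p.v_const P c hc, zero_add]

theorem ge_zero (k : ℤ) : p.ge P k 0 := by
  exact Or.inl rfl

theorem ge_iff (x : L) (hx : x ≠ 0) (k : ℤ) : p.ge P k x ↔ k ≤ p.v P x := by
  constructor
  · rintro (h | h)
    · exact absurd h hx
    · exact h
  · exact fun h => Or.inr h

theorem ge_mono {k l : ℤ} (hkl : k ≤ l) {x : L} (hx : p.ge P l x) : p.ge P k x := by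
  rcases hx with h | h
  · exact Or.inl h
  · exact Or.inr (hkl.trans h)

theorem ge_neg {k : ℤ} {x : L} (hx : p.ge P k x) : p.ge P k (-x) := by
  by_cases h0 : x = 0
  · subst h0
    rw [neg_zero]
    exact ge_zero p P k
  · rcases hx with h | h
    · exact absurd h h0
    · refine Or.inr ?_
      rw [v_neg p P x h0]
      exact h

theorem ge_add {k : ℤ} {x y : L} (hx : p.ge P k x) (hy : p.ge P k y) : p.ge P k (x + y) := by
  by_cases h0 : x = 0
  · subst h0
    rw [zero_add]
    exact hy
  by_cases h1 : y = 0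
  · subst h1
    rw [add_zero]
    exact hx
  by_cases h2 : x + y = 0
  · exact Or.inl h2
  · refine Or.inr ?_
    have h3 := p.v_add P x y h0 h1 h2
    exact (le_min ((ge_iff p P x h0 k).1 hx) ((ge_iff p P y h1 k).1 hy)).trans h3

theorem ge_sub {k : ℤ} {x y : L} (hx : p.ge P k x) (hy : p.ge P k y) : p.ge P k (x - y) := by
  rw [sub_eq_add_neg]
  exact ge_add p P hx (ge_neg p P hy)

theorem ge_sum {α : Type*} (s : Finset α) (f : α → L) (k : ℤ) (hf : ∀ i ∈ s, p.ge P k (f i)) :
    p.ge P k (∑ i ∈ s, f i) := by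
  classical
  induction s using Finset.induction_on with
  | empty =>
    rw [Finset.sum_empty]
    exact ge_zero p P k
  | insert a s ha ih =>
    rw [Finset.sum_insert ha]
    exact ge_add p P (hf a (Finset.mem_insert_self a s))
      (ih fun i hi => hf i (Finset.mem_insert_of_mem hi))

theorem ge_mul {k l : ℤ} {x y : L} (hx : p.ge P k x) (hy : p.ge P l y) : p.ge P (k + l) (x * y) := by
  by_cases h0 : x = 0
  · exact Or.inl (by rw [h0, zero_mul])
  by_cases h1 : y = 0
  · exact Or.inl (by rw [h1, mul_zero])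
  refine Or.inr ?_
  rw [p.v_mul P x y h0 h1]
  exact add_le_add ((ge_iff p P x h0 k).1 hx) ((ge_iff p P y h1 l).1 hy)

theorem ge_pow {k : ℤ} {x : L} (hx : p.ge P k x) (j : ℕ) : p.ge P (j * k) (x ^ j) := by
  induction j with
  | zero =>
    refine Or.inr ?_
    rw [pow_zero, v_one]
    simp
  | succ j ih =>
    rw [pow_succ]
    have := ge_mul p P ih hx
    refine ge_mono p P (le_of_eq ?_) this
    push_cast
    ring

theorem ge_const (c : K) : p.ge P 0 (algebraMap K L c) := by
  by_cases h0 : c = 0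
  · exact Or.inl (by rw [h0, map_zero])
  · exact Or.inr (le_of_eq (p.v_const P c h0).symm)

theorem ge_cmul {k : ℤ} (c : K) {x : L} (hx : p.ge P k x) : p.ge P k (algebraMap K L c * x) := by
  have := ge_mul p P (ge_const p P c) hx
  rwa [zero_add] at this

theorem v_add_lt (x y : L) (hx : x ≠ 0) (hy : y ≠ 0) (h : p.v P x < p.v P y) :
    x + y ≠ 0 ∧ p.v P (x + y) = p.v P x := by
  have h0 : x + y ≠ 0 := by
    intro h0
    have h1 : y = -x := by linear_combination h0
    rw [h1, v_neg p P x hx] at h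
    exact lt_irrefl _ h
  refine ⟨h0, ?_⟩
  have h1 := p.v_add P x y hx hy h0
  have h2 := p.v_add P (x + y) (-y) h0 (neg_ne_zero.2 hy) (by rw [add_neg_cancel_right]; exact hx)
  rw [add_neg_cancel_right, v_neg p P y hy] at h2
  rw [min_eq_left h.le] at h1
  rcases le_or_gt (p.v P (x + y)) (p.v P y) with h3 | h3
  · rw [min_eq_left h3] at h2
    exact le_antisymm h2 h1
  · rw [min_eq_right h3.le] at h2
    exact absurd (lt_of_lt_of_le h h2) (lt_irrefl _)

theorem v_res' (x y : L) (hx : x ≠ 0) (hy : y ≠ 0) (h : p.v P x = p.v P y) :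
    ∃ c : K, c ≠ 0 ∧ p.ge P (p.v P x + 1) (x - algebraMap K L c * y) := by
  have hxy : x / y ≠ 0 := div_ne_zero hx hy
  obtain ⟨c, hc⟩ := p.v_res P (x / y) hxy (by rw [v_div p P x y hx hy, h, sub_self])
  have hv : p.v P (x / y) = 0 := by rw [v_div p P x y hx hy, h, sub_self]
  have e : x - algebraMap K L c * y = (x / y - algebraMap K L c) * y := by
    field_simp
  refine ⟨c, ?_, ?_⟩
  · rintro rfl
    rw [map_zero, sub_zero] at hc
    rcases hc with hc | hc
    · exact hxy hc
    · rw [hv] at hc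
      exact lt_irrefl _ hc
  · rw [e]
    have h1 : p.ge P 1 (x / y - algebraMap K L c) := by
      rcases hc with hc | hc
      · exact Or.inl hc
      · exact Or.inr hc
    have h2 : p.ge P (p.v P x) y := Or.inr (le_of_eq h)
    have := ge_mul p P h1 h2
    rwa [add_comm] at this

/-- The elements of order at least `k` at `P`, as a `K`-subspace. -/
def Ws (k : ℤ) : Submodule K L where
  carrier := {x | p.ge P k x}
  add_mem' := fun ha hb => ge_add p P ha hb
  zero_mem' := ge_zero p P k
  smul_mem' := fun c x hx => by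
    rw [Algebra.smul_def]
    exact ge_cmul p P c hx

theorem mem_Ws (k : ℤ) (x : L) : x ∈ Ws p P k ↔ p.ge P k x := Iff.rfl

end Pool.H91.HR
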