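import Pool.Agent.H91.HR.RB

set_option autoImplicit false

/-!
Row RC (project MP_259062_HR): dimension bound (easy half of Riemann-Roch) and linear algebra.

PROOF of `dim_step`. Induction on `j`, the conclusion is: a subspace `U` of `ι → K` with `card ι ≤ finrank U + j` and all combinations
`sum c i * y i` (`c ∈ U`) of order at least `k + j` at `P`. `j = 0`: `U = ⊤` (`ge_sum`, `ge_cmul`). Step: let `φ : U → L`, `φ c = sum c i y i`,
`K`-linear. If all `φ c` (`c ∈ U`) have order `≥ k + j + 1` keep `U`. Otherwise some `c0 ∈ U` has `φ c0 ≠ 0`, `v P (φ c0) = k + j`. For every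
`c ∈ U` there is `r : K` with `ge P (k+j+1) (φ c - r φ c0)` (`v_res'`, or `r = 0` if the order of `φ c` is bigger); `r` is unique (if `r ≠ r'` then
`(r - r') φ c0` would have order `≥ k+j+1`), so `c ↦ r` is linear; its kernel `U'` has `finrank U' + 1 ≥ finrank U` (rank-nullity).
(Shorter: `U' = {c ∈ U | ge P (k+j+1) (φ c)}` is a subspace and `U = U' ⊔ span {c0}` by the above, so `finrank U ≤ finrank U' + 1`,
`Submodule.finrank_add_le_finrank_add_finrank`, `finrank_span_singleton`.)
PROOF of `fin_space`. Let `X` be the subspace of all `x : L` with `ge P (-(g P)) x` for all `P` (intersection of the `Ws p P (-(g P))`). If its rank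
is bigger than `N + 1` there are `N + 2` linearly independent elements `y : Fin (N+2) → L` of `X`. Take a place `P0` (`p.ne`), `dim_step` with
`k = -(g P0)`, `j = N + 1` gives `U` with `finrank U ≥ 1`, so `c ≠ 0` in `U`, `x = sum c i y i ≠ 0` by independence, and
`v P0 x ≥ -(g P0) + N + 1`, `v P x ≥ -(g P)` elsewhere. `zl` with `S = {P0}`, `h = N + 1`: `N + 1 ≤ N`, contradiction.
(`Module.finite` and `finrank`: use `rank_le` / `Module.Finite` from a bound on linearly independent finite families, e.g.
`Submodule.fg`/`LinearIndependent` cardinal lemmas `rank_le_of_...`, or prove `dim_one` directly and deduce `dim_many`.)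
PROOF of `dim_many`. `X` as above, `finrank X ≤ N + 1`. The linear map `(ι → K) → (τ → X)`, `c ↦ (l ↦ sum c i * y l i)`, goes from dimension
`card ι` to dimension `≤ card τ * (N + 1) < card ι`, so it has a nonzero kernel (`LinearMap.exists_ne_zero_of_finrank...` or
`LinearMap.ker_ne_bot_of_finrank_lt`).
-/

namespace Pool.H91.HR

open Finset

universe u

variable {K L : Type u} [Field K] [Field L] [Algebra K L] (p : PS K L)

/-- The linear map `c ↦ sum c i y i`. -/
theorem lc_eq {ι : Type} [Fintype ι] (y : ι → L) (c : ι → K) :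
    Fintype.linearCombination K y c = ∑ i, algebraMap K L (c i) * y i := by
  rw [Fintype.linearCombination_apply]
  exact Finset.sum_congr rfl (fun i _ => Algebra.smul_def _ _)

theorem dim_step (P : p.I) {ι : Type} [Fintype ι] (y : ι → L) (k : ℤ) (hy : ∀ i, p.ge P k (y i)) (j : ℕ) :
    ∃ U : Submodule K (ι → K), Fintype.card ι ≤ Module.finrank K U + j ∧
      ∀ c ∈ U, p.ge P (k + j) (∑ i, algebraMap K L (c i) * y i) := by
  classical
  suffices h : Fintype.card ι ≤
      Module.finrank K ((Ws p P (k + j)).comap (Fintype.linearCombination K y)) + j by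
    refine ⟨(Ws p P (k + j)).comap (Fintype.linearCombination K y), h, fun c hc => ?_⟩
    rw [Submodule.mem_comap, mem_Ws, lc_eq] at hc
    exact hc
  induction j with
  | zero =>
    have htop : (Ws p P (k + ((0 : ℕ) : ℤ))).comap (Fintype.linearCombination K y) = ⊤ := by
      rw [eq_top_iff]
      intro c _
      rw [Submodule.mem_comap, mem_Ws, lc_eq]
      refine ge_sum p P _ _ _ (fun i _ => ?_)
      have := ge_cmul p P (c i) (hy i)
      simpa using this
    rw [htop, finrank_top, Module.finrank_fintype_fun_eq_card]
    simp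
  | succ j ih =>
    set A := (Ws p P (k + ((j : ℕ) : ℤ))).comap (Fintype.linearCombination K y) with hA
    set B := (Ws p P (k + ((j + 1 : ℕ) : ℤ))).comap (Fintype.linearCombination K y) with hB
    have key : Module.finrank K A ≤ Module.finrank K B + 1 := by
      by_cases hAB : A ≤ B
      · exact (Submodule.finrank_mono hAB).trans (Nat.le_succ _)
      · obtain ⟨c0, hc0A, hc0B⟩ := Set.not_subset.mp hAB
        have hc0A' : p.ge P (k + j) (Fintype.linearCombination K y c0) := hc0A
        have hc0B' : ¬ p.ge P (k + ((j + 1 : ℕ) : ℤ)) (Fintype.linearCombination K y c0) := hc0B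
        have hne0 : Fintype.linearCombination K y c0 ≠ 0 := fun h => hc0B' (Or.inl h)
        have hv0 : p.v P (Fintype.linearCombination K y c0) = k + j := by
          have h1 := (ge_iff p P _ hne0 _).1 hc0A'
          have h2 : ¬ (k + ((j + 1 : ℕ) : ℤ) ≤ p.v P (Fintype.linearCombination K y c0)) :=
            fun h => hc0B' ((ge_iff p P _ hne0 _).2 h)
          push_cast at h2
          omega
        have hle : A ≤ B ⊔ Submodule.span K {c0} := by
          intro c hc
          have hc' : p.ge P (k + j) (Fintype.linearCombination K y c) := hc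
          by_cases hcB : c ∈ B
          · exact Submodule.mem_sup_left hcB
          · have hcB' : ¬ p.ge P (k + ((j + 1 : ℕ) : ℤ)) (Fintype.linearCombination K y c) := hcB
            have hne : Fintype.linearCombination K y c ≠ 0 := fun h => hcB' (Or.inl h)
            have hv : p.v P (Fintype.linearCombination K y c) = k + j := by
              have h1 := (ge_iff p P _ hne _).1 hc'
              have h2 : ¬ (k + ((j + 1 : ℕ) : ℤ) ≤ p.v P (Fintype.linearCombination K y c)) :=
                fun h => hcB' ((ge_iff p P _ hne _).2 h)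
              push_cast at h2
              omega
            obtain ⟨r, -, hr⟩ := v_res' p P _ _ hne hne0 (hv.trans hv0.symm)
            have hmem : c - r • c0 ∈ B := by
              show p.ge P (k + ((j + 1 : ℕ) : ℤ)) (Fintype.linearCombination K y (c - r • c0))
              rw [map_sub, map_smul, Algebra.smul_def]
              have e1 : k + ((j + 1 : ℕ) : ℤ) = p.v P (Fintype.linearCombination K y c) + 1 := by
                rw [hv]; push_cast; ring
              rw [e1]
              exact hr
            have e2 : c = (c - r • c0) + r • c0 := by abel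
            rw [e2]
            exact Submodule.add_mem_sup hmem
              (Submodule.smul_mem _ _ (Submodule.mem_span_singleton_self c0))
        calc Module.finrank K A ≤ Module.finrank K (B ⊔ Submodule.span K {c0} : Submodule K (ι → K)) :=
              Submodule.finrank_mono hle
          _ ≤ Module.finrank K B + Module.finrank K (Submodule.span K {c0}) :=
              Submodule.finrank_add_le_finrank_add_finrank _ _
          _ ≤ Module.finrank K B + 1 := by
              have := finrank_span_le_card (R := K) ({c0} : Set (ι → K))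
              simp only [Set.toFinset_singleton, Finset.card_singleton] at this
              omega
    have ih' : Fintype.card ι ≤ Module.finrank K A + j := ih
    omega

/-- The space of functions with poles bounded by `g`. -/
def Xs (g : p.I → ℤ) : Submodule K L := ⨅ P : p.I, Ws p P (-(g P))

theorem mem_Xs (g : p.I → ℤ) (x : L) : x ∈ Xs p g ↔ ∀ P : p.I, p.ge P (-(g P)) x := by
  unfold Xs
  rw [Submodule.mem_iInf]
  rfl

theorem card_le_of_indep (g : p.I → ℤ) (N : ℕ) (hg : Bd g N) (n : ℕ) (y : Fin n → L)
    (hy : ∀ i P, p.ge P (-(g P)) (y i)) (hli : LinearIndependent K y) : n ≤ N + 1 := by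
  by_contra hcon
  push Not at hcon
  obtain ⟨P0⟩ := p.ne
  obtain ⟨U, hU, hUge⟩ := dim_step p P0 y (-(g P0)) (fun i => hy i P0) (N + 1)
  rw [Fintype.card_fin] at hU
  have hpos : 0 < Module.finrank K U := by omega
  have hUne : U ≠ ⊥ := by
    intro h
    rw [h, finrank_bot] at hpos
    exact lt_irrefl _ hpos
  obtain ⟨c, hcU, hc0⟩ := Submodule.exists_mem_ne_zero_of_ne_bot hUne
  have hx0 : (∑ i, algebraMap K L (c i) * y i) ≠ 0 := by
    intro h
    apply hc0
    have h' : ∑ i, c i • y i = 0 := by
      rw [← h]
      exact Finset.sum_congr rfl (fun i _ => Algebra.smul_def _ _)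
    funext i
    exact (Fintype.linearIndependent_iff.1 hli) c h' i
  have hgeP : ∀ P, p.ge P (-(g P)) (∑ i, algebraMap K L (c i) * y i) := by
    intro P
    exact ge_sum p P _ _ _ (fun i _ => ge_cmul p P (c i) (hy i P))
  have h0 := (ge_iff p P0 _ hx0 _).1 (hUge c hcU)
  have := zl p _ hx0 g (fun _ => ((N + 1 : ℕ) : ℤ)) N hg {P0}
    (by
      intro P hP
      rw [Finset.mem_singleton] at hP
      rw [hP]
      linarith)
    (fun P _ => (ge_iff p P _ hx0 _).1 (hgeP P))
  rw [Finset.sum_singleton] at this
  push_cast at this
  linarith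

theorem fin_space (g : p.I → ℤ) (N : ℕ) (hg : Bd g N) :
    Module.Finite K (Xs p g) ∧ Module.finrank K (Xs p g) ≤ N + 1 := by
  have hrank : Module.rank K (Xs p g) ≤ ((N + 1 : ℕ) : Cardinal) := by
    refine rank_le (fun s hs => ?_)
    have hli : LinearIndependent K
        (fun i : Fin s.card => (((s.equivFin.symm i : s) : Xs p g) : L)) := by
      have h1 : LinearIndependent K (fun i : s => (((i : Xs p g)) : L)) :=
        hs.map' (Xs p g).subtype (Submodule.ker_subtype _)
      exact h1.comp _ s.equivFin.symm.injective
    exact card_le_of_indep p g N hg s.card _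
      (fun i P => (mem_Xs p g _).1 ((s.equivFin.symm i : s) : Xs p g).2 P) hli
  refine ⟨?_, ?_⟩
  · rw [← Module.rank_lt_aleph0_iff]
    exact lt_of_le_of_lt hrank (Cardinal.natCast_lt_aleph0)
  · exact Module.finrank_le_of_rank_le hrank

theorem dim_many {ι τ : Type} [Fintype ι] [Fintype τ] (y : τ → ι → L) (g : p.I → ℤ) (N : ℕ) (hg : Bd g N)
    (hy : ∀ (l : τ) (i : ι) (P : p.I), p.ge P (-(g P)) (y l i))
    (hc : Fintype.card τ * (N + 1) < Fintype.card ι) :
    ∃ c : ι → K, c ≠ 0 ∧ ∀ l : τ, ∑ i, algebraMap K L (c i) * y l i = 0 := by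
  classical
  obtain ⟨hfin, hdim⟩ := fin_space p g N hg
  let y' : τ → ι → Xs p g := fun l i => ⟨y l i, (mem_Xs p g _).2 (hy l i)⟩
  let Φ : (ι → K) →ₗ[K] (τ → Xs p g) := LinearMap.pi (fun l => Fintype.linearCombination K (y' l))
  have hlt : Module.finrank K (τ → Xs p g) < Module.finrank K (ι → K) := by
    rw [Module.finrank_fintype_fun_eq_card, Module.finrank_pi_fintype]
    simp only [Finset.sum_const, Finset.card_univ, smul_eq_mul]
    exact lt_of_le_of_lt (Nat.mul_le_mul_left _ hdim) hc
  have hker := LinearMap.ker_ne_bot_of_finrank_lt (f := Φ) hlt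
  obtain ⟨c, hcker, hc0⟩ := Submodule.exists_mem_ne_zero_of_ne_bot hker
  refine ⟨c, hc0, fun l => ?_⟩
  have h1 : Φ c = 0 := hcker
  have h2 : Fintype.linearCombination K (y' l) c = 0 := congrFun h1 l
  rw [Fintype.linearCombination_apply] at h2
  have h3 := congrArg (Xs p g).subtype h2
  rw [map_sum, map_zero] at h3
  rw [← h3]
  refine Finset.sum_congr rfl (fun i _ => ?_)
  rw [map_smul, Algebra.smul_def]
  rfl

end Pool.H91.HR
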