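import Pool.Agent.H91.HR.RD

set_option autoImplicit false

/-!
Row RE (project MP_259062_HR): a derivation that preserves a ring of integral functions loses at most one order
(a form of Seidenberg's theorem).

PROOF. `μ` from `mu_exists`. It is enough that `μ ≥ -1`. Suppose `μ ≤ -2`, `k0 = -μ ≥ 2`.
Claim: for every `x ∈ B`, `x ≠ 0`, `k0 ∣ v P x`. By `hB`, `v P x ≥ 0`; strong induction on `(v P x).toNat`. `v P x = 0`: clear. If `v P x > 0` then
`D x ≠ 0`, `v P (D x) = v P x - k0`, `D x ∈ B`, so `v P x - k0 ≥ 0` and it is smaller than `v P x`; by induction `k0 ∣ v P x - k0`.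
Now take `y` with `v P y = 1` (`v_surj`), `y = z / w` with `z, w ∈ B` nonzero (`hfr`), `1 = v P z - v P w` is divisible by `k0 ≥ 2`: contradiction.
-/

namespace Pool.H91.HR

open Finset

universe u

variable {K L : Type u} [Field K] [CharZero K] [Field L] [Algebra K L] (p : PS K L)

theorem RE_dvd (D : Derivation K L L) (P : p.I) (μ : ℤ) (hμ : μ ≤ -2)
    (h2 : ∀ x : L, x ≠ 0 → p.v P x ≠ 0 → D x ≠ 0 ∧ p.v P (D x) = p.v P x + μ)
    (B : Subalgebra K L) (hB : ∀ x ∈ B, p.ge P 0 x) (hDB : ∀ x ∈ B, D x ∈ B) :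
    ∀ n : ℕ, ∀ x : L, x ∈ B → x ≠ 0 → p.v P x = (n : ℤ) → μ ∣ p.v P x := by
  intro n
  induction n using Nat.strong_induction_on with
  | _ n ih =>
    intro x hx hx0 hn
    by_cases h0 : p.v P x = 0
    · rw [h0]; exact dvd_zero _
    · obtain ⟨hD0, hDv⟩ := h2 x hx0 h0
      have hge := hB (D x) (hDB x hx)
      rcases hge with hge | hge
      · exact absurd hge hD0
      · have hlt : (p.v P (D x)).toNat < n := by omega
        have hd := ih (p.v P (D x)).toNat hlt (D x) (hDB x hx) hD0 (by omega)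
        rw [hDv] at hd
        exact (dvd_add_left (dvd_refl μ)).1 hd

theorem semi (D : Derivation K L L) (P : p.I)
    (hb : ∃ N : ℤ, ∀ x : L, x ≠ 0 → D x ≠ 0 → p.v P x - N ≤ p.v P (D x))
    (B : Subalgebra K L) (hB : ∀ x ∈ B, p.ge P 0 x) (hDB : ∀ x ∈ B, D x ∈ B)
    (hfr : ∀ x : L, ∃ y ∈ B, ∃ z ∈ B, x = y / z) :
    ∀ x : L, x ≠ 0 → D x ≠ 0 → p.v P x - 1 ≤ p.v P (D x) := by
  intro x hx hDx
  obtain ⟨μ, h1, h2⟩ := mu_exists p D P hb ⟨x, hDx⟩
  have hμ : -1 ≤ μ := by
    by_contra hlt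
    push Not at hlt
    have hμ2 : μ ≤ -2 := by omega
    have hd := RE_dvd p D P μ hμ2 h2 B hB hDB
    obtain ⟨y, hy0, hy1⟩ := p.v_surj P
    obtain ⟨z, hz, w, hw, hyzw⟩ := hfr y
    have hz0 : z ≠ 0 := by
      rintro rfl
      apply hy0
      rw [hyzw, zero_div]
    have hw0 : w ≠ 0 := by
      rintro rfl
      apply hy0
      rw [hyzw, div_zero]
    have hzn : 0 ≤ p.v P z := (hB z hz).resolve_left hz0
    have hwn : 0 ≤ p.v P w := (hB w hw).resolve_left hw0
    have hzd := hd (p.v P z).toNat z hz hz0 (by omega)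
    have hwd := hd (p.v P w).toNat w hw hw0 (by omega)
    have hv := v_div p P z w hz0 hw0
    rw [← hyzw, hy1] at hv
    have h1d : μ ∣ (1 : ℤ) := by
      rw [hv]
      exact dvd_sub hzd hwd
    have := Int.isUnit_iff.1 (isUnit_of_dvd_one h1d)
    omega
  have := h1 x hx hDx
  omega

end Pool.H91.HR
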