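import Pool.Agent.H91.HR.RC

set_option autoImplicit false

/-!
Row RG (project MP_259062_HR): an algebraic relation of small bidegree between two functions.

`ev2 t u F = F(t, u)` (outer variable at `u`, inner variable at `t`), `dT F` is the derivative in the inner variable.

PROOF of `rel_exists`. `dim_many` with `ι = Fin (2n+1) × Fin (2γ+1)`, `τ = Unit`, `y () (i, j) = t^i * u^j`,
`g P = 2n * pol t P + 2γ * pol u P` (`N = 4 n γ`, `bd_add`, `bd_mul`). `ge P (-(pol x P)) x` holds by definition of `pol`; `ge_pow`, `ge_mul`, `ge_mono`.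
`4nγ + 1 < (2n+1)(2γ+1)` as `n ≥ 1`. The relation `c ≠ 0` gives `F0 = sum over j of monomial j (sum over i of monomial i (c (i,j))) ≠ 0` with
`natDegree F0 ≤ 2γ`, coefficients of degree `≤ 2n`, `ev2 t u F0 = 0`. Among all nonzero `F` with these three properties take one of least
`natDegree` (`WellFounded.min` / `Nat.find`). If `natDegree F = 0` then `F = C q`, `q ≠ 0`, `aeval t q = 0`: contradiction to `ht`. So
`natDegree F ≥ 1`, `derivative F ≠ 0` (characteristic zero: `Polynomial.natDegree_eq_zero_of_derivative_eq_zero`), its degree is smaller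
(`Polynomial.natDegree_derivative_lt`), its coefficients `(j+1) * F.coeff (j+1)` have degree `≤ 2n`, so by minimality `ev2 t u (derivative F) ≠ 0`.
PROOF of `der_ev`. Both sides are additive in `F`; for `F = monomial j (monomial i c)`: `δ (c t^i u^j) = c i t^(i-1) u^j δ t + c j t^i u^(j-1) δ u`.
(`Polynomial.induction_on`-type induction in both variables, or `Derivation.leibniz`, `Derivation.map_aeval`.)
-/

namespace Pool.H91.HR

open Finset Polynomial

universe u

/-- `F(t, u)`. -/
noncomputable def ev2 {K L : Type u} [Field K] [Field L] [Algebra K L] (t w : L) (F : K[X][X]) : L :=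
  F.eval₂ ((Polynomial.aeval t : K[X] →ₐ[K] L) : K[X] →+* L) w

/-- Derivative in the inner variable. -/
noncomputable def dT {K : Type u} [Field K] (F : K[X][X]) : K[X][X] :=
  ∑ j ∈ range (F.natDegree + 1), monomial j (derivative (F.coeff j))

/-- Polynomials with outer degree at most `s` and inner degree at most `r`. -/
def Box {K : Type u} [Field K] (r s : ℕ) (F : K[X][X]) : Prop :=
  F.natDegree ≤ s ∧ ∀ j, (F.coeff j).natDegree ≤ r

theorem rg_coeff_dT {K : Type u} [Field K] (F : K[X][X]) (j : ℕ) :
    (dT F).coeff j = derivative (F.coeff j) := by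
  unfold dT
  rw [finset_sum_coeff]
  simp only [coeff_monomial]
  rw [Finset.sum_ite_eq']
  split_ifs with h
  · rfl
  · rw [Finset.mem_range] at h
    rw [coeff_eq_zero_of_natDegree_lt (by omega), derivative_zero]

theorem dT_box {K : Type u} [Field K] (r s : ℕ) (F : K[X][X]) (h : Box r s F) : Box r s (dT F) := by
  refine ⟨?_, fun j => ?_⟩
  · rw [natDegree_le_iff_coeff_eq_zero]
    intro N hN
    rw [rg_coeff_dT, coeff_eq_zero_of_natDegree_lt (lt_of_le_of_lt h.1 hN), derivative_zero]
  · rw [rg_coeff_dT]
    have h1 := natDegree_derivative_le (F.coeff j)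
    have h2 := h.2 j
    omega

theorem dX_box {K : Type u} [Field K] (r s : ℕ) (F : K[X][X]) (h : Box r s F) : Box r s (derivative F) := by
  refine ⟨?_, fun j => ?_⟩
  · have h1 := natDegree_derivative_le F
    have h2 := h.1
    omega
  · rw [coeff_derivative]
    have e : ((j : K[X]) + 1) = ((j + 1 : ℕ) : K[X]) := by push_cast; ring
    rw [e]
    refine natDegree_mul_le.trans ?_
    rw [natDegree_natCast, add_zero]
    exact h.2 (j + 1)

theorem rg_dT_add {K : Type u} [Field K] (F G : K[X][X]) : dT (F + G) = dT F + dT G := by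
  ext1 j
  rw [coeff_add, rg_coeff_dT, rg_coeff_dT, rg_coeff_dT, coeff_add, derivative_add]

theorem rg_dT_monomial {K : Type u} [Field K] (j : ℕ) (a : K[X]) :
    dT (monomial j a) = monomial j (derivative a) := by
  ext1 k
  rw [rg_coeff_dT, coeff_monomial, coeff_monomial]
  split_ifs
  · rfl
  · exact derivative_zero

theorem rg_ev2_add {K L : Type u} [Field K] [Field L] [Algebra K L] (t w : L) (F G : K[X][X]) :
    ev2 t w (F + G) = ev2 t w F + ev2 t w G := by
  unfold ev2
  rw [eval₂_add]

theorem rg_ev2_monomial {K L : Type u} [Field K] [Field L] [Algebra K L] (t w : L) (j : ℕ)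
    (a : K[X]) : ev2 t w (monomial j a) = aeval t a * w ^ j := by
  unfold ev2
  rw [eval₂_monomial]
  rfl

theorem der_ev {K L : Type u} [Field K] [Field L] [Algebra K L] (δ : Derivation K L L) (t w : L) (F : K[X][X]) :
    δ (ev2 t w F) = ev2 t w (dT F) * δ t + ev2 t w (derivative F) * δ w := by
  induction F using Polynomial.induction_on' with
  | add p q hp hq =>
    rw [rg_ev2_add, map_add, hp, hq, rg_dT_add, rg_ev2_add, derivative_add, rg_ev2_add]
    ring
  | monomial j a =>
    rw [rg_ev2_monomial, rg_dT_monomial, rg_ev2_monomial, derivative_monomial, rg_ev2_monomial,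
      Derivation.leibniz, Derivation.leibniz_pow, Derivation.map_aeval, map_mul]
    simp only [smul_eq_mul, nsmul_eq_mul, map_natCast]
    ring

theorem rg_min {K L : Type u} [Field K] [CharZero K] [Field L] [Algebra K L] (t w : L)
    (ht : Transcendental K t) (r s : ℕ) : ∀ d : ℕ, ∀ F : K[X][X], F ≠ 0 → Box r s F →
      ev2 t w F = 0 → F.natDegree = d →
      ∃ F : K[X][X], Box r s F ∧ ev2 t w F = 0 ∧ ev2 t w (derivative F) ≠ 0 := by
  intro d
  induction d using Nat.strong_induction_on with
  | _ d ih =>
    intro F hF hB h0 hd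
    by_cases h1 : ev2 t w (derivative F) = 0
    · have h2 : F.natDegree ≠ 0 := by
        intro h3
        obtain ⟨q, hq⟩ := natDegree_eq_zero.1 h3
        have hq0 : q ≠ 0 := by
          rintro rfl
          rw [C_0] at hq
          exact hF hq.symm
        rw [← hq, ← monomial_zero_left, rg_ev2_monomial, pow_zero, mul_one] at h0
        exact hq0 (transcendental_iff.1 ht q h0)
      have h3 : derivative F ≠ 0 := by
        intro h4
        exact h2 (natDegree_eq_zero_of_derivative_eq_zero h4)
      have h4 := natDegree_derivative_lt h2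
      exact ih _ (by omega) (derivative F) h3 (dX_box r s F hB) h1 rfl
    · exact ⟨F, hB, h0, h1⟩

theorem rg_ge {K L : Type u} [Field K] [Field L] [Algebra K L] (p : PS K L) (x : L) (P : p.I) :
    p.ge P (-(p.pol x P)) x := by
  right
  unfold PS.pol
  have := le_max_right 0 (-(p.v P x))
  omega

theorem rg_pol {K L : Type u} [Field K] [Field L] [Algebra K L] (p : PS K L) (x : L) (P : p.I) :
    0 ≤ p.pol x P := le_max_left _ _

theorem rel_exists {K L : Type u} [Field K] [CharZero K] [Field L] [Algebra K L] (p : PS K L) (t w : L)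
    (ht : Transcendental K t) (n γ : ℕ) (hn : 1 ≤ n) (hγ : Bd (p.pol t) γ) (hw : Bd (p.pol w) n) :
    ∃ F : K[X][X], Box (2 * n) (2 * γ) F ∧ ev2 t w F = 0 ∧ ev2 t w (derivative F) ≠ 0 := by
  classical
  have hg : Bd (fun P => ((2 * n : ℕ) : ℤ) * p.pol t P + ((2 * γ : ℕ) : ℤ) * p.pol w P)
      ((4 * n * γ : ℕ) : ℤ) := by
    have h1 := bd_add (bd_mul hγ (2 * n)) (bd_mul hw (2 * γ))
    refine bd_mono h1 (le_of_eq ?_)
    push_cast
    ring
  obtain ⟨c, hc0, hc⟩ := dim_many p (ι := Fin (2 * n + 1) × Fin (2 * γ + 1)) (τ := Unit)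
    (fun _ ij => t ^ (ij.1 : ℕ) * w ^ (ij.2 : ℕ)) _ (4 * n * γ) hg
    (by
      intro _ ij P
      have h1 := ge_mul p P (ge_pow p P (rg_ge p t P) (ij.1 : ℕ))
        (ge_pow p P (rg_ge p w P) (ij.2 : ℕ))
      refine ge_mono p P ?_ h1
      have h2 := rg_pol p t P
      have h3 := rg_pol p w P
      have h4 : ((ij.1 : ℕ) : ℤ) ≤ ((2 * n : ℕ) : ℤ) := by
        have := ij.1.2
        exact_mod_cast (by omega : (ij.1 : ℕ) ≤ 2 * n)
      have h5 : ((ij.2 : ℕ) : ℤ) ≤ ((2 * γ : ℕ) : ℤ) := by
        have := ij.2.2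
        exact_mod_cast (by omega : (ij.2 : ℕ) ≤ 2 * γ)
      have h6 := mul_le_mul_of_nonneg_right h4 h2
      have h7 := mul_le_mul_of_nonneg_right h5 h3
      linarith)
    (by
      rw [Fintype.card_unit, Fintype.card_prod, Fintype.card_fin, Fintype.card_fin]
      nlinarith)
  obtain ⟨F, hF⟩ : ∃ F : K[X][X], F = ∑ ij : Fin (2 * n + 1) × Fin (2 * γ + 1),
      monomial (ij.2 : ℕ) (monomial (ij.1 : ℕ) (c ij)) := ⟨_, rfl⟩
  have hF0 : F ≠ 0 := by
    intro h0
    apply hc0
    funext ij0
    have h1 : (F.coeff (ij0.2 : ℕ)).coeff (ij0.1 : ℕ) = c ij0 := by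
      rw [hF, finset_sum_coeff, finset_sum_coeff, Finset.sum_eq_single ij0]
      · rw [coeff_monomial, if_pos rfl, coeff_monomial, if_pos rfl]
      · intro ij _ hne
        rw [coeff_monomial]
        split_ifs with h2
        · rw [coeff_monomial]
          split_ifs with h3
          · exact absurd (Prod.ext (Fin.ext h3) (Fin.ext h2)) hne
          · rfl
        · exact coeff_zero _
      · intro h
        exact absurd (Finset.mem_univ _) h
    rw [← h1, h0, coeff_zero, coeff_zero]
    rfl
  have hB : Box (2 * n) (2 * γ) F := by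
    refine ⟨?_, fun k => ?_⟩
    · rw [hF]
      refine natDegree_sum_le_of_forall_le _ _ (fun ij _ => ?_)
      refine (natDegree_monomial_le _).trans ?_
      have := ij.2.2
      omega
    · rw [hF, finset_sum_coeff]
      refine natDegree_sum_le_of_forall_le _ _ (fun ij _ => ?_)
      rw [coeff_monomial]
      split_ifs
      · refine (natDegree_monomial_le _).trans ?_
        have := ij.1.2
        omega
      · rw [natDegree_zero]
        exact Nat.zero_le _
  have hev : ev2 t w F = 0 := by
    have h1 := hc ()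
    rw [hF]
    unfold ev2
    rw [eval₂_finset_sum]
    rw [← h1]
    refine Finset.sum_congr rfl (fun ij _ => ?_)
    rw [eval₂_monomial]
    have h2 : ((Polynomial.aeval t : K[X] →ₐ[K] L) : K[X] →+* L) (monomial (ij.1 : ℕ) (c ij)) =
        algebraMap K L (c ij) * t ^ (ij.1 : ℕ) := aeval_monomial t
    rw [h2]
    ring
  exact rg_min t w ht (2 * n) (2 * γ) _ F hF0 hB hev rfl

end Pool.H91.HR
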