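import Pool.Agent.H91.HR.RE
import Pool.Agent.H91.HR.RG

set_option autoImplicit false

/-!
Row RH (project MP_259062_HR): the Poisson derivation has small defect.

PROOF. Let `D = ev2 t w (derivative F) • δ`. Applying `der_ev` to `ev2 t w F = 0` with `δ t = 1`: `ev2 (dT F) + ev2 (derivative F) * δ w = 0`, so
`D t = ev2 t w (derivative F)` and `D w = - ev2 t w (dT F)`.
Fix `P`. `τ = t` if `v P t ≥ 0`, else `t⁻¹`; `ω = w` if `v P w ≥ 0`, else `w⁻¹`. `α = 2n` if `v P t < 0`, else `0`; `β = 2γ` if `v P w < 0`, else `0`.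
`h = (t^α)⁻¹ * (w^β)⁻¹`, `D' = h • D`, `B = Algebra.adjoin K {τ, ω}`.
* For `i ≤ 2n`, `j ≤ 2γ`: `h * t^i * w^j ∈ B` (if `v P t ≥ 0` the `t`-part is `τ^i`, otherwise `t^i / t^(2n) = τ^(2n-i)`). So `h * ev2 t w G ∈ B` for every
  `G` with `Box (2n) (2γ) G`. Hence `D' t, D' w ∈ B` (`dX_box`, `dT_box`), and `D' τ ∈ B`: `D' (t⁻¹) = -(t⁻¹)^2 * D' t` (`Derivation.leibniz_inv`),
  the same for `ω`. By `Algebra.adjoin_induction` and Leibniz `D' B ⊆ B`.
* `ge P 0` on `B`: `Algebra.adjoin_induction`, `ge_const`, `ge_add`, `ge_mul` (`0 + 0 = 0`), `v P τ ≥ 0`, `v P ω ≥ 0`.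
* `hfr`: `B` contains `t` or `t⁻¹`, `w` or `w⁻¹`, so `IntermediateField.adjoin K {τ, ω} = ⊤` as well (it contains `t` and `w`), and
  `IntermediateField.mem_adjoin_iff_div` (or `IntermediateField.mem_adjoin_range_iff`).
* bounded: `D' x = (h * ev2 (derivative F)) * δ x`, use `hδ P` and `v_mul`.
`semi` for `D'` gives `v P x - 1 ≤ v P (D' x) = v P h + v P (D x)`, and `v P h = -α v P t - β v P w = 2n * pol t P + 2γ * pol w P`.
-/

namespace Pool.H91.HR

open Finset Polynomial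

universe u

section

variable {K L : Type u} [Field K] [Field L] [Algebra K L] (p : PS K L)

theorem rh_chart (P : p.I) (z : L) (hz : z ≠ 0) (N : ℕ) :
    ∃ h τ : L, h ≠ 0 ∧ τ ≠ 0 ∧ 0 ≤ p.v P τ ∧ (∀ i ≤ N, ∃ k : ℕ, h * z ^ i = τ ^ k) ∧
      p.v P h = (N : ℤ) * p.pol z P ∧ (z = τ ∨ z = τ⁻¹) := by
  by_cases h0 : 0 ≤ p.v P z
  · refine ⟨1, z, one_ne_zero, hz, h0, fun i _ => ⟨i, one_mul _⟩, ?_, Or.inl rfl⟩
    rw [v_one]
    have h1 : p.pol z P = 0 := by
      unfold PS.pol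
      exact max_eq_left (by omega)
    rw [h1, mul_zero]
  · push Not at h0
    refine ⟨(z ^ N)⁻¹, z⁻¹, inv_ne_zero (pow_ne_zero _ hz), inv_ne_zero hz, ?_, ?_, ?_,
      Or.inr (inv_inv z).symm⟩
    · rw [v_inv p P z hz]
      omega
    · intro i hi
      refine ⟨N - i, ?_⟩
      have h1 : z ^ N = z ^ (N - i) * z ^ i := by rw [← pow_add, Nat.sub_add_cancel hi]
      rw [h1, mul_inv, mul_assoc, inv_mul_cancel₀ (pow_ne_zero _ hz), mul_one, inv_pow]
    · rw [v_inv p P _ (pow_ne_zero _ hz), v_pow p P z hz]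
      have h1 : p.pol z P = -(p.v P z) := by
        unfold PS.pol
        exact max_eq_right (by omega)
      rw [h1]
      ring

theorem rh_box {B : Subalgebra K L} {t w ht hw τ ω : L} {r s : ℕ} (hτ : τ ∈ B) (hω : ω ∈ B)
    (h1 : ∀ i ≤ r, ∃ k : ℕ, ht * t ^ i = τ ^ k) (h2 : ∀ i ≤ s, ∃ k : ℕ, hw * w ^ i = ω ^ k)
    (G : K[X][X]) (hG : Box r s G) : ht * hw * ev2 t w G ∈ B := by
  have e1 : ev2 t w G = ∑ j ∈ range (G.natDegree + 1), ∑ i ∈ range ((G.coeff j).natDegree + 1),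
      algebraMap K L ((G.coeff j).coeff i) * t ^ i * w ^ j := by
    unfold ev2
    rw [Polynomial.eval₂_eq_sum_range]
    refine Finset.sum_congr rfl fun j _ => ?_
    have e2 : ((Polynomial.aeval t : K[X] →ₐ[K] L) : K[X] →+* L) (G.coeff j) =
        ∑ i ∈ range ((G.coeff j).natDegree + 1), algebraMap K L ((G.coeff j).coeff i) * t ^ i := by
      show Polynomial.aeval t (G.coeff j) = _
      rw [Polynomial.aeval_eq_sum_range]
      refine Finset.sum_congr rfl fun i _ => ?_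
      rw [Algebra.smul_def]
    rw [e2, Finset.sum_mul]
  rw [e1, Finset.mul_sum]
  refine Subalgebra.sum_mem _ fun j hj => ?_
  rw [Finset.mul_sum]
  refine Subalgebra.sum_mem _ fun i hi => ?_
  have hj' : j ≤ s := by
    have h3 := Finset.mem_range.1 hj
    have h4 := hG.1
    omega
  have hi' : i ≤ r := by
    have h3 := Finset.mem_range.1 hi
    have h4 := hG.2 j
    omega
  obtain ⟨k, hk⟩ := h1 i hi'
  obtain ⟨l, hl⟩ := h2 j hj'
  have e3 : ht * hw * (algebraMap K L ((G.coeff j).coeff i) * t ^ i * w ^ j) =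
      algebraMap K L ((G.coeff j).coeff i) * (ht * t ^ i) * (hw * w ^ j) := by ring
  rw [e3, hk, hl]
  exact B.mul_mem (B.mul_mem (B.algebraMap_mem _) (B.pow_mem hτ _)) (B.pow_mem hω _)

theorem rh_der (D : Derivation K L L) {B : Subalgebra K L} {z τ : L} (hz : z ≠ 0) (hτ : τ ∈ B)
    (hzt : z = τ ∨ z = τ⁻¹) (hD : D z ∈ B) : D τ ∈ B := by
  rcases hzt with h | h
  · rw [← h]; exact hD
  · have h1 : τ = z⁻¹ := by rw [h, inv_inv]
    have h2 : D τ = -(τ ^ 2) * D z := by
      rw [h1, Derivation.leibniz_inv, smul_eq_mul]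
    rw [h2]
    exact B.mul_mem (B.neg_mem (B.pow_mem hτ _)) hD

end

theorem poi_low {K L : Type u} [Field K] [CharZero K] [Field L] [Algebra K L] (p : PS K L) (t w : L)
    (ht : t ≠ 0) (hw : w ≠ 0) (hgen : IntermediateField.adjoin K {t, w} = ⊤) (n γ : ℕ)
    (F : K[X][X]) (hF : Box (2 * n) (2 * γ) F) (hF0 : ev2 t w F = 0) (hF1 : ev2 t w (derivative F) ≠ 0)
    (δ : Derivation K L L) (hδt : δ t = 1) (hδ : DBd p δ) (P : p.I) (x : L) (hx : x ≠ 0)
    (hDx : (ev2 t w (derivative F) • δ) x ≠ 0) :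
    p.v P x - 1 - (((2 * n : ℕ) : ℤ) * p.pol t P + ((2 * γ : ℕ) : ℤ) * p.pol w P) ≤
      p.v P ((ev2 t w (derivative F) • δ) x) := by
  obtain ⟨h₁, τ, hh₁, hτ0, hτv, hτk, hτh, hτz⟩ := rh_chart p P t ht (2 * n)
  obtain ⟨h₂, ω, hh₂, hω0, hωv, hωk, hωh, hωz⟩ := rh_chart p P w hw (2 * γ)
  set a : L := ev2 t w (derivative F) with ha
  set D : Derivation K L L := a • δ with hD
  set h : L := h₁ * h₂ with hh
  have hh0 : h ≠ 0 := mul_ne_zero hh₁ hh₂
  set B : Subalgebra K L := Algebra.adjoin K {τ, ω} with hB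
  have hτB : τ ∈ B := Algebra.subset_adjoin (by simp)
  have hωB : ω ∈ B := Algebra.subset_adjoin (by simp)
  have hbox : ∀ G : K[X][X], Box (2 * n) (2 * γ) G → h * ev2 t w G ∈ B := fun G hG =>
    rh_box hτB hωB hτk hωk G hG
  have happ : ∀ y : L, (h • D) y = h * a * δ y := by
    intro y
    rw [hD]
    simp only [Derivation.coe_smul, Pi.smul_apply, smul_eq_mul]
    ring
  have hde := der_ev δ t w F
  rw [hF0, map_zero, hδt, mul_one] at hde
  have hD't : (h • D) t ∈ B := by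
    rw [happ, hδt, mul_one]
    exact hbox _ (dX_box _ _ F hF)
  have hD'w : (h • D) w ∈ B := by
    have e1 : (h • D) w = -(h * ev2 t w (dT F)) := by
      rw [happ]
      have e2 : a * δ w = -ev2 t w (dT F) := by
        rw [ha]
        linear_combination -hde
      rw [mul_assoc, e2]
      ring
    rw [e1]
    exact B.neg_mem (hbox _ (dT_box _ _ F hF))
  have hDτ : (h • D) τ ∈ B := rh_der (h • D) ht hτB hτz hD't
  have hDω : (h • D) ω ∈ B := rh_der (h • D) hw hωB hωz hD'w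
  have hDB : ∀ y ∈ B, (h • D) y ∈ B := by
    intro y hy
    induction hy using Algebra.adjoin_induction with
    | mem y hy =>
      rcases hy with rfl | hy
      · exact hDτ
      · rw [Set.mem_singleton_iff.1 hy]
        exact hDω
    | algebraMap c =>
      rw [Derivation.map_algebraMap]
      exact B.zero_mem
    | add y z _ _ h1 h2 =>
      rw [map_add]
      exact B.add_mem h1 h2
    | mul y z hy hz h1 h2 =>
      rw [Derivation.leibniz, smul_eq_mul, smul_eq_mul]
      exact B.add_mem (B.mul_mem hy h2) (B.mul_mem hz h1)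
  have hBge : ∀ y ∈ B, p.ge P 0 y := by
    intro y hy
    induction hy using Algebra.adjoin_induction with
    | mem y hy =>
      rcases hy with rfl | hy
      · exact Or.inr hτv
      · rw [Set.mem_singleton_iff.1 hy]
        exact Or.inr hωv
    | algebraMap c => exact ge_const p P c
    | add y z _ _ h1 h2 => exact ge_add p P h1 h2
    | mul y z hy hz h1 h2 =>
      have h3 := ge_mul p P h1 h2
      rwa [add_zero] at h3
  have hfr : ∀ y : L, ∃ z ∈ B, ∃ z' ∈ B, y = z / z' := by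
    intro y
    have h1 : IntermediateField.adjoin K {τ, ω} = ⊤ := by
      rw [eq_top_iff, ← hgen, IntermediateField.adjoin_le_iff]
      rintro z (rfl | hz)
      · have h2 : τ ∈ IntermediateField.adjoin K {τ, ω} :=
          IntermediateField.subset_adjoin K _ (by simp)
        rcases hτz with h3 | h3
        · rw [h3]; exact h2
        · rw [h3]; exact inv_mem h2
      · rw [Set.mem_singleton_iff.1 hz]
        have h2 : ω ∈ IntermediateField.adjoin K {τ, ω} :=
          IntermediateField.subset_adjoin K _ (by simp)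
        rcases hωz with h3 | h3
        · rw [h3]; exact h2
        · rw [h3]; exact inv_mem h2
    have h2 : y ∈ IntermediateField.adjoin K {τ, ω} := by rw [h1]; trivial
    exact (IntermediateField.mem_adjoin_iff_div).1 h2
  have ha0 : a ≠ 0 := hF1
  have hbd : ∃ N : ℤ, ∀ y : L, y ≠ 0 → (h • D) y ≠ 0 → p.v P y - N ≤ p.v P ((h • D) y) := by
    obtain ⟨N, hN⟩ := hδ P
    refine ⟨N - p.v P (h * a), fun y hy hDy => ?_⟩
    rw [happ] at hDy ⊢
    have h1 : δ y ≠ 0 := right_ne_zero_of_mul hDy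
    rw [p.v_mul P _ _ (mul_ne_zero hh0 ha0) h1]
    have h2 := hN y hy h1
    omega
  have hDx' : (h • D) x = h * D x := by
    simp only [Derivation.coe_smul, Pi.smul_apply, smul_eq_mul]
  have hfin := semi p (h • D) P hbd B hBge hDB hfr x hx (by
    rw [hDx']
    exact mul_ne_zero hh0 hDx)
  rw [hDx', p.v_mul P _ _ hh0 hDx, hh, p.v_mul P _ _ hh₁ hh₂, hτh, hωh] at hfin
  linarith

end Pool.H91.HR
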